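import Pool.Agent.H96.ErwProd

/-!
The control of attempts to stay above a record level forever, and pathwise consequences.
-/

open Finset Filter Topology

set_option linter.unusedSectionVars false

namespace Pool.Agent.H96.Erw

variable {G : Type} {E : Type} [AddCommGroup G] [DecidableEq G] [Fintype E]

/-- waiting after `f` failures, or attempting above level `c` after `f` failures -/
inductive Wt
  | wait (f : ℕ)
  | att (f : ℕ) (c : ℝ)

/-- number of failures -/
def Wt.fails : Wt → ℕ
  | .wait f => f
  | .att f _ => f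

open Classical in
/-- transitions -/
noncomputable def wnxt (a mxo x : ℝ) : Wt → Wt
  | .wait f => if a ≤ x ∧ mxo < x then .att f x else .wait f
  | .att f c => if c ≤ x then .att f c else .wait (f + 1)

/-- the control of attempts above level `a` -/
noncomputable def wtt (stp : E → G) (lam : G →+ ℝ) (a : ℝ) : List E → Wt
  | [] => .wait 0
  | e :: γ => wnxt a (mx stp lam γ) (lam (ps stp 0 (e :: γ))) (wtt stp lam a γ)

/-- the potential of the attempts -/
noncomputable def VS (R : Rule E) (stp : E → G) (lam : G →+ ℝ) (F : ℕ) (γ : List E) : Wt → ℝ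
  | .wait f => (1 - Kinf R stp {y | 0 ≤ lam y} (fun _ => []) 0) ^ (F - f)
  | .att f c => if f < F then (1 - Kinf R stp (Up lam c) (hs stp γ) (ps stp 0 γ)) *
      (1 - Kinf R stp {y | 0 ≤ lam y} (fun _ => []) 0) ^ (F - (f + 1)) else 1

/-- the potential of the attempts -/
noncomputable def V (R : Rule E) (stp : E → G) (lam : G →+ ℝ) (a : ℝ) (F : ℕ) (γ : List E) : ℝ :=
  VS R stp lam F γ (wtt stp lam a γ)

variable {R : Rule E} {stp : E → G} {lam : G →+ ℝ} {a : ℝ}

/-- invariants of the attempts -/
def WInv (stp : E → G) (lam : G →+ ℝ) (a : ℝ) (γ : List E) : Wt → Prop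
  | .wait _ => True
  | .att _ c => a ≤ c ∧ c ≤ lam (ps stp 0 γ)

lemma winv_all : ∀ γ : List E, WInv stp lam a γ (wtt stp lam a γ) := by
  intro γ
  induction γ with
  | nil => trivial
  | cons e γ ih =>
    rw [wtt]
    generalize wtt stp lam a γ = s at ih
    cases s with
    | wait f =>
      by_cases h : a ≤ lam (ps stp 0 (e :: γ)) ∧ mx stp lam γ < lam (ps stp 0 (e :: γ))
      · simp only [wnxt, if_pos h, WInv]
        exact ⟨h.1, le_refl _⟩
      · simp only [wnxt, if_neg h, WInv]
    | att f c =>
      by_cases h : c ≤ lam (ps stp 0 (e :: γ))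
      · simp only [wnxt, if_pos h, WInv]
        exact ⟨ih.1, h⟩
      · simp only [wnxt, if_neg h, WInv]

lemma hs_fresh : ∀ (γ : List E) (y : G), mx stp lam γ < lam y → hs stp γ y = [] := by
  intro γ
  induction γ with
  | nil => intro y _; rfl
  | cons e γ ih =>
    intro y hy
    have h1 : mx stp lam γ < lam y := lt_of_le_of_lt (by rw [mx]; exact le_max_left _ _) hy
    have h2 := lev_le_mx (stp := stp) (lam := lam) γ
    rw [hs, push_ne]
    · exact ih y h1
    · rintro rfl
      linarith

lemma Kinf_fresh (γ : List E) (e : E) (h : mx stp lam γ < lam (ps stp 0 (e :: γ))) :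
    Kinf R stp (Up lam (lam (ps stp 0 (e :: γ)))) (hs stp (e :: γ)) (ps stp 0 (e :: γ)) =
      Kinf R stp {y | 0 ≤ lam y} (fun _ => []) 0 := by
  set u := ps stp 0 (e :: γ) with hu
  have h1 := Kinf_shift (R := R) (stp := stp) (Up lam (lam u)) u (hs stp (e :: γ)) 0
  rw [zero_add] at h1
  rw [← h1]
  have h2 : {y | y + u ∈ Up lam (lam u)} = {y | 0 ≤ lam y} := by
    ext y
    show lam u ≤ lam (y + u) ↔ 0 ≤ lam y
    rw [map_add]
    constructor <;> intro h <;> linarith
  rw [h2]
  refine Kinf_congr _ fun y hy => ?_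
  have hy' : 0 ≤ lam y := hy
  have h3 := lev_le_mx (stp := stp) (lam := lam) γ
  have h4 : mx stp lam γ < lam (y + u) := by rw [map_add]; linarith
  rw [hs, push_ne]
  · exact hs_fresh γ _ h4
  · intro hc
    rw [hc] at h4
    linarith

lemma D_bounds : 0 ≤ 1 - Kinf R stp {y | 0 ≤ lam y} (fun _ => []) 0 ∧
    1 - Kinf R stp {y | 0 ≤ lam y} (fun _ => []) 0 ≤ 1 := by
  have h1 := Kinf_le_one (R := R) (stp := stp) {y | 0 ≤ lam y} (fun _ => []) 0
  have h2 := Kinf_nonneg (R := R) (stp := stp) {y | 0 ≤ lam y} (fun _ => []) 0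
  constructor <;> linarith

lemma V_ge (F : ℕ) (γ : List E) : 0 ≤ V R stp lam a F γ ∧
    (F ≤ (wtt stp lam a γ).fails → 1 ≤ V R stp lam a F γ) := by
  obtain ⟨hq0, hq1⟩ := D_bounds (R := R) (stp := stp) (lam := lam)
  unfold V
  generalize wtt stp lam a γ = s
  cases s with
  | wait f =>
    refine ⟨pow_nonneg hq0 _, fun h => ?_⟩
    have : F - f = 0 := Nat.sub_eq_zero_of_le h
    simp only [VS, this, pow_zero, le_refl]
  | att f c =>
    have h1 := Kinf_le_one (R := R) (stp := stp) (Up lam c) (hs stp γ) (ps stp 0 γ)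
    simp only [VS]
    constructor
    · split_ifs
      · exact mul_nonneg (by linarith) (pow_nonneg hq0 _)
      · exact zero_le_one
    · intro h
      have h' : F ≤ f := h
      rw [if_neg (not_lt.2 h')]

theorem V_super (F : ℕ) (γ : List E) :
    ∑ e, pr R stp γ e * V R stp lam a F (e :: γ) ≤ V R stp lam a F γ := by
  obtain ⟨hq0, hq1⟩ := D_bounds (R := R) (stp := stp) (lam := lam)
  have hinv := winv_all (stp := stp) (lam := lam) (a := a) γ
  have hconst : ∀ c : ℝ, (∀ e, V R stp lam a F (e :: γ) ≤ c) →
      ∑ e, pr R stp γ e * V R stp lam a F (e :: γ) ≤ c := by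
    intro c hc
    calc ∑ e, pr R stp γ e * V R stp lam a F (e :: γ)
        ≤ ∑ e, pr R stp γ e * c :=
          Finset.sum_le_sum fun e _ => mul_le_mul_of_nonneg_left (hc e) (pr_nonneg _ _)
      _ = c := by rw [← Finset.sum_mul, pr_sum, one_mul]
  have hnext : ∀ e, V R stp lam a F (e :: γ) =
      VS R stp lam F (e :: γ) (wnxt a (mx stp lam γ) (lam (ps stp 0 (e :: γ)))
        (wtt stp lam a γ)) := fun e => rfl
  conv_rhs => unfold V
  generalize wtt stp lam a γ = s at hinv hnext
  cases s with
  | wait f =>
    apply hconst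
    intro e
    rw [hnext e]
    by_cases h : a ≤ lam (ps stp 0 (e :: γ)) ∧ mx stp lam γ < lam (ps stp 0 (e :: γ))
    · simp only [wnxt, if_pos h, VS]
      rw [Kinf_fresh γ e h.2]
      split_ifs with hf
      · rw [← pow_succ']
        have : F - (f + 1) + 1 = F - f := by omega
        rw [this]
      · have : F - f = 0 := by omega
        rw [this, pow_zero]
    · simp only [wnxt, if_neg h, VS, le_refl]
  | att f c =>
    have hx : ps stp 0 γ ∈ Up lam c := hinv.2
    by_cases hf : f < F
    · have hterm : ∀ e, V R stp lam a F (e :: γ) =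
          (1 - Kinf R stp (Up lam c) (hs stp (e :: γ)) (ps stp 0 (e :: γ))) *
            (1 - Kinf R stp {y | 0 ≤ lam y} (fun _ => []) 0) ^ (F - (f + 1)) := by
        intro e
        rw [hnext e]
        by_cases h : c ≤ lam (ps stp 0 (e :: γ))
        · simp only [wnxt, if_pos h, VS, if_pos hf]
        · simp only [wnxt, if_neg h, VS]
          have : ps stp 0 (e :: γ) ∉ Up lam c := h
          rw [Kinf_not_mem this, sub_zero, one_mul]
      simp_rw [hterm]
      simp only [VS, if_pos hf]
      rw [Kinf_rec hx]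
      have h2 : ∑ e, pr R stp γ e *
          ((1 - Kinf R stp (Up lam c) (hs stp (e :: γ)) (ps stp 0 (e :: γ))) *
            (1 - Kinf R stp {y | 0 ≤ lam y} (fun _ => []) 0) ^ (F - (f + 1))) =
          (∑ e, (pr R stp γ e - pr R stp γ e *
            Kinf R stp (Up lam c) (hs stp (e :: γ)) (ps stp 0 (e :: γ)))) *
            (1 - Kinf R stp {y | 0 ≤ lam y} (fun _ => []) 0) ^ (F - (f + 1)) := by
        rw [Finset.sum_mul]
        exact Finset.sum_congr rfl fun e _ => by ring
      rw [h2, Finset.sum_sub_distrib, pr_sum]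
      exact le_refl _
    · apply hconst
      intro e
      rw [hnext e]
      simp only [VS, if_neg hf]
      by_cases h : c ≤ lam (ps stp 0 (e :: γ))
      · simp only [wnxt, if_pos h, if_neg hf, le_refl]
      · simp only [wnxt, if_neg h]
        exact pow_le_one₀ hq0 hq1

open Classical in
theorem fails_bound (F n : ℕ) :
    Ex R stp n (fun γ => if F ≤ (wtt stp lam a γ).fails then 1 else 0) [] ≤
      (1 - Kinf R stp {y | 0 ≤ lam y} (fun _ => []) 0) ^ F := by
  calc Ex R stp n (fun γ => if F ≤ (wtt stp lam a γ).fails then 1 else 0) []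
      ≤ Ex R stp n (V R stp lam a F) [] := by
        refine Ex_mono _ _ fun γ _ => ?_
        split_ifs with h
        · exact (V_ge F γ).2 h
        · exact (V_ge F γ).1
    _ ≤ V R stp lam a F [] := Ex_super (fun γ => V_super F γ) _ _
    _ = _ := by simp [V, wtt, VS]

section Path

/-- the list of the first `n` steps, most recent first -/
def lst (s : ℕ → E) : ℕ → List E
  | 0 => []
  | n + 1 => s n :: lst s n

lemma lst_length (s : ℕ → E) (n : ℕ) : (lst s n).length = n := by
  induction n with
  | zero => rfl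
  | succ n ih => simp [lst, ih]

lemma mx_mono (s : ℕ → E) : Monotone fun n => mx stp lam (lst s n) :=
  monotone_nat_of_le_succ fun n => by
    show _ ≤ mx stp lam (s n :: lst s n)
    rw [mx]; exact le_max_left _ _

lemma fails_mono (s : ℕ → E) : Monotone fun n => (wtt stp lam a (lst s n)).fails := by
  refine monotone_nat_of_le_succ fun n => ?_
  show _ ≤ (wtt stp lam a (s n :: lst s n)).fails
  rw [wtt]
  generalize wtt stp lam a (lst s n) = t
  cases t with
  | wait f =>
    simp only [wnxt]
    split_ifs <;> simp [Wt.fails]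
  | att f c =>
    simp only [wnxt]
    split_ifs <;> simp [Wt.fails]

/-- pathwise: with boundedly many failures the level is bounded or eventually at least `a` -/
theorem path_attempts (s : ℕ → E) {F : ℕ} (hF : ∀ n, (wtt stp lam a (lst s n)).fails < F) :
    (∃ C, ∀ n, lam (ps stp 0 (lst s n)) ≤ C) ∨
      (∀ᶠ n in atTop, a ≤ lam (ps stp 0 (lst s n))) := by
  set g : ℕ → ℕ := fun n => (wtt stp lam a (lst s n)).fails with hg
  have hmono : Monotone g := fails_mono s
  obtain ⟨N, hN⟩ : ∃ N, ∀ n, g n ≤ g N := by
    have hne : (Set.range g).Nonempty := ⟨g 0, 0, rfl⟩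
    have hbdd : BddAbove (Set.range g) := ⟨F, by rintro _ ⟨n, rfl⟩; exact (hF n).le⟩
    obtain ⟨N, hN⟩ := Nat.sSup_mem hne hbdd
    exact ⟨N, fun n => by rw [hN]; exact le_csSup hbdd ⟨n, rfl⟩⟩
  have hconst : ∀ n, N ≤ n → g n = g N := fun n hn => le_antisymm (hN n) (hmono hn)
  by_cases hatt : ∃ n ≥ N, ∃ f c, wtt stp lam a (lst s n) = Wt.att f c
  · right
    obtain ⟨n0, hn0, f, c, h0⟩ := hatt
    have hf : f = g N := by rw [← hconst n0 hn0, hg]; simp only; rw [h0]; rfl
    have hall : ∀ k, wtt stp lam a (lst s (n0 + k)) = Wt.att f c := by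
      intro k
      induction k with
      | zero => exact h0
      | succ k ih =>
        have h1 : (wtt stp lam a (lst s (n0 + (k + 1)))).fails = g N :=
          hconst (n0 + (k + 1)) (by omega)
        have h2 : wtt stp lam a (lst s (n0 + (k + 1))) =
            wnxt a (mx stp lam (lst s (n0 + k))) (lam (ps stp 0 (s (n0 + k) :: lst s (n0 + k))))
              (wtt stp lam a (lst s (n0 + k))) := rfl
        rw [ih] at h2
        simp only [wnxt] at h2
        split_ifs at h2 with h3
        · exact h2
        · exfalso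
          rw [h2] at h1
          have h5 : f + 1 = g N := h1
          omega
    filter_upwards [eventually_ge_atTop n0] with n hn
    obtain ⟨k, rfl⟩ := Nat.exists_eq_add_of_le hn
    have hi := winv_all (stp := stp) (lam := lam) (a := a) (lst s (n0 + k))
    rw [hall k] at hi
    exact hi.1.trans hi.2
  · left
    push Not at hatt
    have hwait : ∀ n, N ≤ n → ∃ f, wtt stp lam a (lst s n) = Wt.wait f := by
      intro n hn
      rcases hw : wtt stp lam a (lst s n) with f | ⟨f, c⟩
      · exact ⟨f, rfl⟩
      · exact absurd hw (hatt n hn f c)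
    have hmx : ∀ k, mx stp lam (lst s (N + k)) ≤ max a (mx stp lam (lst s N)) := by
      intro k
      induction k with
      | zero => exact le_max_right _ _
      | succ k ih =>
        obtain ⟨f, hf⟩ := hwait (N + k) (by omega)
        obtain ⟨f', hf'⟩ := hwait (N + (k + 1)) (by omega)
        have h2 : wtt stp lam a (lst s (N + (k + 1))) =
            wnxt a (mx stp lam (lst s (N + k))) (lam (ps stp 0 (s (N + k) :: lst s (N + k))))
              (wtt stp lam a (lst s (N + k))) := rfl
        rw [hf, hf'] at h2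
        simp only [wnxt] at h2
        split_ifs at h2 with h3
        show mx stp lam (s (N + k) :: lst s (N + k)) ≤ _
        rw [mx]
        refine max_le ih ?_
        by_contra hcon
        rw [not_le] at hcon
        have h4 : a < lam (ps stp 0 (s (N + k) :: lst s (N + k))) :=
          lt_of_le_of_lt (le_max_left _ _) hcon
        exact h3 ⟨h4.le, lt_of_le_of_lt ih hcon⟩
    refine ⟨max a (mx stp lam (lst s N)), fun n => ?_⟩
    refine (lev_le_mx _).trans ?_
    rcases le_total n N with h | h
    · exact (mx_mono (stp := stp) (lam := lam) s h).trans (le_max_right _ _)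
    · obtain ⟨k, rfl⟩ := Nat.exists_eq_add_of_le h
      exact hmx k

/-- pathwise: sublinear maximum along a sequence of times -/
theorem path_slow (s : ℕ → E) {w : ℝ} (hw : 0 < w) {M q : ℕ} (hq : 0 < q)
    (h : ∀ᶠ J : ℕ in atTop, mx stp lam (lst s ((M + 1) * q * J)) < w * q * (2 * J + 1)) :
    ∃ C : ℝ, ∀ n : ℕ, lam (ps stp 0 (lst s n)) ≤ 2 * w / (M + 1) * n + C := by
  obtain ⟨J0, hJ0⟩ := eventually_atTop.1 h
  refine ⟨3 * w * q + max 0 (mx stp lam (lst s ((M + 1) * q * J0))), fun n => ?_⟩
  have hqR : (0 : ℝ) < q := by exact_mod_cast hq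
  have hP : 0 < (M + 1) * q := Nat.mul_pos (by omega) hq
  refine (lev_le_mx _).trans ?_
  have hnn : 0 ≤ 2 * w / ((M : ℝ) + 1) * n := by positivity
  by_cases hn : n ≤ (M + 1) * q * J0
  · have h1 := mx_mono (stp := stp) (lam := lam) s hn
    simp only at h1
    have h2 := le_max_right 0 (mx stp lam (lst s ((M + 1) * q * J0)))
    have h3 : 0 ≤ 3 * w * q := by positivity
    linarith
  · rw [not_le] at hn
    set J := n / ((M + 1) * q) + 1 with hJ
    have hJ1 : n ≤ (M + 1) * q * J := by
      have := Nat.lt_mul_div_succ n hP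
      rw [hJ]; exact this.le
    have hJ2 : J0 ≤ J := by
      by_contra hcon
      rw [not_le] at hcon
      have : (M + 1) * q * J ≤ (M + 1) * q * J0 := Nat.mul_le_mul_left _ hcon.le
      omega
    have h1 := mx_mono (stp := stp) (lam := lam) s hJ1
    simp only at h1
    have h2 := hJ0 J hJ2
    have h3 := le_max_left 0 (mx stp lam (lst s ((M + 1) * q * J0)))
    have h4 : (J : ℝ) ≤ n / ((M + 1) * q) + 1 := by
      rw [hJ]
      push_cast
      have := Nat.cast_div_le (α := ℝ) (m := n) (n := (M + 1) * q)
      push_cast at this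
      linarith
    have h5 : w * q * (2 * J + 1) ≤ 2 * w / (M + 1) * n + 3 * w * q := by
      calc w * q * (2 * J + 1) ≤ w * q * (2 * (n / ((M + 1) * q) + 1) + 1) := by
            refine mul_le_mul_of_nonneg_left ?_ (by positivity)
            linarith
        _ = 2 * w / (M + 1) * n + 3 * w * q := by
            field_simp
            ring
    linarith

end Path

end Pool.Agent.H96.Erw
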