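import Mathlib

/-!
Site-local self-interacting walks on an abelian group: survival functions of a region,
their basic properties, and the propagation of `Kinf = 0`.
-/

open Finset Filter Topology

set_option linter.unusedSectionVars false

namespace Pool.Agent.H96.Erw

/-- A transition rule: given the list of past exits from a site (most recent first), the law of
the next exit. -/
structure Rule (E : Type) [Fintype E] where
  p : List E → E → ℝ
  pos : ∀ l e, 0 < p l e
  sum : ∀ l, ∑ e, p l e = 1

variable {G : Type} {E : Type} [AddCommGroup G] [DecidableEq G] [Fintype E]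

/-- record the exit `e` from `x` -/
def push (h : G → List E) (x : G) (e : E) : G → List E := Function.update h x (e :: h x)

lemma push_self (h : G → List E) (x : G) (e : E) : push h x e x = e :: h x := by
  simp [push]

lemma push_ne (h : G → List E) {x y : G} (e : E) (hy : y ≠ x) : push h x e y = h y := by
  simp [push, hy]

section K

variable (R : Rule E) (stp : E → G)

open Classical in
/-- probability that the walk in state `(h, x)` stays in `A` at times `0..n` -/
noncomputable def K (A : Set G) : ℕ → (G → List E) → G → ℝ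
  | 0, _, x => if x ∈ A then 1 else 0
  | n + 1, h, x => if x ∈ A then ∑ e, R.p (h x) e * K A n (push h x e) (x + stp e) else 0

variable {R stp}

lemma K_not_mem {A : Set G} {x : G} (hx : x ∉ A) (n : ℕ) (h : G → List E) :
    K R stp A n h x = 0 := by
  cases n <;> simp [K, hx]

lemma K_zero_mem {A : Set G} {x : G} (hx : x ∈ A) (h : G → List E) :
    K R stp A 0 h x = 1 := by
  simp [K, hx]

lemma K_succ_mem {A : Set G} {x : G} (hx : x ∈ A) (n : ℕ) (h : G → List E) :
    K R stp A (n + 1) h x = ∑ e, R.p (h x) e * K R stp A n (push h x e) (x + stp e) := by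
  simp [K, hx]

lemma K_nonneg (A : Set G) : ∀ (n : ℕ) (h : G → List E) (x : G), 0 ≤ K R stp A n h x := by
  intro n
  induction n with
  | zero =>
    intro h x
    by_cases hx : x ∈ A <;> simp [K, hx]
  | succ n ih =>
    intro h x
    by_cases hx : x ∈ A
    · rw [K_succ_mem hx]
      exact Finset.sum_nonneg fun e _ => mul_nonneg (R.pos _ _).le (ih _ _)
    · rw [K_not_mem hx]

lemma K_le_one (A : Set G) : ∀ (n : ℕ) (h : G → List E) (x : G), K R stp A n h x ≤ 1 := by
  intro n
  induction n with
  | zero =>
    intro h x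
    by_cases hx : x ∈ A <;> simp [K, hx]
  | succ n ih =>
    intro h x
    by_cases hx : x ∈ A
    · rw [K_succ_mem hx, ← R.sum (h x)]
      exact Finset.sum_le_sum fun e _ => mul_le_of_le_one_right (R.pos _ _).le (ih _ _)
    · rw [K_not_mem hx]; exact zero_le_one

lemma K_succ_le (A : Set G) : ∀ (n : ℕ) (h : G → List E) (x : G),
    K R stp A (n + 1) h x ≤ K R stp A n h x := by
  intro n
  induction n with
  | zero =>
    intro h x
    by_cases hx : x ∈ A
    · rw [K_zero_mem hx]; exact K_le_one _ _ _ _
    · rw [K_not_mem hx, K_not_mem hx]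
  | succ n ih =>
    intro h x
    by_cases hx : x ∈ A
    · rw [K_succ_mem hx, K_succ_mem hx]
      exact Finset.sum_le_sum fun e _ => mul_le_mul_of_nonneg_left (ih _ _) (R.pos _ _).le
    · rw [K_not_mem hx, K_not_mem hx]

lemma K_anti (A : Set G) (h : G → List E) (x : G) : Antitone fun n => K R stp A n h x :=
  antitone_nat_of_succ_le fun n => K_succ_le A n h x

lemma K_mono {A B : Set G} (hAB : A ⊆ B) : ∀ (n : ℕ) (h h' : G → List E) (x : G),
    (∀ y ∈ A, h y = h' y) → K R stp A n h x ≤ K R stp B n h' x := by
  intro n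
  induction n with
  | zero =>
    intro h h' x _
    by_cases hx : x ∈ A
    · rw [K_zero_mem hx, K_zero_mem (hAB hx)]
    · rw [K_not_mem hx]; exact K_nonneg _ _ _ _
  | succ n ih =>
    intro h h' x hh
    by_cases hx : x ∈ A
    · rw [K_succ_mem hx, K_succ_mem (hAB hx), hh x hx]
      refine Finset.sum_le_sum fun e _ => mul_le_mul_of_nonneg_left (ih _ _ _ ?_) (R.pos _ _).le
      intro y hy
      by_cases hyx : y = x
      · subst hyx; rw [push_self, push_self, hh y hy]
      · rw [push_ne _ _ hyx, push_ne _ _ hyx, hh y hy]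
    · rw [K_not_mem hx]; exact K_nonneg _ _ _ _

lemma K_congr {A : Set G} (n : ℕ) {h h' : G → List E} (x : G) (hh : ∀ y ∈ A, h y = h' y) :
    K R stp A n h x = K R stp A n h' x :=
  le_antisymm (K_mono (le_refl _) n h h' x hh)
    (K_mono (le_refl _) n h' h x fun y hy => (hh y hy).symm)

lemma push_shift (u : G) (h : G → List E) (x : G) (e : E) :
    push (fun y => h (y + u)) x e = fun y => push h (x + u) e (y + u) := by
  funext y
  by_cases hyx : y = x
  · subst hyx; rw [push_self, push_self]
  · rw [push_ne _ _ hyx, push_ne _ _ (fun hc => hyx (add_right_cancel hc))]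

lemma K_shift (A : Set G) (u : G) : ∀ (n : ℕ) (h : G → List E) (x : G),
    K R stp {y | y + u ∈ A} n (fun y => h (y + u)) x = K R stp A n h (x + u) := by
  intro n
  induction n with
  | zero =>
    intro h x
    by_cases hx : x + u ∈ A
    · rw [K_zero_mem hx, K_zero_mem (by exact hx)]
    · rw [K_not_mem hx, K_not_mem (by exact hx)]
  | succ n ih =>
    intro h x
    by_cases hx : x + u ∈ A
    · rw [K_succ_mem hx, K_succ_mem (by exact hx)]
      refine Finset.sum_congr rfl fun e _ => ?_
      rw [push_shift, ih, add_right_comm]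
    · rw [K_not_mem hx, K_not_mem (by exact hx)]

variable (R stp) in
/-- probability that the walk in state `(h, x)` stays in `A` forever -/
noncomputable def Kinf (A : Set G) (h : G → List E) (x : G) : ℝ := ⨅ n, K R stp A n h x

lemma K_tendsto (A : Set G) (h : G → List E) (x : G) :
    Tendsto (fun n => K R stp A n h x) atTop (𝓝 (Kinf R stp A h x)) :=
  tendsto_atTop_ciInf (K_anti A h x) ⟨0, by rintro _ ⟨n, rfl⟩; exact K_nonneg A n h x⟩

lemma Kinf_nonneg (A : Set G) (h : G → List E) (x : G) : 0 ≤ Kinf R stp A h x :=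
  ge_of_tendsto' (K_tendsto A h x) fun n => K_nonneg A n h x

lemma Kinf_le_one (A : Set G) (h : G → List E) (x : G) : Kinf R stp A h x ≤ 1 :=
  le_of_tendsto' (K_tendsto A h x) fun n => K_le_one A n h x

lemma Kinf_not_mem {A : Set G} {x : G} (hx : x ∉ A) (h : G → List E) :
    Kinf R stp A h x = 0 := by
  refine tendsto_nhds_unique (K_tendsto A h x) ?_
  simp [K_not_mem hx]

lemma Kinf_rec {A : Set G} {x : G} (hx : x ∈ A) (h : G → List E) :
    Kinf R stp A h x = ∑ e, R.p (h x) e * Kinf R stp A (push h x e) (x + stp e) := by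
  have h1 : Tendsto (fun n => K R stp A (n + 1) h x) atTop (𝓝 (Kinf R stp A h x)) :=
    (K_tendsto A h x).comp (tendsto_add_atTop_nat 1)
  refine tendsto_nhds_unique h1 ?_
  simp_rw [K_succ_mem hx]
  exact tendsto_finsetSum _ fun e _ => (K_tendsto _ _ _).const_mul _

lemma Kinf_mono {A B : Set G} (hAB : A ⊆ B) {h h' : G → List E} (x : G)
    (hh : ∀ y ∈ A, h y = h' y) : Kinf R stp A h x ≤ Kinf R stp B h' x :=
  le_of_tendsto_of_tendsto' (K_tendsto A h x) (K_tendsto B h' x)
    fun n => K_mono hAB n h h' x hh

lemma Kinf_congr {A : Set G} {h h' : G → List E} (x : G) (hh : ∀ y ∈ A, h y = h' y) :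
    Kinf R stp A h x = Kinf R stp A h' x :=
  le_antisymm (Kinf_mono (le_refl _) x hh) (Kinf_mono (le_refl _) x fun y hy => (hh y hy).symm)

lemma Kinf_shift (A : Set G) (u : G) (h : G → List E) (x : G) :
    Kinf R stp {y | y + u ∈ A} (fun y => h (y + u)) x = Kinf R stp A h (x + u) := by
  unfold Kinf
  simp_rw [K_shift]

lemma Kinf_zero_step {A : Set G} {x : G} (hx : x ∈ A) {h : G → List E}
    (h0 : Kinf R stp A h x = 0) (e : E) : Kinf R stp A (push h x e) (x + stp e) = 0 := by
  rw [Kinf_rec hx] at h0
  have := (Finset.sum_eq_zero_iff_of_nonneg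
    (fun e _ => mul_nonneg (R.pos _ _).le (Kinf_nonneg _ _ _))).1 h0 e (Finset.mem_univ e)
  rcases mul_eq_zero.1 this with h1 | h1
  · exact absurd h1 (R.pos _ _).ne'
  · exact h1

lemma Kinf_exists_lt {A : Set G} {h : G → List E} {x : G} {ε : ℝ}
    (h0 : Kinf R stp A h x < ε) : ∃ n, K R stp A n h x < ε := by
  have := (K_tendsto (R := R) (stp := stp) A h x).eventually (gt_mem_nhds h0)
  exact this.exists

end K

section Reach

variable (stp : E → G)

/-- states reachable by a walk started outside `A`, where only exits from `A` are recorded -/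
inductive Rch (A : Set G) : (G → List E) → G → Prop
  | start {x : G} : x ∉ A → Rch A (fun _ => []) x
  | out {h : G → List E} {x : G} (e : E) : Rch A h x → x ∉ A → Rch A h (x + stp e)
  | inn {h : G → List E} {x : G} (e : E) : Rch A h x → x ∈ A → Rch A (push h x e) (x + stp e)

/-- `A` is an up-set for the level function -/
def Ups (lam : G →+ ℝ) (A : Set G) : Prop := ∀ x y, x ∈ A → lam x ≤ lam y → y ∈ A

variable {stp} {R : Rule E} {lam : G →+ ℝ}

/-- If the walk from a fresh environment a.s. leaves `{lam ≥ 0}`, then from every reachable state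
it a.s. leaves any up-set bounded below. -/
theorem Kinf_eq_zero_of_Rch
    (hD : Kinf R stp {y | 0 ≤ lam y} (fun _ => []) 0 = 0)
    {e0 : E} (he0 : 0 < lam (stp e0)) {A : Set G} (hA : Ups lam A) {c : ℝ}
    (hc : ∀ y ∈ A, c ≤ lam y) {h : G → List E} {x : G} (hr : Rch stp A h x) :
    Kinf R stp A h x = 0 := by
  set B : Set G := {y | 0 ≤ lam y} with hB
  have claim : ∃ x0, x0 ∉ A ∧ ∃ c0 : ℝ, ∀ u : G, c0 ≤ lam u →
      ∀ H' : G → List E, (∀ y ∈ A, H' (y + u) = []) → Kinf R stp B H' (x0 + u) = 0 →
      ∃ H : G → List E, (∀ y ∈ A, H (y + u) = h y) ∧ Kinf R stp B H (x + u) = 0 := by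
    induction hr with
    | @start x hx =>
      exact ⟨x, hx, 0, fun u _ H' h1 h2 => ⟨H', h1, h2⟩⟩
    | @out h x e _ hx ih =>
      obtain ⟨x0, hx0, c0, ih⟩ := ih
      refine ⟨x0, hx0, max c0 (-lam x), fun u hu H' h1 h2 => ?_⟩
      obtain ⟨H, H1, H2⟩ := ih u (le_trans (le_max_left _ _) hu) H' h1 h2
      have hxB : x + u ∈ B := by
        have : -lam x ≤ lam u := le_trans (le_max_right _ _) hu
        simp only [hB, Set.mem_ofPred_eq, map_add]; linarith
      refine ⟨push H (x + u) e, fun y hy => ?_, ?_⟩
      · have : y + u ≠ x + u := fun hc => hx (by rw [← add_right_cancel hc]; exact hy)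
        rw [push_ne _ _ this, H1 y hy]
      · have := Kinf_zero_step hxB H2 e
        rwa [add_right_comm] at this
    | @inn h x e _ hx ih =>
      obtain ⟨x0, hx0, c0, ih⟩ := ih
      refine ⟨x0, hx0, max c0 (-lam x), fun u hu H' h1 h2 => ?_⟩
      obtain ⟨H, H1, H2⟩ := ih u (le_trans (le_max_left _ _) hu) H' h1 h2
      have hxB : x + u ∈ B := by
        have : -lam x ≤ lam u := le_trans (le_max_right _ _) hu
        simp only [hB, Set.mem_ofPred_eq, map_add]; linarith
      refine ⟨push H (x + u) e, fun y hy => ?_, ?_⟩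
      · by_cases hyx : y = x
        · subst hyx
          rw [push_self, push_self, H1 y hy]
        · have : y + u ≠ x + u := fun hc => hyx (add_right_cancel hc)
          rw [push_ne _ _ this, push_ne _ _ hyx, H1 y hy]
      · have := Kinf_zero_step hxB H2 e
        rwa [add_right_comm] at this
  obtain ⟨x0, hx0, c0, hcl⟩ := claim
  -- the straight path
  have straight : ∀ k : ℕ, ∃ H' : G → List E, (∀ y, (k : ℝ) * lam (stp e0) ≤ lam y → H' y = []) ∧
      Kinf R stp B H' (k • stp e0) = 0 := by
    intro k
    induction k with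
    | zero => exact ⟨fun _ => [], fun _ _ => rfl, by simpa using hD⟩
    | succ k ih =>
      obtain ⟨H', h1, h2⟩ := ih
      refine ⟨push H' (k • stp e0) e0, fun y hy => ?_, ?_⟩
      · have hy' : (k : ℝ) * lam (stp e0) < lam y := by
          push_cast at hy; nlinarith
        have : y ≠ k • stp e0 := by
          rintro rfl
          simp at hy'
        rw [push_ne _ _ this]
        exact h1 y hy'.le
      · have hxB : k • stp e0 ∈ B := by
          simp only [hB, Set.mem_ofPred_eq, map_nsmul, nsmul_eq_mul]
          positivity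
        have := Kinf_zero_step hxB h2 e0
        rwa [succ_nsmul]
  obtain ⟨k, hk⟩ := exists_nat_ge ((max c0 (-c) + lam x0) / lam (stp e0))
  have hk' : max c0 (-c) + lam x0 ≤ k * lam (stp e0) := by
    rwa [div_le_iff₀ he0] at hk
  obtain ⟨H', h1, h2⟩ := straight k
  set u : G := k • stp e0 - x0 with hu
  have hxu : x0 + u = k • stp e0 := by rw [hu]; abel
  have hlu : lam u = k * lam (stp e0) - lam x0 := by simp [hu]
  have hu1 : c0 ≤ lam u := by
    have := le_max_left c0 (-c); rw [hlu]; linarith
  have hu2 : -c ≤ lam u := by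
    have := le_max_right c0 (-c); rw [hlu]; linarith
  have hfree : ∀ y ∈ A, H' (y + u) = [] := by
    intro y hy
    have : lam x0 < lam y := by
      by_contra hcon
      exact hx0 (hA y x0 hy (not_lt.1 hcon))
    apply h1
    rw [map_add, hlu]; linarith
  obtain ⟨H, H1, H2⟩ := hcl u hu1 H' hfree (by rw [hxu]; exact h2)
  have hle : Kinf R stp A h x ≤ Kinf R stp {y | y + u ∈ B} (fun y => H (y + u)) x := by
    refine Kinf_mono ?_ x fun y hy => (H1 y hy).symm
    intro y hy
    have := hc y hy
    simp only [hB, Set.mem_ofPred_eq, map_add]; linarith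
  rw [Kinf_shift, H2] at hle
  exact le_antisymm hle (Kinf_nonneg _ _ _)

/-- connecting two points outside an up-set -/
lemma Rch_connect (hgen : ∀ g : G, ∃ s : Multiset E, (s.map stp).sum = g)
    {A : Set G} (hA : Ups lam A) {h : G → List E} {a b : G} (ha : a ∉ A) (hb : b ∉ A)
    (hr : Rch stp A h a) : Rch stp A h b := by
  have key : ∀ (n : ℕ) (s : Multiset E) (a : G), s.card = n → a ∉ A → a + (s.map stp).sum = b →
      Rch stp A h a → Rch stp A h b := by
    intro n
    induction n with
    | zero =>
      intro s a hs _ hab hr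
      rw [Multiset.card_eq_zero] at hs
      subst hs
      simp at hab
      exact hab ▸ hr
    | succ n ih =>
      intro s a hs ha hab hr
      by_cases hex : ∃ e ∈ s, lam (stp e) ≤ 0
      · obtain ⟨e, he, hle⟩ := hex
        obtain ⟨t, rfl⟩ := Multiset.exists_cons_of_mem he
        rw [Multiset.card_cons] at hs
        rw [Multiset.map_cons, Multiset.sum_cons, ← add_assoc] at hab
        refine ih t (a + stp e) (by omega) ?_ hab (Rch.out e hr ha)
        intro hc
        refine ha (hA _ _ hc ?_)
        rw [map_add]; linarith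
      · push Not at hex
        obtain ⟨e, he⟩ := Multiset.card_pos_iff_exists_mem.1 (by omega : 0 < s.card)
        obtain ⟨t, rfl⟩ := Multiset.exists_cons_of_mem he
        rw [Multiset.card_cons] at hs
        rw [Multiset.map_cons, Multiset.sum_cons, ← add_assoc] at hab
        refine ih t (a + stp e) (by omega) ?_ hab (Rch.out e hr ha)
        intro hc
        refine hb (hA _ _ hc ?_)
        have h2 : lam b = lam (a + stp e) + lam (t.map stp).sum := by rw [← hab, map_add]
        have : 0 ≤ lam (t.map stp).sum := by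
          rw [map_multiset_sum, Multiset.map_map]
          refine Multiset.sum_nonneg fun x hx => ?_
          obtain ⟨e', he', rfl⟩ := Multiset.mem_map.1 hx
          exact (hex e' (Multiset.mem_cons_of_mem he')).le
        linarith
  obtain ⟨s, hs⟩ := hgen (b - a)
  exact key _ s a rfl ha (by rw [hs]; abel) hr

end Reach

end Pool.Agent.H96.Erw
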