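import Mathlib

/-!
Excited random walk in a random cookie environment on `ℤ^d`: definitions.
-/

open MeasureTheory ProbabilityTheory

namespace Pool.Agent.H96.Erw

/-- the sites of `ℤ^d` -/
abbrev Site (d : ℕ) : Type := Fin d → ℤ

/-- the `2d` directions: `(i, true)` stands for `e_i` and `(i, false)` for `-e_i` -/
abbrev Dir (d : ℕ) : Type := Fin d × Bool

/-- the unit vector of a direction -/
def unitVec {d : ℕ} (e : Dir d) : Site d := Pi.single e.1 (if e.2 then 1 else -1)

/-- a cookie: a probability vector on the `2d` directions -/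
abbrev Cookie (d : ℕ) : Type := {p : Dir d → ℝ // (∀ e, 0 ≤ p e) ∧ ∑ e, p e = 1}

/-- a cookie environment: `ω z i` is the cookie used on the visit number `i + 1` to `z` -/
abbrev Env (d : ℕ) : Type := Site d → ℕ → Cookie d

/-- the last site of the trajectory `y 0, ..., y n` -/
def last {d n : ℕ} (y : (i : Finset.Iic n) → Site d) : Site d :=
  y ⟨n, Finset.mem_Iic.2 le_rfl⟩

/-- the number of times `i < n` at which the trajectory `y 0, ..., y n` is at its last site -/
def earlierVisits {d n : ℕ} (y : (i : Finset.Iic n) → Site d) : ℕ :=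
  (Finset.univ.filter fun i : Fin n => y ⟨i, Finset.mem_Iic.2 i.2.le⟩ = last y).card

/-- the law of the next site after the trajectory `y 0, ..., y n` -/
noncomputable def stepLaw {d : ℕ} (ω : Env d) (n : ℕ) (y : (i : Finset.Iic n) → Site d) :
    Measure (Site d) :=
  ∑ e : Dir d, ENNReal.ofReal ((ω (last y) (earlierVisits y)).1 e) •
    Measure.dirac (last y + unitVec e)

/-- the transition kernel at time `n` -/
noncomputable def stepKernel {d : ℕ} (ω : Env d) (n : ℕ) :
    Kernel ((i : Finset.Iic n) → Site d) (Site d) :=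
  Kernel.ofFunOfCountable (stepLaw ω n)

lemma stepLaw_univ {d : ℕ} (ω : Env d) (n : ℕ) (y : (i : Finset.Iic n) → Site d) :
    stepLaw ω n y Set.univ = 1 := by
  rw [stepLaw, Measure.finsetSum_apply]
  simp only [Measure.smul_apply, measure_univ, smul_eq_mul, mul_one]
  rw [← ENNReal.ofReal_sum_of_nonneg (fun e _ => (ω (last y) (earlierVisits y)).2.1 e),
    (ω (last y) (earlierVisits y)).2.2, ENNReal.ofReal_one]

instance {d : ℕ} (ω : Env d) (n : ℕ) : IsMarkovKernel (stepKernel ω n) :=
  ⟨fun y => ⟨stepLaw_univ ω n y⟩⟩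

/-- the law `P_{x,ω}` on trajectories of the excited random walk started at `x` in the
environment `ω` (Ionescu-Tulcea) -/
noncomputable def quenched {d : ℕ} (ω : Env d) (x : Site d) : Measure (ℕ → Site d) :=
  Kernel.traj (X := fun _ => Site d) (stepKernel ω) 0 (fun _ => x)

/-- hypothesis (IID): the stacks at distinct sites are independent and identically distributed -/
def IID {d : ℕ} (P : Measure (Env d)) : Prop :=
  iIndepFun (fun (z : Site d) (ω : Env d) => ω z) P ∧
    ∀ z z' : Site d, P.map (fun ω => ω z) = P.map (fun ω => ω z')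

/-- hypothesis (EL): ellipticity -/
def EL {d : ℕ} (P : Measure (Env d)) : Prop :=
  ∀ (z : Site d) (i : ℕ) (e : Dir d), ∀ᵐ ω ∂P, 0 < (ω z i).1 e

/-- the scalar product `x · ℓ` -/
noncomputable def dotp {d : ℕ} (x : Site d) (ℓ : Fin d → ℝ) : ℝ := ∑ i, (x i : ℝ) * ℓ i

/-- the Euclidean norm -/
noncomputable def enorm2 {d : ℕ} (x : Site d) : ℝ := Real.sqrt (∑ i, (x i : ℝ) ^ 2)

end Pool.Agent.H96.Erw
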