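import Pool.Agent.H96.ErwAtt

/-!
From path expectations to almost sure statements for a process with the law of the walk.
-/

open Finset Filter Topology MeasureTheory
open scoped ENNReal

set_option linter.unusedSectionVars false

namespace Pool.Agent.H96.Erw

variable {G : Type} {E : Type} [AddCommGroup G] [DecidableEq G] [Fintype E]
variable {Ω : Type*} [MeasurableSpace Ω]

/-- the event that the process follows the path `γ` (most recent step first) from `0` -/
def cyl (stp : E → G) (X : ℕ → Ω → G) : List E → Set Ω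
  | [] => {ω | X 0 ω = 0}
  | e :: γ => cyl stp X γ ∩ {ω | X (γ.length + 1) ω = ps stp 0 (e :: γ)}

/-- the process `X` has the law of the walk with rule `R` started at `0` -/
structure IsWalk (R : Rule E) (stp : E → G) (μ : Measure Ω) (X : ℕ → Ω → G) : Prop where
  step : ∀ γ e, μ (cyl stp X (e :: γ)) = μ (cyl stp X γ) * ENNReal.ofReal (pr R stp γ e)
  legal : ∀ᵐ ω ∂μ, ∃ s : ℕ → E, ∀ n, ω ∈ cyl stp X (lst s n)

variable {R : Rule E} {stp : E → G} {lam : G →+ ℝ} {μ : Measure Ω} {X : ℕ → Ω → G}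

lemma cyl_pos {γ : List E} {ω : Ω} (h : ω ∈ cyl stp X γ) : X γ.length ω = ps stp 0 γ := by
  cases γ with
  | nil => exact h
  | cons e γ => exact h.2

open Classical in
lemma meas_bound (hX : IsWalk R stp μ X) (S : List E → Prop) : ∀ (n : ℕ) (γ : List E),
    μ {ω | ∃ s : List E, s.length = n ∧ S (s ++ γ) ∧ ω ∈ cyl stp X (s ++ γ)} ≤
      μ (cyl stp X γ) * ENNReal.ofReal (Ex R stp n (fun γ => if S γ then 1 else 0) γ) := by
  intro n
  induction n with
  | zero =>
    intro γ
    by_cases hS : S γ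
    · have : Ex R stp 0 (fun γ => if S γ then (1:ℝ) else 0) γ = 1 := by simp [Ex, hS]
      rw [this, ENNReal.ofReal_one, mul_one]
      refine measure_mono ?_
      rintro ω ⟨s, hs, -, hω⟩
      rw [List.length_eq_zero_iff] at hs
      subst hs
      exact hω
    · have : {ω | ∃ s : List E, s.length = 0 ∧ S (s ++ γ) ∧ ω ∈ cyl stp X (s ++ γ)} = ∅ := by
        ext ω
        simp only [Set.mem_empty_iff_false, iff_false]
        rintro ⟨s, hs, h2, -⟩
        rw [List.length_eq_zero_iff] at hs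
        subst hs
        exact hS h2
      rw [this, measure_empty]
      exact zero_le
  | succ n ih =>
    intro γ
    have hsub : {ω | ∃ s : List E, s.length = n + 1 ∧ S (s ++ γ) ∧ ω ∈ cyl stp X (s ++ γ)} ⊆
        ⋃ e : E, {ω | ∃ s : List E, s.length = n ∧ S (s ++ (e :: γ)) ∧
          ω ∈ cyl stp X (s ++ (e :: γ))} := by
      rintro ω ⟨s, hs, h1, h2⟩
      rcases List.eq_nil_or_concat s with rfl | ⟨t, e, rfl⟩
      · simp at hs
      · rw [List.concat_eq_append, List.append_assoc, List.singleton_append] at h1 h2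
        refine Set.mem_iUnion.2 ⟨e, t, ?_, h1, h2⟩
        simpa using hs
    refine (measure_mono hsub).trans ((measure_iUnion_fintype_le _ _).trans ?_)
    have hnn : ∀ γ, 0 ≤ Ex R stp n (fun γ => if S γ then (1:ℝ) else 0) γ := fun γ =>
      Ex_nonneg (fun γ => by split_ifs <;> norm_num) n γ
    calc ∑ e : E, μ {ω | ∃ s : List E, s.length = n ∧ S (s ++ (e :: γ)) ∧
          ω ∈ cyl stp X (s ++ (e :: γ))}
        ≤ ∑ e : E, μ (cyl stp X (e :: γ)) *
            ENNReal.ofReal (Ex R stp n (fun γ => if S γ then 1 else 0) (e :: γ)) :=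
          Finset.sum_le_sum fun e _ => ih (e :: γ)
      _ = ∑ e : E, μ (cyl stp X γ) * ENNReal.ofReal (pr R stp γ e *
            Ex R stp n (fun γ => if S γ then 1 else 0) (e :: γ)) := by
          refine Finset.sum_congr rfl fun e _ => ?_
          rw [hX.step, ENNReal.ofReal_mul (pr_nonneg _ _), mul_assoc]
      _ = μ (cyl stp X γ) *
            ENNReal.ofReal (Ex R stp (n + 1) (fun γ => if S γ then 1 else 0) γ) := by
          rw [← Finset.mul_sum, Ex, ENNReal.ofReal_sum_of_nonneg]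
          intro e _
          exact mul_nonneg (pr_nonneg _ _) (hnn _)

variable [IsProbabilityMeasure μ]

open Classical in
lemma meas_bound' (hX : IsWalk R stp μ X) (S : List E → Prop) (n : ℕ) :
    μ {ω | ∃ s : List E, s.length = n ∧ S s ∧ ω ∈ cyl stp X s} ≤
      ENNReal.ofReal (Ex R stp n (fun γ => if S γ then 1 else 0) []) := by
  have h := meas_bound hX S n []
  simp only [List.append_nil] at h
  refine h.trans ?_
  calc μ (cyl stp X []) * ENNReal.ofReal (Ex R stp n (fun γ => if S γ then 1 else 0) [])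
      ≤ 1 * ENNReal.ofReal (Ex R stp n (fun γ => if S γ then 1 else 0) []) :=
        mul_le_mul_left prob_le_one _
    _ = _ := one_mul _

/-- almost sure bound in the case `D = 0` -/
theorem ae_slow (hX : IsWalk R stp μ X) (hgen : ∀ g : G, ∃ s : Multiset E, (s.map stp).sum = g)
    {w : ℝ} (hw : 0 < w) (hstp : ∀ e, lam (stp e) ≤ w) {e0 : E} (he0 : 0 < lam (stp e0))
    (hD : Kinf R stp {y | 0 ≤ lam y} (fun _ => []) 0 = 0) {M : ℕ} (hM : 0 < M) :
    ∀ᵐ ω ∂μ, ∃ C : ℝ, ∀ n : ℕ, lam (X n ω) ≤ 2 * w / (M + 1) * n + C := by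
  classical
  have hMR : (0 : ℝ) < M := by exact_mod_cast hM
  obtain ⟨thr, hthr, hgood⟩ := exists_good (R := R) (lam := lam) hgen hD he0 M
    (ε := 1 / (15 * M)) (by positivity)
  set q := thr M + 2 with hq
  set B : ℕ → Set Ω := fun J => {ω | ∃ s : List E, s.length = (M + 1) * q * J ∧
    w * q * (2 * J + 1) ≤ mx stp lam s ∧ ω ∈ cyl stp X s} with hB
  have hBle : ∀ J, μ (B J) ≤ ENNReal.ofReal (q * (1 / 4) ^ J) := fun J =>
    (meas_bound' hX _ _).trans (ENNReal.ofReal_le_ofReal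
      (high_bound hw hstp hthr hM rfl hgood hq J))
  have hsum : ∑' J, μ (B J) ≠ ∞ := by
    refine ne_top_of_le_ne_top ?_ (ENNReal.tsum_le_tsum hBle)
    have hs : Summable fun J : ℕ => (q : ℝ) * (1 / 4) ^ J :=
      (summable_geometric_of_lt_one (by norm_num) (by norm_num)).mul_left _
    rw [← ENNReal.ofReal_tsum_of_nonneg (fun J => by positivity) hs]
    exact ENNReal.ofReal_ne_top
  filter_upwards [ae_eventually_notMem hsum, hX.legal] with ω h1 h2
  obtain ⟨s, hs⟩ := h2
  have h3 : ∀ᶠ J : ℕ in atTop, mx stp lam (lst s ((M + 1) * q * J)) < w * q * (2 * J + 1) := by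
    filter_upwards [h1] with J hJ
    by_contra hcon
    exact hJ ⟨lst s ((M + 1) * q * J), lst_length _ _, not_lt.1 hcon, hs _⟩
  obtain ⟨C, hC⟩ := path_slow s hw (by omega : 0 < q) h3
  refine ⟨C, fun n => ?_⟩
  have := cyl_pos (hs n)
  rw [lst_length] at this
  rw [this]
  exact hC n

/-- almost sure dichotomy in the case `D > 0` -/
theorem ae_attempts (hX : IsWalk R stp μ X)
    (hD : 0 < Kinf R stp {y | 0 ≤ lam y} (fun _ => []) 0) (a : ℝ) :
    ∀ᵐ ω ∂μ, (∃ C, ∀ n, lam (X n ω) ≤ C) ∨ (∀ᶠ n in atTop, a ≤ lam (X n ω)) := by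
  classical
  obtain ⟨hq0, -⟩ := D_bounds (R := R) (stp := stp) (lam := lam)
  set q := 1 - Kinf R stp {y | 0 ≤ lam y} (fun _ => []) 0 with hq
  have hq1 : q < 1 := by rw [hq]; linarith
  set T : ℕ → ℕ → Set Ω := fun F n => {ω | ∃ s : ℕ → E, (∀ k, ω ∈ cyl stp X (lst s k)) ∧
    F ≤ (wtt stp lam a (lst s n)).fails} with hT
  have hTle : ∀ F n, μ (T F n) ≤ ENNReal.ofReal (q ^ F) := by
    intro F n
    refine le_trans (measure_mono ?_) ((meas_bound' hX
      (fun γ => F ≤ (wtt stp lam a γ).fails) n).trans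
        (ENNReal.ofReal_le_ofReal (by
          convert fails_bound (R := R) (stp := stp) (lam := lam) (a := a) F n)))
    rintro ω ⟨s, h1, h2⟩
    exact ⟨lst s n, lst_length _ _, h2, h1 n⟩
  have hTmono : ∀ F, Monotone (T F) := by
    intro F m n hmn ω
    rintro ⟨s, h1, h2⟩
    exact ⟨s, h1, h2.trans (fails_mono s hmn)⟩
  have hUle : ∀ F, μ (⋃ n, T F n) ≤ ENNReal.ofReal (q ^ F) := by
    intro F
    rw [(hTmono F).measure_iUnion]
    exact iSup_le (hTle F)
  have hzero : μ (⋂ F, ⋃ n, T F n) = 0 := by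
    have hlim : Tendsto (fun F : ℕ => ENNReal.ofReal (q ^ F)) atTop (𝓝 0) := by
      have := (tendsto_pow_atTop_nhds_zero_of_lt_one hq0 hq1)
      have h2 := ENNReal.tendsto_ofReal this
      rwa [ENNReal.ofReal_zero] at h2
    refine le_antisymm (ge_of_tendsto' hlim fun F => ?_) (zero_le)
    exact (measure_mono (Set.iInter_subset _ F)).trans (hUle F)
  have hae : ∀ᵐ ω ∂μ, ω ∉ ⋂ F, ⋃ n, T F n := measure_eq_zero_iff_ae_notMem.1 hzero
  filter_upwards [hae, hX.legal] with ω h1 h2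
  obtain ⟨s, hs⟩ := h2
  rw [Set.mem_iInter, not_forall] at h1
  obtain ⟨F, hF⟩ := h1
  rw [Set.mem_iUnion, not_exists] at hF
  have h3 : ∀ n, (wtt stp lam a (lst s n)).fails < F := by
    intro n
    by_contra hcon
    exact hF n ⟨s, hs, not_lt.1 hcon⟩
  have h4 : ∀ n, X n ω = ps stp 0 (lst s n) := by
    intro n
    have := cyl_pos (hs n)
    rwa [lst_length] at this
  simp_rw [h4]
  exact path_attempts s h3

/-- almost surely the level tends to `+∞` or grows sublinearly -/
theorem ae_dichotomy (hX : IsWalk R stp μ X)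
    (hgen : ∀ g : G, ∃ s : Multiset E, (s.map stp).sum = g)
    {e0 : E} (he0 : 0 < lam (stp e0)) :
    ∀ᵐ ω ∂μ, Tendsto (fun n => lam (X n ω)) atTop atTop ∨
      ∀ δ > 0, ∃ C : ℝ, ∀ n : ℕ, lam (X n ω) ≤ δ * n + C := by
  classical
  -- a bound for the steps
  obtain ⟨w, hw, hstp⟩ : ∃ w : ℝ, 0 < w ∧ ∀ e, lam (stp e) ≤ w := by
    refine ⟨∑ e, |lam (stp e)|, ?_, fun e => ?_⟩
    · refine lt_of_lt_of_le (lt_of_lt_of_le he0 (le_abs_self _)) ?_
      exact Finset.single_le_sum (f := fun e => |lam (stp e)|) (fun e _ => abs_nonneg _)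
        (Finset.mem_univ e0)
    · exact (le_abs_self _).trans (Finset.single_le_sum (f := fun e => |lam (stp e)|)
        (fun e _ => abs_nonneg _) (Finset.mem_univ e))
  rcases (Kinf_nonneg (R := R) (stp := stp) {y | 0 ≤ lam y} (fun _ => []) 0).eq_or_lt with hD | hD
  · have h1 : ∀ᵐ ω ∂μ, ∀ M : ℕ, ∃ C : ℝ, ∀ n : ℕ,
        lam (X n ω) ≤ 2 * w / ((M + 1 : ℕ) + 1) * n + C :=
      ae_all_iff.2 fun M => ae_slow hX hgen hw hstp he0 hD.symm (Nat.succ_pos M)
    filter_upwards [h1] with ω hω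
    right
    intro δ hδ
    obtain ⟨M, hM⟩ := exists_nat_ge (2 * w / δ)
    obtain ⟨C, hC⟩ := hω M
    refine ⟨C, fun n => (hC n).trans ?_⟩
    have h2 : 2 * w / ((M + 1 : ℕ) + 1) ≤ δ := by
      rw [div_le_iff₀ hδ] at hM
      rw [div_le_iff₀ (by positivity)]
      push_cast
      nlinarith
    have : 2 * w / ((M + 1 : ℕ) + 1) * (n : ℝ) ≤ δ * n :=
      mul_le_mul_of_nonneg_right h2 (Nat.cast_nonneg n)
    linarith
  · have h1 : ∀ᵐ ω ∂μ, ∀ a : ℕ, (∃ C, ∀ n, lam (X n ω) ≤ C) ∨
        (∀ᶠ n in atTop, (a : ℝ) ≤ lam (X n ω)) :=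
      ae_all_iff.2 fun a => ae_attempts hX hD a
    filter_upwards [h1] with ω hω
    by_cases hb : ∃ C, ∀ n, lam (X n ω) ≤ C
    · right
      intro δ hδ
      obtain ⟨C, hC⟩ := hb
      refine ⟨C, fun n => (hC n).trans ?_⟩
      have : 0 ≤ δ * n := by positivity
      linarith
    · left
      rw [tendsto_atTop]
      intro b
      obtain ⟨a, ha⟩ := exists_nat_ge b
      rcases hω a with h | h
      · exact absurd h hb
      · filter_upwards [h] with n hn
        exact ha.trans hn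

/-- almost surely, if the level tends neither to `+∞` nor to `-∞`, it has zero speed -/
theorem ae_zero_speed (hX : IsWalk R stp μ X)
    (hgen : ∀ g : G, ∃ s : Multiset E, (s.map stp).sum = g)
    {e0 e1 : E} (he0 : 0 < lam (stp e0)) (he1 : lam (stp e1) < 0) :
    ∀ᵐ ω ∂μ, ¬ Tendsto (fun n => lam (X n ω)) atTop atTop →
      ¬ Tendsto (fun n => lam (X n ω)) atTop atBot →
      Tendsto (fun n : ℕ => lam (X n ω) / n) atTop (𝓝 0) := by
  have h1 := ae_dichotomy hX hgen (lam := lam) he0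
  have h2 := ae_dichotomy hX hgen (lam := -lam) (e0 := e1) (by
    rw [AddMonoidHom.neg_apply]; linarith)
  filter_upwards [h1, h2] with ω g1 g2 n1 n2
  have k1 := g1.resolve_left n1
  have k2 := g2.resolve_left (fun hc => n2 (by
    simp only [AddMonoidHom.neg_apply] at hc
    exact tendsto_neg_atTop_iff.1 hc))
  rw [Metric.tendsto_atTop]
  intro ε hε
  obtain ⟨C1, hC1⟩ := k1 (ε / 2) (by positivity)
  obtain ⟨C2, hC2⟩ := k2 (ε / 2) (by positivity)
  obtain ⟨N, hN⟩ := exists_nat_gt (2 * (max C1 C2) / ε)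
  refine ⟨max N 1, fun n hn => ?_⟩
  have hn1 : N ≤ n := (le_max_left _ _).trans hn
  have hn2 : 1 ≤ n := (le_max_right _ _).trans hn
  have hnR : (0 : ℝ) < n := by exact_mod_cast hn2
  have hNn : (N : ℝ) ≤ n := by exact_mod_cast hn1
  rw [dist_zero_right, Real.norm_eq_abs, abs_div, abs_of_pos hnR, div_lt_iff₀ hnR, abs_lt]
  have e1 := hC1 n
  have e2 := hC2 n
  rw [AddMonoidHom.neg_apply] at e2
  have e3 : max C1 C2 < ε / 2 * n := by
    rw [div_lt_iff₀ hε] at hN
    nlinarith
  have e4 := le_max_left C1 C2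
  have e5 := le_max_right C1 C2
  constructor <;> linarith

end Pool.Agent.H96.Erw
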