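import Pool.Agent.H96.ErwDefs
import Pool.Agent.H96.ErwMeas

/-!
Cylinder probabilities of the quenched and averaged laws of the excited random walk.
-/

open Finset Filter Topology MeasureTheory ProbabilityTheory Preorder
open scoped ENNReal

set_option linter.unusedSectionVars false

namespace Pool.Agent.H96.Erw

variable {d : ℕ}

lemma unitVec_inj {e e' : Dir d} (h : unitVec e = unitVec e') : e = e' := by
  obtain ⟨i, b⟩ := e
  obtain ⟨i', b'⟩ := e'
  have h1 := congrFun h i
  simp only [unitVec, Pi.single_eq_same] at h1
  by_cases hi : i = i'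
  · subst hi
    rw [Pi.single_eq_same] at h1
    cases b <;> cases b' <;> simp at h1 ⊢
  · rw [Pi.single_eq_of_ne hi] at h1
    cases b <;> simp at h1

lemma unitVec_gen (g : Site d) : ∃ s : Multiset (Dir d), (s.map unitVec).sum = g := by
  refine ⟨∑ i : Fin d, Multiset.replicate (g i).natAbs ((i, decide (0 ≤ g i)) : Dir d), ?_⟩
  have h0 : (Multiset.map unitVec (∑ i : Fin d,
      Multiset.replicate (g i).natAbs ((i, decide (0 ≤ g i)) : Dir d))).sum =
      ∑ i : Fin d, (Multiset.map unitVec
        (Multiset.replicate (g i).natAbs ((i, decide (0 ≤ g i)) : Dir d))).sum :=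
    map_sum (Multiset.sumAddMonoidHom.comp (Multiset.mapAddMonoidHom unitVec)) _ _
  rw [h0]
  simp only [Multiset.map_replicate, Multiset.sum_replicate]
  conv_rhs => rw [← Finset.univ_sum_single g]
  refine Finset.sum_congr rfl fun i _ => ?_
  rw [unitVec, ← Pi.single_smul]
  congr 1
  simp only [nsmul_eq_mul, decide_eq_true_eq]
  split_ifs with h
  · rw [mul_one]; omega
  · rw [mul_neg, mul_one]; omega

/-- the coordinate process -/
def co (n : ℕ) (X : ℕ → Site d) : Site d := X n

section Quenched

variable (ω : Env d)

instance (x : Site d) : IsProbabilityMeasure (quenched ω x) := by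
  unfold quenched; infer_instance

lemma quenched_joint (x : Site d) (n : ℕ) :
    (quenched ω x).map (frestrictLe (π := fun _ => Site d) n) ⊗ₘ (stepKernel ω n) =
      (quenched ω x).map (fun X => (frestrictLe (π := fun _ => Site d) n X, X (n + 1))) := by
  unfold quenched
  rw [← Kernel.partialTraj_compProd_eq_map_traj (X := fun _ => Site d) (Nat.zero_le n),
    Kernel.traj_map_frestrictLe_apply]

lemma quenched_step (x : Site d) (n : ℕ) (y : (i : Finset.Iic n) → Site d) (z : Site d) :
    quenched ω x {X | frestrictLe (π := fun _ => Site d) n X = y ∧ X (n + 1) = z} =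
      quenched ω x {X | frestrictLe (π := fun _ => Site d) n X = y} * stepLaw ω n y {z} := by
  have h := congrArg (fun m => m ({y} ×ˢ {z})) (quenched_joint ω x n)
  beta_reduce at h
  rw [Measure.compProd_apply_prod (measurableSet_singleton _) (measurableSet_singleton _),
    lintegral_singleton, Measure.map_apply (by fun_prop)
      ((measurableSet_singleton _).prod (measurableSet_singleton _)),
    Measure.map_apply (by fun_prop) (measurableSet_singleton _)] at h
  have h1 : (fun X : ℕ → Site d => (frestrictLe (π := fun _ => Site d) n X, X (n + 1))) ⁻¹'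
      ({y} ×ˢ {z}) = {X | frestrictLe (π := fun _ => Site d) n X = y ∧ X (n + 1) = z} := by
    ext X; simp
  rw [h1] at h
  rw [← h, mul_comm]
  rfl

lemma quenched_zero (x : Site d) : ∀ᵐ X ∂(quenched ω x), X 0 = x := by
  have h : (quenched ω x).map (frestrictLe (π := fun _ => Site d) 0) =
      Measure.dirac (fun _ => x) := by
    unfold quenched
    rw [Kernel.traj_map_frestrictLe_apply, Kernel.partialTraj_self, Kernel.id_apply]
  have h2 : ∀ᵐ y ∂((quenched ω x).map (frestrictLe (π := fun _ => Site d) 0)),
      y ⟨0, Finset.mem_Iic.2 le_rfl⟩ = x := by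
    rw [h, ae_dirac_iff]
    exact measurableSet_eq_fun (by fun_prop) (by fun_prop)
  have h3 := ae_of_ae_map (by fun_prop) h2
  exact h3

lemma quenched_legal (x : Site d) :
    ∀ᵐ X ∂(quenched ω x), ∀ n, ∃ e : Dir d, X (n + 1) = X n + unitVec e := by
  rw [ae_all_iff]
  intro n
  have h2 : ∀ᵐ p ∂((quenched ω x).map (frestrictLe (π := fun _ => Site d) n) ⊗ₘ
      (stepKernel ω n)), ∃ e : Dir d, p.2 = last p.1 + unitVec e := by
    have hms : MeasurableSet {p : ((i : Finset.Iic n) → Site d) × Site d |
        ∃ e : Dir d, p.2 = last p.1 + unitVec e} := (Set.to_countable _).measurableSet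
    rw [Measure.ae_compProd_iff hms]
    refine Eventually.of_forall fun y => ?_
    show ∀ᵐ b ∂(stepLaw ω n y), ∃ e : Dir d, b = last y + unitVec e
    rw [ae_iff, stepLaw, Measure.finsetSum_apply]
    refine Finset.sum_eq_zero fun e _ => ?_
    rw [Measure.smul_apply, Measure.dirac_apply' _ (Set.to_countable _).measurableSet,
      Set.indicator_of_notMem, smul_zero]
    exact fun hc => hc ⟨e, rfl⟩
  rw [quenched_joint] at h2
  exact ae_of_ae_map
    (f := fun X : ℕ → Site d => (frestrictLe (π := fun _ => Site d) n X, X (n + 1)))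
    (p := fun p => ∃ e : Dir d, p.2 = last p.1 + unitVec e) (by fun_prop) h2

end Quenched

/-- position at time `i` along the path `γ` from `0` -/
def posAt (γ : List (Dir d)) (i : ℕ) : Site d := ps unitVec 0 (γ.drop (γ.length - i))

lemma posAt_cons (γ : List (Dir d)) (e : Dir d) {i : ℕ} (hi : i ≤ γ.length) :
    posAt (e :: γ) i = posAt γ i := by
  unfold posAt
  have : (e :: γ).length - i = (γ.length - i) + 1 := by
    rw [List.length_cons]; omega
  rw [this, List.drop_succ_cons]

lemma posAt_length (γ : List (Dir d)) : posAt γ γ.length = ps unitVec 0 γ := by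
  unfold posAt; simp

lemma mem_cyl_iff (γ : List (Dir d)) (X : ℕ → Site d) :
    X ∈ cyl unitVec co γ ↔ ∀ i ≤ γ.length, X i = posAt γ i := by
  induction γ with
  | nil =>
    simp only [cyl, co, Set.mem_ofPred_eq, List.length_nil, Nat.le_zero, forall_eq, posAt, ps,
      List.drop_nil]
  | cons e γ ih =>
    rw [cyl, Set.mem_inter_iff, ih]
    constructor
    · rintro ⟨h1, h2⟩ i hi
      rw [List.length_cons] at hi
      rcases Nat.le_succ_iff.1 hi with h | h
      · rw [posAt_cons _ _ h]; exact h1 i h
      · subst h
        have : posAt (e :: γ) (γ.length + 1) = ps unitVec 0 (e :: γ) := posAt_length (e :: γ)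
        rw [this]; exact h2
    · intro h
      refine ⟨fun i hi => ?_, ?_⟩
      · rw [h i (by rw [List.length_cons]; omega), posAt_cons _ _ hi]
      · show X (γ.length + 1) = _
        rw [h (γ.length + 1) (by rw [List.length_cons])]
        exact posAt_length (e :: γ)

lemma count_posAt (γ : List (Dir d)) (z : Site d) :
    ((range γ.length).filter (fun i => posAt γ i = z)).card = (hs unitVec γ z).length := by
  induction γ with
  | nil => rfl
  | cons e γ ih =>
    rw [List.length_cons, Finset.range_add_one, Finset.filter_insert]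
    have h1 : (range γ.length).filter (fun i => posAt (e :: γ) i = z) =
        (range γ.length).filter (fun i => posAt γ i = z) := by
      refine Finset.filter_congr fun i hi => ?_
      rw [posAt_cons _ _ (Finset.mem_range.1 hi).le]
    rw [h1, posAt_cons _ _ le_rfl, posAt_length, hs]
    split_ifs with h
    · subst h
      rw [Finset.card_insert_of_notMem (by simp), ih, push_self, List.length_cons]
    · rw [ih, push_ne _ _ (fun hc => h hc.symm)]

lemma earlierVisits_posAt (γ : List (Dir d)) :
    earlierVisits (n := γ.length) (fun i => posAt γ i) =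
      (hs unitVec γ (ps unitVec 0 γ)).length := by
  rw [← count_posAt, earlierVisits, Finset.card_filter, Finset.card_filter]
  rw [Finset.sum_range]
  refine Finset.sum_congr rfl fun i _ => ?_
  have : last (n := γ.length) (fun i => posAt γ i) = ps unitVec 0 γ := posAt_length γ
  rw [this]

lemma stepLaw_singleton (ω : Env d) (n : ℕ) (y : (i : Finset.Iic n) → Site d) (e : Dir d) :
    stepLaw ω n y {last y + unitVec e} =
      ENNReal.ofReal ((ω (last y) (earlierVisits y)).1 e) := by
  rw [stepLaw, Measure.finsetSum_apply, Finset.sum_eq_single e]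
  · rw [Measure.smul_apply, Measure.dirac_apply' _ (measurableSet_singleton _)]
    simp
  · intro e' _ hne
    rw [Measure.smul_apply, Measure.dirac_apply' _ (measurableSet_singleton _)]
    have : last y + unitVec e' ∉ ({last y + unitVec e} : Set (Site d)) := by
      intro hc
      exact hne (unitVec_inj (add_left_cancel (Set.mem_singleton_iff.1 hc)))
    rw [Set.indicator_of_notMem this, smul_zero]
  · intro h; exact absurd (Finset.mem_univ _) h

lemma cyl_eq_frestrict (γ : List (Dir d)) :
    cyl unitVec co γ = {X : ℕ → Site d | frestrictLe (π := fun _ => Site d) γ.length X =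
      fun i : Finset.Iic γ.length => posAt γ i} := by
  ext X
  rw [mem_cyl_iff]
  constructor
  · intro h
    funext i
    exact h i (Finset.mem_Iic.1 i.2)
  · intro h i hi
    exact congrFun h ⟨i, Finset.mem_Iic.2 hi⟩

lemma quenched_cyl_cons (ω : Env d) (γ : List (Dir d)) (e : Dir d) :
    quenched ω 0 (cyl unitVec co (e :: γ)) = quenched ω 0 (cyl unitVec co γ) *
      ENNReal.ofReal ((ω (ps unitVec 0 γ) (hs unitVec γ (ps unitVec 0 γ)).length).1 e) := by
  have h := quenched_step ω 0 γ.length (fun i : Finset.Iic γ.length => posAt γ i)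
    (ps unitVec 0 γ + unitVec e)
  have h1 : cyl unitVec co (e :: γ) =
      {X : ℕ → Site d | frestrictLe (π := fun _ => Site d) γ.length X =
      (fun i : Finset.Iic γ.length => posAt γ i) ∧
        X (γ.length + 1) = ps unitVec 0 γ + unitVec e} := by
    rw [cyl, cyl_eq_frestrict]
    rfl
  rw [h1, cyl_eq_frestrict, h]
  congr 1
  have h2 : last (n := γ.length) (fun i => posAt γ i) = ps unitVec 0 γ := posAt_length γ
  have h3 := stepLaw_singleton ω γ.length (fun i : Finset.Iic γ.length => posAt γ i) e
  rw [h2, earlierVisits_posAt] at h3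
  exact h3

lemma quenched_cyl_nil (ω : Env d) : quenched ω 0 (cyl unitVec co []) = 1 := by
  have h := quenched_zero ω 0
  have h2 : cyl unitVec co [] = {X : ℕ → Site d | X 0 = 0} := rfl
  rw [h2]
  exact (prob_compl_eq_zero_iff (measurableSet_eq_fun (by fun_prop) (by fun_prop))).1 h

/-- weight of a list of exits (most recent first) for a stack -/
def wt (σ : ℕ → Cookie d) : List (Dir d) → ℝ
  | [] => 1
  | e :: l => wt σ l * (σ l.length).1 e

lemma wt_nonneg (σ : ℕ → Cookie d) (l : List (Dir d)) : 0 ≤ wt σ l := by
  induction l with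
  | nil => exact zero_le_one
  | cons e l ih => exact mul_nonneg ih ((σ l.length).2.1 e)

lemma wt_sum (σ : ℕ → Cookie d) (l : List (Dir d)) : ∑ e, wt σ (e :: l) = wt σ l := by
  simp only [wt]
  rw [← Finset.mul_sum, (σ l.length).2.2, mul_one]

lemma wt_le_one (σ : ℕ → Cookie d) (l : List (Dir d)) : wt σ l ≤ 1 := by
  induction l with
  | nil => exact le_refl _
  | cons e l ih =>
    have h := wt_sum σ l
    have : wt σ (e :: l) ≤ ∑ e, wt σ (e :: l) :=
      Finset.single_le_sum (f := fun e => wt σ (e :: l)) (fun e _ => wt_nonneg σ _)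
        (Finset.mem_univ e)
    linarith

lemma measurable_wt (l : List (Dir d)) : Measurable fun σ : ℕ → Cookie d => wt σ l := by
  induction l with
  | nil => exact measurable_const
  | cons e l ih =>
    refine ih.mul ?_
    exact (measurable_pi_apply e).comp (measurable_subtype_coe.comp (measurable_pi_apply _))

/-- sites from which the path `γ` exits -/
def sites : List (Dir d) → Finset (Site d)
  | [] => ∅
  | _ :: γ => insert (ps unitVec 0 γ) (sites γ)

lemma quenched_cyl (ω : Env d) (γ : List (Dir d)) : ∀ S : Finset (Site d), sites γ ⊆ S →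
    quenched ω 0 (cyl unitVec co γ) = ∏ z ∈ S, ENNReal.ofReal (wt (ω z) (hs unitVec γ z)) := by
  induction γ with
  | nil =>
    intro S _
    rw [quenched_cyl_nil]
    simp [hs, wt]
  | cons e γ ih =>
    intro S hS
    rw [sites, Finset.insert_subset_iff] at hS
    rw [quenched_cyl_cons, ih S hS.2, ← Finset.mul_prod_erase _ _ hS.1,
      ← Finset.mul_prod_erase _ (fun z => ENNReal.ofReal (wt (ω z) (hs unitVec (e :: γ) z))) hS.1,
      hs]
    have h1 : ∀ z ∈ S.erase (ps unitVec 0 γ), ENNReal.ofReal (wt (ω z)
        (push (hs unitVec γ) (ps unitVec 0 γ) e z)) = ENNReal.ofReal (wt (ω z)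
        (hs unitVec γ z)) := by
      intro z hz
      rw [push_ne _ _ (Finset.ne_of_mem_erase hz)]
    rw [Finset.prod_congr rfl h1, push_self, wt, ENNReal.ofReal_mul (wt_nonneg _ _)]
    ring

section Averaged

/-- the averaged law `P_x` -/
noncomputable def averaged (P : Measure (Env d)) (x : Site d) : Measure (ℕ → Site d) :=
  P.bind fun ω => quenched ω x

variable (P : Measure (Env d))

/-- annealed weight of a list of exits -/
noncomputable def WE (l : List (Dir d)) : ℝ≥0∞ := ∫⁻ ω, ENNReal.ofReal (wt (ω 0) l) ∂P

variable {P}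

lemma measurable_wt_env (z : Site d) (l : List (Dir d)) :
    Measurable fun ω : Env d => wt (ω z) l :=
  (measurable_wt l).comp (measurable_pi_apply z)

lemma lintegral_wt (hid : ∀ z z' : Site d, P.map (fun ω => ω z) = P.map (fun ω => ω z'))
    (z : Site d) (l : List (Dir d)) : ∫⁻ ω, ENNReal.ofReal (wt (ω z) l) ∂P = WE P l := by
  have h : ∀ z : Site d, ∫⁻ ω, ENNReal.ofReal (wt (ω z) l) ∂P =
      ∫⁻ σ, ENNReal.ofReal (wt σ l) ∂(P.map (fun ω => ω z)) := by
    intro z
    rw [lintegral_map ((measurable_wt l).ennreal_ofReal) (measurable_pi_apply z)]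
  rw [h z, hid z 0, ← h 0]
  rfl

lemma lintegral_prod_wt (hP : IID P) (S : Finset (Site d)) (h : Site d → List (Dir d)) :
    ∫⁻ ω, ∏ z ∈ S, ENNReal.ofReal (wt (ω z) (h z)) ∂P = ∏ z ∈ S, WE P (h z) := by
  have h1 := lintegral_prod_eq_prod_lintegral_of_indepFun (μ := P) S
    (fun z ω => ENNReal.ofReal (wt (ω z) (h z)))
    (hP.1.comp (fun z σ => ENNReal.ofReal (wt σ (h z)))
      fun z => (measurable_wt (h z)).ennreal_ofReal)
    (fun z => (measurable_wt_env z (h z)).ennreal_ofReal)
  rw [h1]
  exact Finset.prod_congr rfl fun z _ => lintegral_wt hP.2 z (h z)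

variable [IsProbabilityMeasure P]

lemma WE_nil : WE P ([] : List (Dir d)) = 1 := by
  simp [WE, wt]

lemma WE_le_one (l : List (Dir d)) : WE P l ≤ 1 := by
  unfold WE
  calc ∫⁻ ω, ENNReal.ofReal (wt (ω 0) l) ∂P ≤ ∫⁻ _, 1 ∂P := by
        refine lintegral_mono fun ω => ?_
        rw [← ENNReal.ofReal_one]
        exact ENNReal.ofReal_le_ofReal (wt_le_one _ _)
    _ = 1 := by simp

lemma WE_ne_top (l : List (Dir d)) : WE P l ≠ ∞ :=
  ne_top_of_le_ne_top ENNReal.one_ne_top (WE_le_one l)

lemma WE_sum (l : List (Dir d)) : ∑ e, WE P (e :: l) = WE P l := by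
  unfold WE
  rw [← lintegral_finsetSum _ (fun e _ => (measurable_wt_env 0 (e :: l)).ennreal_ofReal)]
  refine lintegral_congr fun ω => ?_
  rw [← ENNReal.ofReal_sum_of_nonneg (fun e _ => wt_nonneg _ _), wt_sum]

lemma WE_pos (hEL : EL P) (l : List (Dir d)) : WE P l ≠ 0 := by
  have hpos : ∀ᵐ ω ∂P, 0 < wt (ω 0) l := by
    induction l with
    | nil => exact Eventually.of_forall fun ω => zero_lt_one
    | cons e l ih =>
      filter_upwards [ih, hEL 0 l.length e] with ω h1 h2
      exact mul_pos h1 h2
  intro h0
  unfold WE at h0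
  rw [lintegral_eq_zero_iff (measurable_wt_env 0 l).ennreal_ofReal] at h0
  have : ∀ᵐ ω ∂P, False := by
    filter_upwards [hpos, h0] with ω h1 h2
    simp only [Pi.zero_apply, ENNReal.ofReal_eq_zero] at h2
    linarith
  simp at this
  exact IsProbabilityMeasure.ne_zero P this

/-- the annealed transition rule -/
noncomputable def rule (P : Measure (Env d)) [IsProbabilityMeasure P] (hEL : EL P) :
    Rule (Dir d) where
  p l e := (WE P (e :: l) / WE P l).toReal
  pos l e := by
    refine ENNReal.toReal_pos ?_ ?_
    · exact (ENNReal.div_pos (WE_pos hEL _) (WE_ne_top _)).ne'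
    · exact ENNReal.div_ne_top (WE_ne_top _) (WE_pos hEL _)
  sum l := by
    rw [← ENNReal.toReal_sum (fun e _ => ENNReal.div_ne_top (WE_ne_top _) (WE_pos hEL _))]
    simp only [div_eq_mul_inv]
    rw [← Finset.sum_mul, WE_sum, ENNReal.mul_inv_cancel (WE_pos hEL _) (WE_ne_top _),
      ENNReal.toReal_one]

end Averaged

/-- measurability of the quenched law in the environment -/
theorem measurable_quenched (x : Site d) : Measurable fun ω : Env d => quenched ω x := by
  have hstep : ∀ (n : ℕ) (y : (i : Finset.Iic n) → Site d) (z : Site d),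
      Measurable fun ω : Env d => stepLaw ω n y {z} := by
    intro n y z
    simp only [stepLaw, Measure.finsetSum_apply, Measure.smul_apply, smul_eq_mul]
    refine Finset.measurable_fun_sum _ fun e _ => ?_
    refine Measurable.mul_const ?_ _
    exact ((measurable_pi_apply e).comp (measurable_subtype_coe.comp
      ((measurable_pi_apply _).comp (measurable_pi_apply _)))).ennreal_ofReal
  have hsing : ∀ (n : ℕ) (y : (i : Finset.Iic n) → Site d),
      Measurable fun ω : Env d =>
        quenched ω x {X | frestrictLe (π := fun _ => Site d) n X = y} := by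
    intro n
    induction n with
    | zero =>
      intro y
      have : ∀ ω : Env d, quenched ω x {X | frestrictLe (π := fun _ => Site d) 0 X = y} =
          Measure.dirac (fun _ => x) ({y} : Set ((i : Finset.Iic 0) → Site d)) := by
        intro ω
        have h : (quenched ω x).map (frestrictLe (π := fun _ => Site d) 0) =
            Measure.dirac (fun _ => x) := by
          unfold quenched
          rw [Kernel.traj_map_frestrictLe_apply, Kernel.partialTraj_self, Kernel.id_apply]
        rw [← h, Measure.map_apply (by fun_prop) (measurableSet_singleton _)]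
        rfl
      simp_rw [this]
      exact measurable_const
    | succ n ih =>
      intro y
      set y' : (i : Finset.Iic n) → Site d :=
        fun i => y ⟨i, Finset.mem_Iic.2 ((Finset.mem_Iic.1 i.2).trans (Nat.le_succ n))⟩ with hy'
      have : ∀ ω : Env d, quenched ω x {X | frestrictLe (π := fun _ => Site d) (n + 1) X = y} =
          quenched ω x {X | frestrictLe (π := fun _ => Site d) n X = y'} *
            stepLaw ω n y' {y ⟨n + 1, Finset.mem_Iic.2 le_rfl⟩} := by
        intro ω
        rw [← quenched_step]
        congr 1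
        ext X
        constructor
        · intro h
          refine ⟨?_, ?_⟩
          · funext i
            exact congrFun h ⟨i, Finset.mem_Iic.2 ((Finset.mem_Iic.1 i.2).trans (Nat.le_succ n))⟩
          · exact congrFun h ⟨n + 1, Finset.mem_Iic.2 le_rfl⟩
        · rintro ⟨h1, h2⟩
          funext ⟨i, hi⟩
          rcases Nat.le_succ_iff.1 (Finset.mem_Iic.1 hi) with h | h
          · exact congrFun h1 ⟨i, Finset.mem_Iic.2 h⟩
          · subst h
            exact h2
      simp_rw [this]
      exact (ih y').mul (hstep n y' _)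
  refine Measurable.measure_of_isPiSystem_of_isProbabilityMeasure
    (generateFrom_measurableCylinders (α := fun _ : ℕ => Site d)).symm
    isPiSystem_measurableCylinders ?_
  intro t ht
  obtain ⟨n, S, mS, rfl⟩ : ∃ n S, MeasurableSet S ∧
      t = cylinder (α := fun _ => Site d) (Finset.Iic n) S := by
    simpa [measurableCylinders_nat] using ht
  have h1 : ∀ ω : Env d, quenched ω x (cylinder (α := fun _ => Site d) (Finset.Iic n) S) =
      ∑' y : (i : Finset.Iic n) → Site d, S.indicator
        (fun y => quenched ω x {X | frestrictLe (π := fun _ => Site d) n X = y}) y := by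
    intro ω
    have h2 : quenched ω x (cylinder (α := fun _ => Site d) (Finset.Iic n) S) =
        (quenched ω x).map (frestrictLe (π := fun _ => Site d) n) S := by
      rw [Measure.map_apply (by fun_prop) mS]
      rfl
    rw [h2, ← Measure.tsum_indicator_apply_singleton _ S mS]
    refine tsum_congr fun y => ?_
    by_cases hy : y ∈ S
    · rw [Set.indicator_of_mem hy, Set.indicator_of_mem hy,
        Measure.map_apply (by fun_prop) (measurableSet_singleton _)]
      rfl
    · rw [Set.indicator_of_notMem hy, Set.indicator_of_notMem hy]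
  simp_rw [h1]
  refine Measurable.tsum fun y => ?_
  by_cases hy : y ∈ S
  · simp_rw [Set.indicator_of_mem hy]
    exact hsing n y
  · simp_rw [Set.indicator_of_notMem hy]
    exact measurable_const

lemma measurableSet_cyl (γ : List (Dir d)) : MeasurableSet (cyl unitVec (co (d := d)) γ) := by
  rw [cyl_eq_frestrict]
  exact (measurable_frestrictLe _) (measurableSet_singleton _)

instance (P : Measure (Env d)) [IsProbabilityMeasure P] (x : Site d) :
    IsProbabilityMeasure (averaged P x) := by
  refine ⟨?_⟩
  rw [averaged, Measure.bind_apply MeasurableSet.univ (measurable_quenched x).aemeasurable]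
  simp

/-- the averaged law is the law of the walk with the annealed rule -/
theorem averaged_isWalk (P : Measure (Env d)) [IsProbabilityMeasure P] (hIID : IID P)
    (hEL : EL P) : IsWalk (rule P hEL) unitVec (averaged P 0) co := by
  have hcyl : ∀ (γ : List (Dir d)) (S : Finset (Site d)), sites γ ⊆ S →
      averaged P 0 (cyl unitVec co γ) = ∏ z ∈ S, WE P (hs unitVec γ z) := by
    intro γ S hS
    rw [averaged, Measure.bind_apply (measurableSet_cyl γ) (measurable_quenched 0).aemeasurable]
    simp_rw [fun ω : Env d => quenched_cyl ω γ S hS]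
    exact lintegral_prod_wt hIID S _
  constructor
  · intro γ e
    have hx : ps unitVec 0 γ ∈ sites (e :: γ) := by simp [sites]
    rw [hcyl (e :: γ) (sites (e :: γ)) (le_refl _),
      hcyl γ (sites (e :: γ)) (by rw [sites]; exact Finset.subset_insert _ _),
      ← Finset.mul_prod_erase _ _ hx, ← Finset.mul_prod_erase _ (fun z => WE P (hs unitVec γ z)) hx]
    have h1 : ∀ z ∈ (sites (e :: γ)).erase (ps unitVec 0 γ), WE P (hs unitVec (e :: γ) z) =
        WE P (hs unitVec γ z) := by
      intro z hz
      rw [hs, push_ne _ _ (Finset.ne_of_mem_erase hz)]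
    rw [Finset.prod_congr rfl h1, hs, push_self]
    have h2 : ENNReal.ofReal (pr (rule P hEL) unitVec γ e) =
        WE P (e :: hs unitVec γ (ps unitVec 0 γ)) / WE P (hs unitVec γ (ps unitVec 0 γ)) := by
      unfold pr rule
      simp only
      rw [ENNReal.ofReal_toReal (ENNReal.div_ne_top (WE_ne_top _) (WE_pos hEL _))]
    rw [h2]
    set A := WE P (e :: hs unitVec γ (ps unitVec 0 γ))
    set B := WE P (hs unitVec γ (ps unitVec 0 γ)) with hB
    have hBA : B * (A / B) = A := ENNReal.mul_div_cancel (WE_pos hEL _) (WE_ne_top _)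
    calc A * _ = (B * (A / B)) * _ := by rw [hBA]
      _ = _ := by ring
  · have h1 : ∀ᵐ X ∂(averaged P 0), X 0 = 0 ∧ ∀ n, ∃ e : Dir d, X (n + 1) = X n + unitVec e := by
      have hms : MeasurableSet {X : ℕ → Site d | X 0 = 0 ∧
          ∀ n, ∃ e : Dir d, X (n + 1) = X n + unitVec e} := by
        have : {X : ℕ → Site d | X 0 = 0 ∧ ∀ n, ∃ e : Dir d, X (n + 1) = X n + unitVec e} =
            {X | X 0 = 0} ∩ ⋂ n, ⋃ e : Dir d, {X | X (n + 1) = X n + unitVec e} := by
          ext X; simp
        rw [this]
        refine (measurableSet_eq_fun (by fun_prop) (by fun_prop)).inter ?_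
        refine MeasurableSet.iInter fun n => MeasurableSet.iUnion fun e => ?_
        exact measurableSet_eq_fun (by fun_prop) (by fun_prop)
      have h2 : averaged P 0 {X : ℕ → Site d | X 0 = 0 ∧
          ∀ n, ∃ e : Dir d, X (n + 1) = X n + unitVec e}ᶜ = 0 := by
        rw [averaged, Measure.bind_apply hms.compl (measurable_quenched 0).aemeasurable]
        refine (lintegral_congr (g := fun _ => 0) fun ω => ?_).trans lintegral_zero
        have h3 := (quenched_zero ω 0).and (quenched_legal ω 0)
        exact h3
      exact h2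
    filter_upwards [h1] with X hX
    obtain ⟨h0, hstep⟩ := hX
    choose s hs' using hstep
    refine ⟨s, fun n => ?_⟩
    have hboth : ∀ n, X ∈ cyl unitVec co (lst s n) ∧ X n = ps unitVec 0 (lst s n) := by
      intro n
      induction n with
      | zero => exact ⟨h0, h0⟩
      | succ n ih =>
        have h3 : X (n + 1) = ps unitVec 0 (lst s (n + 1)) := by
          rw [hs' n, ih.2]; rfl
        refine ⟨⟨ih.1, ?_⟩, h3⟩
        show X ((lst s n).length + 1) = _
        rw [lst_length]
        exact h3
    exact (hboth n).1

end Pool.Agent.H96.Erw
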