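import Pool.Agent.H96.ErwUnif

/-!
The potential of a region, when the walk a.s. leaves `{lam ≥ 0}`.
-/

open Finset Filter Topology

set_option linter.unusedSectionVars false

namespace Pool.Agent.H96.Erw

variable {G : Type} {E : Type} [AddCommGroup G] [DecidableEq G] [Fintype E]

/-- expectation over `n` further steps, from the path `γ` (started at `0`) -/
noncomputable def hs (stp : E → G) : List E → (G → List E)
  | [] => fun _ => []
  | e :: γ => push (hs stp γ) (ps stp 0 γ) e

/-- transition probability after the path `γ` -/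
noncomputable def pr (R : Rule E) (stp : E → G) (γ : List E) (e : E) : ℝ :=
  R.p (hs stp γ (ps stp 0 γ)) e

/-- expectation over `n` further steps, from the path `γ` (started at `0`) -/
noncomputable def Ex (R : Rule E) (stp : E → G) : ℕ → (List E → ℝ) → List E → ℝ
  | 0, Φ, γ => Φ γ
  | n + 1, Φ, γ => ∑ e, pr R stp γ e * Ex R stp n Φ (e :: γ)

section ExLemmas

variable {R : Rule E} {stp : E → G}

lemma pr_nonneg (γ : List E) (e : E) : 0 ≤ pr R stp γ e := (R.pos _ _).le

lemma pr_sum (γ : List E) : ∑ e, pr R stp γ e = 1 := R.sum _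

lemma Ex_mono {Φ Ψ : List E → ℝ} : ∀ (n : ℕ) (γ : List E),
    (∀ γ', γ'.length = γ.length + n → Φ γ' ≤ Ψ γ') → Ex R stp n Φ γ ≤ Ex R stp n Ψ γ := by
  intro n
  induction n with
  | zero => intro γ h; exact h γ rfl
  | succ n ih =>
    intro γ h
    refine Finset.sum_le_sum fun e _ => mul_le_mul_of_nonneg_left (ih _ ?_) (pr_nonneg _ _)
    intro γ' hγ'
    apply h
    rw [hγ', List.length_cons]; ring

lemma Ex_super {Φ : List E → ℝ} (hΦ : ∀ γ, ∑ e, pr R stp γ e * Φ (e :: γ) ≤ Φ γ) :
    ∀ (n : ℕ) (γ : List E), Ex R stp n Φ γ ≤ Φ γ := by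
  intro n
  induction n with
  | zero => intro γ; exact le_refl _
  | succ n ih =>
    intro γ
    exact le_trans (Finset.sum_le_sum fun e _ =>
      mul_le_mul_of_nonneg_left (ih _) (pr_nonneg _ _)) (hΦ γ)

lemma Ex_sum {ι : Type*} (s : Finset ι) (Φ : ι → List E → ℝ) : ∀ (n : ℕ) (γ : List E),
    Ex R stp n (fun γ => ∑ i ∈ s, Φ i γ) γ = ∑ i ∈ s, Ex R stp n (Φ i) γ := by
  intro n
  induction n with
  | zero => intro γ; rfl
  | succ n ih =>
    intro γ
    simp only [Ex]
    simp_rw [ih, Finset.mul_sum]
    rw [Finset.sum_comm]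

lemma Ex_const_mul (c : ℝ) (Φ : List E → ℝ) : ∀ (n : ℕ) (γ : List E),
    Ex R stp n (fun γ => c * Φ γ) γ = c * Ex R stp n Φ γ := by
  intro n
  induction n with
  | zero => intro γ; rfl
  | succ n ih =>
    intro γ
    simp only [Ex]
    simp_rw [ih, Finset.mul_sum]
    refine Finset.sum_congr rfl fun e _ => by ring

lemma Ex_nonneg {Φ : List E → ℝ} (hΦ : ∀ γ, 0 ≤ Φ γ) : ∀ (n : ℕ) (γ : List E),
    0 ≤ Ex R stp n Φ γ := by
  intro n
  induction n with
  | zero => intro γ; exact hΦ γ
  | succ n ih =>
    intro γ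
    exact Finset.sum_nonneg fun e _ => mul_nonneg (pr_nonneg _ _) (ih _)

end ExLemmas

/-- states of the control of a region -/
inductive St
  | inn (i t : ℕ)
  | out (i : ℕ)
  | dead
  | done

/-- transitions of the control -/
def nxt (M : ℕ) (thr : ℕ → ℕ) : St → Prop → (Prop → Bool) → St
  | .out i, b, f => if f b then (if i < M then .inn i 0 else .done) else .out i
  | .inn i t, b, f => if t < thr (i + 1) then (if f b then .inn i (t + 1) else .out (i + 1))
      else .dead
  | .dead, _, _ => .dead
  | .done, _, _ => .done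

/-- the region above level `m` -/
def Up (lam : G →+ ℝ) (m : ℝ) : Set G := {y | m ≤ lam y}

lemma Ups_Up (lam : G →+ ℝ) (m : ℝ) : Ups lam (Up lam m) := fun _ _ hx hxy => le_trans hx hxy

open Classical in
/-- control state of the region `Up m` after the path `γ` -/
noncomputable def stt (stp : E → G) (lam : G →+ ℝ) (M : ℕ) (thr : ℕ → ℕ) (m : ℝ) : List E → St
  | [] => .out 0
  | e :: γ => nxt M thr (stt stp lam M thr m γ) (ps stp 0 (e :: γ) ∈ Up lam m)
      (fun b => decide b)

/-- maximal level along the path -/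
noncomputable def mx (stp : E → G) (lam : G →+ ℝ) : List E → ℝ
  | [] => 0
  | e :: γ => max (mx stp lam γ) (lam (ps stp 0 (e :: γ)))

open Classical in
/-- number of visits to the layer `[m, m + w)` -/
noncomputable def vis (stp : E → G) (lam : G →+ ℝ) (w m : ℝ) : List E → ℕ
  | [] => 0
  | e :: γ => vis stp lam w m γ +
      if m ≤ lam (ps stp 0 (e :: γ)) ∧ lam (ps stp 0 (e :: γ)) < m + w then 1 else 0

/-- the value of the potential -/
noncomputable def psiS (R : Rule E) (stp : E → G) (lam : G →+ ℝ) (M : ℕ) (thr : ℕ → ℕ) (ε m : ℝ)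
    (γ : List E) : St → ℝ
  | .inn i t => K R stp (Up lam m) (thr (i + 1) - t) (hs stp γ) (ps stp 0 γ) +
      ((M : ℝ) - (i + 1)) * ε
  | .out i => ((M : ℝ) - i) * ε
  | .dead => 1
  | .done => 0

/-- the potential -/
noncomputable def psi (R : Rule E) (stp : E → G) (lam : G →+ ℝ) (M : ℕ) (thr : ℕ → ℕ) (ε m : ℝ)
    (γ : List E) : ℝ := psiS R stp lam M thr ε m γ (stt stp lam M thr m γ)

/-- invariants of the control -/
def Inv (stp : E → G) (lam : G →+ ℝ) (M : ℕ) (thr : ℕ → ℕ) (w m : ℝ) (γ : List E) : St → Prop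
  | .out i => i ≤ M ∧ lam (ps stp 0 γ) < m ∧
      Hst stp (Up lam m) (thr i + 2) i (tr stp (Up lam m) (fun _ => []) 0 γ) ∧
      mx stp lam γ < m + w * (thr M + 1) ∧ i ≤ vis stp lam w m γ
  | .inn i t => i < M ∧ t ≤ thr (i + 1) ∧ m ≤ lam (ps stp 0 γ) ∧
      (∃ (h' : G → List E) (p : G) (s : List E), Hst stp (Up lam m) (thr i + 2) i h' ∧
        p ∉ Up lam m ∧ s.length = t + 1 ∧
        tr stp (Up lam m) (fun _ => []) 0 γ = tr stp (Up lam m) h' p s ∧
        ps stp 0 γ = ps stp p s) ∧
      mx stp lam γ < m + w * (thr M + 1) ∧ lam (ps stp 0 γ) < m + w * (t + 1) ∧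
      i + 1 ≤ vis stp lam w m γ
  | .dead => True
  | .done => M + 1 ≤ vis stp lam w m γ

variable {R : Rule E} {stp : E → G} {lam : G →+ ℝ} {M : ℕ} {thr : ℕ → ℕ} {w m ε : ℝ}

lemma tr_eq_hs (A : Set G) (γ : List E) : ∀ y ∈ A,
    tr stp A (fun _ => []) 0 γ y = hs stp γ y := by
  induction γ with
  | nil => intro y _; rfl
  | cons e γ ih =>
    intro y hy
    rw [hs]
    by_cases hm : ps stp 0 γ ∈ A
    · rw [tr_cons_mem hm]
      by_cases hyx : y = ps stp 0 γ
      · subst hyx; rw [push_self, push_self, ih _ hm]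
      · rw [push_ne _ _ hyx, push_ne _ _ hyx, ih _ hy]
    · rw [tr_cons_not_mem hm, ih _ hy, push_ne]
      rintro rfl; exact hm hy

theorem inv_all (hw : 0 < w) (hstp : ∀ e, lam (stp e) ≤ w) (hthr : Monotone thr) (hm : 0 < m) :
    ∀ γ : List E, Inv stp lam M thr w m γ (stt stp lam M thr m γ) := by
  intro γ
  induction γ with
  | nil =>
    refine ⟨Nat.zero_le _, ?_, Hst.zero, ?_, Nat.zero_le _⟩
    · simpa [ps] using hm
    · simp only [mx]
      have : (0:ℝ) ≤ w * (thr M + 1) := by positivity
      linarith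
  | cons e γ ih =>
    rw [stt]
    have hcpos : (0:ℝ) ≤ thr M := by positivity
    have hxe : lam (ps stp 0 (e :: γ)) ≤ lam (ps stp 0 γ) + w := by
      rw [ps, map_add]; linarith [hstp e]
    generalize stt stp lam M thr m γ = s at ih
    cases s with
    | dead => simp only [nxt, Inv]
    | done =>
      simp only [nxt, Inv] at ih ⊢
      simp only [vis]
      omega
    | out i =>
      obtain ⟨hi, hx, hH, hmx, hv⟩ := ih
      have hx' : ps stp 0 γ ∉ Up lam m := fun hc => absurd hc (not_le.2 hx)
      by_cases hin : ps stp 0 (e :: γ) ∈ Up lam m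
      · have hin' : m ≤ lam (ps stp 0 (e :: γ)) := hin
        have hlt : lam (ps stp 0 (e :: γ)) < m + w := by linarith
        have hvis : vis stp lam w m (e :: γ) = vis stp lam w m γ + 1 := by
          rw [vis, if_pos ⟨hin', hlt⟩]
        have hmx' : mx stp lam (e :: γ) < m + w * (thr M + 1) := by
          rw [mx]; refine max_lt hmx ?_
          nlinarith
        by_cases hiM : i < M
        · simp only [nxt, hin, decide_true, if_true, hiM, Inv]
          refine ⟨trivial, Nat.zero_le _, hin', ?_, hmx', ?_, ?_⟩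
          · refine ⟨_, ps stp 0 γ, [e], hH, hx', rfl, ?_, rfl⟩
            rw [tr_cons_not_mem hx', tr_cons_not_mem (by exact hx')]
            rfl
          · simpa using hlt
          · rw [hvis]; omega
        · simp only [nxt, hin, decide_true, if_true, hiM, if_false, Inv]
          rw [hvis]; omega
      · have hin' : lam (ps stp 0 (e :: γ)) < m := not_le.1 hin
        simp only [nxt, hin, decide_false, Inv]
        refine ⟨hi, hin', ?_, ?_, ?_⟩
        · rw [tr_cons_not_mem hx']; exact hH
        · rw [mx]; refine max_lt hmx ?_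
          nlinarith
        · rw [vis]; omega
    | inn i t =>
      obtain ⟨hi, ht, hx, ⟨h', p, s, hH, hp, hsl, htr, hps⟩, hmx, hlev, hv⟩ := ih
      have hx' : ps stp 0 γ ∈ Up lam m := hx
      by_cases htt : t < thr (i + 1)
      · have htr' : tr stp (Up lam m) (fun _ => []) 0 (e :: γ)
            = tr stp (Up lam m) h' p (e :: s) := by
          rw [tr_cons_mem hx', tr_cons_mem (by rw [← hps]; exact hx'), htr, hps]
        have hps' : ps stp 0 (e :: γ) = ps stp p (e :: s) := by
          rw [ps, ps, hps]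
        have hthrM : (thr (i+1) : ℝ) ≤ thr M := by exact_mod_cast hthr (by omega : i + 1 ≤ M)
        have htt' : (t : ℝ) + 1 ≤ thr (i + 1) := by exact_mod_cast htt
        have hlev' : lam (ps stp 0 (e :: γ)) < m + w * ((t + 1 : ℕ) + 1) := by
          push_cast; linarith
        have hmx' : mx stp lam (e :: γ) < m + w * (thr M + 1) := by
          rw [mx]; refine max_lt hmx ?_
          refine lt_of_lt_of_le hlev' ?_
          push_cast
          have : w * ((t:ℝ) + 1 + 1) ≤ w * (thr M + 1) := by
            apply mul_le_mul_of_nonneg_left _ hw.le; linarith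
          linarith
        have hvle : vis stp lam w m γ ≤ vis stp lam w m (e :: γ) := by rw [vis]; omega
        by_cases hin : ps stp 0 (e :: γ) ∈ Up lam m
        · simp only [nxt, htt, hin, decide_true, if_true, Inv]
          refine ⟨hi, htt, hin, ⟨h', p, e :: s, hH, hp, ?_, htr', hps'⟩, hmx', hlev', ?_⟩
          · rw [List.length_cons, hsl]
          · omega
        · have hin' : lam (ps stp 0 (e :: γ)) < m := not_le.1 hin
          simp only [nxt, htt, if_true, hin, decide_false, Inv]
          refine ⟨hi, hin', ?_, hmx', by omega⟩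
          rw [htr']
          have hmono : thr i ≤ thr (i + 1) := hthr (Nat.le_succ i)
          refine Hst.succ p (e :: s) (Hst_mono (by omega) hH) hp ?_ ?_
          · rw [List.length_cons, hsl]; omega
          · rw [← hps']; exact hin
      · simp only [nxt, htt, if_false, Inv]

/-- the hypothesis on the thresholds -/
def Good (R : Rule E) (stp : E → G) (lam : G →+ ℝ) (M : ℕ) (thr : ℕ → ℕ) (ε : ℝ) : Prop :=
  ∀ i < M, ∀ A : Set G, Ups lam A → ∀ h, Hst stp A (thr i + 2) i h → ∀ (p : G) (e : E), p ∉ A →
      p + stp e ∈ A → K R stp A (thr (i + 1)) h (p + stp e) ≤ ε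

theorem exists_good (hgen : ∀ g : G, ∃ s : Multiset E, (s.map stp).sum = g)
    (hD : Kinf R stp {y | 0 ≤ lam y} (fun _ => []) 0 = 0)
    {e0 : E} (he0 : 0 < lam (stp e0)) (M : ℕ) (hε : 0 < ε) :
    ∃ thr : ℕ → ℕ, Monotone thr ∧ Good R stp lam M thr ε := by
  choose N hN using fun j n => uniform_exit (R := R) (stp := stp) (lam := lam) hgen hD he0 j n hε
  let thr : ℕ → ℕ := fun i => Nat.rec 0 (fun i t => max t (N i (t + 2))) i
  have hs : ∀ i, thr (i + 1) = max (thr i) (N i (thr i + 2)) := fun i => rfl
  refine ⟨thr, monotone_nat_of_le_succ fun i => by rw [hs]; exact le_max_left _ _, ?_⟩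
  intro i _ A hA h hh p e hp hpe
  refine le_trans ?_ (hN i (thr i + 2) A hA h hh p e hp hpe)
  apply K_anti A h (p + stp e)
  rw [hs]; exact le_max_right _ _

lemma psi_nonneg (hw : 0 < w) (hstp : ∀ e, lam (stp e) ≤ w) (hthr : Monotone thr) (hm : 0 < m)
    (hε : 0 < ε) (γ : List E) : 0 ≤ psi R stp lam M thr ε m γ := by
  have hinv := inv_all (M := M) (stp := stp) hw hstp hthr hm γ
  unfold psi
  generalize stt stp lam M thr m γ = s at hinv
  cases s with
  | dead => simp only [psiS]; norm_num
  | done => simp only [psiS]; norm_num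
  | out i =>
    have : (i : ℝ) ≤ M := by exact_mod_cast hinv.1
    exact mul_nonneg (by linarith) hε.le
  | inn i t =>
    have : (i : ℝ) + 1 ≤ M := by exact_mod_cast hinv.1
    exact add_nonneg (K_nonneg _ _ _ _) (mul_nonneg (by linarith) hε.le)

/-- the potential of one region is superharmonic -/
theorem psi_super (hw : 0 < w) (hstp : ∀ e, lam (stp e) ≤ w) (hthr : Monotone thr) (hm : 0 < m)
    (hε : 0 < ε) (hgood : Good R stp lam M thr ε) (γ : List E) :
    ∑ e, pr R stp γ e * psi R stp lam M thr ε m (e :: γ) ≤ psi R stp lam M thr ε m γ := by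
  have hinv := inv_all (M := M) (stp := stp) hw hstp hthr hm γ
  have hconst : ∀ c : ℝ, (∀ e, psi R stp lam M thr ε m (e :: γ) ≤ c) →
      ∑ e, pr R stp γ e * psi R stp lam M thr ε m (e :: γ) ≤ c := by
    intro c hc
    calc ∑ e, pr R stp γ e * psi R stp lam M thr ε m (e :: γ)
        ≤ ∑ e, pr R stp γ e * c :=
          Finset.sum_le_sum fun e _ => mul_le_mul_of_nonneg_left (hc e) (pr_nonneg _ _)
      _ = c := by rw [← Finset.sum_mul, pr_sum, one_mul]
  have hnext : ∀ e, psi R stp lam M thr ε m (e :: γ) = psiS R stp lam M thr ε m (e :: γ)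
      (stt stp lam M thr m (e :: γ)) := fun e => rfl
  simp only [stt] at hnext
  conv_rhs => unfold psi
  generalize stt stp lam M thr m γ = s at hinv hnext
  cases s with
  | dead =>
    apply hconst
    intro e
    rw [hnext e]
    simp only [nxt, psiS, le_refl]
  | done =>
    apply hconst
    intro e
    rw [hnext e]
    simp only [nxt, psiS, le_refl]
  | out i =>
    obtain ⟨hi, hx, hH, hmx, hv⟩ := hinv
    have hx' : ps stp 0 γ ∉ Up lam m := fun hc => absurd hc (not_le.2 hx)
    have hiR : (i : ℝ) ≤ M := by exact_mod_cast hi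
    apply hconst
    intro e
    rw [hnext e]
    by_cases hin : ps stp 0 (e :: γ) ∈ Up lam m
    · by_cases hiM : i < M
      · simp only [nxt, hin, decide_true, if_true, hiM, psiS]
        have h1 : K R stp (Up lam m) (thr (i + 1) - 0) (hs stp (e :: γ)) (ps stp 0 (e :: γ))
            ≤ ε := by
          have h2 : K R stp (Up lam m) (thr (i + 1) - 0) (hs stp (e :: γ)) (ps stp 0 (e :: γ))
              = K R stp (Up lam m) (thr (i + 1)) (tr stp (Up lam m) (fun _ => []) 0 γ)
                (ps stp 0 γ + stp e) := by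
            rw [Nat.sub_zero]
            refine K_congr _ _ fun y hy => ?_
            rw [← tr_eq_hs (stp := stp) (Up lam m) (e :: γ) y hy, tr_cons_not_mem hx']
          rw [h2]
          exact hgood i hiM _ (Ups_Up lam m) _ hH _ e hx' hin
        linarith
      · simp only [nxt, hin, decide_true, if_true, hiM, if_false, psiS]
        exact mul_nonneg (by linarith) hε.le
    · simp only [nxt, hin, decide_false, psiS]
      simp
  | inn i t =>
    obtain ⟨hi, ht, hx, -, -, -, -⟩ := hinv
    have hx' : ps stp 0 γ ∈ Up lam m := hx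
    have hiR : (i : ℝ) + 1 ≤ M := by exact_mod_cast hi
    by_cases htt : t < thr (i + 1)
    · obtain ⟨k, hk⟩ : ∃ k, thr (i + 1) - t = k + 1 := ⟨thr (i + 1) - t - 1, by omega⟩
      have hk' : thr (i + 1) - (t + 1) = k := by omega
      have hterm : ∀ e, psi R stp lam M thr ε m (e :: γ) =
          K R stp (Up lam m) k (hs stp (e :: γ)) (ps stp 0 (e :: γ)) +
            ((M : ℝ) - (i + 1)) * ε := by
        intro e
        rw [hnext e]
        by_cases hin : ps stp 0 (e :: γ) ∈ Up lam m
        · simp only [nxt, htt, hin, decide_true, if_true, psiS]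
          rw [hk']
        · simp only [nxt, htt, if_true, hin, decide_false, psiS]
          rw [K_not_mem hin]
          simp
      simp_rw [hterm]
      simp only [psiS]
      rw [hk, K_succ_mem hx']
      simp_rw [mul_add]
      rw [Finset.sum_add_distrib, ← Finset.sum_mul, pr_sum, one_mul]
      exact le_refl _
    · apply hconst
      intro e
      rw [hnext e]
      simp only [nxt, htt, if_false, psiS]
      have : thr (i + 1) - t = 0 := by omega
      rw [this, K_zero_mem hx']
      have : 0 ≤ ((M : ℝ) - (i + 1)) * ε := mul_nonneg (by linarith) hε.le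
      linarith

end Pool.Agent.H96.Erw
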