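import Pool.Agent.H96.ErwPot

/-!
Product potentials and the exponential bound for a high maximum in a short time.
-/

open Finset Filter Topology

set_option linter.unusedSectionVars false

namespace Pool.Agent.H96.Erw

variable {G : Type} {E : Type} [AddCommGroup G] [DecidableEq G] [Fintype E]
variable {R : Rule E} {stp : E → G} {lam : G →+ ℝ} {M : ℕ} {thr : ℕ → ℕ} {w m ε : ℝ}

lemma lev_le_mx (γ : List E) : lam (ps stp 0 γ) ≤ mx stp lam γ := by
  cases γ with
  | nil => simp [ps, mx]
  | cons e γ => rw [mx]; exact le_max_right _ _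

lemma mx_cons_le (hw : 0 < w) (hstp : ∀ e, lam (stp e) ≤ w) (γ : List E) (e : E) :
    mx stp lam (e :: γ) ≤ mx stp lam γ + w := by
  rw [mx]
  refine max_le (by linarith) ?_
  rw [ps, map_add]
  have := lev_le_mx (stp := stp) (lam := lam) γ
  linarith [hstp e]

lemma stt_pre : ∀ (γ : List E), mx stp lam γ < m → stt stp lam M thr m γ = St.out 0 := by
  intro γ
  induction γ with
  | nil => intro _; rfl
  | cons e γ ih =>
    intro h
    rw [mx] at h
    have h1 := lt_of_le_of_lt (le_max_left _ _) h
    have h2 := lt_of_le_of_lt (le_max_right _ _) h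
    have h3 : ps stp 0 (e :: γ) ∉ Up lam m := fun hc => absurd hc (not_le.2 h2)
    rw [stt, ih h1]
    simp only [nxt, h3, decide_false]
    rfl

lemma psi_pre {γ : List E} (h : mx stp lam γ < m) : psi R stp lam M thr ε m γ = M * ε := by
  rw [psi, stt_pre γ h, psiS]; simp

lemma psi_frozen_pre (hw : 0 < w) (hstp : ∀ e, lam (stp e) ≤ w) {γ : List E}
    (h : mx stp lam γ + w < m) (e : E) :
    psi R stp lam M thr ε m (e :: γ) = psi R stp lam M thr ε m γ := by
  rw [psi_pre (lt_of_le_of_lt (mx_cons_le hw hstp γ e) h), psi_pre (by linarith)]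

lemma psi_dead {γ : List E} (h : stt stp lam M thr m γ = St.dead) :
    psi R stp lam M thr ε m γ = 1 := by
  rw [psi, h, psiS]

lemma psi_frozen_end {γ : List E}
    (h : stt stp lam M thr m γ = St.dead ∨ stt stp lam M thr m γ = St.done) (e : E) :
    psi R stp lam M thr ε m (e :: γ) = psi R stp lam M thr ε m γ := by
  rcases h with h | h
  · rw [psi, psi, stt, h]; simp only [nxt, psiS]
  · rw [psi, psi, stt, h]; simp only [nxt, psiS]

lemma ended_of_high (hw : 0 < w) (hstp : ∀ e, lam (stp e) ≤ w) (hthr : Monotone thr) (hm : 0 < m)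
    {γ : List E} (h : m + w * (thr M + 1) ≤ mx stp lam γ) :
    stt stp lam M thr m γ = St.dead ∨ stt stp lam M thr m γ = St.done := by
  have hinv := inv_all (M := M) (stp := stp) hw hstp hthr hm γ
  generalize stt stp lam M thr m γ = s at hinv
  cases s with
  | dead => exact Or.inl rfl
  | done => exact Or.inr rfl
  | out i => exact absurd hinv.2.2.2.1 (not_lt.2 h)
  | inn i t => exact absurd hinv.2.2.2.2.1 (not_lt.2 h)

lemma vis_of_done (hw : 0 < w) (hstp : ∀ e, lam (stp e) ≤ w) (hthr : Monotone thr) (hm : 0 < m)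
    {γ : List E} (h : stt stp lam M thr m γ = St.done) : M + 1 ≤ vis stp lam w m γ := by
  have hinv := inv_all (M := M) (stp := stp) hw hstp hthr hm γ
  rw [h] at hinv
  exact hinv

/-- product potential -/
noncomputable def Phi (R : Rule E) (stp : E → G) (lam : G →+ ℝ) (M : ℕ) (thr : ℕ → ℕ) (ε : ℝ)
    (lv : ℕ → ℝ) (J : ℕ) (γ : List E) : ℝ :=
  ∏ j ∈ range J, (1 + 15 * psi R stp lam M thr ε (lv j) γ)

theorem Phi_super (hw : 0 < w) (hstp : ∀ e, lam (stp e) ≤ w) (hthr : Monotone thr)
    (hε : 0 < ε) (hgood : Good R stp lam M thr ε) {lv : ℕ → ℝ} (hlv0 : ∀ j, 0 < lv j)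
    (hlv : ∀ i j, i < j → lv i + w * (thr M + 2) ≤ lv j) (J : ℕ) (γ : List E) :
    ∑ e, pr R stp γ e * Phi R stp lam M thr ε lv J (e :: γ) ≤ Phi R stp lam M thr ε lv J γ := by
  classical
  have key : ∃ j0, ∀ j < J, j ≠ j0 → ∀ e,
      psi R stp lam M thr ε (lv j) (e :: γ) = psi R stp lam M thr ε (lv j) γ := by
    by_cases hex : ∃ j, ¬ (stt stp lam M thr (lv j) γ = St.dead ∨
        stt stp lam M thr (lv j) γ = St.done)
    · refine ⟨Nat.find hex, fun j _ hj e => ?_⟩
      rcases lt_or_gt_of_ne hj with h | h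
      · exact psi_frozen_end (not_not.1 (Nat.find_min hex h)) e
      · have hns := Nat.find_spec hex
        have h1 : mx stp lam γ < lv (Nat.find hex) + w * (thr M + 1) := by
          by_contra hcon
          exact hns (ended_of_high hw hstp hthr (hlv0 _) (not_lt.1 hcon))
        have h2 := hlv _ _ h
        refine psi_frozen_pre hw hstp ?_ e
        nlinarith
    · push Not at hex
      exact ⟨J, fun j _ _ e => psi_frozen_end (hex j) e⟩
  obtain ⟨j0, hj0⟩ := key
  by_cases hmem : j0 ∈ range J
  · have hfac : ∀ e, Phi R stp lam M thr ε lv J (e :: γ) =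
        (1 + 15 * psi R stp lam M thr ε (lv j0) (e :: γ)) *
          ∏ j ∈ (range J).erase j0, (1 + 15 * psi R stp lam M thr ε (lv j) γ) := by
      intro e
      rw [Phi, ← Finset.mul_prod_erase _ _ hmem]
      congr 1
      refine Finset.prod_congr rfl fun j hj => ?_
      rw [Finset.mem_erase, Finset.mem_range] at hj
      rw [hj0 j hj.2 hj.1]
    have hfac0 : Phi R stp lam M thr ε lv J γ =
        (1 + 15 * psi R stp lam M thr ε (lv j0) γ) *
          ∏ j ∈ (range J).erase j0, (1 + 15 * psi R stp lam M thr ε (lv j) γ) := by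
      rw [Phi, ← Finset.mul_prod_erase _ _ hmem]
    simp_rw [hfac]
    rw [hfac0]
    have hC : 0 ≤ ∏ j ∈ (range J).erase j0, (1 + 15 * psi R stp lam M thr ε (lv j) γ) := by
      refine Finset.prod_nonneg fun j _ => ?_
      have := psi_nonneg (R := R) (M := M) (stp := stp) hw hstp hthr (hlv0 j) hε γ
      linarith
    have h1 : ∑ e, pr R stp γ e * ((1 + 15 * psi R stp lam M thr ε (lv j0) (e :: γ)) *
        ∏ j ∈ (range J).erase j0, (1 + 15 * psi R stp lam M thr ε (lv j) γ)) =
        (1 + 15 * ∑ e, pr R stp γ e * psi R stp lam M thr ε (lv j0) (e :: γ)) *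
        ∏ j ∈ (range J).erase j0, (1 + 15 * psi R stp lam M thr ε (lv j) γ) := by
      generalize (∏ j ∈ (range J).erase j0, (1 + 15 * psi R stp lam M thr ε (lv j) γ)) = C
      have h2 : ∑ e, pr R stp γ e * ((1 + 15 * psi R stp lam M thr ε (lv j0) (e :: γ)) * C) =
          ∑ e, (pr R stp γ e * C +
            15 * (pr R stp γ e * psi R stp lam M thr ε (lv j0) (e :: γ)) * C) :=
        Finset.sum_congr rfl fun e _ => by ring
      rw [h2, Finset.sum_add_distrib, ← Finset.sum_mul, pr_sum, ← Finset.sum_mul,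
        ← Finset.mul_sum]
      ring
    rw [h1]
    refine mul_le_mul_of_nonneg_right ?_ hC
    have := psi_super (R := R) (M := M) hw hstp hthr (hlv0 j0) hε hgood γ
    linarith
  · have hfac : ∀ e, Phi R stp lam M thr ε lv J (e :: γ) = Phi R stp lam M thr ε lv J γ := by
      intro e
      refine Finset.prod_congr rfl fun j hj => ?_
      have hne : j ≠ j0 := by rintro rfl; exact hmem hj
      rw [hj0 j (Finset.mem_range.1 hj) hne]
    simp_rw [hfac]
    rw [← Finset.sum_mul, pr_sum, one_mul]

lemma Phi_nil (lv : ℕ → ℝ) (hlv0 : ∀ j, 0 < lv j) (J : ℕ) :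
    Phi R stp lam M thr ε lv J [] = (1 + 15 * (M * ε)) ^ J := by
  rw [Phi, Finset.prod_congr rfl (g := fun _ => 1 + 15 * (M * ε))]
  · simp
  · intro j _
    rw [psi_pre]
    simpa [mx] using hlv0 j

open Classical in
lemma vis_sum {ι : Type*} (hw : 0 < w) (S : Finset ι) (c : ι → ℕ)
    (hc : ∀ i ∈ S, ∀ j ∈ S, c i = c j → i = j) (γ : List E) :
    ∑ i ∈ S, vis stp lam w (w * (c i + 1)) γ ≤ γ.length := by
  induction γ with
  | nil => simp [vis]
  | cons e γ ih =>
    simp only [vis, List.length_cons]
    rw [Finset.sum_add_distrib]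
    refine add_le_add ih ?_
    rw [← Finset.card_filter, Finset.card_le_one]
    intro i hi j hj
    rw [Finset.mem_filter] at hi hj
    refine hc i hi.1 j hj.1 ?_
    obtain ⟨-, hi1, hi2⟩ := hi
    obtain ⟨-, hj1, hj2⟩ := hj
    by_contra hne
    rcases lt_or_gt_of_ne hne with h | h
    · have h' : (c i : ℝ) + 1 ≤ c j := by exact_mod_cast h
      nlinarith
    · have h' : (c j : ℝ) + 1 ≤ c i := by exact_mod_cast h
      nlinarith

/-- levels of the class `r` -/
noncomputable def lvl (w : ℝ) (q r : ℕ) (j : ℕ) : ℝ := w * (((r + q * j : ℕ) : ℝ) + 1)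

/-- if the maximum is high after a short time then one of the product potentials is large -/
theorem large_of_high (hw : 0 < w) (hstp : ∀ e, lam (stp e) ≤ w) (hthr : Monotone thr)
    (hε : 0 < ε) {J q : ℕ} (hq : q = thr M + 2) {γ : List E}
    (hlen : γ.length = (M + 1) * q * J) (hmx : w * q * (2 * J + 1) ≤ mx stp lam γ) :
    ∃ r < q, (16 : ℝ) ^ J ≤ Phi R stp lam M thr ε (lvl w q r) (2 * J) γ := by
  classical
  by_contra hcon
  push Not at hcon
  have hlv0 : ∀ r j, 0 < lvl w q r j := fun r j => by unfold lvl; positivity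
  have hqR : (q : ℝ) = thr M + 2 := by rw [hq]; push_cast; ring
  have hend : ∀ r < q, ∀ j < 2 * J, stt stp lam M thr (lvl w q r j) γ = St.dead ∨
      stt stp lam M thr (lvl w q r j) γ = St.done := by
    intro r hr j hj
    refine ended_of_high hw hstp hthr (hlv0 r j) (le_trans ?_ hmx)
    have h1 : ((r + q * j : ℕ) : ℝ) + 1 + (thr M + 1) ≤ q * (2 * J + 1) := by
      have h2 : r + q * j + 1 + (thr M + 1) ≤ q * (2 * J + 1) := by
        have h3 : q * j + q ≤ q * (2 * J) := by
          have : q * (j + 1) ≤ q * (2 * J) := Nat.mul_le_mul_left q (by omega)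
          linarith
        have h4 : q * (2 * J + 1) = q * (2 * J) + q := by ring
        omega
      exact_mod_cast h2
    unfold lvl
    calc w * (((r + q * j : ℕ) : ℝ) + 1) + w * (thr M + 1)
        = w * (((r + q * j : ℕ) : ℝ) + 1 + (thr M + 1)) := by ring
      _ ≤ w * (q * (2 * J + 1)) := mul_le_mul_of_nonneg_left h1 hw.le
      _ = w * q * (2 * J + 1) := by ring
  -- few dead
  have hdead : ∀ r < q, ((range (2 * J)).filter
      (fun j => stt stp lam M thr (lvl w q r j) γ = St.dead)).card < J := by
    intro r hr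
    by_contra hge
    rw [not_lt] at hge
    refine absurd (hcon r hr) (not_lt.2 ?_)
    calc (16 : ℝ) ^ J ≤ (16 : ℝ) ^ ((range (2 * J)).filter
          (fun j => stt stp lam M thr (lvl w q r j) γ = St.dead)).card :=
          pow_le_pow_right₀ (by norm_num) hge
      _ = ∏ j ∈ range (2 * J), (if stt stp lam M thr (lvl w q r j) γ = St.dead
            then (16 : ℝ) else 1) := by
          rw [Finset.prod_ite, Finset.prod_const, Finset.prod_const_one, mul_one]
      _ ≤ Phi R stp lam M thr ε (lvl w q r) (2 * J) γ := by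
          refine Finset.prod_le_prod (fun j _ => by split_ifs <;> norm_num) fun j _ => ?_
          split_ifs with h
          · rw [psi_dead h]; norm_num
          · have := psi_nonneg (R := R) (M := M) (stp := stp) hw hstp hthr (hlv0 r j) hε γ
            linarith
  have hdone : ∀ r < q, J + 1 ≤ ((range (2 * J)).filter
      (fun j => ¬ stt stp lam M thr (lvl w q r j) γ = St.dead)).card := by
    intro r hr
    have h1 := hdead r hr
    have h2 := Finset.card_filter_add_card_filter_not (s := range (2 * J))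
      (fun j => stt stp lam M thr (lvl w q r j) γ = St.dead)
    rw [Finset.card_range] at h2
    omega
  have hrow : ∀ r < q, (J + 1) * (M + 1) ≤
      ∑ j ∈ range (2 * J), vis stp lam w (lvl w q r j) γ := by
    intro r hr
    calc (J + 1) * (M + 1) ≤ ((range (2 * J)).filter
          (fun j => ¬ stt stp lam M thr (lvl w q r j) γ = St.dead)).card * (M + 1) :=
          Nat.mul_le_mul_right _ (hdone r hr)
      _ = ∑ j ∈ (range (2 * J)).filter
          (fun j => ¬ stt stp lam M thr (lvl w q r j) γ = St.dead), (M + 1) := by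
          rw [Finset.sum_const, smul_eq_mul]
      _ ≤ ∑ j ∈ (range (2 * J)).filter
          (fun j => ¬ stt stp lam M thr (lvl w q r j) γ = St.dead),
            vis stp lam w (lvl w q r j) γ := by
          refine Finset.sum_le_sum fun j hj => ?_
          rw [Finset.mem_filter, Finset.mem_range] at hj
          rcases hend r hr j hj.1 with h | h
          · exact absurd h hj.2
          · exact vis_of_done hw hstp hthr (hlv0 r j) h
      _ ≤ ∑ j ∈ range (2 * J), vis stp lam w (lvl w q r j) γ :=
          Finset.sum_le_sum_of_subset (Finset.filter_subset _ _)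
  have htot : q * ((J + 1) * (M + 1)) ≤
      ∑ r ∈ range q, ∑ j ∈ range (2 * J), vis stp lam w (lvl w q r j) γ := by
    calc q * ((J + 1) * (M + 1)) = ∑ r ∈ range q, (J + 1) * (M + 1) := by
          rw [Finset.sum_const, Finset.card_range, smul_eq_mul]
      _ ≤ _ := Finset.sum_le_sum fun r hr => hrow r (Finset.mem_range.1 hr)
  rw [← Finset.sum_product' (range q) (range (2 * J))
    (fun r j => vis stp lam w (lvl w q r j) γ)] at htot
  have hvs := vis_sum (stp := stp) (lam := lam) (w := w) hw (range q ×ˢ range (2 * J))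
    (fun p => p.1 + q * p.2) (by
      rintro ⟨r, j⟩ h1 ⟨r', j'⟩ h2 h3
      rw [Finset.mem_product, Finset.mem_range, Finset.mem_range] at h1 h2
      simp only at h1 h2 h3
      have hr : r = r' := by
        have := congrArg (· % q) h3
        simp only [Nat.add_mul_mod_self_left] at this
        rwa [Nat.mod_eq_of_lt h1.1, Nat.mod_eq_of_lt h2.1] at this
      subst hr
      have hj : q * j = q * j' := by omega
      rw [Nat.eq_of_mul_eq_mul_left (by omega) hj]) γ
  have hvs' : ∑ x ∈ range q ×ˢ range (2 * J), vis stp lam w (lvl w q x.1 x.2) γ ≤ γ.length := hvs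
  have hfin := htot.trans hvs'
  rw [hlen] at hfin
  have hexp : q * ((J + 1) * (M + 1)) = (M + 1) * q * J + (M + 1) * q := by ring
  rw [hexp] at hfin
  have : 0 < (M + 1) * q := Nat.mul_pos (by omega) (by omega)
  omega

open Classical in
/-- the exponential bound -/
theorem high_bound (hw : 0 < w) (hstp : ∀ e, lam (stp e) ≤ w) (hthr : Monotone thr)
    (hM : 0 < M) (hε : ε = 1 / (15 * M)) (hgood : Good R stp lam M thr ε) {q : ℕ}
    (hq : q = thr M + 2) (J : ℕ) :
    Ex R stp ((M + 1) * q * J) (fun γ => if w * q * (2 * J + 1) ≤ mx stp lam γ then 1 else 0) []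
      ≤ q * (1 / 4) ^ J := by
  have hMR : (0 : ℝ) < M := by exact_mod_cast hM
  have hε0 : 0 < ε := by rw [hε]; positivity
  have hlv0 : ∀ r j, 0 < lvl w q r j := fun r j => by unfold lvl; positivity
  have hlv : ∀ r i j, i < j → lvl w q r i + w * (thr M + 2) ≤ lvl w q r j := by
    intro r i j hij
    have hqR : (q : ℝ) = thr M + 2 := by rw [hq]; push_cast; ring
    unfold lvl
    rw [← hqR, ← mul_add]
    refine mul_le_mul_of_nonneg_left ?_ hw.le
    have h1 : r + q * i + 1 + q ≤ r + q * j + 1 := by
      have : q * (i + 1) ≤ q * j := Nat.mul_le_mul_left q hij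
      have h2 : q * (i + 1) = q * i + q := by ring
      omega
    exact_mod_cast h1
  calc Ex R stp ((M + 1) * q * J)
        (fun γ => if w * q * (2 * J + 1) ≤ mx stp lam γ then 1 else 0) []
      ≤ Ex R stp ((M + 1) * q * J) (fun γ => ∑ r ∈ range q,
          (1 / 16 : ℝ) ^ J * Phi R stp lam M thr ε (lvl w q r) (2 * J) γ) [] := by
        refine Ex_mono _ _ fun γ hγ => ?_
        rw [List.length_nil, zero_add] at hγ
        have hnn : ∀ r, 0 ≤ (1 / 16 : ℝ) ^ J * Phi R stp lam M thr ε (lvl w q r) (2 * J) γ := by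
          intro r
          refine mul_nonneg (by positivity) (Finset.prod_nonneg fun j _ => ?_)
          have := psi_nonneg (R := R) (M := M) (stp := stp) hw hstp hthr (hlv0 r j) hε0 γ
          linarith
        split_ifs with h
        · obtain ⟨r, hr, hle⟩ := large_of_high (R := R) (ε := ε) hw hstp hthr hε0 hq hγ h
          refine le_trans ?_ (Finset.single_le_sum (f := fun r =>
            (1 / 16 : ℝ) ^ J * Phi R stp lam M thr ε (lvl w q r) (2 * J) γ)
            (fun r _ => hnn r) (Finset.mem_range.2 hr))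
          calc (1 : ℝ) = (1 / 16) ^ J * 16 ^ J := by
                rw [← mul_pow]; norm_num
            _ ≤ _ := mul_le_mul_of_nonneg_left hle (by positivity)
        · exact Finset.sum_nonneg fun r _ => hnn r
    _ = ∑ r ∈ range q, (1 / 16 : ℝ) ^ J *
          Ex R stp ((M + 1) * q * J) (Phi R stp lam M thr ε (lvl w q r) (2 * J)) [] := by
        rw [Ex_sum]
        refine Finset.sum_congr rfl fun r _ => ?_
        rw [Ex_const_mul]
    _ ≤ ∑ r ∈ range q, (1 / 16 : ℝ) ^ J * 4 ^ J := by
        refine Finset.sum_le_sum fun r _ => mul_le_mul_of_nonneg_left ?_ (by positivity)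
        refine le_trans (Ex_super (fun γ => Phi_super hw hstp hthr hε0 hgood (hlv0 r) (hlv r) _ γ)
          _ _) ?_
        rw [Phi_nil _ (hlv0 r), hε]
        have : (1 + 15 * (M * (1 / (15 * M))) : ℝ) = 2 := by field_simp; norm_num
        rw [this, pow_mul]; norm_num
    _ = q * (1 / 4) ^ J := by
        rw [Finset.sum_const, Finset.card_range, nsmul_eq_mul, ← mul_pow]; norm_num

end Pool.Agent.H96.Erw
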