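import Pool.Agent.H96.ErwCore

/-!
Uniformity: if the walk a.s. leaves `{lam ≥ 0}`, then it leaves every up-set within a bounded time,
with probability close to one, uniformly over the up-set and over histories made of a bounded
number of bounded excursions.
-/

open Finset Filter Topology

set_option linter.unusedSectionVars false

namespace Pool.Agent.H96.Erw

variable {G : Type} {E : Type} [AddCommGroup G] [DecidableEq G] [Fintype E]

section Pieces

variable (stp : E → G)

/-- end point of the path with steps `s` (most recent first) started at `p` -/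
def ps (p : G) : List E → G
  | [] => p
  | e :: s => ps p s + stp e

open Classical in
/-- effect on the history recorded on `A` of the path with steps `s` started at `p` -/
noncomputable def tr (A : Set G) (h : G → List E) (p : G) : List E → (G → List E)
  | [] => h
  | e :: s => if ps stp p s ∈ A then push (tr A h p s) (ps stp p s) e else tr A h p s

/-- histories on `A` made of `j` pieces of length at most `n` with end points outside `A` -/
inductive Hst (A : Set G) (n : ℕ) : ℕ → (G → List E) → Prop
  | zero : Hst A n 0 (fun _ => [])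
  | succ {j : ℕ} {h : G → List E} (p : G) (s : List E) : Hst A n j h → p ∉ A → s.length ≤ n →
      ps stp p s ∉ A → Hst A n (j + 1) (tr stp A h p s)

variable {stp} {R : Rule E} {lam : G →+ ℝ}

lemma tr_cons_mem {A : Set G} {h : G → List E} {p : G} {s : List E} (hs : ps stp p s ∈ A) (e : E) :
    tr stp A h p (e :: s) = push (tr stp A h p s) (ps stp p s) e := by
  simp [tr, hs]

lemma tr_cons_not_mem {A : Set G} {h : G → List E} {p : G} {s : List E}
    (hs : ps stp p s ∉ A) (e : E) : tr stp A h p (e :: s) = tr stp A h p s := by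
  simp [tr, hs]

lemma Rch_tr {A : Set G} {h : G → List E} {p : G} (hr : Rch stp A h p) (s : List E) :
    Rch stp A (tr stp A h p s) (ps stp p s) := by
  induction s with
  | nil => exact hr
  | cons e s ih =>
    by_cases hs : ps stp p s ∈ A
    · rw [tr_cons_mem hs]
      exact Rch.inn e ih hs
    · rw [tr_cons_not_mem hs]
      exact Rch.out e ih hs

lemma ps_shift (u p : G) (s : List E) : ps stp (p - u) s + u = ps stp p s := by
  induction s with
  | nil => simp [ps]
  | cons e s ih => rw [ps, ps, add_right_comm, ih]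

lemma tr_shift (A : Set G) (u p : G) (h : G → List E) (s : List E) :
    tr stp {y | y + u ∈ A} (fun y => h (y + u)) (p - u) s = fun y => tr stp A h p s (y + u) := by
  induction s with
  | nil => rfl
  | cons e s ih =>
    have hps := ps_shift (stp := stp) u p s
    by_cases hs : ps stp p s ∈ A
    · have hs' : ps stp (p - u) s ∈ {y | y + u ∈ A} := by
        show ps stp (p - u) s + u ∈ A
        rw [hps]; exact hs
      rw [tr_cons_mem hs, tr_cons_mem hs', ih, push_shift, hps]
    · have hs' : ps stp (p - u) s ∉ {y | y + u ∈ A} := by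
        show ¬ (ps stp (p - u) s + u ∈ A)
        rw [hps]; exact hs
      rw [tr_cons_not_mem hs, tr_cons_not_mem hs', ih]

lemma Hst_shift {A : Set G} (u : G) {n j : ℕ} {h : G → List E} (hh : Hst stp A n j h) :
    Hst stp {y | y + u ∈ A} n j (fun y => h (y + u)) := by
  induction hh with
  | zero => exact Hst.zero
  | @succ j h p s _ hp hs he ih =>
    rw [← tr_shift]
    refine Hst.succ (p - u) s ih ?_ hs ?_
    · show ¬ (p - u + u ∈ A)
      rwa [sub_add_cancel]
    · show ¬ (ps stp (p - u) s + u ∈ A)
      rwa [ps_shift]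

lemma Hst_mono {A : Set G} {n n' j : ℕ} (hn : n ≤ n') {h : G → List E} (hh : Hst stp A n j h) :
    Hst stp A n' j h := by
  induction hh with
  | zero => exact Hst.zero
  | @succ j h p s _ hp hs he ih => exact Hst.succ p s ih hp (hs.trans hn) he

lemma Ups_shift {A : Set G} (hA : Ups lam A) (u : G) : Ups lam {y | y + u ∈ A} := by
  intro x y hx hxy
  refine hA (x + u) (y + u) hx ?_
  rw [map_add, map_add]; linarith

/-- an ultrafilter is constant on a finite-valued function -/
lemma ultra_const {α β : Type*} (U : Ultrafilter α) (f : α → β) {S : Set β} (hS : S.Finite)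
    (hf : ∀ a, f a ∈ S) : ∃ b ∈ S, ∀ᶠ a in (U : Filter α), f a = b := by
  have h1 : (⋃ b ∈ S, {a | f a = b}) ∈ U := by
    have : (⋃ b ∈ S, {a | f a = b}) = Set.univ := by
      ext a; simp [hf a]
    rw [this]; exact Filter.univ_mem
  rw [Ultrafilter.finite_biUnion_mem_iff hS] at h1
  exact h1

lemma K_limit (U : Filter ℕ) {A : ℕ → Set G} {Ai : Set G}
    (hA : ∀ y, ∀ᶠ N in U, (y ∈ A N ↔ y ∈ Ai)) : ∀ (n : ℕ) (h : ℕ → G → List E)
    (hi : G → List E) (x : G), (∀ y, ∀ᶠ N in U, h N y = hi y) →
    ∀ᶠ N in U, K R stp (A N) n (h N) x = K R stp Ai n hi x := by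
  intro n
  induction n with
  | zero =>
    intro h hi x hh
    filter_upwards [hA x] with N hN
    by_cases hx : x ∈ Ai
    · rw [K_zero_mem hx, K_zero_mem (hN.2 hx)]
    · rw [K_not_mem hx, K_not_mem (fun hc => hx (hN.1 hc))]
  | succ n ih =>
    intro h hi x hh
    have h1 : ∀ e : E, ∀ᶠ N in U, K R stp (A N) n (push (h N) x e) (x + stp e)
        = K R stp Ai n (push hi x e) (x + stp e) := by
      intro e
      refine ih (fun N => push (h N) x e) (push hi x e) (x + stp e) fun y => ?_
      filter_upwards [hh y, hh x] with N hN hNx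
      by_cases hyx : y = x
      · subst hyx; rw [push_self, push_self, hN]
      · rw [push_ne _ _ hyx, push_ne _ _ hyx, hN]
    filter_upwards [hA x, hh x, eventually_all.2 h1] with N hN hNx hall
    by_cases hx : x ∈ Ai
    · rw [K_succ_mem hx, K_succ_mem (hN.2 hx), hNx]
      exact Finset.sum_congr rfl fun e _ => by rw [hall e]
    · rw [K_not_mem hx, K_not_mem (fun hc => hx (hN.1 hc))]

/-- limits of histories along an ultrafilter are reachable -/
lemma Hst_limit (hgen : ∀ g : G, ∃ s : Multiset E, (s.map stp).sum = g)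
    (U : Ultrafilter ℕ) {A : ℕ → Set G} {Ai : Set G}
    (hA : ∀ y, ∀ᶠ N in (U : Filter ℕ), (y ∈ A N ↔ y ∈ Ai)) (hAi : Ups lam Ai) (n : ℕ) :
    ∀ (j : ℕ) (h : ℕ → G → List E), (∀ N, Hst stp (A N) n j (h N)) →
    ∃ hi : G → List E, (∀ y, ∀ᶠ N in (U : Filter ℕ), h N y = hi y) ∧
      (∀ x, x ∉ Ai → Rch stp Ai hi x) := by
  intro j
  induction j with
  | zero =>
    intro h hh
    refine ⟨fun _ => [], fun y => Eventually.of_forall fun N => ?_, fun x hx => Rch.start hx⟩
    have := hh N
    generalize h N = g at this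
    cases this
    rfl
  | succ j ih =>
    intro h hh
    have h1 : ∀ N, ∃ (h' : G → List E) (p : G) (s : List E), Hst stp (A N) n j h' ∧ p ∉ A N ∧
        s.length ≤ n ∧ ps stp p s ∉ A N ∧ h N = tr stp (A N) h' p s := by
      intro N
      have := hh N
      generalize h N = g at this
      cases this with
      | succ p s h1 h2 h3 h4 => exact ⟨_, p, s, h1, h2, h3, h4, rfl⟩
    choose h' p s hH hp hs he heq using h1
    obtain ⟨hi', hc', hr'⟩ := ih h' hH
    obtain ⟨s0, -, hs0⟩ := ultra_const U s (List.finite_length_le E n) hs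
    by_cases hpc : ∃ p0, ∀ᶠ N in (U : Filter ℕ), p N = p0
    · obtain ⟨p0, hp0⟩ := hpc
      have hp0n : p0 ∉ Ai := by
        obtain ⟨N, hN1, hN2⟩ := (hp0.and (hA p0)).exists
        intro hc
        exact hp N (hN1 ▸ hN2.2 hc)
      have hconv : ∀ (s' : List E) (y : G), ∀ᶠ N in (U : Filter ℕ),
          tr stp (A N) (h' N) p0 s' y = tr stp Ai hi' p0 s' y := by
        intro s'
        induction s' with
        | nil => exact hc'
        | cons e s' ihs =>
          intro y
          filter_upwards [ihs y, ihs (ps stp p0 s'), hA (ps stp p0 s')] with N h1 h2 h3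
          by_cases hm : ps stp p0 s' ∈ Ai
          · rw [tr_cons_mem hm, tr_cons_mem (h3.2 hm)]
            by_cases hy : y = ps stp p0 s'
            · subst hy; rw [push_self, push_self, h1]
            · rw [push_ne _ _ hy, push_ne _ _ hy, h1]
          · rw [tr_cons_not_mem hm, tr_cons_not_mem (fun hc => hm (h3.1 hc)), h1]
      refine ⟨tr stp Ai hi' p0 s0, fun y => ?_, fun x hx => ?_⟩
      · filter_upwards [hconv s0 y, hp0, hs0] with N h1 h2 h3
        rw [heq N, h2, h3, h1]
      · have hend : ps stp p0 s0 ∉ Ai := by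
          obtain ⟨N, hN1, hN2, hN3⟩ := (hp0.and (hs0.and (hA (ps stp p0 s0)))).exists
          intro hc
          apply he N
          rw [hN1, hN2]
          exact hN3.2 hc
        exact Rch_connect hgen hAi hend hx (Rch_tr (hr' p0 hp0n) s0)
    · have hesc : ∀ y, ∀ᶠ N in (U : Filter ℕ), p N ≠ y := by
        intro y
        exact Ultrafilter.eventually_not.2 fun hc => hpc ⟨y, hc⟩
      have hesc2 : ∀ (s' : List E) (y : G), ∀ᶠ N in (U : Filter ℕ), ps stp (p N) s' ≠ y := by
        intro s'
        induction s' with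
        | nil => exact hesc
        | cons e s' ihs =>
          intro y
          filter_upwards [ihs (y - stp e)] with N hN hc
          apply hN
          rw [← hc, ps]; abel
      have hconv : ∀ (s' : List E) (y : G), ∀ᶠ N in (U : Filter ℕ),
          tr stp (A N) (h' N) (p N) s' y = h' N y := by
        intro s'
        induction s' with
        | nil => exact fun y => Eventually.of_forall fun N => rfl
        | cons e s' ihs =>
          intro y
          filter_upwards [ihs y, hesc2 s' y] with N h1 h2
          by_cases hm : ps stp (p N) s' ∈ A N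
          · rw [tr_cons_mem hm, push_ne _ _ h2.symm, h1]
          · rw [tr_cons_not_mem hm, h1]
      refine ⟨hi', fun y => ?_, hr'⟩
      filter_upwards [hconv s0 y, hs0, hc' y] with N h1 h2 h3
      rw [heq N, h2, h1, h3]

/-- Uniform exit: the survival function is uniformly small. -/
theorem uniform_exit (hgen : ∀ g : G, ∃ s : Multiset E, (s.map stp).sum = g)
    (hD : Kinf R stp {y | 0 ≤ lam y} (fun _ => []) 0 = 0)
    {e0 : E} (he0 : 0 < lam (stp e0)) (j n : ℕ) {ε : ℝ} (hε : 0 < ε) :
    ∃ N, ∀ A : Set G, Ups lam A → ∀ h, Hst stp A n j h → ∀ (p : G) (e : E), p ∉ A →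
      p + stp e ∈ A → K R stp A N h (p + stp e) ≤ ε := by
  by_contra hcon
  push Not at hcon
  choose A0 hA0 h0 hH0 p0 e0' hp0 hpe0 hK0 using hcon
  -- shift so that the entry point is `0`
  set u : ℕ → G := fun N => p0 N + stp (e0' N) with hu
  set A : ℕ → Set G := fun N => {y | y + u N ∈ A0 N} with hAdef
  set h : ℕ → G → List E := fun N y => h0 N (y + u N) with hhdef
  have hups : ∀ N, Ups lam (A N) := fun N => Ups_shift (hA0 N) (u N)
  have hH : ∀ N, Hst stp (A N) n j (h N) := fun N => Hst_shift (u N) (hH0 N)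
  have hK : ∀ N, ε < K R stp (A N) N (h N) 0 := by
    intro N
    have := K_shift (R := R) (stp := stp) (A0 N) (u N) N (h0 N) 0
    rw [zero_add] at this
    rw [hAdef, hhdef]
    simp only
    rw [this]
    exact hK0 N
  have hout : ∀ N, -stp (e0' N) ∉ A N := by
    intro N hc
    have : -stp (e0' N) + u N ∈ A0 N := hc
    rw [hu] at this
    simp only [neg_add_cancel_comm_assoc] at this
    exact hp0 N this
  set U : Ultrafilter ℕ := hyperfilter ℕ with hU
  set Ai : Set G := {y | ∀ᶠ N in (U : Filter ℕ), y ∈ A N} with hAi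
  have hlim : ∀ y, ∀ᶠ N in (U : Filter ℕ), (y ∈ A N ↔ y ∈ Ai) := by
    intro y
    by_cases hy : y ∈ Ai
    · have : ∀ᶠ N in (U : Filter ℕ), y ∈ A N := hy
      filter_upwards [this] with N hN
      exact ⟨fun _ => hy, fun _ => hN⟩
    · have : ∀ᶠ N in (U : Filter ℕ), y ∉ A N := by
        rw [Ultrafilter.eventually_not]; exact hy
      filter_upwards [this] with N hN
      exact ⟨fun hc => absurd hc hN, fun hc => absurd hc hy⟩
  have hupsi : Ups lam Ai := by
    intro x y hx hxy
    have hx' : ∀ᶠ N in (U : Filter ℕ), x ∈ A N := hx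
    show ∀ᶠ N in (U : Filter ℕ), y ∈ A N
    filter_upwards [hx'] with N hN
    exact hups N x y hN hxy
  obtain ⟨e1, -, he1⟩ := ultra_const U e0' (Set.finite_univ) (fun _ => Set.mem_univ _)
  have hout1 : -stp e1 ∉ Ai := by
    intro hc
    obtain ⟨N, hN1, hN2⟩ := (he1.and (hlim (-stp e1))).exists
    have := hN2.2 hc
    rw [← hN1] at this
    exact hout N this
  obtain ⟨hi, hconv, hreach⟩ := Hst_limit hgen U hlim hupsi n j h hH
  have hbdd : ∀ y ∈ Ai, lam (-stp e1) ≤ lam y := by
    intro y hy
    by_contra hc
    exact hout1 (hupsi y _ hy (not_le.1 hc).le)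
  have hr0 : Rch stp Ai hi 0 := by
    have := Rch.out e1 (hreach _ hout1) hout1
    rwa [neg_add_cancel] at this
  have hzero := Kinf_eq_zero_of_Rch hD he0 hupsi hbdd hr0
  obtain ⟨m, hm⟩ := Kinf_exists_lt (R := R) (stp := stp) (lt_of_eq_of_lt hzero hε)
  have hKl := K_limit (R := R) (stp := stp) (U : Filter ℕ) hlim m h hi 0 hconv
  have hge : ∀ᶠ N in (U : Filter ℕ), m ≤ N := by
    have h1 : (U : Filter ℕ) ≤ cofinite := hyperfilter_le_cofinite
    rw [Nat.cofinite_eq_atTop] at h1
    exact h1 (eventually_ge_atTop m)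
  obtain ⟨N, hN1, hN2⟩ := (hKl.and hge).exists
  have h1 : K R stp (A N) N (h N) 0 ≤ K R stp (A N) m (h N) 0 := K_anti (A N) (h N) 0 hN2
  have h2 := hK N
  linarith

end Pieces

end Pool.Agent.H96.Erw
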