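import Mathlib

/-!
# Hurewicz sets from towers: a Borel, non-sigma-compact group generated by a Hurewicz set (under CH)
-/

set_option autoImplicit false

open Filter Set

namespace Pool.H96.Hur

/-! ## Chains meeting `ℵ₁` many dense sets in a sigma-closed preorder -/

theorem exists_chain {P : Type} [Preorder P]
    (hσ : ∀ p : ℕ → P, (∀ m n, m ≤ n → p m ≤ p n) → ∃ q, ∀ n, p n ≤ q)
    {T : Type} [Nonempty T] (hT : Cardinal.mk T ≤ Cardinal.aleph 1) (D : T → Set P)
    (p0 : P) (hD : ∀ t p, ∃ q, p ≤ q ∧ q ∈ D t) :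
    ∃ C : Set P, (∀ p ∈ C, ∀ q ∈ C, p ≤ q ∨ q ≤ p) ∧ (∀ t, ∃ p ∈ C, p ∈ D t) := by
  classical
  let ι : Type := (Cardinal.aleph 1).ord.ToType
  have hι : Cardinal.mk ι = Cardinal.aleph 1 := by simp [ι]
  have hctbl : ∀ a : ι, (Set.Iio a).Countable := by
    intro a
    have h := Cardinal.mk_Iio_toType_ord_lt (c := Cardinal.aleph 1) a
    rw [← Cardinal.le_aleph0_iff_set_countable]
    have h1 : Cardinal.aleph.{0} 1 = Order.succ Cardinal.aleph0 := by simp
    exact Order.lt_succ_iff.mp (h.trans_eq h1)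
  obtain ⟨e, he⟩ : ∃ e : ι → T, Function.Surjective e := by
    have : Cardinal.mk T ≤ Cardinal.mk ι := by rw [hι]; exact hT
    obtain ⟨g⟩ := this
    exact ⟨Function.invFun g, Function.invFun_surjective g.injective⟩
  let Good : (a : ι) → ((b : ι) → b < a → P) → P → Prop :=
    fun a f q => q ∈ D (e a) ∧ ∀ b (hb : b < a), f b hb ≤ q
  let step : (a : ι) → ((b : ι) → b < a → P) → P :=
    fun a f => if h : ∃ q, Good a f q then Classical.choose h else p0
  let p : ι → P := WellFounded.fix (wellFounded_lt : WellFounded ((· < ·) : ι → ι → Prop)) step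
  have hp : ∀ a, p a = step a (fun b _ => p b) := fun a =>
    WellFounded.fix_eq (wellFounded_lt : WellFounded ((· < ·) : ι → ι → Prop)) step a
  have key : ∀ a, p a ∈ D (e a) ∧ ∀ b, b < a → p b ≤ p a := by
    intro a
    induction a using (wellFounded_lt : WellFounded ((· < ·) : ι → ι → Prop)).induction with
    | _ a ih =>
      have hub : ∃ q, ∀ b, b < a → p b ≤ q := by
        by_cases hne : (Set.Iio a).Nonempty
        · obtain ⟨f, hf⟩ := (hctbl a).exists_eq_range hne
          have hfa : ∀ n, f n < a := fun n => by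
            have : f n ∈ Set.Iio a := by rw [hf]; exact ⟨n, rfl⟩
            exact this
          -- running maximum
          let g : ℕ → ι := fun n => Nat.rec (f 0) (fun k r => max r (f (k + 1))) n
          have hg0 : g 0 = f 0 := rfl
          have hgs : ∀ n, g (n + 1) = max (g n) (f (n + 1)) := fun n => rfl
          have hga : ∀ n, g n < a := by
            intro n
            induction n with
            | zero => rw [hg0]; exact hfa 0
            | succ n ih => rw [hgs]; exact max_lt ih (hfa _)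
          have hgm : Monotone g := monotone_nat_of_le_succ (fun n => by
            rw [hgs]; exact le_max_left _ _)
          have hfg : ∀ n, f n ≤ g n := by
            intro n
            cases n with
            | zero => exact le_of_eq hg0.symm
            | succ n => rw [hgs]; exact le_max_right _ _
          have hpm : ∀ b c, b ≤ c → c < a → p b ≤ p c := by
            intro b c hbc hc
            rcases hbc.eq_or_lt with h | h
            · rw [h]
            · exact (ih c hc).2 b h
          obtain ⟨q, hq⟩ := hσ (fun n => p (g n)) (fun m n hmn => hpm _ _ (hgm hmn) (hga n))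
          refine ⟨q, fun b hb => ?_⟩
          have hb' : b ∈ Set.range f := by rw [← hf]; exact hb
          obtain ⟨n, rfl⟩ := hb'
          exact (hpm _ _ (hfg n) (hga n)).trans (hq n)
        · refine ⟨p0, fun b hb => ?_⟩
          exact absurd ⟨b, hb⟩ hne
      obtain ⟨q, hq⟩ := hub
      obtain ⟨q', hq', hqD⟩ := hD (e a) q
      have hex : ∃ q, Good a (fun b _ => p b) q :=
        ⟨q', hqD, fun b hb => (hq b hb).trans hq'⟩
      have : p a = Classical.choose hex := by
        rw [hp a]; simp only [step]; rw [dif_pos hex]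
      rw [this]
      exact Classical.choose_spec hex
  refine ⟨Set.range p, ?_, ?_⟩
  · rintro _ ⟨a, rfl⟩ _ ⟨b, rfl⟩
    rcases lt_trichotomy a b with h | h | h
    · exact Or.inl ((key b).2 a h)
    · exact Or.inl (by rw [h])
    · exact Or.inr ((key a).2 b h)
  · intro t
    obtain ⟨a, rfl⟩ := he t
    exact ⟨p a, ⟨a, rfl⟩, (key a).1⟩

/-! ## The forcing conditions -/

/-- A condition: for each row `i` a finite binary string, of length `M i`, with entries `S i j`. -/
structure Cond where
  M : ℕ → ℕ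
  S : ℕ → ℕ → Bool

/-- In row `i`, the string of `q` end-extends that of `p`. -/
def rle (p q : Cond) (i : ℕ) : Prop := p.M i ≤ q.M i ∧ ∀ j, j < p.M i → q.S i j = p.S i j

theorem rle_refl (p : Cond) (i : ℕ) : rle p p i := ⟨le_rfl, fun _ _ => rfl⟩

theorem rle_trans {p q r : Cond} {i : ℕ} (h : rle p q i) (h' : rle q r i) : rle p r i :=
  ⟨h.1.trans h'.1, fun j hj => (h'.2 j (hj.trans_le h.1)).trans (h.2 j hj)⟩

instance : Preorder Cond where
  le p q := ∀ᶠ i in atTop, rle p q i
  le_refl p := Eventually.of_forall (rle_refl p)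
  le_trans p q r h h' := by
    filter_upwards [h, h'] with i hi hi' using rle_trans hi hi'

theorem le_def (p q : Cond) : p ≤ q ↔ ∀ᶠ i in atTop, rle p q i := Iff.rfl

theorem cond_sigma (p : ℕ → Cond) (hp : ∀ m n, m ≤ n → p m ≤ p n) : ∃ q, ∀ n, p n ≤ q := by
  classical
  let good : ℕ → ℕ → Prop := fun n i => ∀ m, m ≤ n → rle (p m) (p n) i
  let N : ℕ → ℕ := fun i => Nat.findGreatest (fun n => good n i) i
  have hN : ∀ i, good (N i) i := by
    intro i
    refine Nat.findGreatest_spec (P := fun n => good n i) (Nat.zero_le i) ?_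
    intro m hm
    have : m = 0 := Nat.le_zero.mp hm
    subst this
    exact rle_refl _ _
  refine ⟨⟨fun i => (p (N i)).M i, fun i j => (p (N i)).S i j⟩, fun n => ?_⟩
  have hgood : ∀ᶠ i in atTop, good n i := by
    have : ∀ m ∈ Finset.range (n + 1), ∀ᶠ i in atTop, rle (p m) (p n) i := fun m hm =>
      hp m n (Nat.lt_succ_iff.mp (Finset.mem_range.mp hm))
    have h2 := (Finset.eventually_all (Finset.range (n + 1))).mpr this
    filter_upwards [h2] with i hi m hm
    exact hi m (Finset.mem_range.mpr (Nat.lt_succ_of_le hm))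
  rw [le_def]
  filter_upwards [hgood, eventually_ge_atTop n] with i hi hni
  have hnN : n ≤ N i := Nat.le_findGreatest hni hi
  have := hN i n hnN
  exact this

/-! ## The compact sets -/

/-- The ambient compact group: all functions `ℕ → ℕ → {1,-1}`. -/
abbrev G : Type := ℕ → ℕ → ℤˣ

/-- Almost every row of `x` is supported on those places where the string of `p` has value `b`. -/
def Aset (b : Bool) (p : Cond) : Set G :=
  {x | ∀ᶠ i in atTop, ∀ j, x i j ≠ 1 → j < p.M i ∧ p.S i j = b}

theorem Aset_mono (b : Bool) {p q : Cond} (h : p ≤ q) : Aset b p ⊆ Aset b q := by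
  intro x hx
  filter_upwards [hx, (le_def p q).mp h] with i hi hr j hj
  obtain ⟨h1, h2⟩ := hi j hj
  exact ⟨h1.trans_le hr.1, (hr.2 j h1).trans h2⟩

/-- window condition -/
def Win (b : Bool) (p : Cond) (n N : ℕ) : Set G :=
  {x | ∀ i, n ≤ i → i < N → ∀ j, j < N → x i j ≠ 1 → j < p.M i ∧ p.S i j = b}

theorem isClosed_Win (b : Bool) (p : Cond) (n N : ℕ) : IsClosed (Win b p n N) := by
  have : Win b p n N = ⋂ i, ⋂ (_ : n ≤ i), ⋂ (_ : i < N), ⋂ j, ⋂ (_ : j < N),
      {x : G | x i j ≠ 1 → j < p.M i ∧ p.S i j = b} := by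
    ext x; simp [Win]
  rw [this]
  refine isClosed_iInter fun i => isClosed_iInter fun _ => isClosed_iInter fun _ =>
    isClosed_iInter fun j => isClosed_iInter fun _ => ?_
  have hc : Continuous (fun x : G => x i j) := by fun_prop
  have : {x : G | x i j ≠ 1 → j < p.M i ∧ p.S i j = b} =
      (fun x : G => x i j) ⁻¹' {u | u ≠ 1 → j < p.M i ∧ p.S i j = b} := rfl
  rw [this]
  exact (isClosed_discrete _).preimage hc

/-- Key Lemma. -/
theorem key_lemma (b : Bool) (p : Cond) (U : ℕ → Set G) (hU : ∀ n, IsOpen (U n))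
    (hp : Aset b p ⊆ ⋂ n, U n) :
    ∃ q, p ≤ q ∧ ∃ K : ℕ → Set G, (∀ n, IsCompact (K n)) ∧ Monotone K ∧ (⋃ n, K n) ⊆ ⋂ n, U n ∧
      ∀ r, q ≤ r → Aset b r ⊆ ⋃ n, K n := by
  classical
  let U' : ℕ → Set G := fun n => ⋂ m ∈ Finset.range (n + 1), U m
  have hU' : ∀ n, IsOpen (U' n) := fun n => isOpen_biInter_finset (fun m _ => hU m)
  have hwin : ∀ n, ∃ N, Win b p n N ⊆ U' n := by
    intro n
    have hanti : ∀ N N', N ≤ N' → Win b p n N' ⊆ Win b p n N := by
      intro N N' hN x hx i hi hiN j hj hxj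
      exact hx i hi (hiN.trans_le hN) j (hj.trans_le hN) hxj
    refine exists_subset_nhds_of_isCompact' (V := fun N => Win b p n N) ?_ ?_ ?_ ?_
    · intro N N'
      exact ⟨max N N', hanti _ _ (le_max_left _ _), hanti _ _ (le_max_right _ _)⟩
    · intro N; exact (isClosed_Win b p n N).isCompact
    · intro N; exact isClosed_Win b p n N
    · intro x hx
      refine (hU' n).mem_nhds ?_
      have hxA : x ∈ Aset b p := by
        filter_upwards [eventually_ge_atTop n] with i hi j hj
        have := Set.mem_iInter.mp hx (max (i + 1) (j + 1))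
        exact this i hi (lt_of_lt_of_le (Nat.lt_succ_self i) (le_max_left _ _)) j
          (lt_of_lt_of_le (Nat.lt_succ_self j) (le_max_right _ _)) hj
      have := hp hxA
      simp only [U', Set.mem_iInter]
      intro m _
      exact Set.mem_iInter.mp this m
  choose N hN using hwin
  let q : Cond := ⟨fun i => max (p.M i) ((Finset.range (i + 1)).sup N),
    fun i j => if j < p.M i then p.S i j else !b⟩
  let K : ℕ → Set G := fun m => ⋂ n, ⋂ (_ : m ≤ n), Win b p n (N n)
  refine ⟨q, ?_, K, ?_, ?_, ?_, ?_⟩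
  · rw [le_def]
    refine Eventually.of_forall (fun i => ⟨le_max_left _ _, fun j hj => ?_⟩)
    simp [q, hj]
  · intro m
    exact (isClosed_iInter fun n => isClosed_iInter fun _ => isClosed_Win b p n (N n)).isCompact
  · intro m m' hm x hx
    simp only [K, Set.mem_iInter] at hx ⊢
    intro n hn
    exact hx n (le_trans hm hn)
  · intro x hx
    obtain ⟨m, hm⟩ := Set.mem_iUnion.mp hx
    refine Set.mem_iInter.mpr (fun k => ?_)
    have h1 : x ∈ Win b p (max m k) (N (max m k)) := by
      have := hm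
      simp only [K, Set.mem_iInter] at this
      exact this (max m k) (le_max_left _ _)
    have h2 := hN _ h1
    simp only [U', Set.mem_iInter] at h2
    exact h2 k (Finset.mem_range.mpr (Nat.lt_succ_of_le (le_max_right _ _)))
  · intro r hr x hx
    obtain ⟨i0, hi0⟩ := eventually_atTop.mp (hx.and ((le_def q r).mp hr))
    refine Set.mem_iUnion.mpr ⟨i0, ?_⟩
    simp only [K, Set.mem_iInter]
    intro n hn i hni hiN j hjN hxj
    obtain ⟨h1, h2⟩ := hi0 i (le_trans hn hni)
    obtain ⟨h3, h4⟩ := h1 j hxj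
    have hqM : j < q.M i := by
      refine lt_of_lt_of_le hjN (le_trans ?_ (le_max_right _ _))
      exact Finset.le_sup (f := N) (Finset.mem_range.mpr (Nat.lt_succ_of_le hni))
    have h5 := h2.2 j hqM
    rw [h5] at h4
    by_cases hj : j < p.M i
    · refine ⟨hj, ?_⟩
      simpa [q, hj] using h4
    · exfalso
      simp [q, hj] at h4

/-! ## The group `H` of all `x` almost all of whose rows have finite support -/

/-- almost every row of `x` has finite support -/
def Hgrp : Subgroup G where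
  carrier := {x | ∀ᶠ i in atTop, ∀ᶠ j in atTop, x i j = 1}
  one_mem' := by
    refine Eventually.of_forall fun i => Eventually.of_forall fun j => rfl
  mul_mem' := by
    intro x y hx hy
    filter_upwards [hx, hy] with i hi hi'
    filter_upwards [hi, hi'] with j hj hj'
    show x i j * y i j = 1
    rw [hj, hj', one_mul]
  inv_mem' := by
    intro x hx
    filter_upwards [hx] with i hi
    filter_upwards [hi] with j hj
    show (x i j)⁻¹ = 1
    rw [hj, inv_one]

theorem mem_Hgrp {x : G} : x ∈ Hgrp ↔ ∀ᶠ i in atTop, ∀ᶠ j in atTop, x i j = 1 := Iff.rfl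

theorem Aset_subset (b : Bool) (p : Cond) : Aset b p ⊆ (Hgrp : Set G) := by
  intro x hx
  show ∀ᶠ i in atTop, ∀ᶠ j in atTop, x i j = 1
  filter_upwards [hx] with i hi
  filter_upwards [eventually_ge_atTop (p.M i)] with j hj
  by_contra h
  exact absurd (hi j h).1 (not_lt.mpr hj)

theorem Hgrp_eq : (Hgrp : Set G) =
    ⋃ n, ⋂ i, ⋂ (_ : n ≤ i), ⋃ m, ⋂ j, ⋂ (_ : m ≤ j), {x : G | x i j = 1} := by
  ext x
  simp only [SetLike.mem_coe, mem_Hgrp, Set.mem_iUnion, Set.mem_iInter, eventually_atTop]
  rfl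

theorem Hgrp_meas : @MeasurableSet G (borel G) (Hgrp : Set G) := by
  let _ : MeasurableSpace G := borel G
  have _ : BorelSpace G := ⟨rfl⟩
  rw [Hgrp_eq]
  refine MeasurableSet.iUnion fun n => MeasurableSet.iInter fun i => MeasurableSet.iInter fun _ =>
    MeasurableSet.iUnion fun m => MeasurableSet.iInter fun j => MeasurableSet.iInter fun _ => ?_
  have hc : Continuous (fun x : G => x i j) := by fun_prop
  exact ((isClosed_discrete ({1} : Set ℤˣ)).preimage hc).measurableSet

/-- the point of `G` whose `i`-th row is supported exactly on `[0, f i)` -/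
def phi (f : ℕ → ℕ) : G := fun i j => if j < f i then -1 else 1

theorem phi_cont : Continuous phi := by
  refine continuous_pi fun i => continuous_pi fun j => ?_
  have : (fun f : ℕ → ℕ => phi f i j) = (fun k : ℕ => if j < k then (-1 : ℤˣ) else 1) ∘
      (fun f : ℕ → ℕ => f i) := rfl
  rw [this]
  exact (continuous_of_discreteTopology).comp (continuous_apply i)

theorem phi_mem (f : ℕ → ℕ) : phi f ∈ (Hgrp : Set G) := by
  show ∀ᶠ i in atTop, ∀ᶠ j in atTop, phi f i j = 1
  refine Eventually.of_forall fun i => ?_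
  filter_upwards [eventually_ge_atTop (f i)] with j hj
  simp [phi, not_lt.mpr hj]

theorem Hgrp_not_sigmaCompact : ¬ IsSigmaCompact (Hgrp : Set G) := by
  rintro ⟨K, hK, hKH⟩
  have hcl : ∀ n, IsClosed (phi ⁻¹' (K n)) := fun n => (hK n).isClosed.preimage phi_cont
  have hun : ⋃ n, phi ⁻¹' (K n) = univ := by
    rw [← Set.preimage_iUnion, hKH]
    exact Set.eq_univ_of_forall phi_mem
  obtain ⟨n, u, hu⟩ := nonempty_interior_of_iUnion_of_closed hcl hun
  have hnh : phi ⁻¹' (K n) ∈ nhds u := mem_interior_iff_mem_nhds.mp hu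
  -- a basic neighbourhood
  obtain ⟨m, hm⟩ : ∃ m : ℕ, ∀ f : ℕ → ℕ, (∀ i, i < m → f i = u i) → phi f ∈ K n := by
    rw [nhds_pi, Filter.mem_pi] at hnh
    obtain ⟨I, hI, t, ht, hsub⟩ := hnh
    obtain ⟨m, hm⟩ := hI.bddAbove
    refine ⟨m + 1, fun f hf => hsub ?_⟩
    intro i hi
    rw [hf i (Nat.lt_succ_of_le (hm hi))]
    exact mem_of_mem_nhds (ht i)
  -- the limit point
  let F : ℕ → ℕ → ℕ := fun t i => if i < m then u i else t
  let x : G := fun i j => if i < m then phi u i j else -1
  have hlim : Tendsto (fun t => phi (F t)) atTop (nhds x) := by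
    rw [tendsto_pi_nhds]
    intro i
    rw [tendsto_pi_nhds]
    intro j
    refine tendsto_const_nhds.congr' ?_
    filter_upwards [eventually_gt_atTop j] with t ht
    by_cases hi : i < m
    · simp [x, phi, F, hi]
    · simp [x, phi, F, hi, ht]
  have hxK : x ∈ K n := by
    refine (hK n).isClosed.mem_of_tendsto hlim (Eventually.of_forall fun t => ?_)
    exact hm _ (fun i hi => by simp [F, hi])
  have hxH : x ∈ (Hgrp : Set G) := by rw [← hKH]; exact Set.mem_iUnion.mpr ⟨n, hxK⟩
  have h1 : ∀ᶠ i in atTop, ∀ᶠ j in atTop, x i j = 1 := hxH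
  obtain ⟨i, hi, hi'⟩ := (h1.and (eventually_ge_atTop m)).exists
  obtain ⟨j, hj⟩ := hi.exists
  simp [x, not_lt.mpr hi'] at hj

/-! ## The sigma-compact sandwich property and the Hurewicz property -/

/-- every `G_δ` set above `X` contains a sigma-compact set above `X` -/
def Sandwich {Y : Type} [TopologicalSpace Y] (X : Set Y) : Prop :=
  ∀ U : ℕ → Set Y, (∀ n, IsOpen (U n)) → X ⊆ ⋂ n, U n →
    ∃ K : ℕ → Set Y, (∀ n, IsCompact (K n)) ∧ Monotone K ∧ (⋃ n, K n) ⊆ ⋂ n, U n ∧ X ⊆ ⋃ n, K n

theorem Sandwich.union {Y : Type} [TopologicalSpace Y] {X X' : Set Y} (h : Sandwich X)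
    (h' : Sandwich X') : Sandwich (X ∪ X') := by
  intro U hU hX
  obtain ⟨K, h1, h2, h3, h4⟩ := h U hU (subset_union_left.trans hX)
  obtain ⟨K', h1', h2', h3', h4'⟩ := h' U hU (subset_union_right.trans hX)
  refine ⟨fun n => K n ∪ K' n, fun n => (h1 n).union (h1' n), fun m n hmn =>
    union_subset_union (h2 hmn) (h2' hmn), ?_, ?_⟩
  · rw [Set.iUnion_union_distrib]; exact union_subset h3 h3'
  · rw [Set.iUnion_union_distrib]; exact union_subset_union h4 h4'

/-- The Hurewicz property in the form used in the frozen statement. -/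
def Hur {Y : Type} [TopologicalSpace Y] (X : Set Y) : Prop :=
  ∀ U : ℕ → Set (Set Y), (∀ n, (∀ u ∈ U n, IsOpen u) ∧ X ⊆ ⋃₀ U n) →
    ∃ F : ℕ → Finset (Set Y), (∀ n, (↑(F n) : Set (Set Y)) ⊆ U n) ∧
      ∀ x ∈ X, ∀ᶠ n in Filter.atTop, x ∈ ⋃₀ ((↑(F n) : Set (Set Y)))

theorem Sandwich.hur {Y : Type} [TopologicalSpace Y] {X : Set Y} (h : Sandwich X) : Hur X := by
  classical
  intro U hU
  obtain ⟨K, hK, hmono, hKU, hXK⟩ := h (fun n => ⋃₀ U n)
    (fun n => isOpen_sUnion (hU n).1) (Set.subset_iInter fun n => (hU n).2)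
  have : ∀ n, ∃ F : Finset (Set Y), (↑F : Set (Set Y)) ⊆ U n ∧ K n ⊆ ⋃₀ (↑F : Set (Set Y)) := by
    intro n
    have hsub : K n ⊆ ⋃₀ U n := fun x hx =>
      Set.mem_iInter.mp (hKU (Set.mem_iUnion.mpr ⟨n, hx⟩)) n
    obtain ⟨T, hT⟩ := (hK n).elim_finite_subcover (fun u : U n => (u : Set Y))
      (fun u => (hU n).1 u u.2) (by rwa [← Set.sUnion_eq_iUnion])
    refine ⟨T.image Subtype.val, ?_, ?_⟩
    · intro u hu
      obtain ⟨v, _, rfl⟩ := Finset.mem_image.mp (Finset.mem_coe.mp hu)
      exact v.2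
    · intro x hx
      obtain ⟨v, hv, hxv⟩ := Set.mem_iUnion₂.mp (hT hx)
      exact ⟨v, Finset.mem_coe.mpr (Finset.mem_image.mpr ⟨v, hv, rfl⟩), hxv⟩
  choose F hF hKF using this
  refine ⟨F, hF, fun x hx => ?_⟩
  obtain ⟨m, hm⟩ := Set.mem_iUnion.mp (hXK hx)
  filter_upwards [eventually_ge_atTop m] with n hn
  exact hKF n (hmono hn hm)


/-! ## The construction under CH -/

/-- The open set coded by `c` and `n`. -/
def decode (c : Set (ℕ × TopologicalSpace.countableBasis G)) (n : ℕ) : Set G :=
  ⋃ u : TopologicalSpace.countableBasis G, ⋃ (_ : (n, u) ∈ c), (u : Set G)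

theorem isOpen_decode (c : Set (ℕ × TopologicalSpace.countableBasis G)) (n : ℕ) :
    IsOpen (decode c n) :=
  isOpen_iUnion fun u => isOpen_iUnion fun _ => TopologicalSpace.isOpen_of_mem_countableBasis u.2

theorem exists_code (U : ℕ → Set G) (hU : ∀ n, IsOpen (U n)) : ∃ c, ∀ n, decode c n = U n := by
  refine ⟨{z | (z.2 : Set G) ⊆ U z.1}, fun n => ?_⟩
  ext x
  simp only [decode, Set.mem_iUnion, Set.mem_setOf_eq, exists_prop]
  constructor
  · rintro ⟨u, hu, hx⟩; exact hu hx
  · intro hx
    obtain ⟨u, hu, hxu, huU⟩ := (TopologicalSpace.isBasis_countableBasis G).exists_subset_of_mem_open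
      hx (hU n)
    exact ⟨⟨u, hu⟩, huU, hxu⟩

/-- The tasks. -/
abbrev Task : Type := Bool × Set (ℕ × TopologicalSpace.countableBasis G) × (ℕ → ℕ)

theorem mk_task : Cardinal.mk Task ≤ Cardinal.continuum := by
  have h1 : Cardinal.mk Bool ≤ Cardinal.continuum := by
    rw [Cardinal.mk_bool]; exact (Cardinal.nat_lt_continuum 2).le
  have h2 : Cardinal.mk (Set (ℕ × TopologicalSpace.countableBasis G)) ≤ Cardinal.continuum := by
    rw [Cardinal.mk_set, ← Cardinal.two_power_aleph0]
    have : Countable (TopologicalSpace.countableBasis G) :=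
      (TopologicalSpace.countable_countableBasis G).to_subtype
    exact Cardinal.power_le_power_left (by norm_num) Cardinal.mk_le_aleph0
  have h3 : Cardinal.mk (ℕ → ℕ) ≤ Cardinal.continuum := by
    simp
  calc Cardinal.mk Task = Cardinal.mk Bool *
        (Cardinal.mk (Set (ℕ × TopologicalSpace.countableBasis G)) * Cardinal.mk (ℕ → ℕ)) := by
        simp [Task, Cardinal.mk_prod]
    _ ≤ Cardinal.continuum * (Cardinal.continuum * Cardinal.continuum) :=
        mul_le_mul' h1 (mul_le_mul' h2 h3)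
    _ = Cardinal.continuum := by simp

/-- the dense set attached to a task -/
def Dense (t : Task) : Set Cond :=
  {p | (¬ Aset t.1 p ⊆ ⋂ n, decode t.2.1 n ∨
      ∃ K : ℕ → Set G, (∀ n, IsCompact (K n)) ∧ Monotone K ∧
        (⋃ n, K n) ⊆ ⋂ n, decode t.2.1 n ∧ ∀ r, p ≤ r → Aset t.1 r ⊆ ⋃ n, K n) ∧
    ∀ i, t.2.2 i ≤ p.M i}

theorem dense_dense (t : Task) (p : Cond) : ∃ q, p ≤ q ∧ q ∈ Dense t := by
  classical
  -- first extend the lengths
  let p' : Cond := ⟨fun i => max (p.M i) (t.2.2 i), p.S⟩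
  have hpp' : p ≤ p' := Eventually.of_forall fun i => ⟨le_max_left _ _, fun _ _ => rfl⟩
  by_cases h : Aset t.1 p' ⊆ ⋂ n, decode t.2.1 n
  · obtain ⟨q, hq, K, hK1, hK2, hK3, hK4⟩ :=
      key_lemma t.1 p' (decode t.2.1) (isOpen_decode t.2.1) h
    -- lengths of `q` may be smaller than required in finitely many rows: repair
    let q' : Cond := ⟨fun i => max (q.M i) (t.2.2 i), q.S⟩
    have hqq' : q ≤ q' := Eventually.of_forall fun i => ⟨le_max_left _ _, fun _ _ => rfl⟩
    refine ⟨q', (hpp'.trans hq).trans hqq', Or.inr ⟨K, hK1, hK2, hK3, fun r hr => ?_⟩,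
      fun i => le_max_right _ _⟩
    exact hK4 r (hqq'.trans hr)
  · exact ⟨p', hpp', Or.inl h, fun i => le_max_right _ _⟩

theorem main_CH (hCH : Cardinal.aleph.{0} 1 = Cardinal.continuum) :
    ∃ X : Set G, Subgroup.closure X = Hgrp ∧ Sandwich X := by
  classical
  have : Nonempty Task := ⟨(true, ∅, fun _ => 0)⟩
  obtain ⟨C, hC, hCD⟩ := exists_chain (P := Cond) cond_sigma (T := Task)
    (by rw [hCH]; exact mk_task) Dense ⟨fun _ => 0, fun _ _ => true⟩ dense_dense
  let XX : Bool → Set G := fun b => ⋃ p ∈ C, Aset b p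
  have hS : ∀ b, Sandwich (XX b) := by
    intro b U hU hX
    obtain ⟨c, hc⟩ := exists_code U hU
    obtain ⟨p, hpC, hpD, _⟩ := hCD (b, c, fun _ => 0)
    have hdec : (⋂ n, decode c n) = ⋂ n, U n := by simp only [hc]
    rw [hdec] at hpD
    rcases hpD with h | ⟨K, hK1, hK2, hK3, hK4⟩
    · exact absurd (fun x hx => hX (Set.mem_biUnion hpC hx)) h
    · refine ⟨K, hK1, hK2, hK3, ?_⟩
      intro x hx
      obtain ⟨r, hrC, hxr⟩ := Set.mem_iUnion₂.mp hx
      rcases hC p hpC r hrC with h | h
      · exact hK4 r h hxr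
      · exact hK4 p le_rfl (Aset_mono b h hxr)
  refine ⟨XX false ∪ XX true, ?_, (hS false).union (hS true)⟩
  apply le_antisymm
  · rw [Subgroup.closure_le]
    rintro x (hx | hx)
    · obtain ⟨r, _, hxr⟩ := Set.mem_iUnion₂.mp hx
      exact Aset_subset _ _ hxr
    · obtain ⟨r, _, hxr⟩ := Set.mem_iUnion₂.mp hx
      exact Aset_subset _ _ hxr
  · intro x hx
    have hx' : ∀ᶠ i in atTop, ∀ᶠ j in atTop, x i j = 1 := hx
    -- bound for the supports
    have hb : ∀ i, ∃ m, (∀ᶠ j in atTop, x i j = 1) → ∀ j, m ≤ j → x i j = 1 := by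
      intro i
      by_cases h : ∀ᶠ j in atTop, x i j = 1
      · obtain ⟨m, hm⟩ := eventually_atTop.mp h
        exact ⟨m, fun _ => hm⟩
      · exact ⟨0, fun h' => absurd h' h⟩
    choose f hf using hb
    obtain ⟨p, hpC, _, hpf⟩ := hCD (true, ∅, f)
    have hpf' : ∀ i, f i ≤ p.M i := hpf
    let y : G := fun i j => if j < p.M i ∧ p.S i j = false then 1 else x i j
    let z : G := fun i j => if j < p.M i ∧ p.S i j = false then x i j else 1
    have hyz : y * z = x := by
      ext i j : 2
      show y i j * z i j = x i j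
      by_cases h : j < p.M i ∧ p.S i j = false
      · simp [y, z, h]
      · simp only [y, z, if_neg h, mul_one]
    have hy : y ∈ XX true := by
      refine Set.mem_biUnion hpC ?_
      show ∀ᶠ i in atTop, ∀ j, y i j ≠ 1 → j < p.M i ∧ p.S i j = true
      filter_upwards [hx'] with i hi j hj
      by_cases h : j < p.M i ∧ p.S i j = false
      · exact absurd (by simp [y, h]) hj
      · have hxj : x i j ≠ 1 := by
          intro h1; apply hj; simp only [y, if_neg h]; exact h1
        have hjM : j < p.M i := by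
          by_contra hjM
          exact hxj (hf i hi j ((hpf' i).trans (not_lt.mp hjM)))
        refine ⟨hjM, ?_⟩
        cases hS' : p.S i j with
        | true => rfl
        | false => exact absurd ⟨hjM, hS'⟩ h
    have hz : z ∈ XX false := by
      refine Set.mem_biUnion hpC ?_
      show ∀ᶠ i in atTop, ∀ j, z i j ≠ 1 → j < p.M i ∧ p.S i j = false
      refine Eventually.of_forall fun i j hj => ?_
      by_contra h
      exact hj (by simp only [z, if_neg h])
    rw [← hyz]
    exact mul_mem (Subgroup.subset_closure (Or.inr hy)) (Subgroup.subset_closure (Or.inl hz))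

/-- Under CH there is a Hurewicz subset of a compact Polish group generating a Borel subgroup
that is not sigma-compact. -/
theorem frozen_of_CH (hCH : Cardinal.aleph.{0} 1 = Cardinal.continuum) :
    ∃ (G : Type) (_ : TopologicalSpace G) (_ : PolishSpace G) (_ : Group G)
      (_ : IsTopologicalGroup G) (X : Set G),
      @MeasurableSet G (borel G) ((Subgroup.closure X : Subgroup G) : Set G) ∧
      ¬ IsSigmaCompact ((Subgroup.closure X : Subgroup G) : Set G) ∧
      ∀ U : ℕ → Set (Set G), (∀ n, (∀ u ∈ U n, IsOpen u) ∧ X ⊆ ⋃₀ U n) →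
        ∃ F : ℕ → Finset (Set G), (∀ n, (↑(F n) : Set (Set G)) ⊆ U n) ∧
          ∀ x ∈ X, ∀ᶠ n in Filter.atTop, x ∈ ⋃₀ ((↑(F n) : Set (Set G))) := by
  obtain ⟨X, hX, hS⟩ := main_CH hCH
  refine ⟨G, inferInstance, { }, inferInstance, inferInstance, X, ?_, ?_, hS.hur⟩
  · rw [hX]; exact Hgrp_meas
  · rw [hX]; exact Hgrp_not_sigmaCompact

end Pool.H96.Hur
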