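import Mathlib
import Pool.Agent.H96.HurTower

/-!
# Menger sets: analytic Menger sets are sigma-compact, and the negative direction
-/

set_option autoImplicit false

open Filter Set Topology

namespace Pool.H96.Hur

/-- The Menger property of a subset of a space. -/
def Menger {Y : Type} [TopologicalSpace Y] (X : Set Y) : Prop :=
  ∀ U : ℕ → Set (Set Y), (∀ n, (∀ u ∈ U n, IsOpen u) ∧ X ⊆ ⋃₀ U n) →
    ∃ F : ℕ → Finset (Set Y), (∀ n, (↑(F n) : Set (Set Y)) ⊆ U n) ∧
      ∀ x ∈ X, ∃ n, x ∈ ⋃₀ ((↑(F n) : Set (Set Y)))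

theorem Menger.image {Y Z : Type} [TopologicalSpace Y] [TopologicalSpace Z] {X : Set Y}
    (h : Menger X) {f : Y → Z} (hf : Continuous f) : Menger (f '' X) := by
  classical
  intro U hU
  have hcov : ∀ n, (∀ u ∈ (fun u => f ⁻¹' u) '' U n, IsOpen u) ∧
      X ⊆ ⋃₀ ((fun u => f ⁻¹' u) '' U n) := by
    intro n
    constructor
    · rintro _ ⟨u, hu, rfl⟩
      exact ((hU n).1 u hu).preimage hf
    · intro x hx
      obtain ⟨u, hu, hxu⟩ := (hU n).2 ⟨x, hx, rfl⟩
      exact ⟨f ⁻¹' u, ⟨u, hu, rfl⟩, hxu⟩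
  obtain ⟨F, hF, hFX⟩ := h (fun n => (fun u => f ⁻¹' u) '' U n) hcov
  choose! g hg using fun n (u : Set Y) (hu : u ∈ (fun u => f ⁻¹' u) '' U n) => hu
  refine ⟨fun n => (F n).image (g n), fun n => ?_, ?_⟩
  · intro u hu
    obtain ⟨v, hv, rfl⟩ := Finset.mem_image.mp (Finset.mem_coe.mp hu)
    exact (hg n v (hF n hv)).1
  · rintro _ ⟨x, hx, rfl⟩
    obtain ⟨n, v, hv, hxv⟩ := hFX x hx
    refine ⟨n, g n v, Finset.mem_coe.mpr (Finset.mem_image.mpr ⟨v, hv, rfl⟩), ?_⟩
    have h3 : f ⁻¹' (g n v) = v := (hg n v (hF n hv)).2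
    have h2 : x ∈ f ⁻¹' (g n v) := by rw [h3]; exact hxv
    exact h2

theorem Menger.iUnion {Y : Type} [TopologicalSpace Y] {X : ℕ → Set Y} (h : ∀ k, Menger (X k)) :
    Menger (⋃ k, X k) := by
  intro U hU
  choose F hF hFX using fun k => h k (fun n => U (Nat.pair k n))
    (fun n => ⟨(hU _).1, (Set.subset_iUnion X k).trans (hU _).2⟩)
  refine ⟨fun m => F (Nat.unpair m).1 (Nat.unpair m).2, fun m => ?_, ?_⟩
  · have := hF (Nat.unpair m).1 (Nat.unpair m).2
    rwa [Nat.pair_unpair] at this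
  · intro x hx
    obtain ⟨k, hk⟩ := Set.mem_iUnion.mp hx
    obtain ⟨n, hn⟩ := hFX k x hk
    exact ⟨Nat.pair k n, by simpa using hn⟩

theorem Menger.iUnion_countable {Y ι : Type} [TopologicalSpace Y] [Countable ι] [Nonempty ι]
    {X : ι → Set Y} (h : ∀ k, Menger (X k)) : Menger (⋃ k, X k) := by
  obtain ⟨e, he⟩ := exists_surjective_nat ι
  have : (⋃ k, X k) = ⋃ n, X (e n) := (he.iUnion_comp X).symm
  rw [this]
  exact Menger.iUnion fun n => h (e n)

/-! ## analytic Menger sets are sigma-compact -/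

section analytic

variable {Y : Type} [MetricSpace Y]

/-- contained in a sigma-compact subset of `H` -/
def Small (H S : Set Y) : Prop := ∃ K, IsSigmaCompact K ∧ S ⊆ K ∧ K ⊆ H

theorem Small.mono {H S S' : Set Y} (h : Small H S) (hS : S' ⊆ S) : Small H S' := by
  obtain ⟨K, h1, h2, h3⟩ := h
  exact ⟨K, h1, hS.trans h2, h3⟩

theorem Small.iUnion {ι : Type} [Countable ι] {H : Set Y} {S : ι → Set Y}
    (h : ∀ i, Small H (S i)) : Small H (⋃ i, S i) := by
  choose K h1 h2 h3 using h
  exact ⟨⋃ i, K i, isSigmaCompact_iUnion K h1, Set.iUnion_mono h2, Set.iUnion_subset h3⟩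

theorem Small.union {H S S' : Set Y} (h : Small H S) (h' : Small H S') : Small H (S ∪ S') := by
  have : S ∪ S' = ⋃ b : Bool, cond b S S' := by
    rw [Set.union_eq_iUnion]
  rw [this]
  exact Small.iUnion fun b => by cases b <;> assumption

/-- A non-small subset contains a sequence without cluster point in `H`. -/
theorem exists_seq {H Q : Set Y} (hQ : ¬ Small H Q) :
    ∃ q : ℕ → Y, (∀ n, q n ∈ Q) ∧ ∀ y ∈ H, ¬ MapClusterPt y atTop q := by
  by_contra hcon
  push Not at hcon
  apply hQ
  refine ⟨closure Q, ?_, subset_closure, ?_⟩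
  · refine IsCompact.isSigmaCompact (IsSeqCompact.isCompact ?_)
    intro z hz
    have : ∀ n : ℕ, ∃ q ∈ Q, dist (z n) q < 1 / ((n : ℝ) + 1) := fun n =>
      Metric.mem_closure_iff.mp (hz n) _ (by positivity)
    choose q hq hzq using this
    obtain ⟨y, hyH, hy⟩ := hcon q hq
    obtain ⟨φ, hφ, hlim⟩ := MapClusterPt.tendsto_subseq hy
    have hlim2 : Tendsto (z ∘ φ) atTop (𝓝 y) := by
      rw [Metric.tendsto_atTop] at hlim ⊢
      intro ε hε
      obtain ⟨N, hN⟩ := hlim (ε / 2) (by positivity)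
      obtain ⟨N', hN'⟩ := exists_nat_one_div_lt (show (0 : ℝ) < ε / 2 by positivity)
      refine ⟨max N N', fun n hn => ?_⟩
      have h1 := hN n (le_trans (le_max_left _ _) hn)
      have h2 := hzq (φ n)
      have h3 : (1 : ℝ) / ((φ n : ℝ) + 1) ≤ 1 / ((N' : ℝ) + 1) := by
        apply one_div_le_one_div_of_le (by positivity)
        have : N' ≤ φ n := (le_trans (le_max_right _ _) hn).trans (hφ.id_le n)
        have : (N' : ℝ) ≤ φ n := by exact_mod_cast this
        linarith
      calc dist ((z ∘ φ) n) y ≤ dist (z (φ n)) (q (φ n)) + dist (q (φ n)) y := dist_triangle _ _ _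
        _ < ε / 2 + ε / 2 := by
          refine add_lt_add (by linarith) ?_
          exact h1
        _ = ε := by ring
    exact ⟨y, isClosed_closure.mem_of_tendsto hlim2 (Eventually.of_forall fun n => hz _), φ, hφ,
      hlim2⟩
  · intro z hz
    have : ∀ n : ℕ, ∃ q ∈ Q, dist z q < 1 / ((n : ℝ) + 1) := fun n =>
      Metric.mem_closure_iff.mp hz _ (by positivity)
    choose q hq hzq using this
    obtain ⟨y, hyH, hy⟩ := hcon q hq
    have hlim : Tendsto q atTop (𝓝 z) := by
      rw [Metric.tendsto_atTop]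
      intro ε hε
      obtain ⟨N', hN'⟩ := exists_nat_one_div_lt hε
      refine ⟨N', fun n hn => ?_⟩
      have h3 : (1 : ℝ) / ((n : ℝ) + 1) ≤ 1 / ((N' : ℝ) + 1) := by
        apply one_div_le_one_div_of_le (by positivity)
        have : (N' : ℝ) ≤ n := by exact_mod_cast hn
        linarith
      rw [dist_comm]
      linarith [hzq n]
    have : y = z := by
      obtain ⟨φ, hφ, hlim'⟩ := MapClusterPt.tendsto_subseq hy
      exact tendsto_nhds_unique hlim' (hlim.comp hφ.tendsto_atTop)
    rw [← this]; exact hyH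

/-- cylinder -/
def Cyl (z : (ℕ → ℕ) × ℕ) : Set (ℕ → ℕ) := {x | ∀ i, i < z.2 → x i = z.1 i}

theorem mem_Cyl_self (c : ℕ → ℕ) (d : ℕ) : c ∈ Cyl (c, d) := fun _ _ => rfl

theorem Cyl_mono {c c' : ℕ → ℕ} {d d' : ℕ} (h : c' ∈ Cyl (c, d)) (hd : d ≤ d') :
    Cyl (c', d') ⊆ Cyl (c, d) := fun _ hx i hi => (hx i (hi.trans_le hd)).trans (h i hi)

/-- cylinders indexed by lists -/
def LCyl (l : List ℕ) : Set (ℕ → ℕ) := {x | (List.range l.length).map x = l}

theorem Cyl_eq_LCyl (c : ℕ → ℕ) (d : ℕ) : Cyl (c, d) = LCyl ((List.range d).map c) := by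
  ext x
  simp only [Cyl, LCyl, Set.mem_setOf_eq, List.length_map, List.length_range]
  constructor
  · intro h
    exact List.map_congr_left fun i hi => h i (List.mem_range.mp hi)
  · intro h i hi
    exact (List.map_inj_left.mp h) i (List.mem_range.mpr hi)

theorem sigmaCompact_of_menger_range {f : (ℕ → ℕ) → Y} (hf : Continuous f)
    (hM : Menger (Set.range f)) : IsSigmaCompact (Set.range f) := by
  classical
  by_contra hns
  set H : Set Y := Set.range f with hH
  have hnotsmall : ¬ Small H H := by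
    rintro ⟨K, h1, h2, h3⟩
    exact hns ((h3.antisymm h2) ▸ h1)
  -- kernel
  let C : Set (ℕ → ℕ) := {x | ∀ n, ¬ Small H (f '' Cyl (x, n))}
  have hgood : Small H (f '' Cᶜ) := by
    have hsub : f '' Cᶜ ⊆ ⋃ l : {l : List ℕ // Small H (f '' LCyl l)}, f '' LCyl l.1 := by
      rintro _ ⟨x, hx, rfl⟩
      have hx' : ¬ ∀ n, ¬ Small H (f '' Cyl (x, n)) := hx
      push Not at hx'
      obtain ⟨n, hn⟩ := hx'
      rw [Cyl_eq_LCyl] at hn
      refine Set.mem_iUnion.mpr ⟨⟨_, hn⟩, x, ?_, rfl⟩
      rw [← Cyl_eq_LCyl]; exact mem_Cyl_self x n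
    exact (Small.iUnion fun l => l.2).mono hsub
  have hC1 : ∀ x ∈ C, ∀ n, ¬ Small H (f '' (Cyl (x, n) ∩ C)) := by
    intro x hx n hsm
    apply hx n
    refine (hsm.union hgood).mono ?_
    rintro _ ⟨y, hy, rfl⟩
    by_cases hyC : y ∈ C
    · exact Or.inl ⟨y, ⟨hy, hyC⟩, rfl⟩
    · exact Or.inr ⟨y, hyC, rfl⟩
  have hC0 : C.Nonempty := by
    by_contra he
    rw [Set.not_nonempty_iff_eq_empty] at he
    apply hnotsmall
    refine hgood.mono ?_
    rw [he, Set.compl_empty, Set.image_univ]
  -- successor step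
  have hstep : ∀ z : (ℕ → ℕ) × ℕ, z.1 ∈ C → ∃ g : ℕ → (ℕ → ℕ) × ℕ,
      (∀ m, (g m).1 ∈ C) ∧ (∀ m, (g m).1 ∈ Cyl z) ∧ (∀ m, z.2 < (g m).2) ∧
      (∀ y ∈ H, ∃ V ∈ 𝓝 y, ∃ N, ∀ m, N ≤ m → f '' Cyl (g m) ∩ V = ∅) := by
    rintro ⟨c, d⟩ hc
    obtain ⟨q, hq, hqc⟩ := exists_seq (hC1 c hc d)
    choose cc hcc hfc using hq
    have hd : ∀ m : ℕ, ∃ d', d < d' ∧ f '' Cyl (cc m, d') ⊆ Metric.ball (q m) (1 / ((m : ℝ) + 1)) := by
      intro m
      have hnh : f ⁻¹' Metric.ball (q m) (1 / ((m : ℝ) + 1)) ∈ 𝓝 (cc m) := by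
        apply hf.continuousAt.preimage_mem_nhds
        rw [hfc m]
        exact Metric.ball_mem_nhds _ (by positivity)
      rw [nhds_pi, Filter.mem_pi] at hnh
      obtain ⟨I, hI, t, ht, hsub⟩ := hnh
      obtain ⟨M, hM⟩ := hI.bddAbove
      refine ⟨max (M + 1) (d + 1), lt_of_lt_of_le (Nat.lt_succ_self d) (le_max_right _ _), ?_⟩
      rintro _ ⟨x, hx, rfl⟩
      apply hsub
      intro i hi
      have : x i = cc m i := hx i (lt_of_lt_of_le (Nat.lt_succ_of_le (hM hi)) (le_max_left _ _))
      rw [this]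
      exact mem_of_mem_nhds (ht i)
    choose dd hdd hball using hd
    refine ⟨fun m => (cc m, dd m), fun m => (hcc m).2, fun m => (hcc m).1, hdd, ?_⟩
    intro y hy
    have hncl := hqc y hy
    rw [mapClusterPt_iff_frequently] at hncl
    push Not at hncl
    obtain ⟨V, hV, hVq⟩ := hncl
    rw [eventually_atTop] at hVq
    obtain ⟨N, hN⟩ := hVq
    obtain ⟨ε, hε, hεV⟩ := Metric.mem_nhds_iff.mp hV
    obtain ⟨N', hN'⟩ := exists_nat_one_div_lt (show (0 : ℝ) < ε / 2 by positivity)
    refine ⟨Metric.ball y (ε / 2), Metric.ball_mem_nhds _ (by positivity), max N N', ?_⟩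
    intro m hm
    rw [Set.eq_empty_iff_forall_notMem]
    rintro w ⟨hw1, hw2⟩
    have hw3 := hball m hw1
    rw [Metric.mem_ball] at hw2 hw3
    have h3 : (1 : ℝ) / ((m : ℝ) + 1) ≤ 1 / ((N' : ℝ) + 1) := by
      apply one_div_le_one_div_of_le (by positivity)
      have : (N' : ℝ) ≤ m := by exact_mod_cast (le_trans (le_max_right _ _) hm)
      linarith
    apply hN m (le_trans (le_max_left _ _) hm)
    apply hεV
    rw [Metric.mem_ball]
    calc dist (q m) y ≤ dist (q m) w + dist w y := dist_triangle _ _ _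
      _ < ε / 2 + ε / 2 := by
        rw [dist_comm (q m) w]
        exact add_lt_add (by linarith) hw2
      _ = ε := by ring
  choose! g hgC hgCyl hgd hgfin using hstep
  obtain ⟨c0, hc0⟩ := hC0
  let node : List ℕ → (ℕ → ℕ) × ℕ := fun t => List.rec (c0, 0) (fun m _ r => g r m) t
  have hnode0 : node [] = (c0, 0) := rfl
  have hnodes : ∀ m t, node (m :: t) = g (node t) m := fun m t => rfl
  have hnC : ∀ t, (node t).1 ∈ C := by
    intro t
    induction t with
    | nil => exact hc0
    | cons m t ih => rw [hnodes]; exact hgC _ ih m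
  have hnsub : ∀ m t, Cyl (node (m :: t)) ⊆ Cyl (node t) := by
    intro m t
    rw [hnodes]
    exact Cyl_mono (hgCyl _ (hnC t) m) (hgd _ (hnC t) m).le
  let W : List ℕ → Set Y := fun t => f '' Cyl (node t)
  have hWsub : ∀ m t, W (m :: t) ⊆ W t := fun m t => Set.image_mono (hnsub m t)
  have hfin : ∀ l : ℕ, ∀ y ∈ H, ∃ V ∈ 𝓝 y, {t : List ℕ | t.length = l ∧ (W t ∩ V).Nonempty}.Finite := by
    intro l
    induction l with
    | zero =>
      intro y _
      refine ⟨univ, univ_mem, (Set.finite_singleton []).subset ?_⟩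
      rintro t ⟨ht, _⟩
      exact List.length_eq_zero_iff.mp ht
    | succ l ih =>
      intro y hy
      obtain ⟨V, hV, hVfin⟩ := ih y hy
      choose V' hV' N' hN' using fun t : List ℕ => hgfin (node t) (hnC t) y hy
      let T := hVfin.toFinset
      refine ⟨V ∩ ⋂ t ∈ T, V' t, Filter.inter_mem hV ((Filter.biInter_finset_mem T).mpr
        fun t _ => hV' t), ?_⟩
      have : {t : List ℕ | t.length = l + 1 ∧ (W t ∩ (V ∩ ⋂ t ∈ T, V' t)).Nonempty} ⊆
          ⋃ t ∈ T, (fun m => m :: t) '' Set.Iio (N' t) := by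
        rintro t ⟨htl, w, hw1, hw2, hw3⟩
        cases t with
        | nil => simp at htl
        | cons m t =>
          have htT : t ∈ T := by
            rw [Set.Finite.mem_toFinset]
            exact ⟨by simpa using htl, w, hWsub m t hw1, hw2⟩
          refine Set.mem_iUnion₂.mpr ⟨t, htT, m, ?_, rfl⟩
          by_contra hm
          have := hN' t m (not_lt.mp hm)
          rw [Set.eq_empty_iff_forall_notMem] at this
          exact this w ⟨hw1, Set.mem_iInter₂.mp hw3 t htT⟩
      refine Set.Finite.subset ?_ this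
      exact T.finite_toSet.biUnion fun t _ => (Set.finite_Iio _).image _
  -- the covers
  let O : ℕ → ℕ → Set Y := fun l n => (closure (⋃ t : List ℕ, ⋃ (_ : t.length = l), ⋃ m, ⋃ (_ : n ≤ m),
    W (m :: t)))ᶜ
  have hOmono : ∀ l n n', n ≤ n' → O l n ⊆ O l n' := by
    intro l n n' hnn
    apply Set.compl_subset_compl.mpr
    apply closure_mono
    refine Set.iUnion_mono fun t => Set.iUnion_mono fun _ => Set.iUnion_mono fun m => ?_
    exact Set.iUnion_subset fun h => Set.subset_iUnion_of_subset (hnn.trans h) subset_rfl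
  have hOcov : ∀ l, ∀ y ∈ H, ∃ n, y ∈ O l n := by
    intro l y hy
    obtain ⟨V, hV, hVfin⟩ := hfin (l + 1) y hy
    obtain ⟨n, hn⟩ := (hVfin.image (fun t => t.headD 0)).bddAbove
    refine ⟨n + 1, ?_⟩
    intro hcl
    obtain ⟨w, hw1, hw2⟩ := mem_closure_iff_nhds.mp hcl V hV
    simp only [Set.mem_iUnion] at hw2
    obtain ⟨t, ht, m, hm, hwm⟩ := hw2
    have : m ≤ n := hn ⟨m :: t, ⟨by simp [ht], w, hwm, hw1⟩, rfl⟩
    omega
  obtain ⟨F, hF, hFH⟩ := hM (fun l => Set.range (O l)) (fun l => ⟨by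
    rintro _ ⟨n, rfl⟩; exact isClosed_closure.isOpen_compl, fun y hy => by
    obtain ⟨n, hn⟩ := hOcov l y hy; exact ⟨_, ⟨n, rfl⟩, hn⟩⟩)
  have hbd : ∀ l, ∃ n, ⋃₀ (↑(F l) : Set (Set Y)) ⊆ O l n := by
    intro l
    have : ∀ S : Finset (Set Y), (↑S : Set (Set Y)) ⊆ Set.range (O l) →
        ∃ n, ⋃₀ (↑S : Set (Set Y)) ⊆ O l n := by
      intro S
      induction S using Finset.induction_on with
      | empty => intro _; exact ⟨0, by simp⟩
      | insert u S hu ih =>
        intro hS
        rw [Finset.coe_insert] at hS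
        obtain ⟨n, hn⟩ := ih ((Set.subset_insert _ _).trans hS)
        obtain ⟨n', rfl⟩ := hS (Set.mem_insert _ _)
        refine ⟨max n n', ?_⟩
        rw [Finset.coe_insert, Set.sUnion_insert]
        exact Set.union_subset (hOmono l _ _ (le_max_right _ _))
          (hn.trans (hOmono l _ _ (le_max_left _ _)))
    exact this (F l) (hF l)
  choose n hn using hbd
  -- the branch
  let tt : ℕ → List ℕ := fun l => Nat.rec [] (fun k r => n k :: r) l
  have htts : ∀ l, tt (l + 1) = n l :: tt l := fun l => rfl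
  have httl : ∀ l, (tt l).length = l := by
    intro l
    induction l with
    | zero => rfl
    | succ l ih => rw [htts]; simp [ih]
  have hanti : ∀ l l', l ≤ l' → Cyl (node (tt l')) ⊆ Cyl (node (tt l)) := by
    intro l l' h
    induction l', h using Nat.le_induction with
    | base => exact subset_rfl
    | succ k _ ih => rw [htts]; exact (hnsub _ _).trans ih
  have hdl : ∀ l, l ≤ (node (tt l)).2 := by
    intro l
    induction l with
    | zero => exact Nat.zero_le _
    | succ l ih =>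
      rw [htts, hnodes]
      exact Nat.succ_le_of_lt (lt_of_le_of_lt ih (hgd _ (hnC _) _))
  let x : ℕ → ℕ := fun i => (node (tt (i + 1))).1 i
  have hself : ∀ l, (node (tt l)).1 ∈ Cyl (node (tt l)) := fun l _ _ => rfl
  have hx : ∀ l, x ∈ Cyl (node (tt l)) := by
    intro l i hi
    rcases le_total l (i + 1) with h | h
    · exact hanti _ _ h (hself (i + 1)) i hi
    · exact (hanti _ _ h (hself l) i (lt_of_lt_of_le (Nat.lt_succ_self i) (hdl (i + 1)))).symm
  obtain ⟨l, hl⟩ := hFH (f x) ⟨x, rfl⟩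
  have h1 : f x ∈ O l (n l) := hn l hl
  apply h1
  apply subset_closure
  simp only [Set.mem_iUnion]
  refine ⟨tt l, httl l, n l, le_rfl, x, ?_, rfl⟩
  rw [← htts]
  exact hx (l + 1)

end analytic

theorem sigmaCompact_of_menger {Y : Type} [TopologicalSpace Y] [PolishSpace Y] {H : Set Y}
    (hH : @MeasurableSet Y (borel Y) H) (hM : Menger H) : IsSigmaCompact H := by
  let _ : MeasurableSpace Y := borel Y
  have _ : BorelSpace Y := ⟨rfl⟩
  let _ : MetricSpace Y := TopologicalSpace.metrizableSpaceMetric Y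
  have ha : MeasureTheory.AnalyticSet H := MeasurableSet.analyticSet hH
  rw [MeasureTheory.AnalyticSet] at ha
  rcases ha with h | ⟨f, hf, hfH⟩
  · rw [h]; exact isSigmaCompact_empty
  · rw [← hfH]
    exact sigmaCompact_of_menger_range hf (hfH ▸ hM)

/-! ## The negative direction -/

/-- Every finite power of a Hurewicz subset of a Polish space is Menger. -/
def PowersMenger : Prop :=
  ∀ (Y : Type) [TopologicalSpace Y] [PolishSpace Y] (X : Set Y), Hur X →
    ∀ n : ℕ, Menger {x : Fin n → Y | ∀ i, x i ∈ X}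

theorem menger_closure {G : Type} [TopologicalSpace G] [Group G] [IsTopologicalGroup G]
    {X : Set G} (hX : ∀ n : ℕ, Menger {x : Fin n → G | ∀ i, x i ∈ X}) :
    Menger ((Subgroup.closure X : Subgroup G) : Set G) := by
  classical
  let c : (z : Σ n : ℕ, (Fin n → Bool)) → (Fin z.1 → G) → G := fun z x =>
    (List.ofFn fun i => if z.2 i then x i else (x i)⁻¹).prod
  have hc : ∀ z, Continuous (c z) := by
    intro z
    have h1 : ∀ x, c z x = ((List.finRange z.1).map
        (fun i => if z.2 i then x i else (x i)⁻¹)).prod := by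
      intro x; simp only [c, List.ofFn_eq_map]
    have h2 : c z = fun x => ((List.finRange z.1).map
        (fun i => if z.2 i then x i else (x i)⁻¹)).prod := funext h1
    rw [h2]
    apply continuous_list_prod
    intro i _
    by_cases h : z.2 i
    · simp only [h, if_true]; exact continuous_apply i
    · simp only [h]; exact (continuous_apply i).inv
  have hun : ((Subgroup.closure X : Subgroup G) : Set G) =
      ⋃ z : Σ n : ℕ, (Fin n → Bool), c z '' {x : Fin z.1 → G | ∀ i, x i ∈ X} := by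
    apply Set.Subset.antisymm
    · intro g hg
      have hg' : g ∈ Submonoid.closure (X ∪ X⁻¹) := by
        rw [← Subgroup.closure_toSubmonoid]; exact hg
      obtain ⟨l, hl, rfl⟩ := Submonoid.exists_list_of_mem_closure hg'
      refine Set.mem_iUnion.mpr ⟨⟨l.length, fun i => decide (l.get i ∈ X)⟩,
        fun i => if l.get i ∈ X then l.get i else (l.get i)⁻¹, ?_, ?_⟩
      · intro i
        by_cases h : l.get i ∈ X
        · simp only [h, if_true]
        · simp only [h, if_false]
          rcases hl _ (List.get_mem l i) with h' | h'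
          · exact absurd h' h
          · exact h'
      · have : (List.ofFn fun i : Fin l.length => if (decide (l.get i ∈ X)) = true then
            (if l.get i ∈ X then l.get i else (l.get i)⁻¹) else
            (if l.get i ∈ X then l.get i else (l.get i)⁻¹)⁻¹) = l := by
          have h3 : (fun i : Fin l.length => if (decide (l.get i ∈ X)) = true then
            (if l.get i ∈ X then l.get i else (l.get i)⁻¹) else
            (if l.get i ∈ X then l.get i else (l.get i)⁻¹)⁻¹) = l.get := by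
            have hy : ∀ y : G, (if (decide (y ∈ X)) = true then
                (if y ∈ X then y else y⁻¹) else (if y ∈ X then y else y⁻¹)⁻¹) = y := by
              intro y
              by_cases h : y ∈ X <;> simp [h]
            funext i
            exact hy (l.get i)
          rw [h3, List.ofFn_get]
        exact congrArg List.prod this
    · rintro g hg
      obtain ⟨z, x, hx, rfl⟩ := Set.mem_iUnion.mp hg
      apply Subgroup.list_prod_mem
      intro y hy
      rw [List.mem_ofFn] at hy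
      obtain ⟨i, rfl⟩ := hy
      by_cases h : z.2 i
      · simp only [h, if_true]; exact Subgroup.subset_closure (hx i)
      · simp only [h]; exact inv_mem (Subgroup.subset_closure (hx i))
  rw [hun]
  exact Menger.iUnion_countable fun z => (hX z.1).image (hc z)

theorem not_frozen_of_powers (h : PowersMenger) :
    ¬ (∃ (G : Type) (_ : TopologicalSpace G) (_ : PolishSpace G) (_ : Group G)
      (_ : IsTopologicalGroup G) (X : Set G),
      @MeasurableSet G (borel G) ((Subgroup.closure X : Subgroup G) : Set G) ∧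
      ¬ IsSigmaCompact ((Subgroup.closure X : Subgroup G) : Set G) ∧
      ∀ U : ℕ → Set (Set G), (∀ n, (∀ u ∈ U n, IsOpen u) ∧ X ⊆ ⋃₀ U n) →
        ∃ F : ℕ → Finset (Set G), (∀ n, (↑(F n) : Set (Set G)) ⊆ U n) ∧
          ∀ x ∈ X, ∀ᶠ n in Filter.atTop, x ∈ ⋃₀ ((↑(F n) : Set (Set G)))) := by
  rintro ⟨G, hT, hP, hG, hTG, X, hmeas, hns, hX⟩
  exact hns (sigmaCompact_of_menger hmeas (menger_closure (h G X hX)))

end Pool.H96.Hur
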