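import Mathlib
import Pool.Agent.H6.AP.Main

set_option autoImplicit false

/-!
# The counting theorem when the residues reached depend on the basis
-/

open Finset ArithmeticFunction

namespace Pool.Agent.H96.OM

open Pool.Agent.H6.AP
open Pool.Agent.H6.AP3 (card_divisors_le)

theorem local_step' {k : ℕ} {n q Q s0 m0 K : ℕ} {E : Finset (ℕ × ℕ × ℕ × ℕ)}
    (hE : EdgeOK Q s0 E) (hm0 : m0 ∣ Q) (hE2 : ∀ x ∈ E, m0 ∣ x.1 ∧ m0 ∣ x.2.1)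
    (hq : 0 < q) (h : q ∣ n ^ 2 + 1)
    (hns : n ≡ s0 [MOD Q]) (hq1 : q ≡ 1 [MOD Q])
    (hbig : ∀ x ∈ E, x.2.2.2 * q ≤ n)
    (g : ℕ → ZMod k) (hg : ∀ m n : ℕ, m ≠ 0 → n ≠ 0 → g (m * n) = g m + g n)
    (r : ZMod k) (hU : ∃ x ∈ E, g (nrm n q (1, x.1)) + g (nrm n q (x.2.1, x.2.2.1)) -
      2 * g x.2.2.2 = r)
    (hK : ∀ x ∈ E, cardFactors (nrm n q (1, x.1)) ≤ K ∧
      cardFactors (nrm n q (x.2.1, x.2.2.1)) ≤ K) :
    ∃ a, ∃ x ∈ E, ∃ d, g (a ^ 2 + 1) = r ∧ cardFactors (a ^ 2 + 1) ≤ 2 * K ∧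
      d ∈ (a ^ 2 + 1).divisors ∧ 1 ≤ a ∧ a ≤ x.2.1 * nrm n q (1, x.1) ∧
      m0 ∣ a + s0 ∧ dec a (x, d) = (n, q) := by
  obtain ⟨⟨y, B, A, D⟩, hx, hr⟩ := hU
  obtain ⟨hB, hD, hAD, hDQ, hDs⟩ := hE _ hx
  obtain ⟨hK1, hK2⟩ := hK _ hx
  obtain ⟨hmy, hmB⟩ := hE2 _ hx
  have hb := hbig _ hx
  simp only at hB hD hAD hDQ hDs hK1 hK2 hb hr hmy hmB
  -- D divides the norm of the leaf
  have hDn : D ∣ nrm n q (1, y) := by
    have h1 : D ∣ nrm n q (1, y) * q := by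
      rw [nrm_mul h (1, y)]
      simp only [one_mul, one_pow]
      have h2 : n + y * q ≡ s0 + y [MOD D] := by
        have h3 := (hq1.of_dvd hDQ).mul_left y
        rw [mul_one] at h3
        exact (hns.of_dvd hDQ).add h3
      exact (((h2.pow 2).add_right 1).dvd_iff dvd_rfl).2 hDs
    have h2 : Nat.Coprime D q := by
      have h3 : q ≡ 1 [MOD D] := hq1.of_dvd hDQ
      rw [Nat.Coprime, Nat.gcd_comm, h3.gcd_eq]
      simp
    exact h2.dvd_of_dvd_mul_right h1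
  obtain ⟨d, hd⟩ := hDn
  obtain ⟨e, he1, he2, he3⟩ := edge_identity hq h hD hB hAD hd hb
  have hd0 : d ≠ 0 := by rintro rfl; simp at he3
  have he0 : e ≠ 0 := by rintro rfl; simp at he3
  have hD0 : D ≠ 0 := hD.ne'
  refine ⟨B * d - (n + y * q), (y, B, A, D), hx, d, ?_, ?_, ?_, ?_, ?_, ?_, ?_⟩
  · rw [he3, hg _ _ hd0 he0, ← hr, hd, he1, hg _ _ hD0 hd0, hg _ _ hD0 he0]
    ring
  · rw [he3, cardFactors_mul hd0 he0]
    rw [hd, cardFactors_mul hD0 hd0] at hK1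
    rw [he1, cardFactors_mul hD0 he0] at hK2
    omega
  · rw [Nat.mem_divisors]
    exact ⟨⟨e, he3⟩, by omega⟩
  · omega
  · simp only
    rw [hd]
    calc B * d - (n + y * q) ≤ B * d := Nat.sub_le _ _
      _ ≤ B * (D * d) := Nat.mul_le_mul_left _ (Nat.le_mul_of_pos_left _ hD)
  · have e1 : B * d - (n + y * q) + n ≡ 0 [MOD m0] := by
      have e2 : B * d - (n + y * q) + n + y * q = B * d := by omega
      have e3 : B * d - (n + y * q) + n + y * q ≡ 0 + y * q [MOD m0] := by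
        rw [e2, zero_add]
        exact ((Nat.modEq_zero_iff_dvd).2 (hmB.mul_right d)).trans
          ((Nat.modEq_zero_iff_dvd).2 (hmy.mul_right q)).symm
      exact Nat.ModEq.add_right_cancel' _ e3
    have e4 : B * d - (n + y * q) + n ≡ B * d - (n + y * q) + s0 [MOD m0] :=
      (Nat.ModEq.refl _).add (hns.of_dvd hm0)
    exact (Nat.modEq_zero_iff_dvd).1 (e4.symm.trans e1)
  · have e1 : B * d - (B * d - (n + y * q)) = n + y * q := by omega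
    have e2 : ((n + y * q) ^ 2 + 1) / (D * d) = q := by
      have := nrm_mul h (1, y)
      simp only [one_mul, one_pow] at this
      rw [← this, hd]
      exact Nat.mul_div_cancel_left _ (Nat.mul_pos hD (Nat.pos_of_ne_zero hd0))
    simp only [dec, e1, e2, Nat.add_sub_cancel]

theorem count_step' {k : ℕ} {Q s0 m0 K X : ℕ} {E : Finset (ℕ × ℕ × ℕ × ℕ)}
    (hE : EdgeOK Q s0 E) (hm0 : m0 ∣ Q) (hE2 : ∀ x ∈ E, m0 ∣ x.1 ∧ m0 ∣ x.2.1)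
    (g : ℕ → ZMod k) (hg : ∀ m n : ℕ, m ≠ 0 → n ≠ 0 → g (m * n) = g m + g n)
    (r : ZMod k) (P : Finset (ℕ × ℕ))
    (hU : ∀ z ∈ P, ∃ x ∈ E, g (nrm z.1 z.2 (1, x.1)) + g (nrm z.1 z.2 (x.2.1, x.2.2.1)) -
      2 * g x.2.2.2 = r)
    (hP : ∀ z ∈ P, 0 < z.2 ∧ z.2 ∣ z.1 ^ 2 + 1 ∧ z.1 ≡ s0 [MOD Q] ∧ z.2 ≡ 1 [MOD Q] ∧
      (∀ x ∈ E, x.2.2.2 * z.2 ≤ z.1 ∧ cardFactors (nrm z.1 z.2 (1, x.1)) ≤ K ∧
        cardFactors (nrm z.1 z.2 (x.2.1, x.2.2.1)) ≤ K ∧ x.2.1 * nrm z.1 z.2 (1, x.1) ≤ X)) :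
    P.card ≤ ((Icc 1 X).filter
      (fun n => m0 ∣ n + s0 ∧ cardFactors (n ^ 2 + 1) ≤ 2 * K ∧ g (n ^ 2 + 1) = r)).card *
        (E.card * 2 ^ (2 * K)) := by
  classical
  set G := (Icc 1 X).filter
    (fun n => m0 ∣ n + s0 ∧ cardFactors (n ^ 2 + 1) ≤ 2 * K ∧ g (n ^ 2 + 1) = r) with hG
  set U : Finset (ℕ × ℕ) := G.biUnion (fun a => ((E ×ˢ (a ^ 2 + 1).divisors).image
    (fun z => dec a z))) with hU'
  have hsub : P ⊆ U := by
    intro z hz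
    obtain ⟨h1, h2, h3, h4, h5⟩ := hP z hz
    obtain ⟨a, x, hx, d, k1, k2, k3, k4, k5, k7, k6⟩ := local_step' hE hm0 hE2 h1 h2 h3 h4
      (fun x hx => (h5 x hx).1) g hg r (hU z hz) (fun x hx => ⟨(h5 x hx).2.1, (h5 x hx).2.2.1⟩)
    rw [hU', mem_biUnion]
    refine ⟨a, ?_, ?_⟩
    · rw [hG, mem_filter, mem_Icc]
      exact ⟨⟨k4, k5.trans (h5 x hx).2.2.2⟩, k7, k2, k1⟩
    · rw [mem_image]
      exact ⟨(x, d), mem_product.2 ⟨hx, k3⟩, k6⟩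
  refine (card_le_card hsub).trans ?_
  rw [hU']
  refine card_biUnion_le_card_mul _ _ _ ?_
  intro n hn
  refine card_image_le.trans ?_
  rw [card_product]
  rw [hG, mem_filter] at hn
  have h1 := card_divisors_le (n ^ 2 + 1) (by omega)
  have h2 : 2 ^ cardFactors (n ^ 2 + 1) ≤ 2 ^ (2 * K) :=
    Nat.pow_le_pow_right (by norm_num) hn.2.2.1
  gcongr
  exact h1.trans h2

/-- Counting theorem for systems of edges which, for every colouring, reach a whole class of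
residues `t + 2 j` with `t ∈ {0, 1}` depending on the colouring. -/
theorem count' {Q s0 m0 : ℕ} {E : Finset (ℕ × ℕ × ℕ × ℕ)} (hQ : 0 < Q) (hm0 : m0 ∣ Q)
    (hE : EdgeOK Q s0 E) (hE2 : ∀ x ∈ E, m0 ∣ x.1 ∧ m0 ∣ x.2.1) (ε : ℝ) (hε : 0 < ε) :
    ∃ K X0 : ℕ, ∀ X : ℕ, X0 ≤ X → ∀ k : ℕ, ∀ g : ℕ → ZMod k,
      (∀ m n : ℕ, m ≠ 0 → n ≠ 0 → g (m * n) = g m + g n) →
      (∀ c : ℕ × ℕ → ZMod k, ∃ t : Fin 2, ∀ j : ZMod k, ∃ x ∈ E,
        c (1, x.1) + c (x.2.1, x.2.2.1) - 2 * g x.2.2.2 = t.val + 2 * j) →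
      ∃ t : Fin 2, ∀ j : ZMod k,
      (X : ℝ) ^ (1 - ε) ≤ ((Icc 1 X).filter
        (fun a => m0 ∣ a + s0 ∧ cardFactors (a ^ 2 + 1) ≤ K ∧ g (a ^ 2 + 1) = t.val + 2 * j)).card := by
  classical
  obtain ⟨m1, hm1⟩ := exists_nat_ge (4 / ε)
  obtain ⟨m, hm⟩ : ∃ m, m = m1 + 1 := ⟨_, rfl⟩
  have hmε : 4 ≤ (2 * m + 3 : ℝ) * ε := by
    have h1 : 4 ≤ (m1 : ℝ) * ε := by rwa [div_le_iff₀ hε] at hm1
    have h2 : (m1 : ℝ) ≤ 2 * m + 3 := by rw [hm]; push_cast; linarith [Nat.cast_nonneg (α := ℝ) m1]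
    nlinarith
  obtain ⟨K, C3, S1, H⟩ := exists_pairs hE hQ m (by omega)
  obtain ⟨C5, hC5⟩ : ∃ C5 : ℕ, C5 = 2 * (E.card * 2 ^ (2 * K)) + 1 := ⟨_, rfl⟩
  obtain ⟨S2, hS2⟩ : ∃ S2 : ℕ, S2 = S1 + C3 + C5 * 2 ^ (2 * m - 1) + 1 := ⟨_, rfl⟩
  refine ⟨2 * K, S2 ^ (2 * m + 3), ?_⟩
  intro X hX k g hg hU
  obtain ⟨S, hS⟩ : ∃ S : ℕ, S = ⌊(X : ℝ) ^ ((1 : ℝ) / (2 * m + 3 : ℕ))⌋₊ := ⟨_, rfl⟩
  have hX0 : (0 : ℝ) ≤ X := Nat.cast_nonneg X
  have hroot : ((X : ℝ) ^ ((1 : ℝ) / (2 * m + 3 : ℕ))) ^ (2 * m + 3) = X := by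
    rw [one_div, Real.rpow_inv_natCast_pow hX0 (by omega)]
  have hrn : 0 ≤ (X : ℝ) ^ ((1 : ℝ) / (2 * m + 3 : ℕ)) := by positivity
  have hSS : S2 ≤ S := by
    rw [hS, Nat.le_floor_iff hrn]
    rw [← pow_le_pow_iff_left₀ (Nat.cast_nonneg _) hrn (show 2 * m + 3 ≠ 0 by omega), hroot]
    exact_mod_cast hX
  have hSX : S ^ (2 * m + 3) ≤ X := by
    have h1 : (S : ℝ) ≤ (X : ℝ) ^ ((1 : ℝ) / (2 * m + 3 : ℕ)) := by
      rw [hS]; exact Nat.floor_le hrn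
    have h2 := pow_le_pow_left₀ (Nat.cast_nonneg S) h1 (2 * m + 3)
    rw [hroot] at h2
    exact_mod_cast h2
  have hXS : (X : ℝ) ≤ (2 * S) ^ (2 * m + 3) := by
    have h1 : (X : ℝ) ^ ((1 : ℝ) / (2 * m + 3 : ℕ)) ≤ S + 1 := by
      rw [hS]; exact (Nat.lt_floor_add_one _).le
    have h3 : (1 : ℝ) ≤ S := by exact_mod_cast (by omega : 1 ≤ S)
    have h2 := pow_le_pow_left₀ hrn (h1.trans (by linarith : (S : ℝ) + 1 ≤ 2 * S)) (2 * m + 3)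
    rwa [hroot] at h2
  obtain ⟨P, hPcard, hP⟩ := H S (by omega)
  -- the class of a pair
  have hcls : ∀ z : ℕ × ℕ, ∃ t : Fin 2, ∀ j : ZMod k, ∃ x ∈ E,
      g (nrm z.1 z.2 (1, x.1)) + g (nrm z.1 z.2 (x.2.1, x.2.2.1)) - 2 * g x.2.2.2 =
        t.val + 2 * j := fun z => hU (fun v => g (nrm z.1 z.2 v))
  choose cls hcls using hcls
  obtain ⟨t, ht⟩ : ∃ t : Fin 2, P.card ≤ 2 * (P.filter (fun z => cls z = t)).card := by
    by_contra hcon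
    push Not at hcon
    have h1 := Finset.card_eq_sum_card_fiberwise (f := cls) (s := P) (t := univ)
      (fun z _ => mem_univ _)
    rw [Fin.sum_univ_two] at h1
    have h2 := hcon 0
    have h3 := hcon 1
    omega
  refine ⟨t, ?_⟩
  intro j
  have hcount := count_step' (K := K) (X := X) hE hm0 hE2 g hg (t.val + 2 * j)
    (P.filter (fun z => cls z = t))
    (by
      intro z hz
      rw [mem_filter] at hz
      have := hcls z j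
      rwa [hz.2] at this)
    (by
    intro z hz
    obtain ⟨h1, h2, h3, h4, h5⟩ := hP z (mem_filter.1 hz).1
    refine ⟨h1, h2, h3, h4, ?_⟩
    intro x hx
    obtain ⟨k1, k2, k3, k4⟩ := h5 x hx
    refine ⟨k1, k2, k3, k4.trans ?_⟩
    refine le_trans ?_ hSX
    calc C3 * S ^ (2 * m + 2) ≤ S * S ^ (2 * m + 2) := by
          gcongr; omega
      _ = S ^ (2 * m + 3) := by ring)
  set G := (Icc 1 X).filter
    (fun a => m0 ∣ a + s0 ∧ cardFactors (a ^ 2 + 1) ≤ 2 * K ∧ g (a ^ 2 + 1) = t.val + 2 * j) with hG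
  have hcount' : P.card ≤ G.card * C5 := by
    calc P.card ≤ 2 * (P.filter (fun z => cls z = t)).card := ht
      _ ≤ 2 * (G.card * (E.card * 2 ^ (2 * K))) := Nat.mul_le_mul_left _ hcount
      _ = G.card * (2 * (E.card * 2 ^ (2 * K))) := by ring
      _ ≤ G.card * C5 := by
        rw [hC5]
        exact Nat.mul_le_mul_left _ (Nat.le_succ _)
  have h1 : (S : ℝ) ^ (2 * m) ≤ G.card * C5 := by
    exact_mod_cast hPcard.trans hcount'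
  have hS1 : (1 : ℝ) ≤ S := by exact_mod_cast (by omega : 1 ≤ S)
  have hC5p : (0 : ℝ) < C5 := by
    have : 0 < C5 := by rw [hC5]; positivity
    exact_mod_cast this
  have h2 : (2 * (S : ℝ)) ^ (2 * m - 1) * C5 ≤ (S : ℝ) ^ (2 * m) := by
    have h3 : (C5 : ℝ) * 2 ^ (2 * m - 1) ≤ S := by
      have : C5 * 2 ^ (2 * m - 1) ≤ S := by omega
      exact_mod_cast this
    have h4 : 2 * m = (2 * m - 1) + 1 := by omega
    calc (2 * (S : ℝ)) ^ (2 * m - 1) * C5 = (S : ℝ) ^ (2 * m - 1) * (C5 * 2 ^ (2 * m - 1)) := by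
          rw [mul_pow]; ring
      _ ≤ (S : ℝ) ^ (2 * m - 1) * S := by gcongr
      _ = (S : ℝ) ^ (2 * m) := by rw [← pow_succ, ← h4]
  have h3 : (X : ℝ) ^ (1 - ε) ≤ (2 * (S : ℝ)) ^ (2 * m - 1) := by
    have h2S : (1 : ℝ) ≤ 2 * S := by linarith
    rcases le_total ε 1 with hε1 | hε1
    · calc (X : ℝ) ^ (1 - ε) ≤ ((2 * (S : ℝ)) ^ (2 * m + 3)) ^ (1 - ε) :=
            Real.rpow_le_rpow hX0 hXS (by linarith)
        _ = (2 * (S : ℝ)) ^ (((2 * m + 3 : ℕ) : ℝ) * (1 - ε)) := by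
            rw [← Real.rpow_natCast, ← Real.rpow_mul (by linarith)]
        _ ≤ (2 * (S : ℝ)) ^ ((2 * m - 1 : ℕ) : ℝ) := by
            apply Real.rpow_le_rpow_of_exponent_le h2S
            rw [Nat.cast_sub (by omega)]
            push_cast
            nlinarith
        _ = (2 * (S : ℝ)) ^ (2 * m - 1) := Real.rpow_natCast _ _
    · have hX1 : (1 : ℝ) ≤ X := by
        have : 1 ≤ X := le_trans (Nat.one_le_pow _ _ (by omega)) hSX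
        exact_mod_cast this
      calc (X : ℝ) ^ (1 - ε) ≤ 1 := Real.rpow_le_one_of_one_le_of_nonpos hX1 (by linarith)
        _ ≤ (2 * (S : ℝ)) ^ (2 * m - 1) := one_le_pow₀ h2S
  have h4 : (X : ℝ) ^ (1 - ε) * C5 ≤ G.card * C5 :=
    (mul_le_mul_of_nonneg_right h3 hC5p.le).trans (h2.trans h1)
  exact le_of_mul_le_mul_right h4 hC5p

end Pool.Agent.H96.OM
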