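import Mathlib

set_option autoImplicit false

/-!
# Dyadic blocks with many primes `1 mod q`
-/

namespace Pool.Agent.H96.OM

open Finset ArithmeticFunction

/-- the primes congruent to `1` modulo `q` in `[z, 2 z)` -/
def PB (q z : ℕ) : Finset ℕ := (Ico z (2 * z)).filter (fun p => p.Prime ∧ p ≡ 1 [MOD q])

theorem mem_PB {q z p : ℕ} : p ∈ PB q z ↔ z ≤ p ∧ p < 2 * z ∧ p.Prime ∧ p ≡ 1 [MOD q] := by
  rw [PB, mem_filter, mem_Ico, and_assoc]

theorem summable_of_blocks (f b : ℕ → ℝ) (hf : ∀ n, 0 ≤ f n) (hb0 : ∀ n, 0 ≤ b n)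
    (hb : Summable b) (J : ℕ)
    (h : ∀ j, J ≤ j → ∑ n ∈ Ico (2 ^ j) (2 ^ (j + 1)), f n ≤ b j) : Summable f := by
  have key : ∀ N : ℕ, ∑ n ∈ range (2 ^ (J + N)), f n ≤
      ∑ n ∈ range (2 ^ J), f n + ∑ j ∈ range N, b (J + j) := by
    intro N
    induction N with
    | zero => simp
    | succ N ih =>
      rw [sum_range_succ]
      have h1 : (2 : ℕ) ^ (J + N) ≤ 2 ^ (J + (N + 1)) := Nat.pow_le_pow_right (by norm_num) (by omega)
      have h2 := Finset.sum_range_add_sum_Ico f h1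
      have h3 := h (J + N) (by omega)
      rw [show J + (N + 1) = J + N + 1 by ring] at h2 ⊢
      linarith
  refine summable_of_sum_range_le (c := ∑ n ∈ range (2 ^ J), f n + ∑' j, b j) hf ?_
  intro n
  have h1 : ∑ i ∈ range n, f i ≤ ∑ i ∈ range (2 ^ (J + n)), f i := by
    apply sum_le_sum_of_subset_of_nonneg
    · intro i hi
      rw [mem_range] at hi ⊢
      have : n < 2 ^ n := Nat.lt_two_pow_self
      have : (2 : ℕ) ^ n ≤ 2 ^ (J + n) := Nat.pow_le_pow_right (by norm_num) (by omega)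
      omega
    · intro i _ _; exact hf i
  have h2 : ∑ j ∈ range n, b (J + j) ≤ ∑' j, b j := by
    have h3 : ∑ j ∈ range n, b (J + j) = ∑ j ∈ Ico J (J + n), b j := by
      rw [Finset.sum_Ico_eq_sum_range, Nat.add_sub_cancel_left]
    rw [h3]
    exact hb.sum_le_tsum _ (fun i _ => hb0 i)
  linarith [key n]

theorem exists_dense_block (q : ℕ) (hq : 0 < q) (M : ℕ) (hM : 0 < M) (C Z0 : ℕ) :
    ∃ z n0 : ℕ, Z0 ≤ z ∧ M * n0 ≤ (PB q z).card ∧ C * z ^ (M - 1) < n0 ^ M := by
  by_contra hcon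
  push Not at hcon
  have : NeZero q := ⟨hq.ne'⟩
  obtain ⟨ρ, hρ⟩ : ∃ ρ : ℝ, ρ = (1 / 2 : ℝ) ^ ((1 : ℝ) / M) := ⟨_, rfl⟩
  have hM0 : (0 : ℝ) < M := by exact_mod_cast hM
  have hρM : ρ ^ M = 1 / 2 := by
    rw [hρ, one_div (M : ℝ), Real.rpow_inv_natCast_pow (by norm_num) hM.ne']
  have hρ0 : 0 < ρ := by rw [hρ]; positivity
  have hρ1 : ρ < 1 := by
    rw [hρ]; exact Real.rpow_lt_one (by norm_num) (by norm_num) (by positivity)
  have hρ2 : 1 / 2 ≤ ρ := by
    rw [← hρM]
    exact pow_le_of_le_one hρ0.le hρ1.le hM.ne'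
  refine vonMangoldt.not_summable_residueClass_prime_div (q := q) (a := 1) isUnit_one ?_
  refine summable_of_blocks _ (fun j => (M * (C + 1) * Real.log 2) * (((j : ℝ) ^ 1 * ρ ^ j) + ρ ^ j))
    ?_ ?_ ?_ Z0 ?_
  · intro n
    apply div_nonneg _ (Nat.cast_nonneg _)
    split_ifs
    · exact vonMangoldt.residueClass_nonneg _ _
    · exact le_rfl
  · intro n
    have : 0 ≤ Real.log 2 := Real.log_nonneg (by norm_num)
    positivity
  · apply Summable.mul_left
    apply Summable.add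
    · exact summable_pow_mul_geometric_of_norm_lt_one 1 (by rwa [Real.norm_of_nonneg hρ0.le])
    · exact summable_geometric_of_lt_one hρ0.le hρ1
  · intro j hj
    have hz : Z0 ≤ 2 ^ j := hj.trans Nat.lt_two_pow_self.le
    obtain ⟨c, hc⟩ : ∃ c, c = (PB q (2 ^ j)).card := ⟨_, rfl⟩
    have h1 := hcon (2 ^ j) (c / M) hz (by rw [← hc]; exact Nat.mul_div_le c M)
    have h2 : c < M * (c / M + 1) := by
      have := Nat.lt_mul_div_succ c hM
      exact this
    have hn : ((c / M : ℕ) : ℝ) ≤ C * ρ ^ j * 2 ^ j := by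
      have h3 : (((c / M : ℕ) : ℝ)) ^ M ≤ (C * ρ ^ j * 2 ^ j) ^ M := by
        calc (((c / M : ℕ) : ℝ)) ^ M ≤ ((C * (2 ^ j) ^ (M - 1) : ℕ) : ℝ) := by exact_mod_cast h1
          _ = C * ((2 ^ j) ^ (M - 1)) := by push_cast; ring
          _ ≤ (C : ℝ) ^ M * ((2 ^ j) ^ (M - 1)) := by
            gcongr
            have : C ≤ C ^ M := Nat.le_self_pow hM.ne' C
            exact_mod_cast this
          _ = (C * ρ ^ j * 2 ^ j) ^ M := by
            rw [mul_pow, mul_pow, ← pow_mul ρ, mul_comm j M, pow_mul ρ, hρM]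
            have h5 : ((2 : ℝ) ^ j) ^ M = (2 ^ j) ^ (M - 1) * 2 ^ j := by
              rw [← pow_succ, Nat.sub_add_cancel hM]
            rw [h5]
            have h6 : (1 / 2 : ℝ) ^ j * 2 ^ j = 1 := by
              rw [← mul_pow]; norm_num
            calc (C : ℝ) ^ M * (2 ^ j) ^ (M - 1) = C ^ M * (2 ^ j) ^ (M - 1) * ((1 / 2) ^ j * 2 ^ j) := by
                  rw [h6, mul_one]
              _ = _ := by ring
      exact (pow_le_pow_iff_left₀ (Nat.cast_nonneg _) (by positivity) hM.ne').1 h3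
    have hcr : (c : ℝ) ≤ M * (C + 1) * ρ ^ j * 2 ^ j := by
      have h3 : (c : ℝ) ≤ M * ((c / M : ℕ) + 1) := by
        have : (c : ℝ) ≤ ((M * (c / M + 1) : ℕ) : ℝ) := by exact_mod_cast h2.le
        simpa using this
      have h4 : (1 : ℝ) ≤ ρ ^ j * 2 ^ j := by
        rw [← mul_pow]
        apply one_le_pow₀
        linarith
      calc (c : ℝ) ≤ M * ((c / M : ℕ) + 1) := h3
        _ ≤ M * (C * ρ ^ j * 2 ^ j + ρ ^ j * 2 ^ j) := by gcongr
        _ = M * (C + 1) * ρ ^ j * 2 ^ j := by ring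
    have hlog2 : 0 ≤ Real.log 2 := Real.log_nonneg (by norm_num)
    have hsum : ∑ n ∈ Ico (2 ^ j : ℕ) (2 ^ (j + 1)),
        (if n.Prime then vonMangoldt.residueClass (1 : ZMod q) n else 0) / (n : ℝ) ≤
        ∑ n ∈ PB q (2 ^ j), ((j + 1 : ℝ) * Real.log 2) / 2 ^ j := by
      rw [PB, sum_filter, show 2 * 2 ^ j = 2 ^ (j + 1) by ring]
      apply sum_le_sum
      intro n hn
      rw [mem_Ico] at hn
      have hn0 : (0 : ℝ) < n := by
        have : 0 < n := lt_of_lt_of_le (by positivity) hn.1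
        exact_mod_cast this
      by_cases hp : n.Prime
      · by_cases hm : n ≡ 1 [MOD q]
        · rw [if_pos hp, if_pos ⟨hp, hm⟩]
          have h6 : vonMangoldt.residueClass (1 : ZMod q) n ≤ Real.log n := by
            refine (vonMangoldt.residueClass_le _ _).trans ?_
            exact vonMangoldt_le_log
          have h7 : Real.log n ≤ (j + 1 : ℝ) * Real.log 2 := by
            have h8 : (n : ℝ) ≤ 2 ^ (j + 1) := by exact_mod_cast hn.2.le
            have := Real.log_le_log hn0 h8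
            rw [Real.log_pow] at this
            push_cast at this
            exact this
          have h9 : (2 : ℝ) ^ j ≤ n := by exact_mod_cast hn.1
          calc vonMangoldt.residueClass (1 : ZMod q) n / (n : ℝ)
              ≤ ((j + 1 : ℝ) * Real.log 2) / n := by
                gcongr; exact h6.trans h7
            _ ≤ ((j + 1 : ℝ) * Real.log 2) / 2 ^ j := by gcongr
        · rw [if_pos hp, if_neg (fun h => hm h.2)]
          have : vonMangoldt.residueClass (1 : ZMod q) n = 0 := by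
            rw [vonMangoldt.residueClass, Set.indicator_of_notMem]
            intro h
            apply hm
            rw [Set.mem_ofPred_eq] at h
            have h' : (n : ZMod q) = ((1 : ℕ) : ZMod q) := by rw [h]; simp
            rwa [ZMod.natCast_eq_natCast_iff] at h'
          rw [this]; simp
      · rw [if_neg hp, if_neg (fun h => hp h.1)]; simp
    refine hsum.trans ?_
    rw [sum_const, nsmul_eq_mul, ← hc]
    calc (c : ℝ) * (((j + 1 : ℝ) * Real.log 2) / 2 ^ j)
        ≤ (M * (C + 1) * ρ ^ j * 2 ^ j) * (((j + 1 : ℝ) * Real.log 2) / 2 ^ j) := by gcongr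
      _ = (M * (C + 1) * Real.log 2) * (((j : ℝ) ^ 1 * ρ ^ j) + ρ ^ j) := by
        field_simp

end Pool.Agent.H96.OM
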