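import Mathlib
import Pool.Agent.H96.OMPrimes

set_option autoImplicit false

/-!
# A pattern of almost primes, by the pigeonhole principle
-/

namespace Pool.Agent.H96.OM

open Finset

theorem exists_pattern (k R K p0 : ℕ) (hk : 0 < k) (hK : 0 < K) :
    ∃ (h : Fin k → ℤ) (θ : Fin R → ℤ) (D : Fin R → Fin k → ℕ),
      (∀ t l, (D t l : ℤ) = θ t + K * h l) ∧
      (∀ t, θ t = D t ⟨0, hk⟩) ∧
      (∀ t l, ∃ s : Finset ℕ, s.card = l.val + 1 ∧
        (∀ p ∈ s, p.Prime ∧ p0 ≤ p ∧ p ≡ 1 [MOD K]) ∧ D t l = ∏ p ∈ s, p) ∧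
      (∀ t l t' l', (t, l) ≠ (t', l') → Nat.Coprime (D t l) (D t' l')) := by
  classical
  obtain ⟨l0, hl0⟩ : ∃ l0 : Fin k, l0 = ⟨0, hk⟩ := ⟨_, rfl⟩
  obtain ⟨M, hM⟩ : ∃ M, M = ∑ l : Fin k, (l.val + 1) := ⟨_, rfl⟩
  have hMpos : 0 < M := by
    rw [hM]
    exact Finset.sum_pos (fun l _ => Nat.succ_pos _) ⟨l0, mem_univ _⟩
  obtain ⟨z, n0, hz, hn0, hC⟩ := exists_dense_block K hK M hMpos (R * 2 ^ (k + M)) (max p0 1)
  have hz1 : 1 ≤ z := (le_max_right _ _).trans hz
  have hzp : p0 ≤ z := (le_max_left _ _).trans hz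
  -- the index type
  have hcardI : Fintype.card (Σ l : Fin k, Fin (l.val + 1)) = M := by
    rw [Fintype.card_sigma, hM]
    simp
  have hemb : Nonempty (((Σ l : Fin k, Fin (l.val + 1)) × Fin n0) ↪ {x // x ∈ PB K z}) := by
    apply Function.Embedding.nonempty_of_card_le
    rw [Fintype.card_prod, hcardI, Fintype.card_fin, Fintype.card_coe]
    exact hn0
  obtain ⟨e⟩ := hemb
  obtain ⟨P, hP⟩ : ∃ P : (Σ l : Fin k, Fin (l.val + 1)) → Fin n0 → ℕ,
    P = fun i a => (e (i, a) : ℕ) := ⟨_, rfl⟩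
  have hPmem : ∀ i a, z ≤ P i a ∧ P i a < 2 * z ∧ (P i a).Prime ∧ P i a ≡ 1 [MOD K] := by
    intro i a
    rw [hP]
    exact mem_PB.1 (e (i, a)).2
  have hPinj : ∀ i a i' a', P i a = P i' a' → i = i' ∧ a = a' := by
    intro i a i' a' h
    rw [hP] at h
    have h1 : e (i, a) = e (i', a') := Subtype.ext h
    have h2 := e.injective h1
    exact Prod.mk.inj h2
  obtain ⟨DD, hDD⟩ : ∃ DD : ((Σ l : Fin k, Fin (l.val + 1)) → Fin n0) → Fin k → ℕ,
    DD = fun f l => ∏ i : Fin (l.val + 1), P ⟨l, i⟩ (f ⟨l, i⟩) := ⟨_, rfl⟩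
  have hDDlt : ∀ f l, DD f l < (2 * z) ^ (l.val + 1) := by
    intro f l
    rw [hDD]
    simp only
    calc ∏ i : Fin (l.val + 1), P ⟨l, i⟩ (f ⟨l, i⟩) < ∏ _i : Fin (l.val + 1), (2 * z) := by
          apply Finset.prod_lt_prod
          · intro i _; exact (hPmem _ _).2.2.1.pos
          · intro i _; exact (hPmem _ _).2.1.le
          · exact ⟨0, mem_univ _, (hPmem _ _).2.1⟩
      _ = (2 * z) ^ (l.val + 1) := by rw [prod_const, card_univ, Fintype.card_fin]
  have hDD0 : ∀ f, z ≤ DD f l0 ∧ DD f l0 < 2 * z := by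
    intro f
    have h1 : DD f l0 < 2 * z := by
      have := hDDlt f l0
      rw [hl0] at this ⊢
      simpa using this
    refine ⟨?_, h1⟩
    rw [hDD]
    simp only
    have h2 : P ⟨l0, 0⟩ (f ⟨l0, 0⟩) ∣ ∏ i : Fin (l0.val + 1), P ⟨l0, i⟩ (f ⟨l0, i⟩) :=
      Finset.dvd_prod_of_mem (fun i : Fin (l0.val + 1) => P ⟨l0, i⟩ (f ⟨l0, i⟩)) (mem_univ 0)
    exact (hPmem _ _).1.trans (Nat.le_of_dvd (prod_pos fun i _ => (hPmem _ _).2.2.1.pos) h2)
  have hDDmod : ∀ f l, DD f l ≡ 1 [MOD K] := by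
    intro f l
    rw [hDD]
    simp only
    have h1 : ∀ s : Finset (Fin (l.val + 1)), (∏ i ∈ s, P ⟨l, i⟩ (f ⟨l, i⟩)) ≡ 1 [MOD K] := by
      intro s
      induction s using Finset.induction_on with
      | empty => simp [Nat.ModEq.refl]
      | insert a s ha ih =>
        rw [prod_insert ha]
        have := (hPmem ⟨l, a⟩ (f ⟨l, a⟩)).2.2.2.mul ih
        rwa [one_mul] at this
    exact h1 univ
  -- pigeonhole
  obtain ⟨G, hG⟩ : ∃ G : ((Σ l : Fin k, Fin (l.val + 1)) → Fin n0) → Fin k → ℤ,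
    G = fun f l => (DD f l : ℤ) - DD f l0 := ⟨_, rfl⟩
  obtain ⟨T, hT⟩ : ∃ T : Finset (Fin k → ℤ), T = Fintype.piFinset (fun l : Fin k =>
    if l = l0 then ({0} : Finset ℤ) else Ioo (-(2 * z : ℤ)) ((2 * z) ^ (l.val + 1))) := ⟨_, rfl⟩
  have hGT : ∀ f ∈ (univ : Finset ((Σ l : Fin k, Fin (l.val + 1)) → Fin n0)), G f ∈ T := by
    intro f _
    rw [hT, Fintype.mem_piFinset]
    intro l
    split_ifs with h
    · rw [hG, h]; simp
    · rw [hG, mem_Ioo]
      simp only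
      have h1 := hDDlt f l
      have h2 := hDD0 f
      have h1' : (DD f l : ℤ) < (2 * z) ^ (l.val + 1) := by exact_mod_cast h1
      have h2' : (DD f l0 : ℤ) < 2 * z := by exact_mod_cast h2.2
      constructor
      · have : (0 : ℤ) ≤ DD f l := Int.natCast_nonneg _
        linarith
      · have : (0 : ℤ) ≤ DD f l0 := Int.natCast_nonneg _
        linarith
  have hTcard : T.card ≤ 2 ^ (k + M) * z ^ (M - 1) := by
    have h1 : (2 * z) * T.card ≤ ∏ l : Fin k, 2 * (2 * z) ^ (l.val + 1) := by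
      rw [hT, Fintype.card_piFinset, ← Finset.mul_prod_erase univ _ (mem_univ l0),
        ← Finset.mul_prod_erase univ (fun l : Fin k => 2 * (2 * z) ^ (l.val + 1)) (mem_univ l0)]
      rw [if_pos rfl, card_singleton, one_mul]
      apply Nat.mul_le_mul
      · rw [hl0]; simp only [zero_add, pow_one]; omega
      · apply Finset.prod_le_prod'
        intro l hl
        rw [if_neg (Finset.ne_of_mem_erase hl), Int.card_Ioo]
        have h2 : 2 * z ≤ (2 * z) ^ (l.val + 1) := Nat.le_self_pow (by omega) _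
        have h3 : ((2 * z : ℤ) ^ (l.val + 1) - -(2 * z) - 1).toNat ≤
            (((2 * z) ^ (l.val + 1) + 2 * z : ℕ) : ℤ).toNat := by
          apply Int.toNat_le_toNat
          push_cast
          linarith
        rw [Int.toNat_natCast] at h3
        omega
    have h2 : ∏ l : Fin k, 2 * (2 * z) ^ (l.val + 1) = 2 ^ k * (2 * z) ^ M := by
      rw [prod_mul_distrib, prod_const, card_univ, Fintype.card_fin, prod_pow_eq_pow_sum, ← hM]
    rw [h2] at h1
    have h3 : z * T.card ≤ z * (2 ^ (k + M) * z ^ (M - 1)) := by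
      calc z * T.card ≤ 2 * z * T.card := Nat.mul_le_mul_right _ (by omega)
        _ ≤ 2 ^ k * (2 * z) ^ M := h1
        _ = 2 ^ (k + M) * z ^ M := by rw [mul_pow, pow_add]; ring
        _ = z * (2 ^ (k + M) * z ^ (M - 1)) := by
          have : z ^ M = z * z ^ (M - 1) := by
            rw [← pow_succ', Nat.sub_add_cancel hMpos]
          rw [this]; ring
    exact Nat.le_of_mul_le_mul_left h3 (by omega)
  have hlt : T.card * R < (univ : Finset ((Σ l : Fin k, Fin (l.val + 1)) → Fin n0)).card := by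
    rw [card_univ, Fintype.card_fun, Fintype.card_fin, hcardI]
    calc T.card * R ≤ (2 ^ (k + M) * z ^ (M - 1)) * R := Nat.mul_le_mul_right _ hTcard
      _ = R * 2 ^ (k + M) * z ^ (M - 1) := by ring
      _ < n0 ^ M := hC
  obtain ⟨v, _, hv⟩ := Finset.exists_lt_card_fiber_of_mul_lt_card_of_maps_to hGT hlt
  obtain ⟨F, hF⟩ : ∃ F, F = (univ : Finset ((Σ l : Fin k, Fin (l.val + 1)) → Fin n0)).filter
    (fun f => G f = v) := ⟨_, rfl⟩
  rw [← hF] at hv
  have hFmem : ∀ f ∈ F, ∀ l, (DD f l : ℤ) - DD f l0 = v l := by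
    intro f hf l
    rw [hF, mem_filter] at hf
    have := congrFun hf.2 l
    rw [hG] at this
    exact this
  obtain ⟨f0, hf0⟩ : F.Nonempty := by
    rw [← card_pos]; omega
  have hKv : ∀ l, (K : ℤ) ∣ v l := by
    intro l
    rw [← hFmem f0 hf0 l]
    have h1 := (hDDmod f0 l).trans (hDDmod f0 l0).symm
    have h2 := (Int.natCast_modEq_iff.2 h1.symm).dvd
    exact h2
  have hemb2 : Nonempty (Fin R ↪ {x // x ∈ F}) := by
    apply Function.Embedding.nonempty_of_card_le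
    rw [Fintype.card_fin, Fintype.card_coe]
    exact hv.le
  obtain ⟨φ⟩ := hemb2
  choose h hh using hKv
  refine ⟨h, fun t => DD (φ t).1 l0, fun t l => DD (φ t).1 l, ?_, ?_, ?_, ?_⟩
  · intro t l
    have := hFmem _ (φ t).2 l
    rw [hh] at this
    simp only
    linarith
  · intro t
    rw [hl0]
  · intro t l
    refine ⟨univ.image (fun i : Fin (l.val + 1) => P ⟨l, i⟩ ((φ t).1 ⟨l, i⟩)), ?_, ?_, ?_⟩
    · rw [card_image_of_injective, card_univ, Fintype.card_fin]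
      intro i i' hi
      simp only at hi
      have := (hPinj _ _ _ _ hi).1
      exact eq_of_heq (Sigma.mk.inj this).2
    · intro p hp
      rw [mem_image] at hp
      obtain ⟨i, _, rfl⟩ := hp
      obtain ⟨h1, h2, h3, h4⟩ := hPmem ⟨l, i⟩ ((φ t).1 ⟨l, i⟩)
      exact ⟨h3, hzp.trans h1, h4⟩
    · rw [prod_image]
      · rw [hDD]
      · intro i _ i' _ hi
        simp only at hi
        have := (hPinj _ _ _ _ hi).1
        exact eq_of_heq (Sigma.mk.inj this).2
  · intro t l t' l' hne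
    simp only
    rw [Nat.coprime_iff_gcd_eq_one]
    by_contra hg
    obtain ⟨p, hp, hpd⟩ := Nat.exists_prime_and_dvd hg
    have hp1 := hpd.trans (Nat.gcd_dvd_left _ _)
    have hp2 := hpd.trans (Nat.gcd_dvd_right _ _)
    have key : ∀ f l, p ∣ DD f l → ∃ i : Fin (l.val + 1), p = P ⟨l, i⟩ (f ⟨l, i⟩) := by
      intro f l hd
      rw [hDD] at hd
      simp only at hd
      rw [Prime.dvd_finsetProd_iff hp.prime] at hd
      obtain ⟨i, _, hi⟩ := hd
      exact ⟨i, (Nat.prime_dvd_prime_iff_eq hp (hPmem _ _).2.2.1).1 hi⟩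
    obtain ⟨i, hi⟩ := key _ _ hp1
    obtain ⟨i', hi'⟩ := key _ _ hp2
    have h1 := (hPinj _ _ _ _ (hi.symm.trans hi')).1
    have hll : l = l' := (Sigma.mk.inj h1).1
    subst hll
    have htt : t ≠ t' := fun h => hne (by rw [h])
    have e1 := hFmem _ (φ t).2 l
    have e2 := hFmem _ (φ t').2 l
    have hz' : z ≤ p := by rw [hi]; exact (hPmem _ _).1
    have hd : (p : ℤ) ∣ (DD (φ t).1 l0 : ℤ) - DD (φ t').1 l0 := by
      have h2 : (DD (φ t).1 l0 : ℤ) - DD (φ t').1 l0 = DD (φ t).1 l - DD (φ t').1 l := by linarith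
      rw [h2]
      exact dvd_sub (Int.natCast_dvd_natCast.2 hp1) (Int.natCast_dvd_natCast.2 hp2)
    have hb1 := hDD0 (φ t).1
    have hb2 := hDD0 (φ t').1
    have heq : (DD (φ t).1 l0 : ℤ) - DD (φ t').1 l0 = 0 := by
      apply Int.eq_zero_of_abs_lt_dvd hd
      rw [abs_lt]
      constructor <;> omega
    apply htt
    apply φ.injective
    apply Subtype.ext
    funext ⟨j, a⟩
    have e3 := hFmem _ (φ t).2 j
    have e4 := hFmem _ (φ t').2 j
    have e5 : DD (φ t).1 j = DD (φ t').1 j := by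
      have : (DD (φ t).1 j : ℤ) = DD (φ t').1 j := by linarith
      exact_mod_cast this
    have e6 : P ⟨j, a⟩ ((φ t).1 ⟨j, a⟩) ∣ DD (φ t').1 j := by
      rw [← e5, hDD]
      exact Finset.dvd_prod_of_mem (fun i : Fin (j.val + 1) => P ⟨j, i⟩ ((φ t).1 ⟨j, i⟩))
        (mem_univ a)
    rw [hDD] at e6
    simp only at e6
    rw [Prime.dvd_finsetProd_iff (hPmem _ _).2.2.1.prime] at e6
    obtain ⟨a', _, ha'⟩ := e6
    have e7 := (Nat.prime_dvd_prime_iff_eq (hPmem _ _).2.2.1 (hPmem _ _).2.2.1).1 ha'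
    obtain ⟨e8, e9⟩ := hPinj _ _ _ _ e7
    have e10 : a = a' := eq_of_heq (Sigma.mk.inj e8).2
    rw [e10] at e9 ⊢
    exact e9

end Pool.Agent.H96.OM
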