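import Mathlib
import Pool.Agent.H96.OMPattern
import Pool.Agent.H6.AP.Local

set_option autoImplicit false

/-!
# The local theorem: a finite system of edges from the Hales-Jewett theorem
-/

namespace Pool.Agent.H96.OM

open Finset Combinatorics
open Pool.Agent.H6.AP (EdgeOK Unsat)

theorem exists_root (s : Finset ℕ) (hs : ∀ p ∈ s, p.Prime ∧ p ≡ 1 [MOD 4]) :
    ∃ ρ : ℕ, (∏ p ∈ s, p) ∣ ρ ^ 2 + 1 := by
  have h1 : IsSquare (-1 : ZMod (∏ p ∈ s, p)) := by
    induction s using Finset.induction_on with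
    | empty => rw [prod_empty]; exact ⟨0, Subsingleton.elim _ _⟩
    | insert a s ha ih =>
      rw [prod_insert ha]
      apply ZMod.isSquare_neg_one_mul
      · apply Nat.Coprime.prod_right
        intro p hp
        rw [Nat.coprime_primes (hs a (mem_insert_self _ _)).1 (hs p (mem_insert_of_mem hp)).1]
        rintro rfl
        exact ha hp
      · have h2 := hs a (mem_insert_self _ _)
        have : Fact a.Prime := ⟨h2.1⟩
        rw [ZMod.exists_sq_eq_neg_one_iff]
        have h3 : a % 4 = 1 % 4 := h2.2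
        omega
      · exact ih fun p hp => hs p (mem_insert_of_mem hp)
  have hne : NeZero (∏ p ∈ s, p) := ⟨prod_ne_zero_iff.2 fun p hp => (hs p hp).1.ne_zero⟩
  obtain ⟨x, hx⟩ := h1
  refine ⟨x.val, ?_⟩
  rw [← ZMod.natCast_eq_zero_iff]
  push_cast
  rw [ZMod.natCast_val, ZMod.cast_id]
  rw [sq, ← hx]
  ring

theorem g_prod {k : ℕ} (g : ℕ → ZMod k) (hg : ∀ m n : ℕ, m ≠ 0 → n ≠ 0 → g (m * n) = g m + g n)
    (s : Finset ℕ) (hs : ∀ p ∈ s, p ≠ 0 ∧ g p = 1) : g (∏ p ∈ s, p) = s.card := by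
  have h1 : g 1 = 0 := by
    have := hg 1 1 one_ne_zero one_ne_zero
    rw [mul_one] at this
    exact left_eq_add.1 this
  induction s using Finset.induction_on with
  | empty => simp [h1]
  | insert a s ha ih =>
    rw [prod_insert ha, card_insert_of_notMem ha, hg _ _ (hs a (mem_insert_self _ _)).1
      (prod_ne_zero_iff.2 fun p hp => (hs p (mem_insert_of_mem hp)).1),
      ih fun p hp => hs p (mem_insert_of_mem hp), (hs a (mem_insert_self _ _)).2]
    push_cast
    ring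

theorem prod_mod (K : ℕ) (s : Finset ℕ) (hs : ∀ p ∈ s, p ≡ 1 [MOD K]) :
    (∏ p ∈ s, p) ≡ 1 [MOD K] := by
  induction s using Finset.induction_on with
  | empty => simp [Nat.ModEq.refl]
  | insert a s ha ih =>
    rw [prod_insert ha]
    have := (hs a (mem_insert_self _ _)).mul (ih fun p hp => hs p (mem_insert_of_mem hp))
    rwa [one_mul] at this

/-- number of moving coordinates -/
def act {α ι : Type} [Fintype ι] [DecidableEq α] (L : Line α ι) : ℕ :=
  (univ.filter (fun i => L.idxFun i = none)).card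

/-- the constant part -/
def fixedPart {α ι : Type} [Fintype ι] (L : Line α ι) (h : α → ℤ) : ℤ :=
  ∑ i, (L.idxFun i).elim 0 h

theorem sum_line {α ι : Type} [Fintype ι] [DecidableEq α] (L : Line α ι) (h : α → ℤ) (l : α) :
    ∑ i, h (L l i) = fixedPart L h + act L * h l := by
  have h1 : (act L : ℤ) * h l = ∑ i, if L.idxFun i = none then h l else 0 := by
    rw [← Finset.sum_filter, sum_const, act, nsmul_eq_mul]
  rw [h1, fixedPart, ← sum_add_distrib]
  apply sum_congr rfl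
  intro i _
  rw [Line.coe_apply]
  cases h2 : L.idxFun i with
  | none => simp
  | some a => simp

theorem act_pos {α ι : Type} [Fintype ι] [DecidableEq α] (L : Line α ι) : 0 < act L := by
  obtain ⟨i, hi⟩ := L.proper
  rw [act, card_pos]
  exact ⟨i, by simp [hi]⟩

theorem act_le {α ι : Type} [Fintype ι] [DecidableEq α] (L : Line α ι) :
    act L ≤ Fintype.card ι := by
  rw [act, ← card_univ]
  exact card_filter_le _ _

theorem abs_fixedPart_le {α ι : Type} [Fintype ι] (L : Line α ι) (h : α → ℤ) (H : ℤ)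
    (hH : ∀ a, |h a| ≤ H) (hH0 : 0 ≤ H) : |fixedPart L h| ≤ Fintype.card ι * H := by
  rw [fixedPart]
  refine (abs_sum_le_sum_abs _ _).trans ?_
  calc ∑ i, |(L.idxFun i).elim 0 h| ≤ ∑ _i : ι, H := by
        apply sum_le_sum
        intro i _
        cases L.idxFun i with
        | none => simpa using hH0
        | some a => exact hH a
    _ = Fintype.card ι * H := by rw [sum_const, card_univ, nsmul_eq_mul]

theorem finite_line (α ι : Type) [Finite α] [Finite ι] : Finite (Line α ι) := by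
  apply Finite.of_injective (fun L : Line α ι => L.idxFun)
  intro L L' h
  cases L; cases L'
  simp only at h
  subst h
  rfl

/-- The star theorem. For every colouring one gets all residues `s - 2 j`. -/
theorem exists_star (k m0 b p0 : ℕ) (hk : 0 < k) (hm0 : 0 < m0) :
    ∃ (E : Finset (ℕ × ℕ × ℕ × ℕ)) (Q s0 z : ℕ), 0 < Q ∧ m0 ∣ Q ∧ EdgeOK Q s0 E ∧
      (∀ x ∈ E, m0 ∣ x.1 ∧ m0 ∣ x.2.1) ∧ s0 + b ≡ 0 [MOD m0] ∧
      ∀ g : ℕ → ZMod k, (∀ m n : ℕ, m ≠ 0 → n ≠ 0 → g (m * n) = g m + g n) →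
        (∀ p, p.Prime → p0 ≤ p → p ≤ z → p ≡ 1 [MOD m0] → g p = 1) →
        ∀ c : ℕ × ℕ → ZMod k, ∃ s : ZMod k, ∀ j : ZMod k, ∃ x ∈ E,
          c (1, x.1) + c (x.2.1, x.2.2.1) - 2 * g x.2.2.2 = s - 2 * j := by
  classical
  have : NeZero k := ⟨hk.ne'⟩
  obtain ⟨ι, hι, HJ⟩ := Line.exists_mono_in_high_dimension (Fin k) (ZMod k)
  obtain ⟨n, hn⟩ : ∃ n, n = Fintype.card ι := ⟨_, rfl⟩
  have hfin := finite_line (Fin k) ι
  obtain ⟨R, ⟨e⟩⟩ := Finite.exists_equiv_fin (Line (Fin k) ι)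
  obtain ⟨K, hK⟩ : ∃ K, K = m0 * 4 * n.factorial := ⟨_, rfl⟩
  have hKpos : 0 < K := by rw [hK]; positivity
  obtain ⟨h', θ, D, hD1, hD2, hD3, hD4⟩ := exists_pattern k R (K * m0) p0 hk (by positivity)
  have hDmod : ∀ t l, D t l ≡ 1 [MOD K * m0] := by
    intro t l
    obtain ⟨s, _, hs, hs'⟩ := hD3 t l
    rw [hs']
    exact prod_mod _ s fun p hp => (hs p hp).2.2
  have hDpos : ∀ t l, 0 < D t l := by
    intro t l
    obtain ⟨s, _, hs, hs'⟩ := hD3 t l
    rw [hs']
    exact prod_pos fun p hp => (hs p hp).1.pos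
  -- the numbers h
  obtain ⟨h, hh⟩ : ∃ h : Fin k → ℤ, h = fun l => m0 * h' l := ⟨_, rfl⟩
  have hDθ : ∀ t l, (D t l : ℤ) = θ t + K * h l := by
    intro t l
    rw [hD1 t l, hh]; push_cast; ring
  obtain ⟨H, hH⟩ : ∃ H : ℕ, H = ∑ l, (h l).natAbs := ⟨_, rfl⟩
  have hHle : ∀ l, |h l| ≤ H := by
    intro l
    rw [hH, Int.abs_eq_natAbs]
    exact_mod_cast single_le_sum (f := fun l => (h l).natAbs) (fun _ _ => Nat.zero_le _) (mem_univ l)
  obtain ⟨Θ, hΘ⟩ : ∃ Θ : ℕ, Θ = ∑ t, ∑ l, D t l := ⟨_, rfl⟩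
  have hDΘ : ∀ t l, D t l ≤ Θ := by
    intro t l
    rw [hΘ]
    refine le_trans ?_ (single_le_sum (f := fun t => ∑ l, D t l) (fun _ _ => Nat.zero_le _)
      (mem_univ t))
    exact single_le_sum (f := fun l => D t l) (fun _ _ => Nat.zero_le _) (mem_univ l)
  obtain ⟨Y0, hY0⟩ : ∃ Y0 : ℕ, Y0 = m0 * (n * H + Θ) := ⟨_, rfl⟩
  have hY0' : n * H + Θ ≤ Y0 := by rw [hY0]; exact Nat.le_mul_of_pos_left _ hm0
  -- positions
  have hpos : ∀ w : ι → Fin k, 0 ≤ (Y0 : ℤ) + ∑ i, h (w i) := by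
    intro w
    have h1 : |∑ i, h (w i)| ≤ n * H := by
      refine (abs_sum_le_sum_abs _ _).trans ?_
      calc ∑ i, |h (w i)| ≤ ∑ _i : ι, (H : ℤ) := sum_le_sum fun i _ => hHle _
        _ = n * H := by rw [sum_const, card_univ, nsmul_eq_mul, hn]
    have h2 : ((n * H + Θ : ℕ) : ℤ) ≤ Y0 := by exact_mod_cast hY0'
    push_cast at h2
    have h3 := neg_abs_le (∑ i, h (w i))
    have h4 : (0 : ℤ) ≤ Θ := Int.natCast_nonneg _
    linarith
  obtain ⟨Y, hY⟩ : ∃ Y : (ι → Fin k) → ℕ, Y = fun w => ((Y0 : ℤ) + ∑ i, h (w i)).toNat := ⟨_, rfl⟩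
  have hYz : ∀ w, (Y w : ℤ) = Y0 + ∑ i, h (w i) := by
    intro w
    rw [hY]
    exact Int.toNat_of_nonneg (hpos w)
  have hYm : ∀ w, m0 ∣ Y w := by
    intro w
    rw [← Int.natCast_dvd_natCast, hYz, hY0]
    apply dvd_add
    · push_cast; exact dvd_mul_right _ _
    · apply dvd_sum
      intro i _
      rw [hh]
      exact dvd_mul_right _ _
  -- the centre of a line
  have hact : ∀ L : Line (Fin k) ι, act L ∣ n.factorial := by
    intro L
    apply Nat.dvd_factorial (act_pos L)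
    rw [hn]
    exact act_le L
  have hB : ∀ L : Line (Fin k) ι, ∃ B : ℕ, 0 < B ∧ m0 ∣ B ∧ act L * B = K := by
    intro L
    obtain ⟨c, hc⟩ := hact L
    have hc0 : 0 < c := by
      rcases Nat.eq_zero_or_pos c with h0 | h0
      · rw [h0, mul_zero] at hc
        exact absurd hc (Nat.factorial_ne_zero n)
      · exact h0
    refine ⟨m0 * 4 * c, by positivity, ?_, ?_⟩
    · rw [mul_assoc]; exact dvd_mul_right _ _
    · rw [hK, hc]; ring
  choose B hB0 hBm hBK using hB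
  have hA : ∀ L : Line (Fin k) ι, ∃ A : ℕ, (A : ℤ) = B L * (Y0 + fixedPart L h) - θ (e L) := by
    intro L
    have h1 : |fixedPart L h| ≤ n * H := by
      rw [hn]
      exact abs_fixedPart_le L h H hHle (Int.natCast_nonneg _)
    have h2 : ((n * H + Θ : ℕ) : ℤ) ≤ Y0 := by exact_mod_cast hY0'
    push_cast at h2
    have h3 := neg_abs_le (fixedPart L h)
    have h4 : θ (e L) ≤ Θ := by
      rw [hD2]
      exact_mod_cast hDΘ _ _
    have h5 : (Θ : ℤ) ≤ Y0 + fixedPart L h := by linarith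
    have h6 : (0 : ℤ) ≤ Y0 + fixedPart L h := le_trans (Int.natCast_nonneg _) h5
    have h7 : (1 : ℤ) ≤ B L := by exact_mod_cast hB0 L
    have h8 : 0 ≤ B L * (Y0 + fixedPart L h) - θ (e L) := by nlinarith
    exact ⟨_, Int.toNat_of_nonneg h8⟩
  choose A hA using hA
  have hedge : ∀ (L : Line (Fin k) ι) (l : Fin k), B L * Y (L l) = A L + D (e L) l := by
    intro L l
    have h1 : ((B L * Y (L l) : ℕ) : ℤ) = ((A L + D (e L) l : ℕ) : ℤ) := by
      push_cast
      rw [hYz, sum_line, hA, hDθ]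
      have h2 : ((act L * B L : ℕ) : ℤ) = K := by rw [hBK]
      push_cast at h2
      rw [← h2]
      ring
    exact_mod_cast h1
  -- the roots
  have hroot : ∀ t l, ∃ ρ : ℕ, D t l ∣ ρ ^ 2 + 1 := by
    intro t l
    obtain ⟨s, _, hs, hs'⟩ := hD3 t l
    rw [hs']
    apply exists_root
    intro p hp
    refine ⟨(hs p hp).1, (hs p hp).2.2.of_dvd ?_⟩
    rw [hK]
    exact ⟨m0 * n.factorial * m0, by ring⟩
  choose ρ hρ using hroot
  have hcrt := Nat.chineseRemainderOfFinset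
    (fun i : Option (Line (Fin k) ι × Fin k) =>
      i.elim (b * (m0 - 1)) (fun x => ρ (e x.1) x.2 + Y (x.1 x.2) * (D (e x.1) x.2 - 1)))
    (fun i : Option (Line (Fin k) ι × Fin k) => i.elim m0 (fun x => D (e x.1) x.2))
    (Set.toFinite (Set.univ : Set (Option (Line (Fin k) ι × Fin k)))).toFinset
    (by
      intro i _
      cases i with
      | none => exact hm0.ne'
      | some x => exact (hDpos _ _).ne')
    (by
      have hcop : ∀ x : Line (Fin k) ι × Fin k, Nat.Coprime m0 (D (e x.1) x.2) := by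
        intro x
        have h1 : D (e x.1) x.2 ≡ 1 [MOD m0] := (hDmod _ _).of_dvd (dvd_mul_left _ _)
        rw [Nat.Coprime, Nat.gcd_comm, h1.gcd_eq]
        simp
      intro i _ j _ hij
      cases i with
      | none =>
        cases j with
        | none => exact absurd rfl hij
        | some x => exact hcop x
      | some x =>
        cases j with
        | none => exact (hcop x).symm
        | some y =>
          apply hD4
          intro hxy
          apply hij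
          have h1 := Prod.mk.inj hxy
          rw [show x = y from Prod.ext (e.injective h1.1) h1.2])
  obtain ⟨s0, hs0⟩ := hcrt
  have hs1 : s0 ≡ b * (m0 - 1) [MOD m0] := hs0 none (by simp)
  have hs2 : ∀ L l, s0 ≡ ρ (e L) l + Y (L l) * (D (e L) l - 1) [MOD D (e L) l] :=
    fun L l => hs0 (some (L, l)) (by simp)
  have : Fintype (Line (Fin k) ι) := Fintype.ofFinite _
  refine ⟨(univ : Finset (Line (Fin k) ι × Fin k)).image
    (fun x => (Y (x.1 x.2), B x.1, A x.1, D (e x.1) x.2)),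
    m0 * ∏ x : Line (Fin k) ι × Fin k, D (e x.1) x.2, s0, Θ, ?_, ?_, ?_, ?_, ?_, ?_⟩
  · exact Nat.mul_pos hm0 (prod_pos fun x _ => hDpos _ _)
  · exact dvd_mul_right _ _
  · intro x hx
    rw [mem_image] at hx
    obtain ⟨⟨L, l⟩, _, rfl⟩ := hx
    refine ⟨hB0 L, hDpos _ _, hedge L l, ?_, ?_⟩
    · exact Dvd.dvd.mul_left (dvd_prod_of_mem (fun x : Line (Fin k) ι × Fin k => D (e x.1) x.2)
        (mem_univ (L, l))) _
    · simp only
      have h1 := (hs2 L l).add_right (Y (L l))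
      have h2 : ρ (e L) l + Y (L l) * (D (e L) l - 1) + Y (L l) = ρ (e L) l + Y (L l) * D (e L) l := by
        have h3 : D (e L) l = (D (e L) l - 1) + 1 := (Nat.sub_add_cancel (hDpos _ _)).symm
        calc ρ (e L) l + Y (L l) * (D (e L) l - 1) + Y (L l)
            = ρ (e L) l + Y (L l) * ((D (e L) l - 1) + 1) := by ring
          _ = _ := by rw [← h3]
      rw [h2] at h1
      have h3 : ρ (e L) l + Y (L l) * D (e L) l ≡ ρ (e L) l [MOD D (e L) l] := by
        have h4 : Y (L l) * D (e L) l ≡ 0 [MOD D (e L) l] :=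
          (Nat.modEq_zero_iff_dvd).2 (dvd_mul_left _ _)
        have h5 := (Nat.ModEq.refl (ρ (e L) l)).add h4
        rwa [add_zero] at h5
      exact ((((h1.trans h3).pow 2).add_right 1).dvd_iff dvd_rfl).2 (hρ _ _)
  · intro x hx
    rw [mem_image] at hx
    obtain ⟨⟨L, l⟩, _, rfl⟩ := hx
    exact ⟨hYm _, hBm _⟩
  · have h1 := hs1.add_right b
    have h2 : b * (m0 - 1) + b = b * m0 := by
      have h3 : m0 = (m0 - 1) + 1 := (Nat.sub_add_cancel hm0).symm
      calc b * (m0 - 1) + b = b * ((m0 - 1) + 1) := by ring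
        _ = _ := by rw [← h3]
    rw [h2] at h1
    exact h1.trans ((Nat.modEq_zero_iff_dvd).2 (dvd_mul_left _ _))
  · intro g hg hgp c
    have hgD : ∀ t l, g (D t l) = (l.val + 1 : ℕ) := by
      intro t l
      obtain ⟨s, hs1, hs, hs'⟩ := hD3 t l
      rw [hs', g_prod g hg s, hs1]
      intro p hp
      refine ⟨(hs p hp).1.ne_zero, hgp p (hs p hp).1 (hs p hp).2.1 ?_ ?_⟩
      · refine le_trans ?_ (hDΘ t l)
        apply Nat.le_of_dvd (hDpos _ _)
        rw [hs']
        exact dvd_prod_of_mem (fun p => p) hp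
      · exact (hs p hp).2.2.of_dvd (dvd_mul_left _ _)
    obtain ⟨L, β, hL⟩ := HJ (fun w => c (1, Y w))
    refine ⟨β + c (B L, A L), ?_⟩
    intro j
    obtain ⟨l, hl⟩ : ∃ l : Fin k, ((l.val + 1 : ℕ) : ZMod k) = j := by
      refine ⟨⟨(j - 1).val, ZMod.val_lt _⟩, ?_⟩
      push_cast
      rw [ZMod.natCast_val, ZMod.cast_id]
      ring
    refine ⟨(Y (L l), B L, A L, D (e L) l), mem_image.2 ⟨(L, l), mem_univ _, rfl⟩, ?_⟩
    simp only
    rw [hgD, hl]
    have h7 : c (1, Y (L l)) = β := hL l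
    rw [h7]

/-- The local theorem for odd moduli. -/
theorem exists_local (k m0 b p0 : ℕ) (hk : Odd k) (hm0 : 0 < m0) :
    ∃ (E : Finset (ℕ × ℕ × ℕ × ℕ)) (Q s0 z : ℕ), 0 < Q ∧ m0 ∣ Q ∧ EdgeOK Q s0 E ∧
      (∀ x ∈ E, m0 ∣ x.1 ∧ m0 ∣ x.2.1) ∧ s0 + b ≡ 0 [MOD m0] ∧
      ∀ g : ℕ → ZMod k, (∀ m n : ℕ, m ≠ 0 → n ≠ 0 → g (m * n) = g m + g n) →
        (∀ p, p.Prime → p0 ≤ p → p ≤ z → p ≡ 1 [MOD m0] → g p = 1) →
        ∀ r, Unsat E g r := by
  obtain ⟨E, Q, s0, z, h1, h2, h3, h4, h5, h6⟩ := exists_star k m0 b p0 hk.pos hm0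
  refine ⟨E, Q, s0, z, h1, h2, h3, h4, h5, ?_⟩
  intro g hg hgp r c
  obtain ⟨s, hs⟩ := h6 g hg hgp c
  obtain ⟨a, ha⟩ := hk
  obtain ⟨x, hx, hxs⟩ := hs ((a + 1) * (s - r))
  refine ⟨x, hx, hxs.trans ?_⟩
  have h2a : (2 * (a + 1) : ZMod k) = 1 := by
    have h0 : ((2 * a + 1 : ℕ) : ZMod k) = 0 := by
      rw [← ha]; exact ZMod.natCast_self k
    push_cast at h0
    linear_combination h0
  linear_combination -(s - r) * h2a

end Pool.Agent.H96.OM
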