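import Pool.Agent.H96.RecTrans

set_option autoImplicit false

open MeasureTheory
open scoped ENNReal

namespace Pool.Agent.H96.Rec

variable {V : Type}

section bridge

variable (G : SimpleGraph V) [G.LocallyFinite]

open Classical in
lemma sum_boundary (S : Finset V) (a b : V) (ha : a ∈ S) (hb : b ∉ S) (hab : G.Adj a b)
    (hbd : ∀ x ∈ S, ∀ y, y ∉ S → G.Adj x y → x = a ∧ y = b) (F : V → V → ℝ) :
    ∑ x ∈ S, ∑ y ∈ G.neighborFinset x, F x y =
      ∑ x ∈ S, ∑ y ∈ S, (if G.Adj x y then F x y else 0) + F a b := by
  have h1 : ∀ x ∈ S, ∑ y ∈ G.neighborFinset x, F x y =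
      ∑ y ∈ S, (if G.Adj x y then F x y else 0) + (if x = a then F a b else 0) := by
    intro x hx
    rw [← Finset.sum_filter_add_sum_filter_not (G.neighborFinset x) (fun y => y ∈ S)]
    congr 1
    · rw [← Finset.sum_filter]
      refine Finset.sum_congr ?_ (fun y _ => rfl)
      ext y
      rw [Finset.mem_filter, Finset.mem_filter, G.mem_neighborFinset]
      tauto
    · by_cases hxa : x = a
      · subst hxa
        rw [if_pos rfl]
        rw [Finset.sum_eq_single b]
        · intro y hy hyb
          rw [Finset.mem_filter, G.mem_neighborFinset] at hy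
          exact absurd (hbd x hx y hy.2 hy.1).2 hyb
        · intro hn
          exfalso
          apply hn
          rw [Finset.mem_filter, G.mem_neighborFinset]
          exact ⟨hab, hb⟩
      · rw [if_neg hxa]
        refine Finset.sum_eq_zero (fun y hy => ?_)
        rw [Finset.mem_filter, G.mem_neighborFinset] at hy
        exact absurd (hbd x hx y hy.2 hy.1).1 hxa
  rw [Finset.sum_congr rfl h1, Finset.sum_add_distrib]
  congr 1
  rw [Finset.sum_ite_eq' S a (fun _ => F a b), if_pos ha]

open Classical in
lemma sum_antisymm (S : Finset V) (h : V → ℝ) :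
    ∑ x ∈ S, ∑ y ∈ S, (if G.Adj x y then (h y - h x) else 0) = 0 := by
  have h1 : ∑ x ∈ S, ∑ y ∈ S, (if G.Adj x y then (h y - h x) else 0) =
      ∑ x ∈ S, ∑ y ∈ S, (if G.Adj x y then (h x - h y) else 0) := by
    rw [Finset.sum_comm]
    refine Finset.sum_congr rfl (fun x _ => Finset.sum_congr rfl (fun y _ => ?_))
    rw [G.adj_comm]
  have h2 : ∑ x ∈ S, ∑ y ∈ S, (if G.Adj x y then (h y - h x) else 0) +
      ∑ x ∈ S, ∑ y ∈ S, (if G.Adj x y then (h x - h y) else 0) = 0 := by
    rw [← Finset.sum_add_distrib]
    refine Finset.sum_eq_zero (fun x _ => ?_)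
    rw [← Finset.sum_add_distrib]
    refine Finset.sum_eq_zero (fun y _ => ?_)
    split_ifs <;> ring
  linarith

/-- Recurrence criterion: infinitely many nested bridges. -/
theorem recurrentAt_of_bridges (o : V) (hdeg : 0 < G.degree o)
    (S : ℕ → Finset V) (a b : ℕ → V)
    (hmono : ∀ n, S n ⊆ S (n + 1)) (ho : o ∈ S 0)
    (ha : ∀ n, a n ∈ S n) (hb : ∀ n, b n ∉ S n) (hb' : ∀ n, b n ∈ S (n + 1))
    (hab : ∀ n, G.Adj (a n) (b n))
    (hbd : ∀ n, ∀ x ∈ S n, ∀ y, y ∉ S n → G.Adj x y → x = a n ∧ y = b n) :
    RecurrentAt G o := by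
  classical
  have hoS : ∀ n, o ∈ S n := by
    intro n
    induction n with
    | zero => exact ho
    | succ n ih => exact hmono n ih
  -- the limits
  have hbdd : ∀ x, BddAbove (Set.range (fun n => gq G o n x)) := by
    intro x
    refine ⟨1, ?_⟩
    rintro _ ⟨n, rfl⟩
    exact gq_le_one G o n x
  set gl : V → ℝ := fun x => ⨆ n, gq G o n x with hgl
  have hgt : ∀ x, Filter.Tendsto (fun n => gq G o n x) Filter.atTop (nhds (gl x)) :=
    fun x => tendsto_atTop_ciSup (gq_mono G o x) (hbdd x)
  have hgl1 : ∀ x, gl x ≤ 1 := fun x => le_of_tendsto' (hgt x) (fun n => gq_le_one G o n x)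
  have hgl0 : ∀ x, 0 ≤ gl x := fun x => ge_of_tendsto' (hgt x) (fun n => gq_nonneg G o n x)
  have hglo : gl o = 1 := by
    have h1 : Filter.Tendsto (fun n => gq G o n o) Filter.atTop (nhds 1) := by
      have : (fun n => gq G o n o) = fun _ => (1 : ℝ) := by
        funext n
        exact gq_self G o n
      rw [this]
      exact tendsto_const_nhds
    exact tendsto_nhds_unique (hgt o) h1
  have hnbr : ∀ x, Filter.Tendsto (fun n => ∑ y ∈ G.neighborFinset x,
      (gq G o n y - gq G o n x)) Filter.atTop
      (nhds (∑ y ∈ G.neighborFinset x, (gl y - gl x))) := by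
    intro x
    refine tendsto_finsetSum _ (fun y _ => ?_)
    exact (hgt y).sub (hgt x)
  have hqt : Filter.Tendsto (fun n => hq G o n o) Filter.atTop
      (nhds ((∑ y ∈ G.neighborFinset o, gl y) / G.degree o)) := by
    unfold hq
    refine Filter.Tendsto.div_const ?_ _
    exact tendsto_finsetSum _ (fun y _ => hgt y)
  have hharm : ∀ x, x ≠ o → ∑ y ∈ G.neighborFinset x, (gl y - gl x) = 0 := by
    intro x hx
    have h1 : Filter.Tendsto (fun n => (G.degree x : ℝ) * (gq G o (n + 1) x - gq G o n x))
        Filter.atTop (nhds ((G.degree x : ℝ) * (gl x - gl x))) :=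
      (((hgt x).comp (Filter.tendsto_add_atTop_nat 1)).sub (hgt x)).const_mul _
    have h2 : (fun n => ∑ y ∈ G.neighborFinset x, (gq G o n y - gq G o n x)) =
        fun n => (G.degree x : ℝ) * (gq G o (n + 1) x - gq G o n x) := by
      funext n
      rw [sum_nbr_sub, gq_succ_ne G o x n hx]
    have h3 := hnbr x
    rw [h2] at h3
    have h4 := tendsto_nhds_unique h3 h1
    rw [h4]
    ring
  set h : V → ℝ := fun x => 1 - gl x with hh
  have hh0 : ∀ x, 0 ≤ h x := fun x => by simp only [hh]; linarith [hgl1 x]
  have hh1 : ∀ x, h x ≤ 1 := fun x => by simp only [hh]; linarith [hgl0 x]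
  have hho : h o = 0 := by simp only [hh]; rw [hglo]; ring
  set c : ℝ := ∑ y ∈ G.neighborFinset o, (h y - h o) with hc
  have hc0 : 0 ≤ c := by
    refine Finset.sum_nonneg (fun y _ => ?_)
    rw [hho, sub_zero]
    exact hh0 y
  have hlap : ∀ x, ∑ y ∈ G.neighborFinset x, (h y - h x) = if x = o then c else 0 := by
    intro x
    split_ifs with hx
    · rw [hx]
    · have h1 := hharm x hx
      have h2 : ∑ y ∈ G.neighborFinset x, (h y - h x) =
          -∑ y ∈ G.neighborFinset x, (gl y - gl x) := by
        rw [← Finset.sum_neg_distrib]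
        refine Finset.sum_congr rfl (fun y _ => ?_)
        simp only [hh]
        ring
      rw [h2, h1, neg_zero]
  -- flux through the bridges
  have hflux : ∀ n, h (b n) - h (a n) = c := by
    intro n
    have h1 := sum_boundary G (S n) (a n) (b n) (ha n) (hb n) (hab n) (hbd n)
      (fun x y => h y - h x)
    rw [sum_antisymm G (S n) h, zero_add] at h1
    rw [← h1, Finset.sum_congr rfl (fun x _ => hlap x), Finset.sum_ite_eq' (S n) o (fun _ => c),
      if_pos (hoS n)]
  -- energy
  have hen : ∀ n, energy G (S n) h ≤ 2 * c := by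
    intro n
    have h1 := sum_boundary G (S n) (a n) (b n) (ha n) (hb n) (hab n) (hbd n)
      (fun x y => h x * (h y - h x))
    rw [green_in, hflux n] at h1
    have h2 : ∑ x ∈ S n, ∑ y ∈ G.neighborFinset x, h x * (h y - h x) = 0 := by
      refine Finset.sum_eq_zero (fun x _ => ?_)
      rw [← Finset.mul_sum, hlap x]
      split_ifs with hx
      · rw [hx, hho, zero_mul]
      · rw [mul_zero]
    rw [h2] at h1
    have h3 : h (a n) * c ≤ c := mul_le_of_le_one_left hc0 (hh1 _)
    linarith
  have hgrow : ∀ n, energy G (S n) h + c ^ 2 ≤ energy G (S (n + 1)) h := by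
    intro n
    have h1 : energy G (S (n + 1)) h ≥ ∑ x ∈ S (n + 1), (∑ y ∈ S n,
        (if x ∈ S n then (if G.Adj x y then (h x - h y) ^ 2 else 0) else 0) +
        (if x = a n then c ^ 2 else 0)) := by
      unfold energy
      refine Finset.sum_le_sum (fun x hx => ?_)
      by_cases hxS : x ∈ S n
      · simp only [if_pos hxS]
        by_cases hxa : x = a n
        · rw [if_pos hxa]
          have h2 : insert (b n) (S n) ⊆ S (n + 1) :=
            Finset.insert_subset (hb' n) (hmono n)
          refine le_trans (le_of_eq ?_) (Finset.sum_le_sum_of_subset_of_nonneg h2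
            (fun y _ _ => by
              split_ifs
              · positivity
              · exact le_rfl))
          rw [Finset.sum_insert (hb n), hxa, if_pos (hab n), add_comm]
          congr 1
          rw [← hflux n]
          ring
        · rw [if_neg hxa, add_zero]
          refine Finset.sum_le_sum_of_subset_of_nonneg (hmono n) (fun y _ _ => ?_)
          split_ifs
          · positivity
          · exact le_rfl
      · have hxa : x ≠ a n := fun he => hxS (he ▸ ha n)
        simp only [if_neg hxS, if_neg hxa, Finset.sum_const_zero, add_zero]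
        refine Finset.sum_nonneg (fun y _ => ?_)
        split_ifs
        · positivity
        · exact le_rfl
    refine le_trans (le_of_eq ?_) h1
    rw [Finset.sum_add_distrib, Finset.sum_ite_eq' (S (n + 1)) (a n) (fun _ => c ^ 2),
      if_pos (hmono n (ha n))]
    congr 1
    unfold energy
    rw [← Finset.sum_subset (hmono n)]
    · refine Finset.sum_congr rfl (fun x hx => ?_)
      simp only [if_pos hx]
    · intro x _ hx
      simp only [if_neg hx, Finset.sum_const_zero]
  have hlow : ∀ n : ℕ, (n : ℝ) * c ^ 2 ≤ energy G (S n) h := by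
    intro n
    induction n with
    | zero => simpa using energy_nonneg G (S 0) h
    | succ n ih =>
      push_cast
      linarith [hgrow n]
  have hc00 : c = 0 := by
    by_contra hne
    have hcpos : 0 < c := lt_of_le_of_ne hc0 (Ne.symm hne)
    obtain ⟨n, hn⟩ := exists_nat_gt (2 / c)
    have h1 := (hlow n).trans (hen n)
    rw [div_lt_iff₀ hcpos] at hn
    nlinarith
  -- conclusion
  refine recurrentAt_of_tendsto G o ?_
  have hd : (0 : ℝ) < G.degree o := by exact_mod_cast hdeg
  have h1 : (∑ y ∈ G.neighborFinset o, gl y) / G.degree o = 1 := by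
    have h2 : ∑ y ∈ G.neighborFinset o, (h y - h o) = G.degree o -
        ∑ y ∈ G.neighborFinset o, gl y := by
      rw [hho]
      simp only [hh, sub_zero]
      rw [Finset.sum_sub_distrib]
      simp
    have h3 : (∑ y ∈ G.neighborFinset o, gl y) = G.degree o := by
      have := hc00
      rw [hc, h2] at this
      linarith
    rw [h3]
    exact div_self hd.ne'
  rw [h1] at hqt
  exact hqt

end bridge

end Pool.Agent.H96.Rec
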