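import Pool.Agent.H96.RecDefs

set_option autoImplicit false

open MeasureTheory
open scoped ENNReal

namespace Pool.Agent.H96.Rec

variable {V : Type}

section basics

variable (G : SimpleGraph V) [G.LocallyFinite]

lemma deg_eq (x : V) : deg G x = G.degree x := by
  unfold deg
  rw [Set.ncard_eq_toFinset_card', SimpleGraph.degree, SimpleGraph.neighborFinset]

open Classical in
/-- probability to visit `o` within time `n` -/
noncomputable def gq (o : V) : ℕ → V → ℝ
  | 0, x => if x = o then 1 else 0
  | n + 1, x => if x = o then 1 else (∑ y ∈ G.neighborFinset x, gq o n y) / G.degree x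

/-- probability to visit `o` at a positive time at most `n + 1` -/
noncomputable def hq (o : V) (n : ℕ) (x : V) : ℝ :=
  (∑ y ∈ G.neighborFinset x, gq G o n y) / G.degree x

lemma gq_self (o : V) (n : ℕ) : gq G o n o = 1 := by
  cases n <;> simp [gq]

lemma gq_zero_ne (o x : V) (h : x ≠ o) : gq G o 0 x = 0 := by
  simp [gq, h]

lemma gq_succ_ne (o x : V) (n : ℕ) (h : x ≠ o) : gq G o (n + 1) x = hq G o n x := by
  simp [gq, hq, h]

lemma gq_nonneg (o : V) (n : ℕ) : ∀ x, 0 ≤ gq G o n x := by
  induction n with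
  | zero => intro x; by_cases h : x = o <;> simp [gq, h]
  | succ n ih =>
    intro x
    by_cases h : x = o
    · rw [h, gq_self]; exact zero_le_one
    · rw [gq_succ_ne G o x n h]
      exact div_nonneg (Finset.sum_nonneg (fun y _ => ih y)) (Nat.cast_nonneg _)

lemma sum_le_degree (g : V → ℝ) (hg : ∀ x, g x ≤ 1) (x : V) :
    (∑ y ∈ G.neighborFinset x, g y) / G.degree x ≤ 1 := by
  refine div_le_one_of_le₀ ?_ (Nat.cast_nonneg _)
  refine (Finset.sum_le_sum (fun y _ => hg y)).trans ?_
  simp

lemma gq_le_one (o : V) (n : ℕ) : ∀ x, gq G o n x ≤ 1 := by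
  induction n with
  | zero => intro x; by_cases h : x = o <;> simp [gq, h]
  | succ n ih =>
    intro x
    by_cases h : x = o
    · rw [h, gq_self]
    · rw [gq_succ_ne G o x n h]
      exact sum_le_degree G _ ih x

lemma hq_nonneg (o : V) (n : ℕ) (x : V) : 0 ≤ hq G o n x :=
  div_nonneg (Finset.sum_nonneg (fun y _ => gq_nonneg G o n y)) (Nat.cast_nonneg _)

lemma hq_le_one (o : V) (n : ℕ) (x : V) : hq G o n x ≤ 1 :=
  sum_le_degree G _ (gq_le_one G o n) x

lemma gq_le_succ (o : V) (n : ℕ) : ∀ x, gq G o n x ≤ gq G o (n + 1) x := by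
  induction n with
  | zero =>
    intro x
    by_cases h : x = o
    · rw [h, gq_self, gq_self]
    · rw [gq_zero_ne G o x h]
      exact gq_nonneg G o 1 x
  | succ n ih =>
    intro x
    by_cases h : x = o
    · rw [h, gq_self, gq_self]
    · rw [gq_succ_ne G o x n h, gq_succ_ne G o x (n + 1) h]
      exact div_le_div_of_nonneg_right (Finset.sum_le_sum (fun y _ => ih y)) (Nat.cast_nonneg _)

lemma gq_mono (o : V) (x : V) : Monotone (fun n => gq G o n x) :=
  monotone_nat_of_le_succ (fun n => gq_le_succ G o n x)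

lemma hq_le_succ (o : V) (n : ℕ) (x : V) : hq G o n x ≤ hq G o (n + 1) x :=
  div_le_div_of_nonneg_right (Finset.sum_le_sum (fun y _ => gq_le_succ G o n y))
    (Nat.cast_nonneg _)

lemma srwStep_of_adj {x y : V} (h : G.Adj x y) :
    srwStep G x y = ENNReal.ofReal ((G.degree x : ℝ)⁻¹) := by
  unfold srwStep
  rw [if_pos h, deg_eq]
  have hd : 0 < G.degree x := by
    rw [SimpleGraph.degree_pos_iff_exists_adj]
    exact ⟨y, h⟩
  rw [ENNReal.ofReal_inv_of_pos (by exact_mod_cast hd), ENNReal.ofReal_natCast]

lemma srwStep_of_not_adj {x y : V} (h : ¬ G.Adj x y) : srwStep G x y = 0 := by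
  unfold srwStep
  rw [if_neg h]

lemma srwStep_eq_hq (o x : V) : srwStep G x o = ENNReal.ofReal (hq G o 0 x) := by
  classical
  by_cases h : G.Adj x o
  · rw [srwStep_of_adj G h]
    congr 1
    unfold hq
    have : ∑ y ∈ G.neighborFinset x, gq G o 0 y = 1 := by
      rw [Finset.sum_eq_single o]
      · exact gq_self G o 0
      · intro b _ hb
        exact gq_zero_ne G o b hb
      · intro hn
        exact absurd ((G.mem_neighborFinset x o).mpr h) hn
    rw [this, one_div]
  · rw [srwStep_of_not_adj G h]
    unfold hq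
    have : ∑ y ∈ G.neighborFinset x, gq G o 0 y = 0 := by
      refine Finset.sum_eq_zero (fun y hy => ?_)
      refine gq_zero_ne G o y ?_
      rintro rfl
      exact h ((G.mem_neighborFinset x y).mp hy)
    rw [this]
    simp

open Classical in
lemma firstHit_succ (o : V) (n : ℕ) (x : V) :
    firstHit G o (n + 1) x = ∑ y ∈ G.neighborFinset x,
      (if y = o then 0 else ENNReal.ofReal ((G.degree x : ℝ)⁻¹) * firstHit G o n y) := by
  rw [firstHit, tsum_eq_sum (s := G.neighborFinset x)]
  · refine Finset.sum_congr rfl (fun y hy => ?_)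
    rw [srwStep_of_adj G ((G.mem_neighborFinset x y).mp hy)]
  · intro y hy
    rw [srwStep_of_not_adj G (fun h => hy ((G.mem_neighborFinset x y).mpr h))]
    simp

lemma sum_firstHit (o : V) (n : ℕ) : ∀ x,
    ∑ j ∈ Finset.range (n + 1), firstHit G o j x = ENNReal.ofReal (hq G o n x) := by
  classical
  induction n with
  | zero =>
    intro x
    rw [Finset.sum_range_one]
    exact srwStep_eq_hq G o x
  | succ n ih =>
    intro x
    rw [Finset.sum_range_succ']
    simp_rw [firstHit_succ]
    rw [Finset.sum_comm]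
    have h1 : ∀ y ∈ G.neighborFinset x, ∑ j ∈ Finset.range (n + 1),
        (if y = o then 0 else ENNReal.ofReal ((G.degree x : ℝ)⁻¹) * firstHit G o j y) =
        ENNReal.ofReal ((G.degree x : ℝ)⁻¹ * (if y = o then 0 else gq G o (n + 1) y)) := by
      intro y _
      by_cases h : y = o
      · simp [h]
      · simp only [if_neg h]
        rw [← Finset.mul_sum, ih y, gq_succ_ne G o y n h, ENNReal.ofReal_mul (by positivity)]
    rw [Finset.sum_congr rfl h1, ← ENNReal.ofReal_sum_of_nonneg]
    · have h2 : firstHit G o 0 x = ENNReal.ofReal (hq G o 0 x) := srwStep_eq_hq G o x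
      rw [h2, ← ENNReal.ofReal_add]
      · congr 1
        unfold hq
        rw [div_eq_inv_mul, div_eq_inv_mul, ← Finset.mul_sum, ← mul_add,
          ← Finset.sum_add_distrib]
        congr 1
        refine Finset.sum_congr rfl (fun y _ => ?_)
        by_cases h : y = o
        · rw [if_pos h, h, gq_self, gq_self, zero_add]
        · rw [if_neg h, gq_zero_ne G o y h, add_zero]
      · refine Finset.sum_nonneg (fun y _ => ?_)
        refine mul_nonneg (by positivity) ?_
        split_ifs
        · exact le_rfl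
        · exact gq_nonneg _ _ _ _
      · exact hq_nonneg _ _ _ _
    · intro y _
      refine mul_nonneg (by positivity) ?_
      split_ifs
      · exact le_rfl
      · exact gq_nonneg _ _ _ _

lemma tsum_firstHit (o x : V) :
    ∑' n, firstHit G o n x = ⨆ n, ENNReal.ofReal (hq G o n x) := by
  rw [ENNReal.tsum_eq_iSup_nat' (N := fun n => n + 1) (Filter.tendsto_add_atTop_nat 1)]
  simp_rw [sum_firstHit]

/-- transience from a uniform bound -/
lemma not_recurrentAt_of_le (o : V) (ε : ℝ) (hε : 0 < ε) (h : ∀ n, hq G o n o ≤ 1 - ε) :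
    ¬ RecurrentAt G o := by
  unfold RecurrentAt
  rw [tsum_firstHit]
  intro h1
  have h2 : (⨆ n, ENNReal.ofReal (hq G o n o)) ≤ ENNReal.ofReal (1 - ε) :=
    iSup_le (fun n => ENNReal.ofReal_le_ofReal (h n))
  rw [h1] at h2
  have h3 : ENNReal.ofReal (1 - ε) < 1 := by
    rw [ENNReal.ofReal_lt_one]
    linarith
  exact absurd h2 (not_le.mpr h3)

/-- recurrence from convergence to one -/
lemma recurrentAt_of_tendsto (o : V)
    (h : Filter.Tendsto (fun n => hq G o n o) Filter.atTop (nhds 1)) : RecurrentAt G o := by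
  unfold RecurrentAt
  rw [tsum_firstHit]
  have hm : Monotone (fun n => ENNReal.ofReal (hq G o n o)) := by
    refine monotone_nat_of_le_succ (fun n => ?_)
    exact ENNReal.ofReal_le_ofReal (hq_le_succ G o n o)
  have h1 : Filter.Tendsto (fun n => ENNReal.ofReal (hq G o n o)) Filter.atTop
      (nhds (⨆ n, ENNReal.ofReal (hq G o n o))) := tendsto_atTop_iSup hm
  have h2 : Filter.Tendsto (fun n => ENNReal.ofReal (hq G o n o)) Filter.atTop
      (nhds (ENNReal.ofReal 1)) := (ENNReal.continuous_ofReal.tendsto 1).comp h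
  rw [ENNReal.ofReal_one] at h2
  exact tendsto_nhds_unique h1 h2

end basics

end Pool.Agent.H96.Rec
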