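import Mathlib

set_option autoImplicit false

open MeasureTheory
open scoped ENNReal

namespace Pool.Agent.H96.Rec

variable {V : Type}

/-- The degree of the vertex `x` in the (locally finite) graph `G`. -/
noncomputable def deg (G : SimpleGraph V) (x : V) : ℕ := (G.neighborSet x).ncard

open Classical in
/-- Transition probabilities of simple random walk on `G`. -/
noncomputable def srwStep (G : SimpleGraph V) (x y : V) : ℝ≥0∞ :=
  if G.Adj x y then (deg G x : ℝ≥0∞)⁻¹ else 0

open Classical in
/-- `firstHit G o n x` is the probability that simple random walk on `G` started at `x` is at `o`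
at time `n + 1` and is not at `o` at any of the times `1, ..., n`. -/
noncomputable def firstHit (G : SimpleGraph V) (o : V) : ℕ → V → ℝ≥0∞
  | 0, x => srwStep G x o
  | n + 1, x => ∑' y : V, if y = o then 0 else srwStep G x y * firstHit G o n y

/-- Simple random walk on `G` started at `o` returns to `o` with probability one. -/
def RecurrentAt (G : SimpleGraph V) (o : V) : Prop :=
  ∑' n : ℕ, firstHit G o n o = 1

/-- The `k`-th power of `G`: distinct vertices at distance at most `k` are adjacent. -/
def power (G : SimpleGraph V) (k : ℕ) : SimpleGraph V where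
  Adj x y := x ≠ y ∧ G.edist x y ≤ k
  symm := ⟨fun x y h => ⟨h.1.symm, by rw [SimpleGraph.edist_comm]; exact h.2⟩⟩
  loopless := ⟨fun _ h => h.1 rfl⟩

/-- The sigma-algebra on the graphs with vertex set `V` generated by the adjacency events. -/
@[reducible]
def graphSigma (V : Type) : MeasurableSpace (SimpleGraph V) :=
  MeasurableSpace.generateFrom {s | ∃ x y : V, s = {H | H.Adj x y}}

/-- `(G, ρ)` is a random rooted graph: a random connected locally finite graph on the countable
vertex set `V` together with a random root. -/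
structure IsRandomRootedGraph {Ω : Type} [MeasurableSpace Ω] (P : Measure Ω)
    (G : Ω → SimpleGraph V) (ρ : Ω → V) : Prop where
  prob : IsProbabilityMeasure P
  meas_adj : ∀ x y, MeasurableSet {ω | (G ω).Adj x y}
  meas_root : ∀ x, MeasurableSet {ω | ρ ω = x}
  connected : ∀ᵐ ω ∂P, (G ω).Connected
  locally_finite : ∀ᵐ ω ∂P, ∀ x, ((G ω).neighborSet x).Finite

/-- The mass-transport principle: it is required for every measurable function `f` of a graph
and two of its vertices that is invariant under graph isomorphisms. -/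
def IsUnimodular {Ω : Type} [MeasurableSpace Ω] (P : Measure Ω)
    (G : Ω → SimpleGraph V) (ρ : Ω → V) : Prop :=
  ∀ f : SimpleGraph V → V → V → ℝ≥0∞,
    (∀ x y, Measurable[graphSigma V] (fun H => f H x y)) →
    (∀ (H H' : SimpleGraph V) (φ : H ≃g H') (x y : V), f H' (φ x) (φ y) = f H x y) →
    ∫⁻ ω, ∑' x, f (G ω) (ρ ω) x ∂P = ∫⁻ ω, ∑' x, f (G ω) x (ρ ω) ∂P

/-- The degree of the root has an exponential tail. -/
def ExpTail {Ω : Type} [MeasurableSpace Ω] (P : Measure Ω)
    (G : Ω → SimpleGraph V) (ρ : Ω → V) : Prop :=
  ∃ C c : ℝ, 0 < C ∧ 0 < c ∧ ∀ n : ℕ, 1 ≤ n →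
    P {ω | n ≤ deg (G ω) (ρ ω)} ≤ ENNReal.ofReal (C * Real.exp (-(c * n)))

end Pool.Agent.H96.Rec
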