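import Pool.Agent.H96.RecBridge

set_option autoImplicit false

open MeasureTheory
open scoped ENNReal

namespace Pool.Agent.H96.Rec

/-- bottleneck heights -/
def Bot (k : ℕ) : Prop := ∃ n : ℕ, k = 2 ^ n ∨ k = 2 ^ n + 1

open Classical in
/-- blocks at height `k` have `wid k + 1` vertices -/
noncomputable def wid (k : ℕ) : ℕ := if Bot k then 0 else k

lemma wid_le (k : ℕ) : wid k ≤ k := by
  unfold wid
  split_ifs
  · exact Nat.zero_le _
  · exact le_rfl

/-- vertex set: height, position of the block, index in the block -/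
abbrev CV : Type := Σ k : ℕ, ℕ × Fin (wid k + 1)

/-- `y` lies in the parent block of the block of `x` -/
def up (x y : CV) : Prop := y.1 = x.1 + 1 ∧ y.2.1 = x.2.1 / 2

/-- the blow-up of the binary canopy tree -/
def CG : SimpleGraph CV where
  Adj x y := up x y ∨ up y x
  symm := ⟨fun _ _ h => h.symm⟩
  loopless := ⟨fun x h => by
    rcases h with h | h <;>
    · have := h.1
      omega⟩

lemma CG_adj (x y : CV) : CG.Adj x y ↔ up x y ∨ up y x := Iff.rfl

/-- a finite box -/
noncomputable def box (K M : ℕ) : Finset CV :=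
  (Finset.range (K + 1)).sigma (fun _ => Finset.range (M + 1) ×ˢ Finset.univ)

lemma mem_box (K M : ℕ) (y : CV) : y ∈ box K M ↔ y.1 ≤ K ∧ y.2.1 ≤ M := by
  unfold box
  rw [Finset.mem_sigma, Finset.mem_product]
  simp only [Finset.mem_range, Finset.mem_univ, and_true]
  constructor <;> rintro ⟨h1, h2⟩ <;> exact ⟨by omega, by omega⟩

lemma adj_mem_box {x y : CV} (h : CG.Adj x y) : y ∈ box (x.1 + 1) (2 * x.2.1 + 1) := by
  rw [mem_box]
  rcases h with h | h
  · obtain ⟨h1, h2⟩ := h
    exact ⟨by omega, by omega⟩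
  · obtain ⟨h1, h2⟩ := h
    exact ⟨by omega, by omega⟩

lemma CG_finite (x : CV) : (CG.neighborSet x).Finite := by
  refine (box (x.1 + 1) (2 * x.2.1 + 1)).finite_toSet.subset (fun y hy => ?_)
  exact adj_mem_box hy

noncomputable instance : CG.LocallyFinite := fun x => (CG_finite x).fintype

/-- base vertex at height `k` -/
noncomputable def root (k : ℕ) : CV := ⟨k, (0, 0)⟩

/-- ancestor chains -/
lemma reach_up (k i : ℕ) (a : Fin (wid k + 1)) (d : ℕ) :
    CG.Reachable ⟨k, (i, a)⟩ ⟨k + (d + 1), (i / 2 ^ (d + 1), 0)⟩ := by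
  induction d with
  | zero =>
    refine SimpleGraph.Adj.reachable (Or.inl ⟨rfl, ?_⟩)
    simp
  | succ d ih =>
    refine ih.trans (SimpleGraph.Adj.reachable (Or.inl ⟨?_, ?_⟩))
    · show k + (d + 1 + 1) = k + (d + 1) + 1
      omega
    · show i / 2 ^ (d + 1 + 1) = i / 2 ^ (d + 1) / 2
      rw [Nat.div_div_eq_div_mul, pow_succ 2 (d + 1)]

lemma reach_root_up (k i : ℕ) (a : Fin (wid k + 1)) (K : ℕ) (hK : k + i + 1 ≤ K) :
    CG.Reachable ⟨k, (i, a)⟩ (root K) := by
  obtain ⟨d, rfl⟩ : ∃ d, K = k + (d + 1) := ⟨K - k - 1, by omega⟩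
  have h := reach_up k i a d
  have h2 : i / 2 ^ (d + 1) = 0 := by
    refine Nat.div_eq_of_lt ?_
    have h3 : i ≤ d := by omega
    have h4 : d < 2 ^ d := Nat.lt_two_pow_self
    have h5 : 2 ^ d ≤ 2 ^ (d + 1) := Nat.pow_le_pow_right (by norm_num) (by omega)
    omega
  rw [h2] at h
  exact h

lemma CG_connected : CG.Connected := by
  have : Nonempty CV := ⟨root 0⟩
  constructor
  rintro ⟨k, i, a⟩ ⟨l, j, b⟩
  exact (reach_root_up k i a (k + i + 1 + l + j) (by omega)).trans
    (reach_root_up l j b (k + i + 1 + l + j) (by omega)).symm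

lemma CG_degree_pos (x : CV) : 0 < CG.degree x := by
  rw [SimpleGraph.degree_pos_iff_exists_adj]
  exact ⟨⟨x.1 + 1, (x.2.1 / 2, 0)⟩, Or.inl ⟨rfl, rfl⟩⟩

/-- automorphisms -/
noncomputable def shift (c s : ℕ) : CV ≃ CV where
  toFun x := ⟨x.1, (x.2.1 ^^^ (c >>> x.1), x.2.2 + Fin.ofNat _ s)⟩
  invFun x := ⟨x.1, (x.2.1 ^^^ (c >>> x.1), x.2.2 - Fin.ofNat _ s)⟩
  left_inv x := by
    obtain ⟨k, i, a⟩ := x
    simp
  right_inv x := by
    obtain ⟨k, i, a⟩ := x
    simp

lemma shift_up (c s : ℕ) (x y : CV) : up (shift c s x) (shift c s y) ↔ up x y := by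
  obtain ⟨k, i, a⟩ := x
  obtain ⟨l, j, b⟩ := y
  unfold up shift
  simp only [Equiv.coe_fn_mk]
  constructor
  · rintro ⟨h1, h2⟩
    refine ⟨h1, ?_⟩
    rw [h1, Nat.xor_div_two, Nat.shiftRight_add] at h2
    have h3 : (c >>> k) / 2 = c >>> k >>> 1 := by
      rw [Nat.shiftRight_eq_div_pow (c >>> k) 1, pow_one]
    rw [h3] at h2
    exact Nat.xor_left_inj.mp h2
  · rintro ⟨h1, h2⟩
    refine ⟨h1, ?_⟩
    rw [h1, Nat.xor_div_two, Nat.shiftRight_add, h2]
    have h3 : (c >>> k) / 2 = c >>> k >>> 1 := by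
      rw [Nat.shiftRight_eq_div_pow (c >>> k) 1, pow_one]
    rw [h3]

/-- the automorphisms as graph isomorphisms -/
noncomputable def shiftIso (c s : ℕ) : CG ≃g CG where
  toEquiv := shift c s
  map_rel_iff' := by
    intro x y
    rw [CG_adj, CG_adj, shift_up, shift_up]

/-- bottleneck heights have one-point blocks -/
lemma wid_pow (n : ℕ) : wid (2 ^ n) = 0 := by
  unfold wid
  rw [if_pos ⟨n, Or.inl rfl⟩]

lemma wid_pow_succ (n : ℕ) : wid (2 ^ n + 1) = 0 := by
  unfold wid
  rw [if_pos ⟨n, Or.inr rfl⟩]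

/-- vertices below the block `(N, 0)` -/
noncomputable def below (N : ℕ) : Finset CV :=
  (Finset.range (N + 1)).sigma (fun l => Finset.range (2 ^ (N - l)) ×ˢ Finset.univ)

lemma mem_below (N : ℕ) (y : CV) : y ∈ below N ↔ y.1 ≤ N ∧ y.2.1 < 2 ^ (N - y.1) := by
  unfold below
  rw [Finset.mem_sigma, Finset.mem_product]
  simp only [Finset.mem_range, Finset.mem_univ, and_true]
  constructor <;> rintro ⟨h1, h2⟩ <;> exact ⟨by omega, h2⟩

lemma below_mono {N M : ℕ} (h : N ≤ M) : below N ⊆ below M := by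
  intro y hy
  rw [mem_below] at hy ⊢
  refine ⟨by omega, lt_of_lt_of_le hy.2 ?_⟩
  exact Nat.pow_le_pow_right (by norm_num) (by omega)

theorem CG_recurrent (k : ℕ) : RecurrentAt CG (root k) := by
  refine recurrentAt_of_bridges CG (root k) (CG_degree_pos _)
    (fun n => below (2 ^ (n + k))) (fun n => root (2 ^ (n + k)))
    (fun n => root (2 ^ (n + k) + 1)) ?_ ?_ ?_ ?_ ?_ ?_ ?_
  · intro n
    exact below_mono (Nat.pow_le_pow_right (by norm_num) (by omega))
  · rw [mem_below]
    have : k < 2 ^ k := Nat.lt_two_pow_self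
    refine ⟨?_, ?_⟩
    · show k ≤ 2 ^ (0 + k)
      rw [zero_add]
      omega
    · show 0 < 2 ^ (2 ^ (0 + k) - k)
      positivity
  · intro n
    rw [mem_below]
    exact ⟨le_rfl, by show 0 < 2 ^ (2 ^ (n + k) - 2 ^ (n + k)); positivity⟩
  · intro n h
    rw [mem_below] at h
    have h1 : 2 ^ (n + k) + 1 ≤ 2 ^ (n + k) := h.1
    omega
  · intro n
    rw [mem_below]
    have h1 : 1 ≤ 2 ^ (n + k) := Nat.one_le_two_pow
    have h2 : 2 ^ (n + 1 + k) = 2 * 2 ^ (n + k) := by
      rw [show n + 1 + k = n + k + 1 by ring, pow_succ]; ring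
    refine ⟨?_, ?_⟩
    · show 2 ^ (n + k) + 1 ≤ 2 ^ (n + 1 + k)
      omega
    · show 0 < 2 ^ (2 ^ (n + 1 + k) - (2 ^ (n + k) + 1))
      positivity
  · intro n
    exact Or.inl ⟨rfl, by show 0 = 0 / 2; norm_num⟩
  · rintro n ⟨l, i, a⟩ hx ⟨l', j, b⟩ hy hadj
    rw [mem_below] at hx hy
    simp only at hx hy
    obtain ⟨hl, hi⟩ := hx
    rcases hadj with h | h
    · obtain ⟨h1, h2⟩ := h
      simp only at h1 h2
      -- upward step
      have hlN : l = 2 ^ (n + k) := by
        by_contra hne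
        apply hy
        refine ⟨by omega, ?_⟩
        rw [h2, h1]
        have h3 : 2 ^ (n + k) - l = (2 ^ (n + k) - (l + 1)) + 1 := by omega
        rw [h3, pow_succ] at hi
        omega
      subst hlN
      have hi0 : i = 0 := by
        rw [Nat.sub_self, pow_zero] at hi
        omega
      subst hi0
      subst h1
      have hj0 : j = 0 := by omega
      subst hj0
      have ha : a = 0 := by
        have h5 := a.isLt
        have h6 := wid_pow (n + k)
        exact Fin.ext (by simp only [Fin.val_zero]; omega)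
      have hb : b = 0 := by
        have h5 := b.isLt
        have h6 := wid_pow_succ (n + k)
        exact Fin.ext (by simp only [Fin.val_zero]; omega)
      rw [ha, hb]
      exact ⟨rfl, rfl⟩
    · obtain ⟨h1, h2⟩ := h
      simp only at h1 h2
      exfalso
      apply hy
      refine ⟨by omega, ?_⟩
      rw [h2, h1] at hi
      have h3 : 2 ^ (n + k) - l' = (2 ^ (n + k) - (l' + 1)) + 1 := by omega
      rw [h3, pow_succ]
      omega

end Pool.Agent.H96.Rec
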