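import Pool.Agent.H96.RecGraph

set_option autoImplicit false

open MeasureTheory
open scoped ENNReal

namespace Pool.Agent.H96.Rec

section ball

variable {V : Type} (G : SimpleGraph V) [G.LocallyFinite]

open Classical in
/-- vertices reachable by a walk of length at most `k` -/
noncomputable def wball : ℕ → V → Finset V
  | 0, x => {x}
  | k + 1, x => {x} ∪ (G.neighborFinset x).biUnion (wball k)

lemma mem_wball (k : ℕ) : ∀ {x y : V} (p : G.Walk x y), p.length ≤ k → y ∈ wball G k x := by
  classical
  induction k with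
  | zero =>
    intro x y p hp
    cases p with
    | nil => simp [wball]
    | cons h p => simp at hp
  | succ k ih =>
    intro x y p hp
    cases p with
    | nil => simp [wball]
    | cons h p =>
      rename_i z
      simp only [SimpleGraph.Walk.length_cons] at hp
      rw [wball, Finset.mem_union, Finset.mem_biUnion]
      exact Or.inr ⟨z, (G.mem_neighborFinset x z).mpr h, ih p (by omega)⟩

lemma power_neighborSet_finite (k : ℕ) (x : V) : ((power G k).neighborSet x).Finite := by
  refine (wball G k x).finite_toSet.subset (fun y hy => ?_)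
  have h1 : G.edist x y ≤ k := hy.2
  have h2 : G.edist x y ≠ ⊤ := by
    intro h
    rw [h] at h1
    simp at h1
  obtain ⟨p, hp⟩ := SimpleGraph.exists_walk_of_edist_ne_top h2
  rw [← hp] at h1
  exact mem_wball G k p (by exact_mod_cast h1)

end ball

/-- the summands of the resistance of the fat path -/
noncomputable def tres (j : ℕ) : ℝ := 1 / (((wid j + 1 : ℕ) : ℝ) * ((wid (j + 2) + 1 : ℕ) : ℝ))

open Classical in
/-- auxiliary sparse summand -/
noncomputable def vres (j : ℕ) : ℝ := if Bot j then 1 / ((j : ℝ) + 1) else 0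

lemma vres_nonneg (j : ℕ) : 0 ≤ vres j := by
  unfold vres
  split_ifs
  · positivity
  · exact le_rfl

open Classical in
lemma summable_sparse (f : ℕ → ℕ) (hf : Function.Injective f) (hf2 : ∀ n, 2 ^ n ≤ f n) :
    Summable (fun j : ℕ => if j ∈ Set.range f then 1 / ((j : ℝ) + 1) else 0) := by
  rw [← Function.Injective.summable_iff hf]
  · refine Summable.of_nonneg_of_le (f := fun n => (1 / 2 : ℝ) ^ n) (fun n => ?_) (fun n => ?_)
      summable_geometric_two
    · simp only [Function.comp]
      split_ifs
      · positivity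
      · exact le_rfl
    · simp only [Function.comp]
      rw [if_pos (Set.mem_range_self n), one_div_pow]
      refine one_div_le_one_div_of_le (by positivity) ?_
      have h1 : ((2 ^ n : ℕ) : ℝ) ≤ (f n : ℝ) := by exact_mod_cast hf2 n
      push_cast at h1
      linarith
  · intro x hx
    rw [if_neg hx]

lemma summable_vres : Summable vres := by
  classical
  have h1 := summable_sparse (fun n => 2 ^ n) (Nat.pow_right_injective le_rfl)
    (fun n => le_rfl)
  have h2 := summable_sparse (fun n => 2 ^ n + 1) (fun a b h => by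
      have h3 : 2 ^ a = 2 ^ b := by simpa using h
      exact Nat.pow_right_injective le_rfl h3) (fun n => Nat.le_succ _)
  refine Summable.of_nonneg_of_le vres_nonneg (fun j => ?_) (h1.add h2)
  unfold vres
  by_cases hB : Bot j
  · rw [if_pos hB]
    obtain ⟨n, hn | hn⟩ := hB
    · have h3 : j ∈ Set.range (fun n => 2 ^ n) := ⟨n, hn.symm⟩
      rw [if_pos h3]
      have : (0 : ℝ) ≤ if j ∈ Set.range (fun n => 2 ^ n + 1) then 1 / ((j : ℝ) + 1) else 0 := by
        split_ifs
        · positivity
        · exact le_rfl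
      linarith
    · have h3 : j ∈ Set.range (fun n => 2 ^ n + 1) := ⟨n, hn.symm⟩
      rw [if_pos h3]
      have : (0 : ℝ) ≤ if j ∈ Set.range (fun n => 2 ^ n) then 1 / ((j : ℝ) + 1) else 0 := by
        split_ifs
        · positivity
        · exact le_rfl
      linarith
  · rw [if_neg hB]
    refine add_nonneg ?_ ?_ <;>
    · split_ifs
      · positivity
      · exact le_rfl

lemma bot_bot {j : ℕ} (h1 : Bot j) (h2 : Bot (j + 2)) : j < 9 := by
  obtain ⟨n, hn⟩ := h1
  obtain ⟨m, hm⟩ := h2
  by_contra hj
  have hn8 : 3 ≤ n := by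
    by_contra hn3
    have : 2 ^ n ≤ 2 ^ 2 := Nat.pow_le_pow_right (by norm_num) (by omega)
    omega
  have h8 : 2 ^ 3 ≤ 2 ^ n := Nat.pow_le_pow_right (by norm_num) hn8
  rcases Nat.lt_or_ge n m with h | h
  · have h3 : 2 ^ (n + 1) ≤ 2 ^ m := Nat.pow_le_pow_right (by norm_num) h
    rw [pow_succ] at h3
    omega
  · have h3 : 2 ^ m ≤ 2 ^ n := Nat.pow_le_pow_right (by norm_num) h
    omega

lemma summable_tres : Summable tres := by
  classical
  have h1 : Summable (fun j : ℕ => 1 / ((j : ℝ) + 1) ^ 2) := by
    have := (summable_nat_add_iff (f := fun j : ℕ => 1 / (j : ℝ) ^ 2) 1).mpr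
      (Real.summable_one_div_nat_pow.mpr (by norm_num))
    refine this.congr (fun j => ?_)
    push_cast
    rfl
  have h2 : Summable (fun j : ℕ => 3 * vres (j + 2)) :=
    ((summable_nat_add_iff (f := vres) 2).mpr summable_vres).mul_left 3
  have h3 : Summable (fun j : ℕ => if j < 9 then (1 : ℝ) else 0) := by
    refine summable_of_ne_finset_zero (s := Finset.range 9) (fun j hj => ?_)
    rw [Finset.mem_range] at hj
    rw [if_neg hj]
  refine Summable.of_nonneg_of_le (fun j => ?_) (fun j => ?_)
    (((h1.add summable_vres).add h2).add h3)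
  · unfold tres; positivity
  · have e1 : (0 : ℝ) ≤ 1 / ((j : ℝ) + 1) ^ 2 := by positivity
    have e2 := vres_nonneg j
    have e3 := vres_nonneg (j + 2)
    have e4 : (0 : ℝ) ≤ if j < 9 then (1 : ℝ) else 0 := by
      split_ifs <;> norm_num
    have hj0 : (0 : ℝ) ≤ j := Nat.cast_nonneg j
    by_cases hB : Bot j
    · by_cases hB2 : Bot (j + 2)
      · rw [if_pos (bot_bot hB hB2)]
        have : tres j ≤ 1 := by
          unfold tres
          rw [div_le_one (by positivity)]
          have a1 : (1 : ℝ) ≤ ((wid j + 1 : ℕ) : ℝ) := by push_cast; linarith [Nat.cast_nonneg (α := ℝ) (wid j)]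
          have a2 : (1 : ℝ) ≤ ((wid (j + 2) + 1 : ℕ) : ℝ) := by
            push_cast; linarith [Nat.cast_nonneg (α := ℝ) (wid (j + 2))]
          nlinarith
        linarith
      · have e5 : vres j = 1 / ((j : ℝ) + 1) := by
          unfold vres; rw [if_pos hB]
        have e6 : tres j ≤ 1 / ((j : ℝ) + 1) := by
          unfold tres
          have w1 : wid j = 0 := by unfold wid; rw [if_pos hB]
          have w2 : wid (j + 2) = j + 2 := by unfold wid; rw [if_neg hB2]
          rw [w1, w2]
          push_cast
          refine one_div_le_one_div_of_le (by positivity) ?_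
          linarith
        linarith
    · have w1 : wid j = j := by unfold wid; rw [if_neg hB]
      by_cases hB2 : Bot (j + 2)
      · have w2 : wid (j + 2) = 0 := by unfold wid; rw [if_pos hB2]
        have e5 : vres (j + 2) = 1 / ((j : ℝ) + 2 + 1) := by
          unfold vres; rw [if_pos hB2]; push_cast; rfl
        have e6 : tres j ≤ 3 * vres (j + 2) := by
          unfold tres
          rw [w1, w2, e5]
          push_cast
          rw [mul_one_div, div_le_div_iff₀ (by positivity) (by positivity)]
          nlinarith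
        linarith
      · have w2 : wid (j + 2) = j + 2 := by unfold wid; rw [if_neg hB2]
        have e6 : tres j ≤ 1 / ((j : ℝ) + 1) ^ 2 := by
          unfold tres
          rw [w1, w2]
          push_cast
          refine one_div_le_one_div_of_le (by positivity) ?_
          nlinarith
        linarith

/-- the sets of the fat path -/
noncomputable def fat (k : ℕ) : ℕ → Finset CV
  | 0 => {root k}
  | i + 1 => Finset.univ.map ⟨fun b : Fin (wid (k + 2 * (i + 1)) + 1) =>
      (⟨k + 2 * (i + 1), (0, b)⟩ : CV), by
        intro a b h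
        simpa using h⟩

lemma mem_fat_succ (k i : ℕ) (x : CV) (hx : x ∈ fat k (i + 1)) :
    ∃ b, x = ⟨k + 2 * (i + 1), (0, b)⟩ := by
  unfold fat at hx
  rw [Finset.mem_map] at hx
  obtain ⟨b, _, rfl⟩ := hx
  exact ⟨b, rfl⟩

lemma mem_fat (k i : ℕ) (x : CV) (hx : x ∈ fat k i) : ∃ b, x = ⟨k + 2 * i, (0, b)⟩ := by
  cases i with
  | zero =>
    unfold fat at hx
    rw [Finset.mem_singleton] at hx
    rw [hx]
    exact ⟨0, rfl⟩
  | succ i => exact mem_fat_succ k i x hx

lemma card_fat_succ (k i : ℕ) : (fat k (i + 1)).card = wid (k + 2 * (i + 1)) + 1 := by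
  unfold fat
  rw [Finset.card_map]
  simp

lemma two_step (m : ℕ) (a : Fin (wid m + 1)) (b : Fin (wid (m + 2) + 1)) :
    CG.edist (⟨m, (0, a)⟩ : CV) ⟨m + 2, (0, b)⟩ ≤ 2 := by
  have h1 : CG.Adj (⟨m, (0, a)⟩ : CV) ⟨m + 1, (0, 0)⟩ :=
    Or.inl ⟨rfl, by show 0 = 0 / 2; norm_num⟩
  have h2 : CG.Adj (⟨m + 1, (0, 0)⟩ : CV) ⟨m + 2, (0, b)⟩ :=
    Or.inl ⟨rfl, by show 0 = 0 / 2; norm_num⟩
  have h3 := SimpleGraph.edist_le (SimpleGraph.Walk.cons h1 (SimpleGraph.Walk.cons h2
    SimpleGraph.Walk.nil))
  simpa using h3

theorem CG_power_transient (K : ℕ) (hK : 2 ≤ K) (k : ℕ) :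
    ¬ RecurrentAt (power CG K) (root k) := by
  classical
  let _ : (power CG K).LocallyFinite := fun x => (power_neighborSet_finite CG K x).fintype
  obtain ⟨R, hR⟩ : ∃ R : ℝ, ∀ N, ∑ i ∈ Finset.range N, tres (k + 2 * (i + 1)) ≤ R := by
    have hinj : Function.Injective (fun i : ℕ => k + 2 * (i + 1)) := fun a b h => by
      simp only at h; omega
    have hs : Summable (fun i : ℕ => tres (k + 2 * (i + 1))) :=
      summable_tres.comp_injective hinj
    exact ⟨_, fun N => hs.sum_le_tsum (Finset.range N) (fun i _ => by unfold tres; positivity)⟩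
  refine not_recurrentAt_of_fat (power CG K) (root k) (fat k) (fun x => (x.1 - k) / 2) rfl
    ?_ ?_ ?_ (1 + R) ?_
  · intro i x hx
    obtain ⟨b, rfl⟩ := mem_fat k i x hx
    show (k + 2 * i - k) / 2 = i
    omega
  · intro i
    cases i with
    | zero => exact ⟨root k, by simp [fat]⟩
    | succ i =>
      rw [← Finset.card_pos, card_fat_succ]
      omega
  · intro i x hx y hy
    obtain ⟨a, rfl⟩ := mem_fat k i x hx
    obtain ⟨b, rfl⟩ := mem_fat k (i + 1) y hy
    refine ⟨?_, ?_⟩
    · intro h
      have h2 := congrArg Sigma.fst h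
      simp only at h2
      omega
    · have h3 := two_step (k + 2 * i) a b
      refine h3.trans ?_
      exact_mod_cast hK
  · intro N
    cases N with
    | zero =>
      have := hR 0
      simp only [Finset.range_zero, Finset.sum_empty] at this ⊢
      linarith
    | succ N =>
      rw [Finset.sum_range_succ']
      have h1 : ∑ i ∈ Finset.range N,
          1 / (((fat k (i + 1)).card : ℝ) * ((fat k (i + 1 + 1)).card : ℝ)) =
          ∑ i ∈ Finset.range N, tres (k + 2 * (i + 1)) := by
        refine Finset.sum_congr rfl (fun i _ => ?_)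
        rw [card_fat_succ, card_fat_succ]
        rfl
      rw [h1]
      have h2 : 1 / (((fat k 0).card : ℝ) * ((fat k (0 + 1)).card : ℝ)) ≤ 1 := by
        rw [card_fat_succ]
        have h3 : (fat k 0).card = 1 := by simp [fat]
        rw [h3]
        push_cast
        rw [div_le_one (by positivity)]
        linarith [Nat.cast_nonneg (α := ℝ) (wid (k + 2 * (0 + 1)))]
      linarith [hR N]

end Pool.Agent.H96.Rec
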