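import Pool.Agent.H96.RecCrit

set_option autoImplicit false

open MeasureTheory
open scoped ENNReal

namespace Pool.Agent.H96.Rec

variable {V : Type}

open Classical in
/-- energy of `h` on the finite set `S`; every ordered pair is counted -/
noncomputable def energy (G : SimpleGraph V) (S : Finset V) (h : V → ℝ) : ℝ :=
  ∑ x ∈ S, ∑ y ∈ S, if G.Adj x y then (h x - h y) ^ 2 else 0

open Classical in
lemma green_in (G : SimpleGraph V) (S : Finset V) (h : V → ℝ) :
    ∑ x ∈ S, ∑ y ∈ S, (if G.Adj x y then h x * (h y - h x) else 0) = -(energy G S h) / 2 := by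
  have h1 : ∑ x ∈ S, ∑ y ∈ S, (if G.Adj x y then h x * (h y - h x) else 0) =
      ∑ x ∈ S, ∑ y ∈ S, (if G.Adj x y then h y * (h x - h y) else 0) := by
    rw [Finset.sum_comm]
    refine Finset.sum_congr rfl (fun x _ => Finset.sum_congr rfl (fun y _ => ?_))
    rw [G.adj_comm]
  have h2 : ∑ x ∈ S, ∑ y ∈ S, (if G.Adj x y then h x * (h y - h x) else 0) +
      ∑ x ∈ S, ∑ y ∈ S, (if G.Adj x y then h y * (h x - h y) else 0) = -(energy G S h) := by
    unfold energy
    rw [← Finset.sum_add_distrib, ← Finset.sum_neg_distrib]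
    refine Finset.sum_congr rfl (fun x _ => ?_)
    rw [← Finset.sum_add_distrib, ← Finset.sum_neg_distrib]
    refine Finset.sum_congr rfl (fun y _ => ?_)
    split_ifs <;> ring
  linarith

lemma energy_nonneg (G : SimpleGraph V) (S : Finset V) (h : V → ℝ) : 0 ≤ energy G S h := by
  unfold energy
  refine Finset.sum_nonneg (fun x _ => Finset.sum_nonneg (fun y _ => ?_))
  split_ifs
  · positivity
  · exact le_rfl

section trans

variable (G : SimpleGraph V) [G.LocallyFinite]

/-- the support of `gq` is finite -/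
lemma exists_supp (o : V) (n : ℕ) : ∃ D : Finset V, ∀ x, gq G o n x ≠ 0 → x ∈ D := by
  classical
  induction n with
  | zero =>
    refine ⟨{o}, fun x hx => ?_⟩
    by_contra hne
    rw [Finset.mem_singleton] at hne
    exact hx (gq_zero_ne G o x hne)
  | succ n ih =>
    obtain ⟨D, hD⟩ := ih
    refine ⟨insert o (D.biUnion (fun y => G.neighborFinset y)), fun x hx => ?_⟩
    rw [Finset.mem_insert]
    by_cases hxo : x = o
    · exact Or.inl hxo
    · right
      rw [gq_succ_ne G o x n hxo] at hx
      unfold hq at hx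
      have h1 : ∑ y ∈ G.neighborFinset x, gq G o n y ≠ 0 := by
        intro h0
        rw [h0] at hx
        simp at hx
      obtain ⟨y, hy, hy2⟩ := Finset.exists_ne_zero_of_sum_ne_zero h1
      rw [Finset.mem_biUnion]
      exact ⟨y, hD y hy2, (G.mem_neighborFinset y x).mpr
        ((G.mem_neighborFinset x y).mp hy).symm⟩

lemma sum_nbr_sub (o : V) (n : ℕ) (x : V) :
    ∑ y ∈ G.neighborFinset x, (gq G o n y - gq G o n x) =
      G.degree x * (hq G o n x - gq G o n x) := by
  rw [Finset.sum_sub_distrib]
  simp only [Finset.sum_const, SimpleGraph.card_neighborFinset_eq_degree, nsmul_eq_mul]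
  rw [mul_sub]
  congr 1
  unfold hq
  by_cases hd : G.degree x = 0
  · have : G.neighborFinset x = ∅ := by
      rw [← Finset.card_eq_zero, SimpleGraph.card_neighborFinset_eq_degree]
      exact hd
    rw [this, hd]
    simp
  · have : (G.degree x : ℝ) ≠ 0 := by exact_mod_cast hd
    field_simp

/-- the energy of the finite time hitting probabilities is controlled by the escape probability -/
lemma energy_le (o : V) (n : ℕ) (D S : Finset V) (hD : ∀ x, gq G o n x ≠ 0 → x ∈ D)
    (hS : ∀ x ∈ D, ∀ y, G.Adj x y → y ∈ S) (hDS : D ⊆ S) :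
    energy G S (gq G o n) ≤ 2 * (G.degree o * (1 - hq G o n o)) := by
  classical
  have h1 := green_in G S (gq G o n)
  have h2 : ∀ x ∈ S, ∑ y ∈ S, (if G.Adj x y then gq G o n x * (gq G o n y - gq G o n x) else 0) =
      gq G o n x * (G.degree x * (hq G o n x - gq G o n x)) := by
    intro x hx
    by_cases h0 : gq G o n x = 0
    · rw [h0]
      simp
    · rw [← sum_nbr_sub, Finset.mul_sum, ← Finset.sum_filter]
      refine Finset.sum_congr ?_ (fun y _ => rfl)
      ext y
      rw [Finset.mem_filter, G.mem_neighborFinset]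
      constructor
      · exact fun h => h.2
      · exact fun h => ⟨hS x (hD x h0) y h, h⟩
  rw [Finset.sum_congr rfl h2] at h1
  have ho : o ∈ S := hDS (hD o (by rw [gq_self]; exact one_ne_zero))
  have h3 : gq G o n o * (G.degree o * (hq G o n o - gq G o n o)) ≤
      ∑ x ∈ S, gq G o n x * (G.degree x * (hq G o n x - gq G o n x)) := by
    have h4 : ∀ x ∈ S.erase o,
        0 ≤ gq G o n x * (G.degree x * (hq G o n x - gq G o n x)) := by
      intro x hx
      have hxo : x ≠ o := Finset.ne_of_mem_erase hx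
      have h5 := gq_le_succ G o n x
      rw [gq_succ_ne G o x n hxo] at h5
      refine mul_nonneg (gq_nonneg G o n x) (mul_nonneg (Nat.cast_nonneg _) (by linarith))
    rw [← Finset.add_sum_erase S _ ho]
    linarith [Finset.sum_nonneg h4]
  rw [gq_self, h1] at h3
  linarith

open Classical in
/-- The flow inequality along a sequence of completely joined disjoint finite sets. -/
lemma one_le_energy (g : V → ℝ) (A : ℕ → Finset V) (L : V → ℕ)
    (hL : ∀ i, ∀ x ∈ A i, L x = i) (hne : ∀ i, (A i).Nonempty)
    (hadj : ∀ i, ∀ x ∈ A i, ∀ y ∈ A (i + 1), G.Adj x y)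
    (h0 : ∀ x ∈ A 0, g x = 1) (N : ℕ) (hN : ∀ x ∈ A N, g x = 0)
    (S : Finset V) (hS : ∀ i ≤ N, A i ⊆ S) :
    1 ≤ (∑ i ∈ Finset.range N, 1 / (((A i).card : ℝ) * (A (i + 1)).card)) * energy G S g := by
  have hc : ∀ i, (0 : ℝ) < (A i).card := fun i => by exact_mod_cast (hne i).card_pos
  set avg : ℕ → ℝ := fun i => (∑ x ∈ A i, g x) / (A i).card with havg
  have ha0 : avg 0 = 1 := by
    simp only [havg]
    rw [Finset.sum_congr rfl h0]
    have := (hc 0).ne'
    simp [this]
  have haN : avg N = 0 := by
    simp only [havg]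
    rw [Finset.sum_congr rfl hN]
    simp
  have htel : ∑ i ∈ Finset.range N, (avg i - avg (i + 1)) = 1 := by
    rw [Finset.sum_range_sub', ha0, haN, sub_zero]
  set r : ℕ → ℝ := fun i => 1 / (((A i).card : ℝ) * (A (i + 1)).card) with hr
  have hrpos : ∀ i, 0 < r i := fun i => by
    have := hc i
    have := hc (i + 1)
    simp only [hr]
    positivity
  set e : ℕ → ℝ := fun i => ∑ x ∈ A i, ∑ y ∈ A (i + 1), (g x - g y) ^ 2 with he
  have hdiff : ∀ i, avg i - avg (i + 1) =
      r i * ∑ p ∈ A i ×ˢ A (i + 1), (g p.1 - g p.2) := by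
    intro i
    have h1 := (hc i).ne'
    have h2 := (hc (i + 1)).ne'
    rw [Finset.sum_sub_distrib, Finset.sum_product, Finset.sum_product]
    simp only [Finset.sum_const, nsmul_eq_mul, havg, hr]
    rw [← Finset.mul_sum]
    field_simp
  have hsq : ∀ i, (avg i - avg (i + 1)) ^ 2 ≤ r i * e i := by
    intro i
    rw [hdiff i, mul_pow]
    have h1 := sq_sum_le_card_mul_sum_sq (s := A i ×ˢ A (i + 1)) (f := fun p => g p.1 - g p.2)
    have h2 : ∑ p ∈ A i ×ˢ A (i + 1), (g p.1 - g p.2) ^ 2 = e i := by
      rw [Finset.sum_product]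
    rw [h2, Finset.card_product] at h1
    push_cast at h1
    have h3 := mul_le_mul_of_nonneg_left h1 (sq_nonneg (r i))
    refine h3.trans (le_of_eq ?_)
    have h4 := (hc i).ne'
    have h5 := (hc (i + 1)).ne'
    simp only [hr]
    field_simp
  have hCS : (∑ i ∈ Finset.range N, (avg i - avg (i + 1))) ^ 2 ≤
      (∑ i ∈ Finset.range N, r i) * ∑ i ∈ Finset.range N, (avg i - avg (i + 1)) ^ 2 / r i := by
    refine Finset.sum_sq_le_sum_mul_sum_of_sq_le_mul _ (fun i _ => (hrpos i).le)
      (fun i _ => div_nonneg (sq_nonneg _) (hrpos i).le) (fun i _ => le_of_eq ?_)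
    have := (hrpos i).ne'
    field_simp
  rw [htel, one_pow] at hCS
  have hle : ∑ i ∈ Finset.range N, (avg i - avg (i + 1)) ^ 2 / r i ≤
      ∑ i ∈ Finset.range N, e i := by
    refine Finset.sum_le_sum (fun i _ => ?_)
    rw [div_le_iff₀ (hrpos i), mul_comm]
    exact hsq i
  have hE : ∑ i ∈ Finset.range N, e i ≤ energy G S g := by
    have h1 : ∀ i ∈ Finset.range N, e i ≤
        ∑ x ∈ A i, ∑ y ∈ S, (if G.Adj x y then (g x - g y) ^ 2 else 0) := by
      intro i hi
      rw [Finset.mem_range] at hi
      refine Finset.sum_le_sum (fun x hx => ?_)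
      have h2 : ∑ y ∈ A (i + 1), (g x - g y) ^ 2 =
          ∑ y ∈ A (i + 1), (if G.Adj x y then (g x - g y) ^ 2 else 0) := by
        refine Finset.sum_congr rfl (fun y hy => ?_)
        rw [if_pos (hadj i x hx y hy)]
      rw [h2]
      refine Finset.sum_le_sum_of_subset_of_nonneg (hS (i + 1) (by omega)) (fun y _ _ => ?_)
      split_ifs
      · positivity
      · exact le_rfl
    refine (Finset.sum_le_sum h1).trans ?_
    have hdisj : Set.PairwiseDisjoint (↑(Finset.range N)) A := by
      intro i _ j _ hij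
      rw [Function.onFun, Finset.disjoint_left]
      intro x hx hx2
      exact hij ((hL i x hx).symm.trans (hL j x hx2))
    rw [← Finset.sum_biUnion hdisj]
    unfold energy
    refine Finset.sum_le_sum_of_subset_of_nonneg ?_ (fun x _ _ => Finset.sum_nonneg (fun y _ => ?_))
    · intro x hx
      rw [Finset.mem_biUnion] at hx
      obtain ⟨i, hi, hx⟩ := hx
      rw [Finset.mem_range] at hi
      exact hS i (by omega) hx
    · split_ifs
      · positivity
      · exact le_rfl
  calc (1 : ℝ) ≤ _ := hCS
    _ ≤ (∑ i ∈ Finset.range N, r i) * energy G S g :=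
      mul_le_mul_of_nonneg_left (hle.trans hE) (Finset.sum_nonneg (fun i _ => (hrpos i).le))

/-- Transience criterion: a sequence of disjoint completely joined finite sets with finite
resistance. -/
theorem not_recurrentAt_of_fat (o : V) (A : ℕ → Finset V) (L : V → ℕ)
    (hA0 : A 0 = {o})
    (hL : ∀ i, ∀ x ∈ A i, L x = i) (hne : ∀ i, (A i).Nonempty)
    (hadj : ∀ i, ∀ x ∈ A i, ∀ y ∈ A (i + 1), G.Adj x y)
    (R : ℝ) (hR : ∀ N, ∑ i ∈ Finset.range N, 1 / (((A i).card : ℝ) * (A (i + 1)).card) ≤ R) :
    ¬ RecurrentAt G o := by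
  classical
  -- `R` is positive and the degree of `o` is positive
  have hRpos : 0 < R := by
    have h1 := hR 1
    have h2 : (0 : ℝ) < (A 0).card := by exact_mod_cast (hne 0).card_pos
    have h3 : (0 : ℝ) < (A 1).card := by exact_mod_cast (hne 1).card_pos
    rw [Finset.sum_range_one] at h1
    refine lt_of_lt_of_le ?_ h1
    simp only [zero_add]
    positivity
  have hdeg : (0 : ℝ) < G.degree o := by
    obtain ⟨y, hy⟩ := hne 1
    have : G.Adj o y := hadj 0 o (by rw [hA0]; simp) y hy
    have h2 : 0 < G.degree o := by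
      rw [SimpleGraph.degree_pos_iff_exists_adj]
      exact ⟨y, this⟩
    exact_mod_cast h2
  refine not_recurrentAt_of_le G o (1 / (2 * R * G.degree o)) (by positivity) (fun n => ?_)
  obtain ⟨D, hD⟩ := exists_supp G o n
  set N := D.sup L + 1 with hN
  set S : Finset V := (D ∪ D.biUnion (fun x => G.neighborFinset x)) ∪
    (Finset.range (N + 1)).biUnion A with hS
  have h1 : energy G S (gq G o n) ≤ 2 * (G.degree o * (1 - hq G o n o)) := by
    refine energy_le G o n D S hD ?_ ?_
    · intro x hx y hy
      simp only [hS, Finset.mem_union, Finset.mem_biUnion]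
      exact Or.inl (Or.inr ⟨x, hx, (G.mem_neighborFinset x y).mpr hy⟩)
    · intro x hx
      simp only [hS, Finset.mem_union]
      exact Or.inl (Or.inl hx)
  have h2 := one_le_energy G (gq G o n) A L hL hne hadj
    (by
      intro x hx
      rw [hA0, Finset.mem_singleton] at hx
      rw [hx, gq_self]) N
    (by
      intro x hx
      by_contra hne0
      have h3 := Finset.le_sup (f := L) (hD x hne0)
      have h4 := hL N x hx
      omega) S
    (by
      intro i hi x hx
      simp only [hS, Finset.mem_union, Finset.mem_biUnion, Finset.mem_range]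
      exact Or.inr ⟨i, by omega, hx⟩)
  have h3 : 1 ≤ R * energy G S (gq G o n) :=
    h2.trans (mul_le_mul_of_nonneg_right (hR N) (energy_nonneg _ _ _))
  have h4 : 1 ≤ R * (2 * (G.degree o * (1 - hq G o n o))) :=
    h3.trans (mul_le_mul_of_nonneg_left h1 hRpos.le)
  have h5 : 1 / (2 * R * G.degree o) ≤ 1 - hq G o n o := by
    rw [div_le_iff₀ (by positivity)]
    linarith
  linarith

end trans

end Pool.Agent.H96.Rec
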