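import Pool.Agent.H96.RecPow

set_option autoImplicit false

open MeasureTheory
open scoped ENNReal

namespace Pool.Agent.H96.Rec

/-- unnormalised law of the height of the root -/
noncomputable def wt (k : ℕ) : ℝ≥0∞ := ((wid k + 1 : ℕ) : ℝ≥0∞) * (2⁻¹) ^ k

/-- total weight between two blocks -/
noncomputable def blk (F : CV → CV → ℝ≥0∞) (k l i j : ℕ) : ℝ≥0∞ :=
  ∑ a : Fin (wid k + 1), ∑ b : Fin (wid l + 1), F ⟨k, (i, a)⟩ ⟨l, (j, b)⟩

lemma tsum_CV (g : CV → ℝ≥0∞) :
    ∑' x, g x = ∑' l : ℕ, ∑' j : ℕ, ∑ b : Fin (wid l + 1), g ⟨l, (j, b)⟩ := by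
  rw [ENNReal.tsum_sigma']
  congr 1
  funext l
  rw [ENNReal.tsum_prod']
  congr 1
  funext j
  rw [tsum_fintype]

section mtp

variable (F : CV → CV → ℝ≥0∞) (hF : ∀ c s x y, F (shift c s x) (shift c s y) = F x y)

lemma shift_apply (c s k i : ℕ) (a : Fin (wid k + 1)) :
    shift c s ⟨k, (i, a)⟩ = ⟨k, (i ^^^ (c >>> k), a + Fin.ofNat _ s)⟩ := rfl

include hF in
lemma blk_left (k l j : ℕ) :
    ((wid k + 1 : ℕ) : ℝ≥0∞) * ∑ b : Fin (wid l + 1), F (root k) ⟨l, (j, b)⟩ = blk F k l 0 j := by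
  have h1 : ∀ a : Fin (wid k + 1), ∑ b : Fin (wid l + 1), F ⟨k, (0, a)⟩ ⟨l, (j, b)⟩ =
      ∑ b : Fin (wid l + 1), F (root k) ⟨l, (j, b)⟩ := by
    intro a
    rw [← Equiv.sum_comp (Equiv.addRight (Fin.ofNat (wid l + 1) a.val))]
    refine Finset.sum_congr rfl (fun b _ => ?_)
    rw [← hF 0 a.val (root k) ⟨l, (j, b)⟩]
    unfold root
    rw [shift_apply, shift_apply]
    simp
  unfold blk
  rw [Finset.sum_congr rfl (fun a _ => h1 a)]
  simp

include hF in
lemma blk_right (k l i : ℕ) :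
    ((wid l + 1 : ℕ) : ℝ≥0∞) * ∑ a : Fin (wid k + 1), F ⟨k, (i, a)⟩ (root l) = blk F k l i 0 := by
  have h1 : ∀ b : Fin (wid l + 1), ∑ a : Fin (wid k + 1), F ⟨k, (i, a)⟩ ⟨l, (0, b)⟩ =
      ∑ a : Fin (wid k + 1), F ⟨k, (i, a)⟩ (root l) := by
    intro b
    rw [← Equiv.sum_comp (Equiv.addRight (Fin.ofNat (wid k + 1) b.val))]
    refine Finset.sum_congr rfl (fun a _ => ?_)
    rw [← hF 0 b.val ⟨k, (i, a)⟩ (root l)]
    unfold root
    rw [shift_apply, shift_apply]
    simp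
  unfold blk
  rw [Finset.sum_comm, Finset.sum_congr rfl (fun b _ => h1 b)]
  simp

include hF in
lemma blk_shift (c k l i j : ℕ) :
    blk F k l (i ^^^ (c >>> k)) (j ^^^ (c >>> l)) = blk F k l i j := by
  unfold blk
  refine Finset.sum_congr rfl (fun a _ => Finset.sum_congr rfl (fun b _ => ?_))
  rw [← hF c 0 ⟨k, (i, a)⟩ ⟨l, (j, b)⟩, shift_apply, shift_apply]
  simp

lemma tsum_div_pow (d : ℕ) (g : ℕ → ℝ≥0∞) : ∑' i, g (i / 2 ^ d) = 2 ^ d * ∑' q, g q := by
  have : NeZero (2 ^ d) := ⟨by positivity⟩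
  rw [← (Nat.divModEquiv (2 ^ d)).symm.tsum_eq, ENNReal.tsum_prod', ← ENNReal.tsum_mul_left]
  congr 1
  funext q
  rw [tsum_fintype]
  have h1 : ∀ r : Fin (2 ^ d), (Nat.divModEquiv (2 ^ d)).symm (q, r) / 2 ^ d = q := by
    intro r
    have h2 : Nat.divModEquiv (2 ^ d) ((Nat.divModEquiv (2 ^ d)).symm (q, r)) = (q, r) :=
      Equiv.apply_symm_apply _ _
    exact congrArg Prod.fst h2
  simp_rw [h1]
  simp

include hF in
/-- the exchange relation between heights `k` and `l` -/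
lemma exchange (k l : ℕ) :
    (2⁻¹ : ℝ≥0∞) ^ k * ∑' j, blk F k l 0 j = (2⁻¹ : ℝ≥0∞) ^ l * ∑' i, blk F k l i 0 := by
  have h22 : ∀ d : ℕ, (2⁻¹ : ℝ≥0∞) ^ d * 2 ^ d = 1 := by
    intro d
    rw [← mul_pow, ENNReal.inv_mul_cancel (by norm_num) (by norm_num), one_pow]
  rcases Nat.le_total k l with h | h
  · obtain ⟨d, rfl⟩ := Nat.exists_eq_add_of_le h
    have h1 : ∀ i, blk F k (k + d) i 0 = blk F k (k + d) 0 (i / 2 ^ d) := by
      intro i
      rw [← blk_shift F hF (i <<< k) k (k + d) i 0]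
      rw [Nat.shiftRight_add, Nat.shiftLeft_shiftRight, Nat.shiftRight_eq_div_pow]
      simp
    simp_rw [h1]
    rw [tsum_div_pow d (fun q => blk F k (k + d) 0 q), pow_add, mul_assoc,
      ← mul_assoc ((2⁻¹ : ℝ≥0∞) ^ d), h22, one_mul]
  · obtain ⟨d, rfl⟩ := Nat.exists_eq_add_of_le h
    have h1 : ∀ j, blk F (l + d) l 0 j = blk F (l + d) l (j / 2 ^ d) 0 := by
      intro j
      rw [← blk_shift F hF (j <<< l) (l + d) l 0 j]
      rw [Nat.shiftRight_add, Nat.shiftLeft_shiftRight, Nat.shiftRight_eq_div_pow]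
      simp
    simp_rw [h1]
    rw [tsum_div_pow d (fun q => blk F (l + d) l q 0), pow_add, mul_assoc,
      ← mul_assoc ((2⁻¹ : ℝ≥0∞) ^ d), h22, one_mul]

include hF in
/-- the mass transport principle for the weights `wt` -/
lemma mtp_wt :
    ∑' k, wt k * ∑' x, F (root k) x = ∑' k, wt k * ∑' x, F x (root k) := by
  have hL : ∀ k, wt k * ∑' x, F (root k) x = ∑' l, (2⁻¹ : ℝ≥0∞) ^ k * ∑' j, blk F k l 0 j := by
    intro k
    rw [tsum_CV, ENNReal.tsum_mul_left]
    unfold wt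
    rw [mul_comm (((wid k + 1 : ℕ) : ℝ≥0∞)) _, mul_assoc, ← ENNReal.tsum_mul_left]
    congr 1
    congr 1
    funext l
    rw [← ENNReal.tsum_mul_left]
    congr 1
    funext j
    exact blk_left F hF k l j
  have hR : ∀ l, wt l * ∑' x, F x (root l) = ∑' k, (2⁻¹ : ℝ≥0∞) ^ l * ∑' i, blk F k l i 0 := by
    intro l
    rw [tsum_CV, ENNReal.tsum_mul_left]
    unfold wt
    rw [mul_comm (((wid l + 1 : ℕ) : ℝ≥0∞)) _, mul_assoc, ← ENNReal.tsum_mul_left]
    congr 1
    congr 1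
    funext k
    rw [← ENNReal.tsum_mul_left]
    congr 1
    funext i
    exact blk_right F hF k l i
  simp_rw [hL, hR]
  rw [ENNReal.tsum_comm (f := fun l k => (2⁻¹ : ℝ≥0∞) ^ l * ∑' i, blk F k l i 0)]
  congr 1
  funext k
  congr 1
  funext l
  exact exchange F hF k l

end mtp

lemma wt_zero : wt 0 = 1 := by
  unfold wt
  have : wid 0 = 0 := Nat.le_zero.mp (wid_le 0)
  rw [this]
  simp

lemma wt_eq (k : ℕ) : wt k = ENNReal.ofReal (((wid k : ℝ) + 1) * (1 / 2) ^ k) := by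
  unfold wt
  rw [ENNReal.ofReal_mul (by positivity), ENNReal.ofReal_pow (by norm_num)]
  congr 1
  · rw [← ENNReal.ofReal_natCast]
    congr 1
    push_cast
    rfl
  · congr 1
    rw [one_div, ENNReal.ofReal_inv_of_pos (by norm_num)]
    simp

lemma wid_bound (k : ℕ) : ((wid k : ℝ) + 1) * (1 / 2) ^ k ≤ 2 * (3 / 4) ^ k := by
  have h1 : ((wid k : ℝ)) ≤ k := by exact_mod_cast wid_le k
  have h2 : (1 : ℝ) + k * (1 / 2) ≤ (1 + 1 / 2) ^ k := one_add_mul_le_pow (by norm_num) k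
  have h3 : (3 / 4 : ℝ) ^ k = (1 + 1 / 2) ^ k * (1 / 2) ^ k := by
    rw [← mul_pow]; norm_num
  rw [h3, ← mul_assoc]
  refine mul_le_mul_of_nonneg_right ?_ (by positivity)
  linarith

lemma wt_le (k : ℕ) : wt k ≤ ENNReal.ofReal (2 * (3 / 4) ^ k) := by
  rw [wt_eq]
  exact ENNReal.ofReal_le_ofReal (wid_bound k)

lemma summable_34 : Summable (fun k : ℕ => 2 * (3 / 4 : ℝ) ^ k) :=
  (summable_geometric_of_lt_one (by norm_num) (by norm_num)).mul_left 2

lemma tsum_wt_ne_top : ∑' k, wt k ≠ ⊤ := by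
  have h1 : ∑' k, wt k ≤ ∑' k, ENNReal.ofReal (2 * (3 / 4 : ℝ) ^ k) :=
    ENNReal.tsum_le_tsum wt_le
  refine ne_top_of_le_ne_top ?_ h1
  rw [← ENNReal.ofReal_tsum_of_nonneg (fun k => by positivity) summable_34]
  exact ENNReal.ofReal_ne_top

lemma one_le_tsum_wt : 1 ≤ ∑' k, wt k := by
  rw [← wt_zero]
  exact ENNReal.le_tsum 0

lemma tsum_wt_ne_zero : ∑' k, wt k ≠ 0 := by
  intro h
  have := one_le_tsum_wt
  rw [h] at this
  simp at this

/-- the law of the height of the root -/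
noncomputable def hlaw : PMF ℕ := PMF.normalize wt tsum_wt_ne_zero tsum_wt_ne_top

/-- the probability measure on the heights -/
noncomputable def PM : Measure ℕ := hlaw.toMeasure

instance : IsProbabilityMeasure PM := PMF.toMeasure.isProbabilityMeasure _

lemma PM_singleton (k : ℕ) : PM {k} = wt k * (∑' k, wt k)⁻¹ := by
  unfold PM hlaw
  rw [PMF.toMeasure_apply_singleton _ _ (measurableSet_singleton k), PMF.normalize_apply]

lemma PM_singleton_le (k : ℕ) : PM {k} ≤ ENNReal.ofReal (2 * (3 / 4) ^ k) := by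
  rw [PM_singleton]
  have h1 : (∑' k, wt k)⁻¹ ≤ 1 := by
    rw [ENNReal.inv_le_one]
    exact one_le_tsum_wt
  calc wt k * (∑' k, wt k)⁻¹ ≤ wt k * 1 := mul_le_mul_right h1 _
    _ = wt k := mul_one _
    _ ≤ _ := wt_le k

theorem CG_unimodular : IsUnimodular PM (fun _ => CG) root := by
  intro f _ hf
  have hF : ∀ c s x y, f CG (shift c s x) (shift c s y) = f CG x y := by
    intro c s x y
    exact hf CG CG (shiftIso c s) x y
  have h1 := mtp_wt (f CG) hF
  rw [lintegral_countable', lintegral_countable']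
  have h2 : ∀ g : ℕ → ℝ≥0∞, ∑' k, g k * PM {k} = (∑' k, wt k)⁻¹ * ∑' k, wt k * g k := by
    intro g
    rw [← ENNReal.tsum_mul_left]
    congr 1
    funext k
    rw [PM_singleton]
    ring
  rw [h2, h2, h1]

open Classical in
lemma deg_root_le (k : ℕ) : deg CG (root k) ≤ 3 * k + 4 := by
  have hsub : CG.neighborSet (root k) ⊆
      ↑(((Finset.univ : Finset (Fin (wid (k + 1) + 1))).image
        (fun b => (⟨k + 1, (0, b)⟩ : CV))) ∪
        (((Finset.range 2) ×ˢ (Finset.univ : Finset (Fin (wid (k - 1) + 1)))).image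
        (fun p => (⟨k - 1, (p.1, p.2)⟩ : CV)))) := by
    rintro ⟨l, j, b⟩ hy
    rw [Finset.coe_union]
    rcases hy with h | h
    · left
      obtain ⟨h1, h2⟩ := h
      have h1' : l = k + 1 := h1
      have h2' : j = 0 / 2 := h2
      subst h1'
      have h3 : j = 0 := by omega
      subst h3
      rw [Finset.mem_coe, Finset.mem_image]
      exact ⟨b, Finset.mem_univ _, rfl⟩
    · right
      obtain ⟨h1, h2⟩ := h
      have h1' : k = l + 1 := h1
      have h2' : 0 = j / 2 := h2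
      subst h1'
      rw [Finset.mem_coe, Finset.mem_image]
      refine ⟨(j, b), ?_, rfl⟩
      rw [Finset.mem_product]
      exact ⟨Finset.mem_range.mpr (by omega), Finset.mem_univ _⟩
  unfold deg
  refine (Set.ncard_le_ncard hsub (Finset.finite_toSet _)).trans ?_
  rw [Set.ncard_coe_finset]
  refine (Finset.card_union_le _ _).trans ?_
  refine (add_le_add Finset.card_image_le Finset.card_image_le).trans ?_
  rw [Finset.card_product, Finset.card_univ, Finset.card_univ, Fintype.card_fin, Fintype.card_fin,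
    Finset.card_range]
  have h1 := wid_le (k + 1)
  have h2 := wid_le (k - 1)
  omega

/-- the exponential rate -/
noncomputable def crate : ℝ := Real.log (7 / 6) / 3

lemma crate_pos : 0 < crate := by
  unfold crate
  have := Real.log_pos (show (1 : ℝ) < 7 / 6 by norm_num)
  positivity

lemma exp_crate (k : ℕ) : Real.exp (crate * (3 * k)) = (7 / 6 : ℝ) ^ k := by
  have h1 : crate * (3 * k) = k * Real.log (7 / 6) := by
    unfold crate
    ring
  rw [h1, Real.exp_nat_mul, Real.exp_log (by norm_num)]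

theorem CG_expTail : ExpTail PM (fun _ => CG) root := by
  refine ⟨16 * Real.exp (crate * 4), crate, by positivity, crate_pos, fun n _ => ?_⟩
  have hsub : {k : ℕ | n ≤ deg CG (root k)} ⊆ {k : ℕ | n ≤ 3 * k + 4} :=
    fun k hk => le_trans hk (deg_root_le k)
  refine (measure_mono hsub).trans ?_
  have h1 : PM {k : ℕ | n ≤ 3 * k + 4} = ∑' k, ({k : ℕ | n ≤ 3 * k + 4}.indicator 1 k) * PM {k} := by
    rw [← lintegral_countable', lintegral_indicator_one]
    exact MeasurableSet.of_discrete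
  rw [h1]
  have h2 : ∀ k : ℕ, ({k : ℕ | n ≤ 3 * k + 4}.indicator (1 : ℕ → ℝ≥0∞) k) * PM {k} ≤
      ENNReal.ofReal ((2 * Real.exp (crate * 4) * Real.exp (-(crate * n))) * (7 / 8) ^ k) := by
    intro k
    by_cases hk : n ≤ 3 * k + 4
    · rw [Set.indicator_of_mem (by exact hk), Pi.one_apply, one_mul]
      refine (PM_singleton_le k).trans (ENNReal.ofReal_le_ofReal ?_)
      have h3 : (1 : ℝ) ≤ Real.exp (crate * 4) * Real.exp (-(crate * n)) *
          Real.exp (crate * (3 * k)) := by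
        rw [← Real.exp_add, ← Real.exp_add]
        apply Real.one_le_exp
        have h4 : (n : ℝ) ≤ 3 * k + 4 := by exact_mod_cast hk
        nlinarith [crate_pos]
      rw [exp_crate] at h3
      have h5 : (7 / 8 : ℝ) ^ k = (7 / 6) ^ k * (3 / 4) ^ k := by
        rw [← mul_pow]; norm_num
      rw [h5]
      have h6 : (0 : ℝ) < (3 / 4) ^ k := by positivity
      nlinarith [mul_le_mul_of_nonneg_right h3 h6.le]
    · rw [Set.indicator_of_notMem (by exact hk), zero_mul]
      exact zero_le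
  refine (ENNReal.tsum_le_tsum h2).trans ?_
  rw [← ENNReal.ofReal_tsum_of_nonneg (fun k => by positivity)
    ((summable_geometric_of_lt_one (by norm_num) (by norm_num)).mul_left _)]
  refine ENNReal.ofReal_le_ofReal (le_of_eq ?_)
  rw [tsum_mul_left, tsum_geometric_of_lt_one (by norm_num) (by norm_num)]
  ring

end Pool.Agent.H96.Rec
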