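import Pool.Agent.H96.SandLaw

set_option autoImplicit false

open MeasureTheory ProbabilityTheory

namespace Pool.Agent.H96.Sand

lemma aa_le_iff (j l : ℕ) : aa l ≤ 2 ^ j ↔ tt l ≤ j := by
  unfold aa
  exact pow_le_pow_iff_right₀ (by norm_num)

lemma chi_aa (j l : ℕ) : chi j (aa l) = if tt l ≤ j then aa l else 0 := by
  unfold chi
  by_cases h : tt l ≤ j
  · rw [if_pos ⟨(aa_pos l).le, (aa_le_iff j l).mpr h⟩, if_pos h]
  · rw [if_neg h, if_neg]
    rintro ⟨_, h2⟩
    exact h ((aa_le_iff j l).mp h2)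

lemma chi_zero (j : ℕ) : chi j 0 = 0 := by
  unfold chi
  split_ifs <;> rfl

/-- truncated mean of the law -/
noncomputable def mmv (j : ℕ) : ℝ := ∫ s, chi j s ∂nu

lemma hasSum_mmv (j : ℕ) : HasSum (fun l => if tt l ≤ j then qq l else 0) (mmv j) := by
  have h := hasSum_nu (chi j) (chi_zero j)
    (summable_pp_mul_bdd (fun l => chi j (aa l)) (2 ^ j) (fun l => by
      rw [abs_of_nonneg (chi_nonneg _ _)]; exact chi_le _ _))
  have e : (fun l => pp l * chi j (aa l)) = fun l => if tt l ≤ j then qq l else 0 := by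
    funext l
    rw [chi_aa]
    split_ifs
    · exact pp_mul_aa l
    · simp
  rw [e] at h
  exact h

/-- an elementary inequality -/
lemma exp_ineq (y : ℝ) (hy : 0 ≤ y) : y * (1 - min 1 (y / 2)) ≤ 1 - Real.exp (-y) := by
  rcases le_or_gt 2 y with h | h
  · rw [min_eq_left (by linarith)]
    have : Real.exp (-y) ≤ 1 := Real.exp_le_one_iff.mpr (by linarith)
    linarith
  · rw [min_eq_right (by linarith)]
    have h1 := Real.quadratic_le_exp_of_nonneg hy
    have h2 : Real.exp (-y) * Real.exp y = 1 := by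
      rw [← Real.exp_add]; simp
    have h3 : 0 < Real.exp (-y) := Real.exp_pos _
    have h4 : Real.exp (-y) * (1 + y + y ^ 2 / 2) ≤ 1 := by
      have h4' := mul_le_mul_of_nonneg_left h1 h3.le
      linarith
    have h5 : 0 < 1 + y + y ^ 2 / 2 := by positivity
    have h6 : 1 ≤ (1 - y + y ^ 2 / 2) * (1 + y + y ^ 2 / 2) := by
      have : (1 - y + y ^ 2 / 2) * (1 + y + y ^ 2 / 2) = 1 + y ^ 4 / 4 := by ring
      rw [this]
      have : 0 ≤ y ^ 4 := by positivity
      linarith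
    have h7 : Real.exp (-y) ≤ 1 - y + y ^ 2 / 2 := by
      have := h4.trans h6
      exact le_of_mul_le_mul_right this h5
    nlinarith [h7]

/-- scale at which generation `j` is seen from generation `k` -/
noncomputable def ss (k j : ℕ) : ℝ := 2 ^ k * (1 / 2) ^ (j + 1)

lemma ss_pos (k j : ℕ) : 0 < ss k j := by unfold ss; positivity

/-- the summand in the error term -/
noncomputable def ddt (k j l : ℕ) : ℝ := if tt l ≤ j then min 1 (ss k j * aa l / 2) else 0

lemma ddt_nonneg (k j l : ℕ) : 0 ≤ ddt k j l := by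
  unfold ddt
  split_ifs
  · have := ss_pos k j
    have := aa_pos l
    positivity
  · exact le_rfl

lemma ddt_le_one (k j l : ℕ) : ddt k j l ≤ 1 := by
  unfold ddt
  split_ifs
  · exact min_le_left _ _
  · exact zero_le_one

/-- the error term -/
noncomputable def dd (k j : ℕ) : ℝ := ∑' l, qq l * ddt k j l

lemma hasSum_dd (k j : ℕ) : HasSum (fun l => qq l * ddt k j l) (dd k j) := by
  refine Summable.hasSum ?_
  refine Summable.of_nonneg_of_le (fun l => mul_nonneg (qq_pos l).le (ddt_nonneg _ _ _))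
    (fun l => ?_) hasSum_qq.summable
  exact mul_le_of_le_one_right (qq_pos l).le (ddt_le_one k j l)

/-- the exponent rate -/
noncomputable def gam (k j : ℕ) : ℝ := ss k j * (mmv j - dd k j)

lemma laplace_bound (k j : ℕ) :
    ∫ s, Real.exp (-(2 ^ k * (1 / 2) ^ (j + 1) * chi j s)) ∂nu ≤ Real.exp (-(gam k j)) := by
  have hs := ss_pos k j
  change ∫ s, Real.exp (-(ss k j * chi j s)) ∂nu ≤ _
  have hbd : ∀ s : ℝ, |1 - Real.exp (-(ss k j * chi j s))| ≤ 1 := by
    intro s
    have h1 : 0 ≤ ss k j * chi j s := mul_nonneg hs.le (chi_nonneg _ _)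
    have h2 : Real.exp (-(ss k j * chi j s)) ≤ 1 := Real.exp_le_one_iff.mpr (by linarith)
    have h3 := Real.exp_pos (-(ss k j * chi j s))
    rw [abs_of_nonneg (by linarith)]
    linarith
  have hsum := hasSum_nu (fun s => 1 - Real.exp (-(ss k j * chi j s)))
    (by simp [chi_zero]) (summable_pp_mul_bdd (fun l => 1 - Real.exp (-(ss k j * chi j (aa l)))) 1
      (fun l => hbd _))
  have hint : Integrable (fun s => 1 - Real.exp (-(ss k j * chi j s))) nu :=
    integrable_nu _ (summable_pp_mul_bdd (fun l => 1 - Real.exp (-(ss k j * chi j (aa l)))) 1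
      (fun l => hbd _))
  have h1 : ∫ s, Real.exp (-(ss k j * chi j s)) ∂nu =
      1 - ∫ s, (1 - Real.exp (-(ss k j * chi j s))) ∂nu := by
    have h2 : ∀ s : ℝ, Real.exp (-(ss k j * chi j s)) =
        1 - (1 - Real.exp (-(ss k j * chi j s))) := by intro s; ring
    have h3 : ∫ s, Real.exp (-(ss k j * chi j s)) ∂nu =
        ∫ s, (1 - (1 - Real.exp (-(ss k j * chi j s)))) ∂nu := by
      refine integral_congr_ae (Filter.Eventually.of_forall (fun s => ?_))
      exact h2 s
    rw [h3, integral_sub (integrable_const _) hint]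
    simp
  rw [h1]
  have hsumg : HasSum (fun l => ss k j * ((if tt l ≤ j then qq l else 0) - qq l * ddt k j l))
      (gam k j) := ((hasSum_mmv j).sub (hasSum_dd k j)).mul_left _
  have hle : gam k j ≤ ∫ s, (1 - Real.exp (-(ss k j * chi j s))) ∂nu := by
    refine hasSum_le (fun l => ?_) hsumg hsum
    rw [chi_aa]
    unfold ddt
    split_ifs with h
    · have h5 := exp_ineq (ss k j * aa l) (mul_nonneg hs.le (aa_pos l).le)
      have h6 := mul_le_mul_of_nonneg_left h5 (pp_pos l).le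
      calc ss k j * (qq l - qq l * min 1 (ss k j * aa l / 2))
          = pp l * (ss k j * aa l * (1 - min 1 (ss k j * aa l / 2))) := by
            rw [← pp_mul_aa l]; ring
        _ ≤ _ := h6
    · simp
  have h7 := Real.add_one_le_exp (-(∫ s, (1 - Real.exp (-(ss k j * chi j s))) ∂nu))
  have h8 : Real.exp (-(∫ s, (1 - Real.exp (-(ss k j * chi j s))) ∂nu)) ≤
      Real.exp (-(gam k j)) := Real.exp_le_exp.mpr (by linarith)
  linarith

/-- partial sums of `nn` -/
lemma sum_nn_real (k : ℕ) : ∑ j ∈ Finset.range k, (nn j : ℝ) = (k : ℝ) + Nat.sqrt k := by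
  exact_mod_cast sum_nn k

lemma nn_le_two (k : ℕ) : nn k ≤ 2 := by
  have := rr_le_one k
  unfold nn
  omega

lemma sum_split (f : ℕ → ℝ) (k t : ℕ) :
    ∑ j ∈ Finset.range k, f j * (if t ≤ j then 0 else 1) +
      ∑ i ∈ Finset.range t, f (k + i) * (if t ≤ k + i then 0 else 1) =
      ∑ j ∈ Finset.range t, f j := by
  rw [← Finset.sum_range_add (fun j => f j * (if t ≤ j then 0 else 1)) k t, add_comm k t,
    Finset.sum_range_add (fun j => f j * (if t ≤ j then 0 else 1)) t k]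
  have h1 : ∑ x ∈ Finset.range k, f (t + x) * (if t ≤ t + x then (0 : ℝ) else 1) = 0 := by
    refine Finset.sum_eq_zero (fun x _ => ?_)
    simp
  rw [h1, add_zero]
  refine Finset.sum_congr rfl (fun x hx => ?_)
  rw [Finset.mem_range] at hx
  rw [if_neg (by omega), mul_one]

/-- the key termwise inequality -/
lemma key_term (k t M : ℕ) (d : ℕ → ℝ) (hd0 : ∀ i, 0 ≤ d i)
    (hd1 : ∀ i, d i ≤ if t ≤ k + i then 1 else 0)
    (hd2 : ∀ i, d i ≤ (1 / 2) ^ (i + 1) * 2 ^ t / 2) :
    -(∑ j ∈ Finset.range k, (nn j : ℝ) * (if t ≤ j then 0 else 1)) +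
      ∑ i ∈ Finset.range M, (nn (k + i) : ℝ) * d i ≤
      1 - ((Nat.sqrt k : ℝ) + Nat.sqrt t - Nat.sqrt (k + t)) := by
  have hnn : ∀ j, (0 : ℝ) ≤ nn j := fun j => Nat.cast_nonneg _
  have hnn2 : ∀ j, (nn j : ℝ) ≤ 2 := fun j => by exact_mod_cast nn_le_two j
  have h1 : ∑ i ∈ Finset.range M, (nn (k + i) : ℝ) * d i ≤
      ∑ i ∈ Finset.range (t + M), (nn (k + i) : ℝ) * d i := by
    refine Finset.sum_le_sum_of_subset_of_nonneg ?_ (fun i _ _ => mul_nonneg (hnn _) (hd0 _))
    exact Finset.range_subset_range.mpr (by omega)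
  rw [Finset.sum_range_add (fun i => (nn (k + i) : ℝ) * d i) t M] at h1
  have h2 : ∑ x ∈ Finset.range M, (nn (k + (t + x)) : ℝ) * d (t + x) ≤ 1 := by
    have h3 : ∀ x ∈ Finset.range M, (nn (k + (t + x)) : ℝ) * d (t + x) ≤
        (1 / 2) * (1 / 2 : ℝ) ^ x := by
      intro x _
      have h4 := hd2 (t + x)
      have e : (1 / 2 : ℝ) ^ (t + x + 1) * 2 ^ t / 2 = (1 / 4) * (1 / 2) ^ x := by
        rw [pow_succ, pow_add]
        have : (1 / 2 : ℝ) ^ t * 2 ^ t = 1 := by rw [← mul_pow]; norm_num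
        calc (1 / 2 : ℝ) ^ t * (1 / 2) ^ x * (1 / 2) * 2 ^ t / 2
            = ((1 / 2 : ℝ) ^ t * 2 ^ t) * ((1 / 4) * (1 / 2) ^ x) := by ring
          _ = _ := by rw [this, one_mul]
      rw [e] at h4
      calc (nn (k + (t + x)) : ℝ) * d (t + x) ≤ 2 * ((1 / 4) * (1 / 2) ^ x) :=
            mul_le_mul (hnn2 _) h4 (hd0 _) (by norm_num)
        _ = _ := by ring
    refine (Finset.sum_le_sum h3).trans ?_
    rw [← Finset.mul_sum]
    have h5 : ∑ i ∈ Finset.range M, (1 / 2 : ℝ) ^ i ≤ 2 := by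
      have := hasSum_geometric_two.summable.sum_le_tsum (Finset.range M)
        (fun i _ => by positivity)
      rw [hasSum_geometric_two.tsum_eq] at this
      exact this
    linarith
  have h6 : ∑ i ∈ Finset.range t, (nn (k + i) : ℝ) * d i ≤
      ∑ i ∈ Finset.range t, (nn (k + i) : ℝ) -
        ∑ i ∈ Finset.range t, (nn (k + i) : ℝ) * (if t ≤ k + i then 0 else 1) := by
    rw [← Finset.sum_sub_distrib]
    refine Finset.sum_le_sum (fun i _ => ?_)
    have h7 := mul_le_mul_of_nonneg_left (hd1 i) (hnn (k + i))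
    refine h7.trans (le_of_eq ?_)
    split_ifs <;> ring
  have h8 := sum_split (fun j => (nn j : ℝ)) k t
  have h9 := Finset.sum_range_add (fun j => (nn j : ℝ)) k t
  rw [sum_nn_real, sum_nn_real] at h9
  rw [sum_nn_real] at h8
  push_cast at h9
  linarith

lemma sqrt_add_le (k t : ℕ) : Nat.sqrt (k + t) ≤ Nat.sqrt k + Nat.sqrt t := by
  have h1 := Nat.sqrt_le_add k
  have h2 := Nat.sqrt_le_add t
  have h3 : Nat.sqrt (k + t) < Nat.sqrt k + Nat.sqrt t + 1 := by
    rw [Nat.sqrt_lt]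
    nlinarith [Nat.zero_le (Nat.sqrt k * Nat.sqrt t)]
  omega

/-- the special index -/
def ell (k : ℕ) : ℕ := Nat.log 16 k + 1

lemma sqrt_special (k : ℕ) :
    (Nat.sqrt k : ℝ) + Nat.sqrt (tt (ell k)) - Nat.sqrt (k + tt (ell k)) = Nat.sqrt k := by
  have h1 : tt (ell k) = 16 ^ (ell k) * 16 ^ (ell k) := by
    unfold ell
    simp only [tt]
    rw [← mul_pow]
    norm_num
  have h2 : k < 16 ^ (ell k) := by
    unfold ell
    exact Nat.lt_pow_succ_log_self (by norm_num) k
  have h3 : Nat.sqrt (tt (ell k)) = 16 ^ (ell k) := by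
    rw [h1, Nat.sqrt_eq]
  have h4 : Nat.sqrt (k + tt (ell k)) = 16 ^ (ell k) := by
    rw [h1, add_comm]
    exact Nat.sqrt_add_eq _ (by omega)
  rw [h3, h4]
  ring

/-- the bound for the Laplace transform at level `k` -/
noncomputable def bet (k : ℕ) : ℝ := Real.exp ((1 / 2) * (1 - qq (ell k) * Nat.sqrt k))

lemma sum_gam (k M : ℕ) :
    ∑ i ∈ Finset.range M, 2 ^ i * ((nn (k + i) : ℝ) * gam k (k + i)) =
      (1 / 2) * ∑ i ∈ Finset.range M, (nn (k + i) : ℝ) * (mmv (k + i) - dd k (k + i)) := by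
  rw [Finset.mul_sum]
  refine Finset.sum_congr rfl (fun i _ => ?_)
  unfold gam ss
  have e : (2 : ℝ) ^ i * (2 ^ k * (1 / 2) ^ (k + i + 1)) = 1 / 2 := by
    rw [← mul_assoc, ← pow_add, pow_succ, ← mul_assoc, add_comm i k, ← mul_pow]
    norm_num
  calc 2 ^ i * ((nn (k + i) : ℝ) * (2 ^ k * (1 / 2) ^ (k + i + 1) *
        (mmv (k + i) - dd k (k + i))))
      = (2 ^ i * (2 ^ k * (1 / 2) ^ (k + i + 1))) *
        ((nn (k + i) : ℝ) * (mmv (k + i) - dd k (k + i))) := by ring
    _ = _ := by rw [e]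

lemma exponent_bound (n k : ℕ) (hk : k ≤ n) :
    Real.exp (-(hh mmv n k) -
        ∑ i ∈ Finset.range (n - k), 2 ^ i * ((nn (k + i) : ℝ) * gam k (k + i))) ≤ bet k := by
  unfold bet
  rw [Real.exp_le_exp, sum_gam]
  -- rewrite the exponent
  have h1 : ∑ j ∈ Finset.range n, (nn j : ℝ) * mmv j =
      ∑ j ∈ Finset.range k, (nn j : ℝ) * mmv j +
      ∑ i ∈ Finset.range (n - k), (nn (k + i) : ℝ) * mmv (k + i) := by
    rw [← Finset.sum_range_add (fun j => (nn j : ℝ) * mmv j) k (n - k)]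
    rw [Nat.add_sub_cancel' hk]
  have h2 : ∑ i ∈ Finset.range (n - k), (nn (k + i) : ℝ) * (mmv (k + i) - dd k (k + i)) =
      ∑ i ∈ Finset.range (n - k), (nn (k + i) : ℝ) * mmv (k + i) -
      ∑ i ∈ Finset.range (n - k), (nn (k + i) : ℝ) * dd k (k + i) := by
    rw [← Finset.sum_sub_distrib]
    refine Finset.sum_congr rfl (fun i _ => by ring)
  have h3 : ∑ j ∈ Finset.range k, (nn j : ℝ) - ∑ j ∈ Finset.range k, (nn j : ℝ) * mmv j =
      ∑ j ∈ Finset.range k, (nn j : ℝ) * (1 - mmv j) := by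
    rw [← Finset.sum_sub_distrib]
    refine Finset.sum_congr rfl (fun i _ => by ring)
  -- the exponent as a sum over the atoms
  have h4 : HasSum (fun l => qq l * (-(∑ j ∈ Finset.range k, (nn j : ℝ) *
      (if tt l ≤ j then 0 else 1)) + ∑ i ∈ Finset.range (n - k), (nn (k + i) : ℝ) *
        ddt k (k + i) l))
      (-(∑ j ∈ Finset.range k, (nn j : ℝ) * (1 - mmv j)) +
        ∑ i ∈ Finset.range (n - k), (nn (k + i) : ℝ) * dd k (k + i)) := by
    have h5 : HasSum (fun l => ∑ j ∈ Finset.range k, (nn j : ℝ) *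
        (qq l - (if tt l ≤ j then qq l else 0)))
        (∑ j ∈ Finset.range k, (nn j : ℝ) * (1 - mmv j)) :=
      hasSum_sum (fun j _ => (hasSum_qq.sub (hasSum_mmv j)).mul_left _)
    have h6 : HasSum (fun l => ∑ i ∈ Finset.range (n - k), (nn (k + i) : ℝ) *
        (qq l * ddt k (k + i) l))
        (∑ i ∈ Finset.range (n - k), (nn (k + i) : ℝ) * dd k (k + i)) :=
      hasSum_sum (fun i _ => (hasSum_dd k (k + i)).mul_left _)
    have h7 := h5.neg.add h6
    have e : (fun l => -(∑ j ∈ Finset.range k, (nn j : ℝ) *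
        (qq l - (if tt l ≤ j then qq l else 0))) +
        ∑ i ∈ Finset.range (n - k), (nn (k + i) : ℝ) * (qq l * ddt k (k + i) l)) =
        (fun l => qq l * (-(∑ j ∈ Finset.range k, (nn j : ℝ) *
      (if tt l ≤ j then 0 else 1)) + ∑ i ∈ Finset.range (n - k), (nn (k + i) : ℝ) *
        ddt k (k + i) l)) := by
      funext l
      rw [mul_add, mul_neg, Finset.mul_sum, Finset.mul_sum]
      congr 1
      · congr 1
        refine Finset.sum_congr rfl (fun j _ => ?_)
        split_ifs <;> ring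
      · refine Finset.sum_congr rfl (fun j _ => by ring)
    rw [e] at h7
    exact h7
  have h8 : HasSum (fun l => qq l - (if l = ell k then qq (ell k) * Nat.sqrt k else 0))
      (1 - qq (ell k) * Nat.sqrt k) := by
    refine hasSum_qq.sub ?_
    exact hasSum_ite_eq (ell k) _
  have h9 : -(∑ j ∈ Finset.range k, (nn j : ℝ) * (1 - mmv j)) +
        ∑ i ∈ Finset.range (n - k), (nn (k + i) : ℝ) * dd k (k + i) ≤
      1 - qq (ell k) * Nat.sqrt k := by
    refine hasSum_le (fun l => ?_) h4 h8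
    have h10 := key_term k (tt l) (n - k) (fun i => ddt k (k + i) l)
      (fun i => ddt_nonneg _ _ _)
      (fun i => by
        unfold ddt
        split_ifs
        · exact min_le_left _ _
        · exact le_rfl)
      (fun i => by
        unfold ddt
        split_ifs
        · refine (min_le_right _ _).trans (le_of_eq ?_)
          unfold ss aa
          have e : (2 : ℝ) ^ k * (1 / 2) ^ (k + i + 1) = (1 / 2) ^ (i + 1) := by
            rw [show k + i + 1 = k + (i + 1) by ring, pow_add, ← mul_assoc, ← mul_pow]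
            norm_num
          rw [e]
        · positivity)
    have hq := qq_pos l
    have h11 := mul_le_mul_of_nonneg_left h10 hq.le
    refine h11.trans ?_
    split_ifs with hl
    · subst hl
      rw [sqrt_special]
      linarith
    · have h12 : (Nat.sqrt (k + tt l) : ℝ) ≤ Nat.sqrt k + Nat.sqrt (tt l) := by
        exact_mod_cast sqrt_add_le k (tt l)
      nlinarith [h12, hq]
  unfold hh
  rw [h1, h2]
  linarith [h9, h3]

lemma bet_pos (k : ℕ) : 0 < bet k := Real.exp_pos _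

lemma bet_le (k : ℕ) (hk : 1 ≤ k) :
    bet k ≤ (Real.exp (1 / 2) * (Nat.factorial 8 * 32 ^ 8 * 256)) * (1 / (k : ℝ) ^ 2) := by
  set L := Nat.log 16 k with hL
  have h1 : 16 ^ L ≤ k := Nat.pow_log_le_self 16 (by omega)
  have h2 : k < 16 ^ (L + 1) := Nat.lt_pow_succ_log_self (by norm_num) k
  have h3 : 4 ^ L ≤ Nat.sqrt k := by
    rw [Nat.le_sqrt, ← mul_pow]
    exact h1
  have h3' : (4 : ℝ) ^ L ≤ Nat.sqrt k := by exact_mod_cast h3
  set b : ℝ := 2 ^ L with hb
  have hbpos : 0 < b := by positivity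
  have h4 : b / 16 ≤ qq (ell k) * Nat.sqrt k := by
    have h5 : qq (ell k) = (1 / 2) ^ (L + 4) := by
      unfold ell
      simp only [qq]
      rw [hL]
    rw [h5]
    calc b / 16 = (1 / 2) ^ (L + 4) * 4 ^ L := by
          rw [hb, pow_add]
          have : (4 : ℝ) ^ L = 2 ^ L * 2 ^ L := by rw [← mul_pow]; norm_num
          rw [this]
          have h6 : (1 / 2 : ℝ) ^ L * 2 ^ L = 1 := by rw [← mul_pow]; norm_num
          calc (2 : ℝ) ^ L / 16 = 1 * (2 ^ L * (1 / 2) ^ 4) := by ring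
            _ = ((1 / 2 : ℝ) ^ L * 2 ^ L) * (2 ^ L * (1 / 2) ^ 4) := by rw [h6]
            _ = _ := by ring
      _ ≤ _ := mul_le_mul_of_nonneg_left h3' (by positivity)
  have h5 : bet k ≤ Real.exp (1 / 2) * Real.exp (-(b / 32)) := by
    unfold bet
    rw [← Real.exp_add, Real.exp_le_exp]
    linarith
  have h6 := Real.pow_div_factorial_le_exp (b / 32) (by positivity) 8
  have h7 : Real.exp (-(b / 32)) ≤ Nat.factorial 8 * 32 ^ 8 / b ^ 8 := by
    rw [Real.exp_neg]
    have h8 : 0 < (b / 32) ^ 8 / (Nat.factorial 8 : ℝ) := by positivity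
    refine (inv_anti₀ h8 h6).trans (le_of_eq ?_)
    field_simp
  have h8 : (k : ℝ) ^ 2 / 256 ≤ b ^ 8 := by
    have h9 : (k : ℝ) < 16 ^ (L + 1) := by exact_mod_cast h2
    have h10 : (16 : ℝ) ^ (L + 1) = 16 * b ^ 4 := by
      rw [hb, pow_succ, ← pow_mul, mul_comm L 4, pow_mul]
      norm_num
      ring
    rw [h10] at h9
    have h11 : (0 : ℝ) ≤ k := Nat.cast_nonneg _
    have h12 : (k : ℝ) ^ 2 ≤ (16 * b ^ 4) ^ 2 := pow_le_pow_left₀ h11 h9.le 2
    calc (k : ℝ) ^ 2 / 256 ≤ (16 * b ^ 4) ^ 2 / 256 := by linarith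
      _ = b ^ 8 := by ring
  have hkpos : (0 : ℝ) < k := by exact_mod_cast hk
  have h9 : Nat.factorial 8 * 32 ^ 8 / b ^ 8 ≤
      (Nat.factorial 8 * 32 ^ 8 * 256 : ℝ) * (1 / (k : ℝ) ^ 2) := by
    have h10 : 0 < (k : ℝ) ^ 2 / 256 := by positivity
    calc (Nat.factorial 8 * 32 ^ 8 / b ^ 8 : ℝ) ≤
          Nat.factorial 8 * 32 ^ 8 / ((k : ℝ) ^ 2 / 256) :=
          div_le_div_of_nonneg_left (by positivity) h10 h8
      _ = _ := by field_simp
  calc bet k ≤ Real.exp (1 / 2) * Real.exp (-(b / 32)) := h5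
    _ ≤ Real.exp (1 / 2) * ((Nat.factorial 8 * 32 ^ 8 * 256 : ℝ) * (1 / (k : ℝ) ^ 2)) :=
        mul_le_mul_of_nonneg_left (h7.trans h9) (Real.exp_pos _).le
    _ = _ := by ring

lemma summable_bet : Summable bet := by
  rw [← summable_nat_add_iff 1]
  have h1 : Summable (fun k : ℕ => (Real.exp (1 / 2) * (Nat.factorial 8 * 32 ^ 8 * 256)) *
      (1 / (((k + 1 : ℕ)) : ℝ) ^ 2)) := by
    refine Summable.mul_left _ ?_
    exact (summable_nat_add_iff 1).mpr (Real.summable_one_div_nat_pow.mpr (by norm_num))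
  refine Summable.of_nonneg_of_le (fun k => (bet_pos _).le) (fun k => bet_le (k + 1) (by omega)) h1

lemma geom_weight (t n : ℕ) :
    ∑ i ∈ Finset.range n, 2 ^ i * ((nn i : ℝ) * (if t ≤ i then 0 else 1)) ≤
      if t = 0 then 0 else 2 * 2 ^ t := by
  split_ifs with ht
  · subst ht
    refine Finset.sum_nonpos (fun i _ => ?_)
    simp
  · have h1 : ∀ i, 2 ^ i * ((nn i : ℝ) * (if t ≤ i then 0 else 1)) ≤
        2 ^ i * (2 * (if t ≤ i then 0 else 1)) := by
      intro i
      have h2 : (nn i : ℝ) ≤ 2 := by exact_mod_cast nn_le_two i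
      split_ifs
      · simp
      · simp only [mul_one]
        exact mul_le_mul_of_nonneg_left h2 (by positivity)
    have h3 : ∑ i ∈ Finset.range n, 2 ^ i * ((nn i : ℝ) * (if t ≤ i then 0 else 1)) ≤
        ∑ i ∈ Finset.range (t + n), 2 ^ i * (2 * (if t ≤ i then (0 : ℝ) else 1)) := by
      refine (Finset.sum_le_sum (fun i _ => h1 i)).trans ?_
      refine Finset.sum_le_sum_of_subset_of_nonneg ?_ (fun i _ _ => ?_)
      · exact Finset.range_subset_range.mpr (by omega)
      · split_ifs <;> positivity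
    refine h3.trans ?_
    rw [Finset.sum_range_add (fun i => 2 ^ i * (2 * (if t ≤ i then (0 : ℝ) else 1))) t n]
    have h4 : ∑ x ∈ Finset.range n, 2 ^ (t + x) * (2 * (if t ≤ t + x then (0 : ℝ) else 1)) = 0 := by
      refine Finset.sum_eq_zero (fun x _ => ?_)
      simp
    rw [h4, add_zero]
    have h5 : ∑ x ∈ Finset.range t, 2 ^ x * (2 * (if t ≤ x then (0 : ℝ) else 1)) =
        2 * ∑ x ∈ Finset.range t, (2 : ℝ) ^ x := by
      rw [Finset.mul_sum]
      refine Finset.sum_congr rfl (fun x hx => ?_)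
      rw [Finset.mem_range] at hx
      rw [if_neg (by omega)]
      ring
    rw [h5, geom_sum_eq (by norm_num)]
    have : (0 : ℝ) < 2 ^ t := by positivity
    linarith

lemma bad_bound (n : ℕ) :
    ∑ v ∈ FF n [], nu.real {s | ¬ (0 ≤ s ∧ s ≤ 2 ^ (lev v))} ≤ 1 / 4 := by
  have hS : ∀ j : ℕ, MeasurableSet {s : ℝ | ¬ (0 ≤ s ∧ s ≤ 2 ^ j)} := fun j =>
    (measurableSet_Icc (a := (0:ℝ)) (b := 2 ^ j)).compl
  have h1 : ∀ j : ℕ, HasSum (fun l => pp l * (if tt l ≤ j then 0 else 1))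
      (nu.real {s | ¬ (0 ≤ s ∧ s ≤ 2 ^ j)}) := by
    intro j
    have h2 := hasSum_nu ({s : ℝ | ¬ (0 ≤ s ∧ s ≤ 2 ^ j)}.indicator (fun _ => (1 : ℝ)))
      (by
        rw [Set.indicator_of_notMem]
        simp)
      (summable_pp_mul_bdd
        (fun l => ({s : ℝ | ¬ (0 ≤ s ∧ s ≤ 2 ^ j)}.indicator (fun _ => (1 : ℝ))) (aa l)) 1
        (fun l => by
          by_cases h : aa l ∈ {s : ℝ | ¬ (0 ≤ s ∧ s ≤ 2 ^ j)}
          · rw [Set.indicator_of_mem h]; simp
          · rw [Set.indicator_of_notMem h]; simp))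
    rw [integral_indicator_const _ (hS j)] at h2
    simp only [smul_eq_mul, mul_one] at h2
    have e : (fun l => pp l *
        ({s : ℝ | ¬ (0 ≤ s ∧ s ≤ 2 ^ j)}.indicator (fun _ => (1 : ℝ))) (aa l)) =
        (fun l => pp l * (if tt l ≤ j then 0 else 1)) := by
      funext l
      by_cases h : tt l ≤ j
      · rw [if_pos h, Set.indicator_of_notMem]
        have := (aa_le_iff j l).mpr h
        simp [this, (aa_pos l).le]
      · rw [if_neg h, Set.indicator_of_mem]
        have := mt (aa_le_iff j l).mp h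
        simp only [Set.mem_ofPred_eq]
        rintro ⟨_, h3⟩
        exact this h3
    rw [e] at h2
    exact h2
  have h2 := sum_FF_lev (fun j => nu.real {s | ¬ (0 ≤ s ∧ s ≤ 2 ^ j)}) n []
  rw [h2]
  simp only [List.length_nil, zero_add]
  have h3 : HasSum (fun l => ∑ i ∈ Finset.range n, 2 ^ i * ((nn i : ℝ) *
      (pp l * (if tt l ≤ i then 0 else 1))))
      (∑ i ∈ Finset.range n, 2 ^ i * ((nn i : ℝ) * nu.real {s | ¬ (0 ≤ s ∧ s ≤ 2 ^ i)})) :=
    hasSum_sum (fun i _ => ((h1 i).mul_left _).mul_left _)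
  have h4 : HasSum (fun l : ℕ => if l = 0 then (0 : ℝ) else 2 * qq l) (1 / 4) := by
    rw [← hasSum_nat_add_iff' 1]
    have h5 := hasSum_qq_tail.mul_left 2
    have e2 : (1 / 4 : ℝ) - ∑ i ∈ Finset.range 1, (if i = 0 then (0 : ℝ) else 2 * qq i) =
        2 * (1 / 8) := by
      simp; norm_num
    rw [e2]
    simpa using h5
  refine hasSum_le (fun l => ?_) h3 h4
  have h5 : ∑ i ∈ Finset.range n, 2 ^ i * ((nn i : ℝ) * (pp l * (if tt l ≤ i then 0 else 1))) =
      pp l * ∑ i ∈ Finset.range n, 2 ^ i * ((nn i : ℝ) * (if tt l ≤ i then 0 else 1)) := by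
    rw [Finset.mul_sum]
    refine Finset.sum_congr rfl (fun i _ => by ring)
  rw [h5]
  have h6 := mul_le_mul_of_nonneg_left (geom_weight (tt l) n) (pp_pos l).le
  refine h6.trans ?_
  cases l with
  | zero => simp [tt]
  | succ l =>
    have h7 : tt (l + 1) ≠ 0 := by simp [tt]
    rw [if_neg h7, if_neg (Nat.succ_ne_zero l)]
    have h8 := pp_mul_aa (l + 1)
    unfold aa at h8
    linarith

theorem sandpile_counterexample : ¬ ∀ᵐ σ ∂(PP nu), ¬ HasOdo σ := by
  refine not_ae_explode nu nu_neg mmv (fun j => rfl) gam (fun k j _ => laplace_bound k j) bet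
    exponent_bound (∑' k, bet k) (summable_bet.tsum_pos (fun k => (bet_pos k).le) 0 (bet_pos 0))
    (fun n => summable_bet.sum_le_tsum _ (fun k _ => (bet_pos k).le)) bad_bound

end Pool.Agent.H96.Sand
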