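import Pool.Agent.H96.SandMain

set_option autoImplicit false

open MeasureTheory ProbabilityTheory

namespace Pool.Agent.H96.Sand

/-- exponents of the atoms -/
def tt : ℕ → ℕ
  | 0 => 0
  | (l + 1) => 256 ^ (l + 1)

/-- contributions of the atoms to the mean -/
noncomputable def qq : ℕ → ℝ
  | 0 => 7 / 8
  | (l + 1) => (1 / 2) ^ (l + 4)

/-- location of the atoms -/
noncomputable def aa (l : ℕ) : ℝ := 2 ^ (tt l)

/-- masses of the atoms -/
noncomputable def pp (l : ℕ) : ℝ := qq l / aa l

lemma qq_pos (l : ℕ) : 0 < qq l := by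
  cases l with
  | zero => norm_num [qq]
  | succ l => simp only [qq]; positivity

lemma aa_pos (l : ℕ) : 0 < aa l := by unfold aa; positivity

lemma one_le_aa (l : ℕ) : 1 ≤ aa l := by
  unfold aa
  exact one_le_pow₀ (by norm_num)

lemma pp_pos (l : ℕ) : 0 < pp l := div_pos (qq_pos l) (aa_pos l)

lemma pp_mul_aa (l : ℕ) : pp l * aa l = qq l := by
  unfold pp
  exact div_mul_cancel₀ _ (aa_pos l).ne'

lemma pp_le_qq (l : ℕ) : pp l ≤ qq l := div_le_self (qq_pos l).le (one_le_aa l)

lemma hasSum_qq_tail : HasSum (fun l => qq (l + 1)) (1 / 8) := by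
  have h := hasSum_geometric_two.mul_left (1 / 16 : ℝ)
  have e : (fun l => qq (l + 1)) = fun l : ℕ => (1 / 16 : ℝ) * (1 / 2) ^ l := by
    funext l
    simp only [qq]
    rw [pow_add]
    norm_num
    ring
  rw [e, show (1 / 8 : ℝ) = 1 / 16 * 2 by norm_num]
  exact h

lemma hasSum_qq : HasSum qq 1 := by
  rw [← hasSum_nat_add_iff' 1]
  simp only [Finset.sum_range_one]
  have : (1 : ℝ) - qq 0 = 1 / 8 := by norm_num [qq]
  rw [this]
  exact hasSum_qq_tail

lemma summable_pp : Summable pp :=
  Summable.of_nonneg_of_le (fun l => (pp_pos l).le) pp_le_qq hasSum_qq.summable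

lemma tsum_pp_le : ∑' l, pp l ≤ 1 := by
  rw [← hasSum_qq.tsum_eq]
  exact Summable.tsum_le_tsum pp_le_qq summable_pp hasSum_qq.summable

/-- the purely atomic part of the law -/
noncomputable def nu1 : Measure ℝ :=
  Measure.sum (fun l => ENNReal.ofReal (pp l) • Measure.dirac (aa l))

/-- the law of the masses -/
noncomputable def nu : Measure ℝ :=
  ENNReal.ofReal (1 - ∑' l, pp l) • Measure.dirac 0 + nu1

lemma integrable_nu1 (f : ℝ → ℝ) (hf : Summable (fun l => pp l * |f (aa l)|)) :
    Integrable f nu1 := by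
  unfold nu1
  refine integrable_sum_measure (fun l => ?_) ?_
  · exact (integrable_dirac (by simp)).smul_measure (by simp)
  · refine hf.congr (fun l => ?_)
    rw [integral_smul_measure, integral_dirac, ENNReal.toReal_ofReal (pp_pos l).le]
    simp

lemma hasSum_nu1 (f : ℝ → ℝ) (hf : Summable (fun l => pp l * |f (aa l)|)) :
    HasSum (fun l => pp l * f (aa l)) (∫ s, f s ∂nu1) := by
  have h := hasSum_integral_measure (integrable_nu1 f hf)
  have e : (fun l => ∫ s, f s ∂(ENNReal.ofReal (pp l) • Measure.dirac (aa l))) =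
      fun l => pp l * f (aa l) := by
    funext l
    rw [integral_smul_measure, integral_dirac, ENNReal.toReal_ofReal (pp_pos l).le]
    simp
  rw [e] at h
  exact h

lemma integrable_nu (f : ℝ → ℝ) (hf : Summable (fun l => pp l * |f (aa l)|)) :
    Integrable f nu := by
  unfold nu
  refine Integrable.add_measure ?_ (integrable_nu1 f hf)
  exact (integrable_dirac (by simp)).smul_measure (by simp)

lemma integral_nu (f : ℝ → ℝ) (hf : Summable (fun l => pp l * |f (aa l)|)) :
    ∫ s, f s ∂nu = (1 - ∑' l, pp l) * f 0 + ∑' l, pp l * f (aa l) := by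
  unfold nu
  rw [integral_add_measure ((integrable_dirac (by simp)).smul_measure (by simp))
    (integrable_nu1 f hf), (hasSum_nu1 f hf).tsum_eq, integral_smul_measure, integral_dirac,
    ENNReal.toReal_ofReal (by linarith [tsum_pp_le])]
  simp

/-- the integral of a function vanishing at zero -/
lemma hasSum_nu (f : ℝ → ℝ) (h0 : f 0 = 0) (hf : Summable (fun l => pp l * |f (aa l)|)) :
    HasSum (fun l => pp l * f (aa l)) (∫ s, f s ∂nu) := by
  rw [integral_nu f hf, h0, mul_zero, zero_add]
  exact ((hasSum_nu1 f hf).summable).hasSum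

instance : IsProbabilityMeasure nu := by
  constructor
  unfold nu nu1
  rw [Measure.add_apply, Measure.sum_apply _ MeasurableSet.univ]
  simp only [Measure.smul_apply, measure_univ, smul_eq_mul, mul_one]
  rw [← ENNReal.ofReal_tsum_of_nonneg (fun l => (pp_pos l).le) summable_pp,
    ← ENNReal.ofReal_add (by linarith [tsum_pp_le]) (tsum_nonneg (fun l => (pp_pos l).le))]
  simp

lemma summable_pp_mul_bdd (g : ℕ → ℝ) (C : ℝ) (hg : ∀ l, |g l| ≤ C) :
    Summable (fun l => pp l * |g l|) := by
  refine Summable.of_nonneg_of_le (fun l => mul_nonneg (pp_pos l).le (abs_nonneg _))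
    (fun l => mul_le_mul_of_nonneg_left (hg l) (pp_pos l).le) (summable_pp.mul_right C)

lemma summable_pp_mul_aa : Summable (fun l => pp l * |aa l|) := by
  refine hasSum_qq.summable.congr (fun l => ?_)
  rw [abs_of_pos (aa_pos l), pp_mul_aa]

lemma integrable_id_nu : Integrable (fun t : ℝ => t) nu :=
  integrable_nu (fun t => t) summable_pp_mul_aa

lemma integral_id_nu : ∫ t, t ∂nu = 1 := by
  have h := hasSum_nu (fun t => t) rfl summable_pp_mul_aa
  have e : (fun l => pp l * aa l) = qq := by
    funext l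
    exact pp_mul_aa l
  rw [e] at h
  exact h.unique hasSum_qq

lemma not_integrable_sq_nu : ¬ Integrable (fun t : ℝ => t ^ 2) nu := by
  intro h
  unfold nu at h
  have h1 : Integrable (fun t : ℝ => t ^ 2) nu1 := h.right_of_add_measure
  unfold nu1 at h1
  have h2 := (hasSum_integral_measure h1).summable
  have h3 := h2.tendsto_atTop_zero
  have h4 : ∀ l, 1 / 2 ≤ ∫ t, t ^ 2 ∂(ENNReal.ofReal (pp l) • Measure.dirac (aa l)) := by
    intro l
    rw [integral_smul_measure, integral_dirac, ENNReal.toReal_ofReal (pp_pos l).le]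
    have e : pp l • aa l ^ 2 = qq l * aa l := by
      rw [smul_eq_mul, pow_two, ← mul_assoc, pp_mul_aa]
    rw [e]
    cases l with
    | zero => simp [qq, aa, tt]; norm_num
    | succ l =>
      have h5 : l + 4 ≤ 256 ^ (l + 1) := by
        have h6 : l < 256 ^ l := Nat.lt_pow_self (by norm_num)
        rw [pow_succ]
        omega
      have h7 : (2 : ℝ) ^ (l + 4) ≤ 2 ^ (256 ^ (l + 1)) := pow_le_pow_right₀ (by norm_num) h5
      simp only [qq, aa, tt]
      have h8 : (1 / 2 : ℝ) ^ (l + 4) * 2 ^ (l + 4) = 1 := by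
        rw [← mul_pow]; norm_num
      have h9 : (1 / 2 : ℝ) ^ (l + 4) * 2 ^ (l + 4) ≤ (1 / 2 : ℝ) ^ (l + 4) * 2 ^ (256 ^ (l + 1)) :=
        mul_le_mul_of_nonneg_left h7 (by positivity)
      linarith
  have h5 := ge_of_tendsto' h3 h4
  norm_num at h5

lemma nu_neg : nu {s | s < 0} = 0 := by
  unfold nu nu1
  have hm : MeasurableSet {s : ℝ | s < 0} := measurableSet_Iio
  rw [Measure.add_apply, Measure.sum_apply _ hm]
  simp only [Measure.smul_apply, Measure.dirac_apply' _ hm, smul_eq_mul]
  have : ∀ l, ({s : ℝ | s < 0}.indicator (1 : ℝ → ENNReal)) (aa l) = 0 := by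
    intro l
    rw [Set.indicator_of_notMem]
    simp [(aa_pos l).le]
  simp [this]

end Pool.Agent.H96.Sand
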