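import Pool.Agent.H96.SandProb

set_option autoImplicit false

open MeasureTheory ProbabilityTheory

namespace Pool.Agent.H96.Sand

/-- the sandpile with masses `σ` has an odometer -/
def HasOdo (σ : VT → ℝ) : Prop :=
  ∃ u : VT → ℝ, (∀ v, 0 ≤ u v) ∧
    ∀ v, σ v + (∑ y ∈ GT.neighborFinset v, u y / (GT.degree y : ℝ)) - u v ≤ 1

theorem not_ae_explode (ν : Measure ℝ) [IsProbabilityMeasure ν]
    (hneg : ν {s | s < 0} = 0)
    (mm : ℕ → ℝ) (hmm : ∀ j, ∫ s, chi j s ∂ν = mm j)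
    (γ : ℕ → ℕ → ℝ)
    (hγ : ∀ k j, k ≤ j →
      ∫ s, Real.exp (-(2 ^ k * (1 / 2) ^ (j + 1) * chi j s)) ∂ν ≤ Real.exp (-(γ k j)))
    (β : ℕ → ℝ)
    (hβ : ∀ n k, k ≤ n → Real.exp (-(hh mm n k) -
        ∑ i ∈ Finset.range (n - k), 2 ^ i * ((nn (k + i) : ℝ) * γ k (k + i))) ≤ β k)
    (K₀ : ℝ) (hK₀ : 0 < K₀) (hsum : ∀ n, ∑ k ∈ Finset.range n, β k ≤ K₀)
    (hbad : ∀ n, ∑ v ∈ FF n [], ν.real {s | ¬ (0 ≤ s ∧ s ≤ 2 ^ (lev v))} ≤ 1 / 4) :
    ¬ ∀ᵐ σ ∂(PP ν), ¬ HasOdo σ := by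
  intro hexp
  -- the first step: at each horizon the minimal solution is bounded with probability `1/2`
  have hstep : ∀ n : ℕ, (PP ν).real {σ | 4 * K₀ < wl σ n []} ≤ 1 / 2 := by
    intro n
    have hint : Integrable (fun σ => w0 mm n [] σ + CC mm n n [] σ) (PP ν) :=
      (integrable_w0 ν mm n []).add (integrable_CC ν mm n n [])
    have hle : ∫ σ, (w0 mm n [] σ + CC mm n n [] σ) ∂(PP ν) ≤ K₀ := by
      rw [integral_add (integrable_w0 ν mm n []) (integrable_CC ν mm n n []),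
        integral_w0_root ν mm hmm n, zero_add]
      have h1 := integral_CC_le ν mm n β (fun x hx =>
        (integral_exp_w0_le ν mm γ hγ n x).trans (hβ n x.length hx)) n [] (by simp)
      refine h1.trans ?_
      simpa using hsum (n + 1)
    have hmark := mul_meas_ge_le_integral_of_nonneg (μ := PP ν)
      (f := fun σ => w0 mm n [] σ + CC mm n n [] σ)
      (Filter.Eventually.of_forall (fun σ =>
        le_trans zero_le_one (one_le_w0_add_CC mm n n σ []))) hint (4 * K₀)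
    have h2 : (PP ν).real {σ | 4 * K₀ ≤ w0 mm n [] σ + CC mm n n [] σ} ≤ 1 / 4 := by
      have h3 := hmark.trans hle
      have h4 : 4 * K₀ * (PP ν).real {σ | 4 * K₀ ≤ w0 mm n [] σ + CC mm n n [] σ} ≤ K₀ := h3
      nlinarith [h4, hK₀]
    have h5 : (PP ν).real (⋃ v ∈ FF n [], {σ : VT → ℝ | ¬ (0 ≤ σ v ∧ σ v ≤ 2 ^ (lev v))})
        ≤ 1 / 4 := by
      refine (measureReal_biUnion_finset_le _ _).trans (le_trans (le_of_eq ?_) (hbad n))
      refine Finset.sum_congr rfl ?_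
      intro v _
      have h6 := Measure.infinitePi_map_eval (fun _ : VT => ν) v
      have h7 : MeasurableSet {s : ℝ | ¬ (0 ≤ s ∧ s ≤ 2 ^ (lev v))} :=
        (measurableSet_Icc (a := (0:ℝ)) (b := 2 ^ (lev v))).compl
      conv_rhs => rw [← h6]
      rw [measureReal_def, measureReal_def, Measure.map_apply (measurable_pi_apply v) h7]
      rfl
    have hsub : {σ | 4 * K₀ < wl σ n []} ⊆
        {σ | 4 * K₀ ≤ w0 mm n [] σ + CC mm n n [] σ} ∪
        (⋃ v ∈ FF n [], {σ : VT → ℝ | ¬ (0 ≤ σ v ∧ σ v ≤ 2 ^ (lev v))}) := by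
      intro σ hσ
      by_cases hg : ∀ v ∈ FF n [], 0 ≤ σ v ∧ σ v ≤ 2 ^ (lev v)
      · left
        have := wl_le_super mm n σ n [] (by simp) hg
        exact le_trans (le_of_lt hσ) this
      · right
        push Not at hg
        obtain ⟨v, hv, hv2⟩ := hg
        simp only [Set.mem_iUnion]
        refine ⟨v, hv, ?_⟩
        simp only [Set.mem_ofPred_eq]
        intro h
        exact absurd h.2 (not_le.mpr (hv2 h.1))
    calc (PP ν).real {σ | 4 * K₀ < wl σ n []} ≤ _ := measureReal_mono hsub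
      _ ≤ _ := measureReal_union_le _ _
      _ ≤ 1 / 4 + 1 / 4 := add_le_add h2 h5
      _ = 1 / 2 := by norm_num
  -- the union over all horizons
  have hmono : Monotone (fun n : ℕ => {σ : VT → ℝ | 4 * K₀ < wl σ n []}) := by
    intro a b hab σ hσ
    exact lt_of_lt_of_le hσ (wl_mono σ [] hab)
  have hU : (PP ν) (⋃ n, {σ : VT → ℝ | 4 * K₀ < wl σ n []}) ≤ ENNReal.ofReal (1 / 2) := by
    rw [hmono.measure_iUnion]
    refine iSup_le (fun n => ?_)
    rw [← ENNReal.ofReal_toReal (measure_ne_top (PP ν) _)]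
    exact ENNReal.ofReal_le_ofReal (hstep n)
  -- almost surely all masses are nonnegative
  have hpos : ∀ᵐ σ ∂(PP ν), ∀ v : VT, 0 ≤ σ v := by
    rw [ae_all_iff]
    intro v
    have h6 := Measure.infinitePi_map_eval (fun _ : VT => ν) v
    have h7 : ∀ᵐ s ∂ν, 0 ≤ s := by
      rw [ae_iff]
      simpa using hneg
    rw [← h6] at h7
    exact ae_of_ae_map (measurable_pi_apply v).aemeasurable h7
  have hae : ∀ᵐ σ ∂(PP ν), σ ∈ ⋃ n, {σ : VT → ℝ | 4 * K₀ < wl σ n []} := by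
    filter_upwards [hexp, hpos] with σ h1 h2
    by_contra hcon
    rw [Set.mem_iUnion] at hcon
    push Not at hcon
    refine h1 (exists_odometer_of_bdd σ h2 (4 * K₀) (fun n => ?_))
    have := hcon n
    simpa using this
  have hone : 1 ≤ (PP ν) (⋃ n, {σ : VT → ℝ | 4 * K₀ < wl σ n []}) := by
    rw [← measure_univ (μ := PP ν)]
    exact measure_mono_ae (hae.mono (fun σ h _ => h))
  have : ENNReal.ofReal (1 / 2) < 1 := by
    rw [ENNReal.ofReal_lt_one]
    norm_num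
  exact absurd (hone.trans hU) (not_le.mpr this)

end Pool.Agent.H96.Sand
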