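import Pool.Agent.H96.SandTree

set_option autoImplicit false

namespace Pool.Agent.H96.Sand

/-- potential on the nodes built from a directed supersolution `w` -/
noncomputable def uN (w : List Bool → ℝ) : List Bool → ℝ
  | [] => 2 * w []
  | (b :: x) => w (b :: x) + uN w x / 2

/-- potential on all vertices -/
noncomputable def uV (w : List Bool → ℝ) (σ : VT → ℝ) : VT → ℝ
  | Sum.inl x => uN w x
  | Sum.inr p => uN w p.1 + σ (Sum.inr p) - 1

/-- total excess mass of the vertices at node `x` -/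
noncomputable def xiHat (σ : VT → ℝ) (x : List Bool) : ℝ :=
  (σ (Sum.inl x) - 1) + ∑ i : Fin (rr x.length), (σ (Sum.inr ⟨x, i⟩) - 1)

lemma uN_ge_one (w : List Bool → ℝ) (hw : ∀ x, 1 ≤ w x) (x : List Bool) : 1 ≤ uN w x := by
  induction x with
  | nil => simp only [uN]; linarith [hw []]
  | cons b x ih => simp only [uN]; linarith [hw (b :: x)]

lemma exists_odometer (σ : VT → ℝ) (hσ : ∀ v, 0 ≤ σ v) (w : List Bool → ℝ)
    (hw : ∀ x, 1 ≤ w x)
    (hrec : ∀ x, (xiHat σ x + w (true :: x) + w (false :: x)) / 2 ≤ w x) :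
    ∃ u : VT → ℝ, (∀ v, 0 ≤ u v) ∧
      ∀ v, σ v + (∑ y ∈ GT.neighborFinset v, u y / (GT.degree y : ℝ)) - u v ≤ 1 := by
  refine ⟨fun v => (GT.degree v : ℝ) * uV w σ v, ?_, ?_⟩
  · intro v
    refine mul_nonneg (degree_pos v).le ?_
    rcases v with x | p
    · exact le_trans zero_le_one (uN_ge_one w hw x)
    · simp only [uV]
      linarith [uN_ge_one w hw p.1, hσ (Sum.inr p)]
  · intro v
    have h1 : ∑ y ∈ GT.neighborFinset v, ((GT.degree y : ℝ) * uV w σ y) / (GT.degree y : ℝ)
        = ∑ y ∈ GT.neighborFinset v, uV w σ y := by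
      refine Finset.sum_congr rfl ?_
      intro y _
      have := (degree_pos y).ne'
      field_simp
    show σ v + (∑ y ∈ GT.neighborFinset v,
      ((GT.degree y : ℝ) * uV w σ y) / (GT.degree y : ℝ)) - (GT.degree v : ℝ) * uV w σ v ≤ 1
    rw [h1]
    rcases v with x | p
    · rw [sum_nb_node, degree_node]
      have hx := hrec x
      have hleaf : ∑ i : Fin (rr x.length), uV w σ (Sum.inr ⟨x, i⟩)
          = (rr x.length : ℝ) * uN w x + ∑ i : Fin (rr x.length), (σ (Sum.inr ⟨x, i⟩) - 1) := by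
        have : ∀ i : Fin (rr x.length), uV w σ (Sum.inr ⟨x, i⟩)
            = uN w x + (σ (Sum.inr ⟨x, i⟩) - 1) := by
          intro i
          simp only [uV]
          ring
        simp_rw [this]
        rw [Finset.sum_add_distrib]
        simp
      rw [hleaf]
      unfold xiHat at hx
      cases x with
      | nil =>
        simp only [parSum, uV, uN] at *
        nlinarith [hx]
      | cons b y =>
        simp only [parSum, uV, uN] at *
        nlinarith [hx]
    · rw [sum_nb_leaf, degree_leaf]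
      simp only [uV]
      linarith

/-- the minimal finite-horizon solution of the directed recursion -/
noncomputable def wl (σ : VT → ℝ) : ℕ → List Bool → ℝ
  | 0, _ => 1
  | (m + 1), x => max 1 ((xiHat σ x + wl σ m (true :: x) + wl σ m (false :: x)) / 2)

lemma one_le_wl (σ : VT → ℝ) (m : ℕ) (x : List Bool) : 1 ≤ wl σ m x := by
  cases m with
  | zero => simp [wl]
  | succ m => simp [wl]

lemma wl_le_succ (σ : VT → ℝ) (m : ℕ) : ∀ x : List Bool, wl σ m x ≤ wl σ (m + 1) x := by
  induction m with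
  | zero =>
    intro x
    exact le_trans (by simp [wl]) (one_le_wl σ 1 x)
  | succ m ih =>
    intro x
    have h1 := ih (true :: x)
    have h2 := ih (false :: x)
    show max 1 ((xiHat σ x + wl σ m (true :: x) + wl σ m (false :: x)) / 2) ≤
      max 1 ((xiHat σ x + wl σ (m+1) (true :: x) + wl σ (m+1) (false :: x)) / 2)
    refine max_le_max le_rfl ?_
    linarith

lemma wl_mono (σ : VT → ℝ) (x : List Bool) : Monotone (fun m => wl σ m x) :=
  monotone_nat_of_le_succ (fun m => wl_le_succ σ m x)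

lemma wl_rec_le (σ : VT → ℝ) (m : ℕ) (x : List Bool) :
    (xiHat σ x + wl σ m (true :: x) + wl σ m (false :: x)) / 2 ≤ wl σ (m + 1) x :=
  le_max_right _ _

lemma wl_bdd (σ : VT → ℝ) (K : ℝ) (hK : ∀ n, wl σ n [] ≤ K) :
    ∀ x, ∃ K', ∀ n, wl σ n x ≤ K' := by
  intro x
  induction x with
  | nil => exact ⟨K, hK⟩
  | cons b x ih =>
    obtain ⟨K', hK'⟩ := ih
    refine ⟨2 * K' - xiHat σ x, fun n => ?_⟩
    have h1 := wl_rec_le σ n x
    have h2 := hK' (n + 1)
    have h3 := one_le_wl σ n (true :: x)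
    have h4 := one_le_wl σ n (false :: x)
    cases b <;> linarith

/-- If the minimal solutions stay bounded at the root then the sandpile has an odometer. -/
lemma exists_odometer_of_bdd (σ : VT → ℝ) (hσ : ∀ v, 0 ≤ σ v) (K : ℝ)
    (hK : ∀ n, wl σ n [] ≤ K) :
    ∃ u : VT → ℝ, (∀ v, 0 ≤ u v) ∧
      ∀ v, σ v + (∑ y ∈ GT.neighborFinset v, u y / (GT.degree y : ℝ)) - u v ≤ 1 := by
  have hb : ∀ x, BddAbove (Set.range (fun n => wl σ n x)) := by
    intro x
    obtain ⟨K', hK'⟩ := wl_bdd σ K hK x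
    refine ⟨K', ?_⟩
    rintro _ ⟨n, rfl⟩
    exact hK' n
  refine exists_odometer σ hσ (fun x => ⨆ n, wl σ n x) ?_ ?_
  · intro x
    exact le_trans (one_le_wl σ 0 x) (le_ciSup (hb x) 0)
  · intro x
    have ht : Filter.Tendsto (fun n => wl σ n (true :: x)) Filter.atTop
        (nhds (⨆ n, wl σ n (true :: x))) := tendsto_atTop_ciSup (wl_mono σ _) (hb _)
    have hf : Filter.Tendsto (fun n => wl σ n (false :: x)) Filter.atTop
        (nhds (⨆ n, wl σ n (false :: x))) := tendsto_atTop_ciSup (wl_mono σ _) (hb _)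
    have hlim : Filter.Tendsto
        (fun n => (xiHat σ x + wl σ n (true :: x) + wl σ n (false :: x)) / 2) Filter.atTop
        (nhds ((xiHat σ x + (⨆ n, wl σ n (true :: x)) + (⨆ n, wl σ n (false :: x))) / 2)) :=
      ((tendsto_const_nhds.add ht).add hf).div_const 2
    refine le_of_tendsto hlim ?_
    refine Filter.Eventually.of_forall (fun n => ?_)
    exact le_trans (wl_rec_le σ n x) (le_ciSup (hb x) (n + 1))

end Pool.Agent.H96.Sand
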