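import Pool.Agent.H96.SandSub

set_option autoImplicit false

open MeasureTheory ProbabilityTheory

namespace Pool.Agent.H96.Sand

lemma integral_coord {ι : Type*} (ν : Measure ℝ) [IsProbabilityMeasure ν] (i : ι)
    (g : ℝ → ℝ) (hg : Measurable g) :
    ∫ σ, g (σ i) ∂(Measure.infinitePi (fun _ : ι => ν)) = ∫ s, g s ∂ν := by
  have h := Measure.infinitePi_map_eval (fun _ : ι => ν) i
  conv_rhs => rw [← h]
  rw [integral_map (measurable_pi_apply i).aemeasurable hg.aestronglyMeasurable]

lemma integral_prod_coord {ι : Type*} (ν : Measure ℝ) [IsProbabilityMeasure ν]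
    (F : Finset ι) (g : ι → ℝ → ℝ) (hg : ∀ i, Measurable (g i)) :
    ∫ σ, ∏ i ∈ F, g i (σ i) ∂(Measure.infinitePi (fun _ : ι => ν)) =
      ∏ i ∈ F, ∫ s, g i s ∂ν := by
  have h1 : iIndepFun (fun (i : ι) (ω : ι → ℝ) => (ω i)) (Measure.infinitePi (fun _ : ι => ν)) :=
    iIndepFun_infinitePi (P := fun _ : ι => ν) (X := fun _ x => x) (fun _ => measurable_id)
  have h2 := h1.precomp (g := fun i : F => (i : ι)) Subtype.val_injective
  have h3 := iIndepFun.integral_fun_prod_comp (f := fun i : F => g i) h2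
    (fun i => (measurable_pi_apply (i : ι)).aemeasurable) (fun i => (hg i).aestronglyMeasurable)
  have h4 : ∀ σ : ι → ℝ, ∏ i ∈ F, g i (σ i) = ∏ i : F, g i (σ i) := by
    intro σ
    rw [← Finset.prod_coe_sort]
  simp_rw [h4]
  rw [h3, ← Finset.prod_coe_sort F (fun i => ∫ s, g i s ∂ν)]
  refine Finset.prod_congr rfl ?_
  intro i _
  exact integral_coord ν (i : ι) (g i) (hg i)

variable (ν : Measure ℝ) [IsProbabilityMeasure ν]

/-- the product measure on configurations -/
noncomputable abbrev PP : Measure (VT → ℝ) := Measure.infinitePi (fun _ : VT => ν)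

lemma integrable_chi (j : ℕ) : Integrable (chi j) ν := by
  refine Integrable.of_bound (measurable_chi j).aestronglyMeasurable (2 ^ j) ?_
  refine Filter.Eventually.of_forall (fun s => ?_)
  rw [Real.norm_eq_abs, abs_of_nonneg (chi_nonneg j s)]
  exact chi_le j s

lemma measurable_chi_coord (j : ℕ) (v : VT) : Measurable (fun σ : VT → ℝ => chi j (σ v)) :=
  (measurable_chi j).comp (measurable_pi_apply v)

lemma integrable_chi_coord (j : ℕ) (v : VT) :
    Integrable (fun σ : VT → ℝ => chi j (σ v)) (PP ν) := by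
  refine Integrable.of_bound (measurable_chi_coord j v).aestronglyMeasurable (2 ^ j) ?_
  refine Filter.Eventually.of_forall (fun s => ?_)
  rw [Real.norm_eq_abs, abs_of_nonneg (chi_nonneg j _)]
  exact chi_le j _

lemma measurable_WW (m : ℕ) (x : List Bool) : Measurable (WW m x) := by
  unfold WW
  refine Measurable.const_mul ?_ _
  refine Finset.measurable_fun_sum _ (fun v _ => ?_)
  exact (measurable_chi_coord _ v).const_mul _

lemma integrable_WW (m : ℕ) (x : List Bool) : Integrable (WW m x) (PP ν) := by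
  unfold WW
  refine Integrable.const_mul ?_ _
  refine integrable_finsetSum _ (fun v _ => ?_)
  exact (integrable_chi_coord ν _ v).const_mul _

lemma integral_WW (mm : ℕ → ℝ) (hmm : ∀ j, ∫ s, chi j s ∂ν = mm j) (m : ℕ) (x : List Bool) :
    ∫ σ, WW m x σ ∂(PP ν) =
      (1 / 2) * ∑ i ∈ Finset.range m, (nn (x.length + i) : ℝ) * mm (x.length + i) := by
  unfold WW
  rw [integral_const_mul, integral_finsetSum]
  · have h1 : ∀ v : VT, ∫ σ, (1 / 2 : ℝ) ^ (lev v + 1) * chi (lev v) (σ v) ∂(PP ν) =
        (fun j => (1 / 2 : ℝ) ^ (j + 1) * mm j) (lev v) := by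
      intro v
      rw [integral_const_mul]
      have := integral_coord ν v (chi (lev v)) (measurable_chi _)
      rw [this, hmm]
    simp_rw [h1]
    rw [sum_FF_lev (fun j => (1 / 2 : ℝ) ^ (j + 1) * mm j), Finset.mul_sum, Finset.mul_sum]
    refine Finset.sum_congr rfl ?_
    intro i _
    have e : (2 : ℝ) ^ x.length * 2 ^ i * (1 / 2) ^ (x.length + i + 1) = 1 / 2 := by
      rw [← pow_add, pow_succ, ← mul_assoc, ← mul_pow]
      norm_num
    calc (2 : ℝ) ^ x.length * (2 ^ i * ((nn (x.length + i) : ℝ) *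
          ((1 / 2) ^ (x.length + i + 1) * mm (x.length + i))))
        = ((2 : ℝ) ^ x.length * 2 ^ i * (1 / 2) ^ (x.length + i + 1)) *
          ((nn (x.length + i) : ℝ) * mm (x.length + i)) := by ring
      _ = _ := by rw [e]
  · intro v _
    exact (integrable_chi_coord ν _ v).const_mul _

lemma integral_w0_root (mm : ℕ → ℝ) (hmm : ∀ j, ∫ s, chi j s ∂ν = mm j) (n : ℕ) :
    ∫ σ, w0 mm n [] σ ∂(PP ν) = 0 := by
  unfold w0
  rw [integral_add (integrable_const _) (integrable_WW ν _ _), integral_WW ν mm hmm]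
  simp [hh]

lemma measurable_w0 (mm : ℕ → ℝ) (n : ℕ) (x : List Bool) : Measurable (w0 mm n x) := by
  unfold w0
  exact (measurable_WW _ _).const_add _

lemma integrable_w0 (mm : ℕ → ℝ) (n : ℕ) (x : List Bool) : Integrable (w0 mm n x) (PP ν) := by
  unfold w0
  exact (integrable_const _).add (integrable_WW ν _ _)

lemma integrable_exp_w0 (mm : ℕ → ℝ) (n : ℕ) (x : List Bool) :
    Integrable (fun σ => Real.exp (-(w0 mm n x σ))) (PP ν) := by
  refine Integrable.of_bound (by
    exact (Real.measurable_exp.comp (measurable_w0 mm n x).neg).aestronglyMeasurable)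
    (Real.exp (-(hh mm n x.length))) ?_
  refine Filter.Eventually.of_forall (fun σ => ?_)
  rw [Real.norm_eq_abs, abs_of_pos (Real.exp_pos _), Real.exp_le_exp]
  unfold w0
  linarith [WW_nonneg (n - x.length) x σ]

lemma integrable_CC (mm : ℕ → ℝ) (n m : ℕ) : ∀ x : List Bool,
    Integrable (CC mm n m x) (PP ν) := by
  induction m with
  | zero =>
    intro x
    exact integrable_exp_w0 ν mm n x
  | succ m ih =>
    intro x
    exact (integrable_exp_w0 ν mm n x).add (((ih (true :: x)).add (ih (false :: x))).div_const 2)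

lemma integral_CC_le (mm : ℕ → ℝ) (n : ℕ) (β : ℕ → ℝ)
    (hβ : ∀ x : List Bool, x.length ≤ n →
      ∫ σ, Real.exp (-(w0 mm n x σ)) ∂(PP ν) ≤ β x.length) (m : ℕ) :
    ∀ x : List Bool, x.length + m ≤ n →
      ∫ σ, CC mm n m x σ ∂(PP ν) ≤ ∑ i ∈ Finset.range (m + 1), β (x.length + i) := by
  induction m with
  | zero =>
    intro x hx
    simpa [CC] using hβ x hx
  | succ m ih =>
    intro x hx
    have ht := ih (true :: x) (by simp only [List.length_cons]; omega)
    have hf := ih (false :: x) (by simp only [List.length_cons]; omega)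
    have hx0 := hβ x (by omega)
    have e : ∫ σ, CC mm n (m + 1) x σ ∂(PP ν) = ∫ σ, Real.exp (-(w0 mm n x σ)) ∂(PP ν) +
        (∫ σ, CC mm n m (true :: x) σ ∂(PP ν) + ∫ σ, CC mm n m (false :: x) σ ∂(PP ν)) / 2 := by
      simp only [CC]
      have hi : Integrable (fun σ => CC mm n m (true :: x) σ + CC mm n m (false :: x) σ) (PP ν) :=
        (integrable_CC ν mm n m (true :: x)).add (integrable_CC ν mm n m (false :: x))
      have hi2 : Integrable
          (fun σ => (CC mm n m (true :: x) σ + CC mm n m (false :: x) σ) / 2) (PP ν) :=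
        hi.div_const 2
      rw [integral_add (integrable_exp_w0 ν mm n x) hi2, integral_div, integral_add
        (integrable_CC ν mm n m (true :: x)) (integrable_CC ν mm n m (false :: x))]
    rw [e, Finset.sum_range_succ']
    simp only [List.length_cons] at ht hf
    have e2 : ∑ i ∈ Finset.range (m + 1), β (x.length + (i + 1)) =
        ∑ i ∈ Finset.range (m + 1), β (x.length + 1 + i) := by
      refine Finset.sum_congr rfl ?_
      intro i _
      rw [show x.length + (i + 1) = x.length + 1 + i by ring]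
    rw [e2]
    simp only [add_zero]
    linarith

/-- Laplace transform bound. -/
lemma integral_exp_w0_le (mm : ℕ → ℝ) (γ : ℕ → ℕ → ℝ)
    (hγ : ∀ k j, k ≤ j →
      ∫ s, Real.exp (-(2 ^ k * (1 / 2) ^ (j + 1) * chi j s)) ∂ν ≤ Real.exp (-(γ k j)))
    (n : ℕ) (x : List Bool) :
    ∫ σ, Real.exp (-(w0 mm n x σ)) ∂(PP ν) ≤
      Real.exp (-(hh mm n x.length) -
        ∑ i ∈ Finset.range (n - x.length),
          2 ^ i * ((nn (x.length + i) : ℝ) * γ x.length (x.length + i))) := by
  have h1 : ∀ σ : VT → ℝ, Real.exp (-(w0 mm n x σ)) = Real.exp (-(hh mm n x.length)) *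
      ∏ v ∈ FF (n - x.length) x,
        Real.exp (-(2 ^ x.length * (1 / 2) ^ (lev v + 1) * chi (lev v) (σ v))) := by
    intro σ
    rw [← Real.exp_sum, ← Real.exp_add]
    congr 1
    unfold w0 WW
    rw [Finset.sum_neg_distrib, Finset.mul_sum]
    rw [neg_add]
    congr 2
    refine Finset.sum_congr rfl ?_
    intro v _
    ring
  simp_rw [h1]
  rw [integral_const_mul, integral_prod_coord ν (FF (n - x.length) x)
    (fun v s => Real.exp (-(2 ^ x.length * (1 / 2) ^ (lev v + 1) * chi (lev v) s)))
    (fun v => by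
      have := measurable_chi (lev v)
      fun_prop)]
  rw [sub_eq_add_neg, Real.exp_add]
  refine mul_le_mul_of_nonneg_left ?_ (Real.exp_pos _).le
  have h2 : ∏ v ∈ FF (n - x.length) x,
      ∫ s, Real.exp (-(2 ^ x.length * (1 / 2) ^ (lev v + 1) * chi (lev v) s)) ∂ν ≤
      ∏ v ∈ FF (n - x.length) x, Real.exp (-(γ x.length (lev v))) := by
    refine Finset.prod_le_prod ?_ ?_
    · intro v _
      exact integral_nonneg (fun s => (Real.exp_pos _).le)
    · intro v hv
      refine hγ x.length (lev v) ?_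
      exact (mem_FF hv).length_le
  refine h2.trans (le_of_eq ?_)
  rw [← Real.exp_sum, Finset.sum_neg_distrib]
  congr 2
  exact sum_FF_lev (γ x.length) _ x

end Pool.Agent.H96.Sand
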