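import Pool.Agent.H96.SandOdo

set_option autoImplicit false

namespace Pool.Agent.H96.Sand

/-- node of a vertex -/
def nodeOf : VT → List Bool
  | Sum.inl x => x
  | Sum.inr p => p.1

/-- level of a vertex -/
def lev (v : VT) : ℕ := (nodeOf v).length

lemma lev_inl (x : List Bool) : lev (Sum.inl x) = x.length := rfl

lemma lev_inr (p : Σ x : List Bool, Fin (rr x.length)) : lev (Sum.inr p) = p.1.length := rfl

/-- the vertices at node `x` -/
def clus (x : List Bool) : Finset VT := {Sum.inl x} ∪ Finset.univ.map (leafEmb x)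

lemma mem_clus {v : VT} {x : List Bool} (h : v ∈ clus x) : nodeOf v = x := by
  unfold clus at h
  rw [Finset.mem_union] at h
  rcases h with h | h
  · rw [Finset.mem_singleton] at h
    rw [h]; rfl
  · rw [Finset.mem_map] at h
    obtain ⟨i, _, rfl⟩ := h
    rfl

lemma sum_clus (f : VT → ℝ) (x : List Bool) :
    ∑ v ∈ clus x, f v = f (Sum.inl x) + ∑ i : Fin (rr x.length), f (Sum.inr ⟨x, i⟩) := by
  unfold clus
  rw [Finset.sum_union]
  · rw [Finset.sum_singleton, Finset.sum_map]
    rfl
  · rw [Finset.disjoint_left]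
    intro a ha hb
    rw [Finset.mem_singleton] at ha
    rw [Finset.mem_map] at hb
    obtain ⟨i, _, rfl⟩ := hb
    simp [leafEmb] at ha

/-- vertices below `x` of depth less than `m` -/
def FF : ℕ → List Bool → Finset VT
  | 0, _ => ∅
  | (m + 1), x => clus x ∪ (FF m (true :: x) ∪ FF m (false :: x))

lemma mem_FF {m : ℕ} : ∀ {x : List Bool} {v : VT}, v ∈ FF m x → x <:+ nodeOf v := by
  induction m with
  | zero => intro x v h; simp [FF] at h
  | succ m ih =>
    intro x v h
    rw [FF, Finset.mem_union, Finset.mem_union] at h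
    rcases h with h | h | h
    · rw [mem_clus h]
    · exact (List.suffix_cons true x).trans (ih h)
    · exact (List.suffix_cons false x).trans (ih h)

lemma sum_FF_succ (f : VT → ℝ) (m : ℕ) (x : List Bool) :
    ∑ v ∈ FF (m + 1) x, f v = ∑ v ∈ clus x, f v +
      (∑ v ∈ FF m (true :: x), f v + ∑ v ∈ FF m (false :: x), f v) := by
  rw [FF, Finset.sum_union, Finset.sum_union]
  · rw [Finset.disjoint_left]
    intro a ha hb
    have h1 := mem_FF ha
    have h2 := mem_FF hb
    have h3 := List.suffix_of_suffix_length_le h1 h2 (by simp)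
    have h4 := h3.eq_of_length (by simp)
    simp at h4
  · rw [Finset.disjoint_left]
    intro a ha hb
    have h0 := mem_clus ha
    rw [Finset.mem_union] at hb
    rcases hb with hb | hb
    · have h1 := (mem_FF hb).length_le
      rw [h0] at h1
      simp at h1
    · have h1 := (mem_FF hb).length_le
      rw [h0] at h1
      simp at h1

lemma sum_clus_lev (f : ℕ → ℝ) (x : List Bool) :
    ∑ v ∈ clus x, f (lev v) = nn x.length * f x.length := by
  rw [sum_clus]
  simp [lev, nodeOf, nn]
  ring

lemma sum_FF_lev (f : ℕ → ℝ) (m : ℕ) : ∀ x : List Bool,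
    ∑ v ∈ FF m x, f (lev v) =
      ∑ i ∈ Finset.range m, 2 ^ i * (nn (x.length + i) * f (x.length + i)) := by
  induction m with
  | zero => intro x; simp [FF]
  | succ m ih =>
    intro x
    rw [sum_FF_succ, sum_clus_lev, ih, ih, Finset.sum_range_succ']
    simp only [List.length_cons, pow_zero, one_mul, add_zero]
    rw [← two_mul, Finset.mul_sum, add_comm]
    congr 1
    refine Finset.sum_congr rfl ?_
    intro i _
    rw [show x.length + 1 + i = x.length + (i + 1) by ring]
    ring

/-- truncation at level `j` -/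
noncomputable def chi (j : ℕ) (s : ℝ) : ℝ := if 0 ≤ s ∧ s ≤ 2 ^ j then s else 0

lemma chi_nonneg (j : ℕ) (s : ℝ) : 0 ≤ chi j s := by
  unfold chi
  split_ifs with h
  · exact h.1
  · exact le_rfl

lemma chi_le (j : ℕ) (s : ℝ) : chi j s ≤ 2 ^ j := by
  unfold chi
  split_ifs with h
  · exact h.2
  · positivity

lemma chi_of_good {j : ℕ} {s : ℝ} (h : 0 ≤ s ∧ s ≤ 2 ^ j) : chi j s = s := by
  unfold chi
  rw [if_pos h]

lemma measurable_chi (j : ℕ) : Measurable (chi j) := by
  unfold chi
  refine Measurable.ite ?_ measurable_id measurable_const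
  exact measurableSet_Icc

/-- the weighted sum of truncated masses below `x` up to depth `m` -/
noncomputable def WW (m : ℕ) (x : List Bool) (σ : VT → ℝ) : ℝ :=
  2 ^ x.length * ∑ v ∈ FF m x, (1 / 2) ^ (lev v + 1) * chi (lev v) (σ v)

lemma WW_zero (x : List Bool) (σ : VT → ℝ) : WW 0 x σ = 0 := by
  simp [WW, FF]

lemma WW_nonneg (m : ℕ) (x : List Bool) (σ : VT → ℝ) : 0 ≤ WW m x σ := by
  unfold WW
  refine mul_nonneg (by positivity) (Finset.sum_nonneg fun v _ => ?_)
  exact mul_nonneg (by positivity) (chi_nonneg _ _)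

lemma WW_succ (m : ℕ) (x : List Bool) (σ : VT → ℝ) :
    WW (m + 1) x σ = ((chi x.length (σ (Sum.inl x)) +
      ∑ i : Fin (rr x.length), chi x.length (σ (Sum.inr ⟨x, i⟩)))
        + WW m (true :: x) σ + WW m (false :: x) σ) / 2 := by
  unfold WW
  rw [sum_FF_succ, sum_clus]
  simp only [lev_inl, lev_inr, List.length_cons]
  rw [← Finset.mul_sum]
  have : (2 : ℝ) ^ x.length * (1 / 2) ^ (x.length + 1) = 1 / 2 := by
    rw [pow_succ, ← mul_assoc, ← mul_pow]
    norm_num
  generalize (∑ v ∈ FF m (true :: x), (1 / 2 : ℝ) ^ (lev v + 1) * chi (lev v) (σ v)) = A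
  generalize (∑ v ∈ FF m (false :: x), (1 / 2 : ℝ) ^ (lev v + 1) * chi (lev v) (σ v)) = B
  generalize (∑ i : Fin (rr x.length), chi x.length (σ (Sum.inr ⟨x, i⟩))) = C
  have e : (2 : ℝ) ^ x.length * ((1 / 2) ^ (x.length + 1) * chi x.length (σ (Sum.inl x)) +
      (1 / 2) ^ (x.length + 1) * C + (A + B)) =
      (2 ^ x.length * (1 / 2) ^ (x.length + 1)) * (chi x.length (σ (Sum.inl x)) + C)
        + 2 ^ x.length * (A + B) := by ring
  rw [e, this, pow_succ]
  ring

/-- the deterministic part of the supersolution; `mm j` is the mean of the mass truncated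
at level `j` -/
noncomputable def hh (mm : ℕ → ℝ) (n k : ℕ) : ℝ :=
  (1 / 2) * (∑ j ∈ Finset.range k, (nn j : ℝ)) -
    (1 / 2) * ∑ j ∈ Finset.range n, (nn j : ℝ) * mm j

/-- main part of the supersolution -/
noncomputable def w0 (mm : ℕ → ℝ) (n : ℕ) (x : List Bool) (σ : VT → ℝ) : ℝ :=
  hh mm n x.length + WW (n - x.length) x σ

/-- correction making the supersolution at least one -/
noncomputable def CC (mm : ℕ → ℝ) (n : ℕ) : ℕ → List Bool → (VT → ℝ) → ℝ
  | 0, x, σ => Real.exp (-(w0 mm n x σ))
  | (m + 1), x, σ => Real.exp (-(w0 mm n x σ)) +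
      (CC mm n m (true :: x) σ + CC mm n m (false :: x) σ) / 2

lemma CC_nonneg (mm : ℕ → ℝ) (n m : ℕ) (σ : VT → ℝ) : ∀ x, 0 ≤ CC mm n m x σ := by
  induction m with
  | zero => intro x; simp only [CC]; positivity
  | succ m ih =>
    intro x
    simp only [CC]
    have h1 := ih (true :: x)
    have h2 := ih (false :: x)
    positivity

lemma CC_ge (mm : ℕ → ℝ) (n m : ℕ) (σ : VT → ℝ) (x : List Bool) :
    Real.exp (-(w0 mm n x σ)) ≤ CC mm n m x σ := by
  cases m with
  | zero => simp [CC]
  | succ m =>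
    simp only [CC]
    have h1 := CC_nonneg mm n m σ (true :: x)
    have h2 := CC_nonneg mm n m σ (false :: x)
    linarith

lemma one_le_w0_add_CC (mm : ℕ → ℝ) (n m : ℕ) (σ : VT → ℝ) (x : List Bool) :
    1 ≤ w0 mm n x σ + CC mm n m x σ := by
  have h1 := Real.add_one_le_exp (-(w0 mm n x σ))
  have h2 := CC_ge mm n m σ x
  linarith

lemma xiHat_of_good (σ : VT → ℝ) (x : List Bool)
    (hg : ∀ v ∈ clus x, 0 ≤ σ v ∧ σ v ≤ 2 ^ (lev v)) :
    xiHat σ x = (chi x.length (σ (Sum.inl x)) +
      ∑ i : Fin (rr x.length), chi x.length (σ (Sum.inr ⟨x, i⟩))) - nn x.length := by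
  have h1 : chi x.length (σ (Sum.inl x)) = σ (Sum.inl x) := by
    refine chi_of_good (hg _ ?_)
    simp [clus]
  have h2 : ∀ i : Fin (rr x.length), chi x.length (σ (Sum.inr ⟨x, i⟩)) = σ (Sum.inr ⟨x, i⟩) := by
    intro i
    refine chi_of_good (hg _ ?_)
    simp only [clus, Finset.mem_union, Finset.mem_map]
    exact Or.inr ⟨i, Finset.mem_univ _, rfl⟩
  rw [h1]
  simp_rw [h2]
  unfold xiHat
  rw [Finset.sum_sub_distrib]
  simp [nn]
  ring

/-- On the good event the explicit supersolution dominates the minimal solution. -/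
lemma wl_le_super (mm : ℕ → ℝ) (n : ℕ) (σ : VT → ℝ) (m : ℕ) : ∀ x : List Bool,
    x.length + m = n → (∀ v ∈ FF m x, 0 ≤ σ v ∧ σ v ≤ 2 ^ (lev v)) →
    wl σ m x ≤ w0 mm n x σ + CC mm n m x σ := by
  induction m with
  | zero =>
    intro x _ _
    exact one_le_w0_add_CC mm n 0 σ x
  | succ m ih =>
    intro x hx hg
    show max 1 ((xiHat σ x + wl σ m (true :: x) + wl σ m (false :: x)) / 2) ≤ _
    refine max_le (one_le_w0_add_CC mm n (m + 1) σ x) ?_
    have ht := ih (true :: x) (by simp only [List.length_cons]; omega) (fun v hv => hg v (by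
      rw [FF, Finset.mem_union, Finset.mem_union]; exact Or.inr (Or.inl hv)))
    have hf := ih (false :: x) (by simp only [List.length_cons]; omega) (fun v hv => hg v (by
      rw [FF, Finset.mem_union, Finset.mem_union]; exact Or.inr (Or.inr hv)))
    have hc := xiHat_of_good σ x (fun v hv => hg v (by
      rw [FF, Finset.mem_union]; exact Or.inl hv))
    have hW := WW_succ m x σ
    have e1 : n - x.length = m + 1 := by omega
    have e2 : n - (true :: x).length = m := by simp only [List.length_cons]; omega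
    have e3 : n - (false :: x).length = m := by simp only [List.length_cons]; omega
    have hh1 : hh mm n (x.length + 1) = hh mm n x.length + (nn x.length : ℝ) / 2 := by
      unfold hh
      rw [Finset.sum_range_succ]
      ring
    simp only [CC]
    unfold w0 at ht hf ⊢
    rw [e2] at ht
    rw [e3] at hf
    rw [e1, hW]
    simp only [List.length_cons] at ht hf
    rw [hh1] at ht hf
    rw [hc]
    have hpos := Real.exp_pos (-(hh mm n x.length + (chi x.length (σ (Sum.inl x)) +
      ∑ i : Fin (rr x.length), chi x.length (σ (Sum.inr ⟨x, i⟩)) +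
      WW m (true :: x) σ + WW m (false :: x) σ) / 2))
    linarith

end Pool.Agent.H96.Sand
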