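import Mathlib

set_option autoImplicit false

namespace Pool.Agent.H96.Sand

/-- number of pendant leaves at a node of level `k` (it is `0` or `1`) -/
def rr (k : ℕ) : ℕ := Nat.sqrt (k + 1) - Nat.sqrt k

lemma rr_le_one (k : ℕ) : rr k ≤ 1 := by
  have := Nat.sqrt_succ_le_succ_sqrt k
  unfold rr
  simp only [Nat.succ_eq_add_one] at this
  omega

/-- number of vertices at a node of level `k` -/
def nn (k : ℕ) : ℕ := 1 + rr k

lemma sum_nn (k : ℕ) : ∑ j ∈ Finset.range k, nn j = k + Nat.sqrt k := by
  induction k with
  | zero => simp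
  | succ k ih =>
    rw [Finset.sum_range_succ, ih]
    have : Nat.sqrt k ≤ Nat.sqrt (k+1) := Nat.sqrt_le_sqrt (Nat.le_succ k)
    unfold nn rr
    omega

/-- the vertex set: nodes of the binary tree, and pendant leaves -/
abbrev VT : Type := List Bool ⊕ (Σ x : List Bool, Fin (rr x.length))

/-- adjacency -/
def adjT : VT → VT → Prop
  | Sum.inl x, Sum.inl y => (∃ b, y = b :: x) ∨ (∃ b, x = b :: y)
  | Sum.inl x, Sum.inr p => p.1 = x
  | Sum.inr p, Sum.inl x => p.1 = x
  | Sum.inr _, Sum.inr _ => False

/-- the tree with pendant leaves -/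
def GT : SimpleGraph VT where
  Adj := adjT
  symm := ⟨by
    rintro (x | p) (y | q) h
    · exact h.symm
    · exact h
    · exact h
    · exact h⟩
  loopless := ⟨by
    rintro (x | p) h
    · rcases h with ⟨b, hb⟩ | ⟨b, hb⟩
      · have := congrArg List.length hb
        simp at this
      · have := congrArg List.length hb
        simp at this
    · exact h⟩

/-- the leaf embedding -/
def leafEmb (x : List Bool) : Fin (rr x.length) ↪ VT :=
  ⟨fun i => Sum.inr ⟨x, i⟩, by
    intro i j h
    simpa using h⟩

/-- the neighbours as a finset -/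
def nbT : VT → Finset VT
  | Sum.inl x => ({Sum.inl (true :: x), Sum.inl (false :: x)} ∪
      (match x with
        | [] => ∅
        | (_ :: y) => {Sum.inl y})) ∪ Finset.univ.map (leafEmb x)
  | Sum.inr p => {Sum.inl p.1}

lemma mem_nbT (v w : VT) : w ∈ nbT v ↔ GT.Adj v w := by
  rcases v with x | p <;> rcases w with y | q
  · cases x with
    | nil =>
      simp only [nbT, GT, adjT, leafEmb]
      simp
      tauto
    | cons b x =>
      simp only [nbT, GT, adjT, leafEmb]
      simp
      tauto
  · obtain ⟨q1, q2⟩ := q
    have key : (Sum.inr ⟨q1, q2⟩ : VT) ∈ nbT (Sum.inl x) ↔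
        (Sum.inr ⟨q1, q2⟩ : VT) ∈ Finset.univ.map (leafEmb x) := by
      cases x <;> simp [nbT]
    rw [key, Finset.mem_map]
    constructor
    · rintro ⟨i, _, hi⟩
      have h2 := Sum.inr.inj hi
      have h3 : x = q1 := congrArg Sigma.fst h2
      exact h3.symm
    · intro h
      have h3 : q1 = x := h
      subst h3
      exact ⟨q2, Finset.mem_univ _, rfl⟩
  · simp only [nbT, GT, adjT]
    simp [eq_comm]
  · simp only [nbT, GT, adjT]
    simp

instance : GT.LocallyFinite := fun v => Fintype.ofFinset (nbT v) (by
  intro w
  rw [mem_nbT]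
  rfl)

lemma neighborFinset_GT (v : VT) : GT.neighborFinset v = nbT v := by
  ext w
  rw [SimpleGraph.mem_neighborFinset, mem_nbT]

/-- the contribution of the parent -/
def parSum (f : VT → ℝ) : List Bool → ℝ
  | [] => 0
  | (_ :: y) => f (Sum.inl y)

lemma sum_nb_node (f : VT → ℝ) (x : List Bool) :
    ∑ v ∈ GT.neighborFinset (Sum.inl x), f v =
      f (Sum.inl (true :: x)) + f (Sum.inl (false :: x)) + parSum f x
        + ∑ i : Fin (rr x.length), f (Sum.inr ⟨x, i⟩) := by
  rw [neighborFinset_GT]
  unfold nbT
  rw [Finset.sum_union]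
  · congr 1
    · rw [Finset.sum_union]
      · congr 1
        · rw [Finset.sum_pair (by simp)]
        · cases x <;> simp [parSum]
      · cases x with
        | nil => simp
        | cons b y =>
          simp only [Finset.disjoint_singleton_right, Finset.mem_insert, Finset.mem_singleton,
            Sum.inl.injEq]
          intro h
          rcases h with h | h <;>
          · have := congrArg List.length h
            simp at this
            omega
    · rw [Finset.sum_map]
      rfl
  · rw [Finset.disjoint_left]
    intro a ha hb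
    rw [Finset.mem_map] at hb
    obtain ⟨i, _, rfl⟩ := hb
    cases x <;> simp [leafEmb] at ha

lemma sum_nb_leaf (f : VT → ℝ) (p : Σ x : List Bool, Fin (rr x.length)) :
    ∑ v ∈ GT.neighborFinset (Sum.inr p), f v = f (Sum.inl p.1) := by
  rw [neighborFinset_GT]
  simp [nbT]

lemma degree_eq_sum (v : VT) : (GT.degree v : ℝ) = ∑ _w ∈ GT.neighborFinset v, (1 : ℝ) := by
  simp

lemma degree_node (x : List Bool) :
    (GT.degree (Sum.inl x) : ℝ) = 2 + parSum (fun _ => 1) x + rr x.length := by
  rw [degree_eq_sum, sum_nb_node]
  simp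
  ring

lemma degree_leaf (p : Σ x : List Bool, Fin (rr x.length)) :
    (GT.degree (Sum.inr p) : ℝ) = 1 := by
  rw [degree_eq_sum, sum_nb_leaf]

lemma parSum_one_le (x : List Bool) : parSum (fun _ => 1) x ≤ 1 := by
  cases x <;> simp [parSum]

lemma parSum_one_nonneg (x : List Bool) : 0 ≤ parSum (fun _ => 1) x := by
  cases x <;> simp [parSum]

lemma degree_le (v : VT) : GT.degree v ≤ 4 := by
  have : (GT.degree v : ℝ) ≤ 4 := by
    rcases v with x | p
    · rw [degree_node]
      have h1 := parSum_one_le x
      have h2 : (rr x.length : ℝ) ≤ 1 := by exact_mod_cast rr_le_one _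
      linarith
    · rw [degree_leaf]
      norm_num
  exact_mod_cast this

lemma degree_pos (v : VT) : (0 : ℝ) < GT.degree v := by
  rcases v with x | p
  · rw [degree_node]
    have h1 := parSum_one_nonneg x
    positivity
  · rw [degree_leaf]
    norm_num

lemma reach_root (v : VT) : GT.Reachable v (Sum.inl []) := by
  have key : ∀ x : List Bool, GT.Reachable (Sum.inl x) (Sum.inl []) := by
    intro x
    induction x with
    | nil => exact SimpleGraph.Reachable.refl _
    | cons b x ih =>
      refine SimpleGraph.Reachable.trans (SimpleGraph.Adj.reachable ?_) ih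
      exact Or.inr ⟨b, rfl⟩
  rcases v with x | p
  · exact key x
  · refine SimpleGraph.Reachable.trans (SimpleGraph.Adj.reachable ?_) (key p.1)
    show p.1 = p.1
    rfl

lemma connected_GT : GT.Connected := by
  have : Nonempty VT := ⟨Sum.inl []⟩
  constructor
  intro v w
  exact (reach_root v).trans (reach_root w).symm

instance : Infinite VT := by
  have : Infinite (List Bool) := inferInstance
  exact Sum.infinite_of_left

end Pool.Agent.H96.Sand
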